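import Pool.Agent.H73.ZP.Af

/-!
ROW Ag.  Infinite families.

* `cpt`: `L ⊆ V` compact, `X ⊆ V` any set; if every finite subset of `X` is covered by three translates of `L`, so is `X`.
 PROOF.  In the compact space `Fin 3 → OnePoint V` the sets `C x = {p | ∃ k, p k ∈ (fun y => ((x - y : V) : OnePoint V)) '' L}`
 (`x ∈ X`) are closed (the image of a compact set is compact, hence closed; a finite union of
 preimages under the coordinates) and have the finite intersection property (cast a cover `p : Fin 3 → V`); so there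
 is a common point (`IsCompact.inter_iInter_nonempty` / `CompactSpace.iInter_nonempty`), and
 we replace the coordinates equal to `∞` by `0`.
* `Ag`: if neither conclusion holds, there are finite `F ⊆ A₀`, `G ⊆ B₀` which are not covered (`cpt`), where
 `A₀ = {a ∈ A | supporting direction}`; `Af` for `F`, `G` (a supporting direction for `A` is one for `F`) is a
 contradiction.
-/

open Real

namespace ZP

theorem cpt (L : Set V) (hL : IsCompact L) (X : Set V)
    (h : ∀ F : Finset V, (F : Set V) ⊆ X → ∃ p : Fin 3 → V, ∀ a ∈ F, ∃ k, a - p k ∈ L) :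
    ∃ p : Fin 3 → V, ∀ a ∈ X, ∃ k, a - p k ∈ L := by
  classical
  have hcl : ∀ x : V, IsClosed ((fun y : V => ((x - y : V) : OnePoint V)) '' L) := by
    intro x
    refine (hL.image ?_).isClosed
    exact OnePoint.continuous_coe.comp (continuous_const.sub continuous_id)
  have hS : ∀ x : X, IsClosed {q : Fin 3 → OnePoint V |
      ∃ k, q k ∈ (fun y : V => (((x : V) - y : V) : OnePoint V)) '' L} := by
    intro x
    have he : {q : Fin 3 → OnePoint V |
        ∃ k, q k ∈ (fun y : V => (((x : V) - y : V) : OnePoint V)) '' L} =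
        ⋃ k : Fin 3, (fun q : Fin 3 → OnePoint V => q k) ⁻¹'
          ((fun y : V => (((x : V) - y : V) : OnePoint V)) '' L) := by
      ext q
      simp only [Set.mem_ofPred_eq, Set.mem_iUnion, Set.mem_preimage]
    rw [he]
    exact isClosed_iUnion_of_finite fun k => (hcl x).preimage (continuous_apply k)
  have hfin : ∀ s : Finset X, (⋂ x ∈ s, {q : Fin 3 → OnePoint V |
      ∃ k, q k ∈ (fun y : V => (((x : V) - y : V) : OnePoint V)) '' L}).Nonempty := by
    intro s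
    obtain ⟨p, hp⟩ := h (s.image Subtype.val) (by
      intro a ha
      rw [Finset.mem_coe, Finset.mem_image] at ha
      obtain ⟨b, -, rfl⟩ := ha
      exact b.2)
    refine ⟨fun k => ((p k : V) : OnePoint V), ?_⟩
    rw [Set.mem_iInter₂]
    intro x hx
    obtain ⟨k, hk⟩ := hp x (Finset.mem_image.mpr ⟨x, hx, rfl⟩)
    refine ⟨k, (x : V) - p k, hk, ?_⟩
    change (((x : V) - ((x : V) - p k) : V) : OnePoint V) = ((p k : V) : OnePoint V)
    rw [sub_sub_cancel]
  obtain ⟨q, hq⟩ := CompactSpace.iInter_nonempty hS hfin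
  have hp : ∀ k : Fin 3, ∃ pk : V, ∀ v : V, q k = (v : OnePoint V) → pk = v := by
    intro k
    by_cases hk : q k = OnePoint.infty
    · refine ⟨0, fun v hv => ?_⟩
      rw [hk] at hv
      exact absurd hv.symm (OnePoint.coe_ne_infty v)
    · obtain ⟨w, hw⟩ := OnePoint.ne_infty_iff_exists.mp hk
      refine ⟨w, fun v hv => ?_⟩
      rw [← hw] at hv
      exact OnePoint.coe_injective hv
  choose p hp using hp
  refine ⟨p, fun a ha => ?_⟩
  obtain ⟨k, y, hy, hyk⟩ := Set.mem_iInter.mp hq ⟨a, ha⟩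
  refine ⟨k, ?_⟩
  have h1 : p k = a - y := hp k (a - y) hyk.symm
  rw [h1, sub_sub_cancel]
  exact hy

theorem Ag (L : Set V) (hL : IsCompact L) (hLc : Convex ℝ L) (hLne : L.Nonempty)
    (A B : Set V) (hAB : ∀ a ∈ A, ∀ b ∈ B, ∃ y ∈ L, ∃ z ∈ L, a - b = y - z) :
    (∃ p : Fin 3 → V, ∀ a ∈ A, (∃ θ, ∀ x ∈ A, dt (uu θ) x ≤ dt (uu θ) a) → ∃ k, a - p k ∈ L) ∨
    (∃ p : Fin 3 → V, ∀ b ∈ B, (∃ θ, ∀ x ∈ B, dt (uu θ) x ≤ dt (uu θ) b) →
      ∃ k, b - p k ∈ L) := by
  classical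
  have key : ∀ D : Set V, ¬ (∃ p : Fin 3 → V, ∀ a ∈ D,
      (∃ θ, ∀ x ∈ D, dt (uu θ) x ≤ dt (uu θ) a) → ∃ k, a - p k ∈ L) →
      ∃ F : Finset V, (F : Set V) ⊆ D ∧ (∀ a ∈ F, ∃ θ, ∀ x ∈ F, dt (uu θ) x ≤ dt (uu θ) a) ∧
        ¬ ∃ p : Fin 3 → V, ∀ a ∈ F, ∃ k, a - p k ∈ L := by
    intro D hD
    by_contra hcon
    apply hD
    obtain ⟨p, hp⟩ := cpt L hL {a | a ∈ D ∧ ∃ θ, ∀ x ∈ D, dt (uu θ) x ≤ dt (uu θ) a} (by
      intro F hF
      by_contra hF2
      refine hcon ⟨F, fun a ha => (hF ha).1, fun a ha => ?_, hF2⟩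
      obtain ⟨-, θ, hθ⟩ := hF (Finset.mem_coe.mpr ha)
      exact ⟨θ, fun x hx => hθ x (hF (Finset.mem_coe.mpr hx)).1⟩)
    exact ⟨p, fun a ha hθ => hp a ⟨ha, hθ⟩⟩
  by_contra hcon
  rw [not_or] at hcon
  obtain ⟨F, hF1, hF2, hF3⟩ := key A hcon.1
  obtain ⟨G, hG1, hG2, hG3⟩ := key B hcon.2
  rcases Af L hL hLc hLne F G (fun a ha b hb => hAB a (hF1 (Finset.mem_coe.mpr ha)) b
    (hG1 (Finset.mem_coe.mpr hb))) hF2 hG2 with h | h
  · exact hF3 h
  · exact hG3 h

end ZP
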