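import Pool.Agent.H73.ZP.Bda

/-!
ROW Bdb.  Points of the boundary curve.

* `uniq`: if `x` is in the body and `dt (uu θ) x = dt (uu θ) (l θ)` then `x = l θ`.
  PROOF.  `x - l θ = c • tt θ` with `c = dt (tt θ) (x - l θ)`.  For every `ε`
  `c * sin ε = dt (uu (θ + ε)) (x - l θ) ≤ dt (uu (θ + ε)) (l (θ + ε) - l θ)
   = dt (uu (θ + ε) - uu θ) (l (θ + ε) - l θ) + dt (uu θ) (l (θ + ε) - l θ)
   ≤ 2 |ε| ‖l (θ + ε) - l θ‖` (`supp`, and `‖uu (θ + ε) - uu θ‖ ≤ |ε|`).
  As `l` is continuous, `|c| * |sin ε| / |ε|` tends to `0` along `ε` with `c * ε > 0`; so `c = 0`.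
* `hit`: a continuous path from a point of the body to a point which is not in the interior
  meets the curve (at a point of the body).
  PROOF.  The set `A` of the `s ∈ [a, b]` with `γ s ∈ body l` is closed.  The set `B` of the
  `s ∈ [a, b]` with `∃ θ ∈ [0, 2 π], dt (uu θ) (l θ) ≤ dt (uu θ) (γ s)` is closed (projection of a
  compact set).  `A ∪ B = [a, b]`, `a ∈ A`, `b ∈ B`, `[a, b]` is preconnected, so there
  is `s ∈ A ∩ B`; apply `uniq`.
-/

open Real

namespace ZP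

/-- `uu` is `1`-Lipschitz -/
theorem Bdb_lip (a b : ℝ) : ‖uu a - uu b‖ ≤ |a - b| := by
  rw [Prod.norm_def]
  exact max_le (Real.abs_cos_sub_cos_le a b) (Real.abs_sin_sub_sin_le a b)

/-- `uu` is continuous -/
theorem Bdb_cont : Continuous uu :=
  Real.continuous_cos.prodMk Real.continuous_sin

/-- `dt` of continuous maps is continuous -/
theorem Bdb_dt {X : Type*} [TopologicalSpace X] {f g : X → V} (hf : Continuous f)
    (hg : Continuous g) : Continuous (fun x => dt (f x) (g x)) := by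
  unfold dt
  exact ((continuous_fst.comp hf).mul (continuous_fst.comp hg)).add
    ((continuous_snd.comp hf).mul (continuous_snd.comp hg))

theorem uniq {l : ℝ → V} (h : Bd l) {x : V} (hx : x ∈ body l) {θ : ℝ}
    (he : dt (uu θ) (l θ) ≤ dt (uu θ) x) : x = l θ := by
  have he' : dt (uu θ) (x - l θ) = 0 := by
    rw [dt_sub, le_antisymm (hx θ) he, sub_self]
  have hcs : Real.cos θ ^ 2 + Real.sin θ ^ 2 = 1 := Real.cos_sq_add_sin_sq θ
  set c : ℝ := dt (tt θ) (x - l θ) with hc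
  have hval : ∀ ε : ℝ, dt (uu (θ + ε)) (x - l θ) = c * Real.sin ε := by
    intro ε
    have h1 : dt (uu (θ + ε)) (x - l θ) =
        Real.cos ε * dt (uu θ) (x - l θ) + Real.sin ε * dt (tt θ) (x - l θ) := by
      unfold dt uu tt
      dsimp only
      rw [Real.cos_add, Real.sin_add]
      ring
    rw [h1, he', ← hc]
    ring
  have hle : ∀ ε : ℝ, c * Real.sin ε ≤ 2 * |ε| * ‖l (θ + ε) - l θ‖ := by
    intro ε
    have h1 : dt (uu (θ + ε)) (x - l θ) ≤ dt (uu (θ + ε)) (l (θ + ε) - l θ) := by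
      rw [dt_sub, dt_sub]
      have := hx (θ + ε)
      linarith
    have h2 : dt (uu (θ + ε)) (l (θ + ε) - l θ) =
        dt (uu (θ + ε) - uu θ) (l (θ + ε) - l θ) + dt (uu θ) (l (θ + ε) - l θ) := by
      rw [sub_dt]
      ring
    have h3 : dt (uu θ) (l (θ + ε) - l θ) ≤ 0 := by
      rw [dt_sub]
      have := h.supp θ (θ + ε)
      linarith
    have h4 := (abs_le.1 (dt_le (uu (θ + ε) - uu θ) (l (θ + ε) - l θ))).2
    have h5 : ‖uu (θ + ε) - uu θ‖ ≤ |ε| := by
      have := Bdb_lip (θ + ε) θ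
      rwa [add_sub_cancel_left] at this
    have h6 : 2 * ‖uu (θ + ε) - uu θ‖ * ‖l (θ + ε) - l θ‖ ≤ 2 * |ε| * ‖l (θ + ε) - l θ‖ :=
      mul_le_mul_of_nonneg_right (by linarith) (norm_nonneg _)
    have h7 := hval ε
    linarith
  have hc0 : c = 0 := by
    by_contra hne
    have hcpos : 0 < |c| := abs_pos.2 hne
    have hcont : ContinuousAt l θ := h.cont.continuousAt
    obtain ⟨δ, hδ, hδ'⟩ := Metric.continuousAt_iff.1 hcont (|c| / 8) (by positivity)
    set e : ℝ := min (δ / 2) 1 with he1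
    have he0 : 0 < e := lt_min (by positivity) one_pos
    have heδ : e < δ := (min_le_left _ _).trans_lt (by linarith)
    have he1' : e ≤ 1 := min_le_right _ _
    have hsin : e / 2 ≤ Real.sin e := by
      have h1 := Real.mul_le_sin he0.le (he1'.trans (by linarith [Real.pi_gt_three]))
      have h2 : (1 : ℝ) / 2 ≤ 2 / π := by
        rw [div_le_div_iff₀ (by norm_num) Real.pi_pos]
        linarith [Real.pi_le_four]
      have h3 : e / 2 = 1 / 2 * e := by ring
      rw [h3]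
      exact (mul_le_mul_of_nonneg_right h2 he0.le).trans h1
    have key : ∀ ε : ℝ, |ε| = e → c * Real.sin ε = |c| * Real.sin e → False := by
      intro ε hε hs
      have h1 : ‖l (θ + ε) - l θ‖ < |c| / 8 := by
        rw [← dist_eq_norm]
        apply hδ'
        rw [Real.dist_eq, add_sub_cancel_left, hε]
        exact heδ
      have h2 := hle ε
      rw [hs, hε] at h2
      have h3 : 2 * e * ‖l (θ + ε) - l θ‖ ≤ 2 * e * (|c| / 8) :=
        mul_le_mul_of_nonneg_left h1.le (by positivity)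
      have h4 : |c| * (e / 2) ≤ |c| * Real.sin e := mul_le_mul_of_nonneg_left hsin hcpos.le
      have h5 : 0 < |c| * e := mul_pos hcpos he0
      linarith
    rcases lt_or_gt_of_ne hne with hneg | hpos
    · refine key (-e) (by rw [abs_neg, abs_of_pos he0]) ?_
      rw [Real.sin_neg, abs_of_neg hneg]
      ring
    · refine key e (abs_of_pos he0) ?_
      rw [abs_of_pos hpos]
  have h1 : (x - l θ).1 = Real.cos θ * dt (uu θ) (x - l θ) - Real.sin θ * dt (tt θ) (x - l θ) := by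
    unfold dt uu tt
    dsimp only
    linear_combination (-(x - l θ).1) * hcs
  have h2 : (x - l θ).2 = Real.sin θ * dt (uu θ) (x - l θ) + Real.cos θ * dt (tt θ) (x - l θ) := by
    unfold dt uu tt
    dsimp only
    linear_combination (-(x - l θ).2) * hcs
  rw [he', ← hc, hc0] at h1 h2
  have h3 : x - l θ = 0 := by
    apply Prod.ext
    · rw [h1]
      simp
    · rw [h2]
      simp
  exact sub_eq_zero.1 h3

theorem hit {l : ℝ → V} (h : Bd l) {γ : ℝ → V} (hγ : Continuous γ) {a b : ℝ} (hab : a ≤ b)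
    (ha : γ a ∈ body l) (hb : ∃ θ, dt (uu θ) (l θ) ≤ dt (uu θ) (γ b)) :
    ∃ s, a ≤ s ∧ s ≤ b ∧ ∃ θ, γ s = l θ := by
  have hred : ∀ (y : V) (θ : ℝ), ∃ φ ∈ Set.Icc (0 : ℝ) (2 * π),
      dt (uu θ) (l θ) - dt (uu θ) y = dt (uu φ) (l φ) - dt (uu φ) y := by
    intro y θ
    have hper : Function.Periodic (fun θ : ℝ => dt (uu θ) (l θ) - dt (uu θ) y) (2 * π) := by
      intro θ
      show dt (uu (θ + 2 * π)) (l (θ + 2 * π)) - dt (uu (θ + 2 * π)) y = _
      rw [uu_per, h.per]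
    obtain ⟨φ, hφ, hφ'⟩ := hper.exists_mem_Ico₀ (by positivity) θ
    exact ⟨φ, ⟨hφ.1, hφ.2.le⟩, hφ'⟩
  let A : Set ℝ := {s | γ s ∈ body l}
  let C : Set (Set.Icc (0 : ℝ) (2 * π) × ℝ) :=
    {q | dt (uu q.1) (l q.1) ≤ dt (uu q.1) (γ q.2)}
  let B : Set ℝ := Prod.snd '' C
  have hA : IsClosed A := by
    have h1 : A = ⋂ θ : ℝ, {s | dt (uu θ) (γ s) ≤ dt (uu θ) (l θ)} := by
      ext s
      rw [Set.mem_iInter]
      rfl
    rw [h1]
    exact isClosed_iInter fun θ => isClosed_le (Bdb_dt continuous_const hγ) continuous_const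
  have hC : IsClosed C := by
    have h1 : Continuous (fun q : Set.Icc (0 : ℝ) (2 * π) × ℝ => (q.1 : ℝ)) :=
      continuous_subtype_val.comp continuous_fst
    exact isClosed_le (Bdb_dt (Bdb_cont.comp h1) (h.cont.comp h1))
      (Bdb_dt (Bdb_cont.comp h1) (hγ.comp continuous_snd))
  have hB : IsClosed B := isClosedMap_snd_of_compactSpace C hC
  have hcov : Set.Icc a b ⊆ A ∪ B := by
    intro s _
    by_cases hs : γ s ∈ body l
    · exact Or.inl hs
    · right
      have hs' : ¬ ∀ θ, dt (uu θ) (γ s) ≤ dt (uu θ) (l θ) := hs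
      obtain ⟨θ, hθ⟩ := not_forall.1 hs'
      obtain ⟨φ, hφ, hφ'⟩ := hred (γ s) θ
      refine ⟨(⟨φ, hφ⟩, s), ?_, rfl⟩
      show dt (uu φ) (l φ) ≤ dt (uu φ) (γ s)
      have := not_le.1 hθ
      linarith
  have hBb : (Set.Icc a b ∩ B).Nonempty := by
    obtain ⟨θ, hθ⟩ := hb
    obtain ⟨φ, hφ, hφ'⟩ := hred (γ b) θ
    refine ⟨b, ⟨hab, le_rfl⟩, (⟨φ, hφ⟩, b), ?_, rfl⟩
    show dt (uu φ) (l φ) ≤ dt (uu φ) (γ b)
    linarith
  obtain ⟨s, hs, hsA, ⟨⟨φ, t⟩, hq, ht⟩⟩ := isPreconnected_closed_iff.1 isPreconnected_Icc A B hA hB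
    hcov ⟨a, ⟨le_rfl, hab⟩, ha⟩ hBb
  have ht' : t = s := ht
  subst ht'
  exact ⟨t, hs.1, hs.2, φ, uniq h hsA hq⟩

end ZP
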