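import Pool.Agent.H73.ZP.Bda

/-!
ROW Sb.  Monotonicity: the sums of `mx` over the edges of two curves `c₁`, `c₂` with
`c₁ + c₂` inside the body of `q` is at most the sum over the edges of `q`, up to `ε`.

`F` is a finite family of vectors (the 13 functionals `0`, `t i • P i`, `t i • Q i`), bounded by `C`, and
`G v = max_F dt (F k) v`.  Let `θ` be a grid, `e m = (c₁ + c₂) (θ (m + 1)) - (c₁ + c₂) (θ m)`.
PROOF.  Let `f m` be an element of the family with `dt (f m) (tt (θ m)) = G (tt (θ m))` (choose it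
periodic: `f m = f (m mod 6 M)`, `tt (θ (m + 6 M)) = tt (θ m)`).  Put `N m = f (m - 1) - f m`.
(1) `0 ≤ dt (N m) (tt (θ (m - 1)))` and `dt (N m) (tt (θ m)) ≤ 0`; so, with gap `< π`,
 `N m = x • uu (θ (m - 1)) + y • uu (θ m)`, `x, y ≥ 0`.  [Solve the linear system:
 `dt (N m) (tt (θ (m - 1))) = y sin (gap)`, `dt (N m) (tt (θ m)) = - x sin (gap)`.]  If the gap is `≤ π / 3`
 then `x + y ≤ 2 * dt (N m) (uu (θ m))`.
(2) `∑_{m < 6 M} dt (N m) (uu (θ m)) = ∑ dt (f m) (uu (θ (m + 1)) - uu (θ m)) ≤ 2 C * (sum of the gaps) = 4 π C`.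
 So `∑ (x m + y m) ≤ 8 π C`.
(3) Each edge `e' = c (θ (m + 1)) - c (θ m)` (`c = c₁` or `c₂`) is `a • tt (θ m) + b • tt (θ (m + 1))`, `a, b ≥ 0`
 (`cone`), hence `G e' ≤ a * dt (f m) (tt (θ m)) + b * dt (f (m + 1)) (tt (θ (m + 1)))
 ≤ dt (f m) e' + b * |dt (N (m + 1)) (tt (θ (m + 1)) - tt (θ m))|` [since
 `dt (f (m + 1) - f m) (tt (θ m)) ≤ 0`] `≤ dt (f m) e' + b * 2 (x (m+1) + y (m+1)) * gap`, and
 `b ≤ 4 ‖e'‖ ≤ 8 R` (gap `≤ π / 3`; `R` bounds the curves).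
(4) `∑ dt (f m) (e m) = ∑ dt (N m) (c m)` where `c m = c₁ (θ m) + c₂ (θ m)` (summation by parts,
 period `6 M`), and the same for `q`: `∑ dt (f m) (q (θ (m + 1)) - q (θ m)) = ∑ dt (N m) (q (θ m))`.
(5) `dt (N m) (c m) ≤ x * dt (uu (θ (m-1))) (q (θ (m-1))) + y * dt (uu (θ m)) (q (θ m))
  ≤ dt (N m) (q (θ m)) + 2 x ‖q (θ (m - 1)) - q (θ m)‖`, and `q` is uniformly continuous.
(6) `dt (f m) (q (θ (m + 1)) - q (θ m)) ≤ G (...)`.
All errors are `≤ const * C * (gap + modulus of continuity of q at the gap)`, uniform in the family.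
-/

open Real

namespace ZP

theorem Sb_uc {c : ℝ → V} (h : Bd c) {η : ℝ} (hη : 0 < η) :
    ∃ δ : ℝ, 0 < δ ∧ ∀ a b : ℝ, |a - b| ≤ δ → ‖c a - c b‖ ≤ η := by
  have hp : Function.Periodic c (2 * π) := h.per
  have hK := (isCompact_Icc (a := -π) (b := 3 * π)).uniformContinuousOn_of_continuous
    h.cont.continuousOn
  rw [Metric.uniformContinuousOn_iff] at hK
  obtain ⟨δ, hδ, hδ'⟩ := hK η hη
  have hpi := Real.pi_pos
  refine ⟨min (δ / 2) π, by positivity, fun a b hab => ?_⟩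
  obtain ⟨k, hk, -⟩ := existsUnique_sub_zsmul_mem_Ico (show 0 < 2 * π by positivity) a 0
  have h1 : |a - b| ≤ δ / 2 := hab.trans (min_le_left _ _)
  have h2 : |a - b| ≤ π := hab.trans (min_le_right _ _)
  have ha : c a = c (a - k • (2 * π)) := (hp.sub_zsmul_eq k).symm
  have hb : c b = c (b - k • (2 * π)) := (hp.sub_zsmul_eq k).symm
  obtain ⟨hk1, hk2⟩ := Set.mem_Ico.1 hk
  have h3 := abs_le.1 h2
  have h4 := hδ' (a - k • (2 * π)) (Set.mem_Icc.2 ⟨by linarith, by linarith⟩)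
    (b - k • (2 * π)) (Set.mem_Icc.2 ⟨by linarith, by linarith⟩) (by
      rw [Real.dist_eq, show a - k • (2 * π) - (b - k • (2 * π)) = a - b by ring]
      linarith)
  rw [ha, hb, ← dist_eq_norm]
  exact h4.le

theorem Sb_shift (g : ℤ → ℝ) (K : ℕ) (h : g K = g 0) :
    ∑ m ∈ Finset.range K, g ((m : ℤ) + 1) = ∑ m ∈ Finset.range K, g (m : ℤ) := by
  have h1 := Finset.sum_range_succ (fun m : ℕ => g (m : ℤ)) K
  have h2 := Finset.sum_range_succ' (fun m : ℕ => g (m : ℤ)) K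
  push_cast at h1 h2
  linarith

theorem Sb_parts (f c : ℤ → V) (K : ℕ) (hf : ∀ m, f (m + K) = f m) (hc : ∀ m, c (m + K) = c m) :
    ∑ m ∈ Finset.range K, dt (f m) (c ((m : ℤ) + 1) - c m) =
      ∑ m ∈ Finset.range K, dt (f ((m : ℤ) - 1) - f m) (c m) := by
  have h1 := Sb_shift (fun m => dt (f (m - 1)) (c m)) K (by
    have e1 : f ((K : ℤ) - 1) = f (0 - 1) := by
      rw [← hf (0 - 1)]
      congr 1 <;> ring
    have e2 : c (K : ℤ) = c 0 := by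
      rw [← hc 0]
      congr 1 <;> ring
    simp only [e1, e2])
  simp only [add_sub_cancel_right] at h1
  simp only [dt_sub, sub_dt, Finset.sum_sub_distrib]
  rw [h1]

theorem Sb_sum (g : ℤ → ℝ) (K : ℕ) : ∑ m ∈ Finset.range K, (g ((m : ℤ) + 1) - g (m : ℤ)) = g K - g 0 := by
  have h := Finset.sum_range_sub (fun m : ℕ => g (m : ℤ)) K
  push_cast at h
  exact h

theorem Sb_dec {a b : ℝ} (hab : a < b) (hb : b < a + π) {N : V} (h1 : 0 ≤ dt N (tt a))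
    (h2 : dt N (tt b) ≤ 0) : ∃ x y : ℝ, 0 ≤ x ∧ 0 ≤ y ∧ N = x • uu a + y • uu b ∧
      x + y = (dt N (tt a) - dt N (tt b)) / Real.sin (b - a) := by
  have hs : 0 < Real.sin (b - a) := Real.sin_pos_of_pos_of_lt_pi (by linarith) (by linarith)
  refine ⟨- dt N (tt b) / Real.sin (b - a), dt N (tt a) / Real.sin (b - a),
    div_nonneg (by linarith) hs.le, div_nonneg h1 hs.le, ?_, ?_⟩
  · have e : Real.sin (b - a) = Real.sin b * Real.cos a - Real.cos b * Real.sin a := Real.sin_sub _ _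
    have hs' := hs.ne'
    apply Prod.ext
    · simp only [dt, tt, uu, Prod.fst_add, Prod.smul_fst, smul_eq_mul]
      field_simp
      rw [e]
      ring
    · simp only [dt, tt, uu, Prod.snd_add, Prod.smul_snd, smul_eq_mul]
      field_simp
      rw [e]
      ring
  · rw [← add_div]
    congr 1 <;> ring

theorem Sb_uu (a b : ℝ) : ‖uu a - uu b‖ ≤ |a - b| := by
  unfold uu
  rw [Prod.norm_def]
  apply max_le
  · simp only [Prod.fst_sub, Real.norm_eq_abs]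
    have := Real.abs_cos_sub_cos_le a b
    exact this
  · simp only [Prod.snd_sub, Real.norm_eq_abs]
    exact Real.abs_sin_sub_sin_le a b

theorem Sb_uu1 (a : ℝ) : ‖uu a‖ ≤ 1 := by
  unfold uu
  rw [Prod.norm_def]
  exact max_le (Real.abs_cos_le_one a) (Real.abs_sin_le_one a)

/-- the error of one edge -/
theorem Sb_edge {c : ℝ → V} (h : Bd c) {ω φ ψ : ℝ} (hφ : φ < ψ) (hψ : ψ < φ + π)
    (hu : ‖c φ - c ψ‖ ≤ ω) {G : V → ℝ} {f f' : V} {x y : ℝ} (hx : 0 ≤ x) (hy : 0 ≤ y)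
    (hN : f - f' = x • uu φ + y • uu ψ)
    (hGf : G (tt φ) = dt f (tt φ)) (hGf' : G (tt ψ) = dt f' (tt ψ))
    (hG : ∀ v, ∃ k : V, G v = dt k v ∧ ∀ w, dt k w ≤ G w) :
    G (c ψ - c φ) ≤ dt f (c ψ - c φ) + 2 * ω * (x + y) := by
  obtain ⟨a, b, ha, hb, he⟩ := cone h hφ.le hψ
  obtain ⟨k, hk, hk'⟩ := hG (c ψ - c φ)
  have hs : 0 < Real.sin (ψ - φ) := Real.sin_pos_of_pos_of_lt_pi (by linarith) (by linarith)
  have h1 : G (c ψ - c φ) ≤ a * G (tt φ) + b * G (tt ψ) := by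
    rw [hk, he, dt_add, dt_smul, dt_smul]
    exact add_le_add (mul_le_mul_of_nonneg_left (hk' _) ha) (mul_le_mul_of_nonneg_left (hk' _) hb)
  have h2 : dt f (c ψ - c φ) = a * dt f (tt φ) + b * dt f (tt ψ) := by
    rw [he, dt_add, dt_smul, dt_smul]
  have h3 : dt f (tt ψ) - dt f' (tt ψ) = - (x * Real.sin (ψ - φ)) := by
    rw [← sub_dt, hN, add_dt, smul_dt, smul_dt, dt_uu_tt, dt_uu_tt, sub_self, Real.sin_zero, mul_zero,
      add_zero, ← neg_sub ψ φ, Real.sin_neg]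
    ring
  have h4 : b * Real.sin (ψ - φ) ≤ 2 * ω := by
    have e1 : dt (uu φ) (c ψ - c φ) = - (b * Real.sin (ψ - φ)) := by
      rw [he, dt_add, dt_smul, dt_smul, dt_uu_tt, dt_uu_tt, sub_self, Real.sin_zero, mul_zero,
        zero_add, ← neg_sub ψ φ, Real.sin_neg]
      ring
    have e2 := dt_le (uu φ) (c ψ - c φ)
    rw [norm_sub_rev] at hu
    have e3 : 2 * ‖uu φ‖ * ‖c ψ - c φ‖ ≤ 2 * 1 * ω :=
      mul_le_mul (mul_le_mul_of_nonneg_left (Sb_uu1 φ) (by norm_num)) hu (norm_nonneg _) (by norm_num)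
    have e4 := (abs_le.1 e2).1
    rw [e1] at e4
    linarith
  have h5 : b * Real.sin (ψ - φ) * x ≤ 2 * ω * x := mul_le_mul_of_nonneg_right h4 hx
  have hω : 0 ≤ ω := (norm_nonneg _).trans hu
  have h6 : 0 ≤ ω * y := mul_nonneg hω hy
  have h7 : b * G (tt ψ) = b * dt f (tt ψ) + b * Real.sin (ψ - φ) * x := by
    rw [hGf']
    have : dt f' (tt ψ) = dt f (tt ψ) + x * Real.sin (ψ - φ) := by linarith
    rw [this]
    ring
  rw [hGf] at h1
  rw [h2]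
  nlinarith

theorem Sb {q c₁ c₂ : ℝ → V} (hq : Bd q) (h₁ : Bd c₁) (h₂ : Bd c₂)
    (hx : ∀ θ φ ψ, dt (uu θ) (c₁ φ + c₂ ψ) ≤ dt (uu θ) (q θ)) {C ε : ℝ} (hC : 0 < C)
    (hε : 0 < ε) :
    ∃ δ : ℝ, 0 < δ ∧ ∀ (M : ℕ) (θ : ℤ → ℝ), 0 < M → StrictMono θ →
      (∀ i, θ (i + 3 * M) = θ i + π) → (∀ i, θ (i + 1) - θ i ≤ δ) →
      ∀ (n : ℕ) (F : Fin (n + 1) → V) (G : V → ℝ), (∀ k, ‖F k‖ ≤ C) →
        (∀ v k, dt (F k) v ≤ G v) → (∀ v, ∃ k, G v = dt (F k) v) →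
        ∑ m ∈ Finset.range (6 * M), (G (c₁ (θ (m + 1)) - c₁ (θ m)) +
            G (c₂ (θ (m + 1)) - c₂ (θ m))) ≤
          ∑ m ∈ Finset.range (6 * M), G (q (θ (m + 1)) - q (θ m)) + ε := by
  have hpi := Real.pi_pos
  obtain ⟨ω, hω, hωε⟩ : ∃ ω : ℝ, 0 < ω ∧ 48 * π * C * ω ≤ ε := by
    refine ⟨ε / (48 * π * C), by positivity, ?_⟩
    rw [mul_div_cancel₀ _ (by positivity)]
  obtain ⟨δ₁, hδ₁, u₁⟩ := Sb_uc h₁ hω
  obtain ⟨δ₂, hδ₂, u₂⟩ := Sb_uc h₂ hω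
  obtain ⟨δ₃, hδ₃, u₃⟩ := Sb_uc hq hω
  refine ⟨min (π / 3) (min δ₁ (min δ₂ δ₃)), by positivity, ?_⟩
  intro M θ hM hmono hper hgap n F G hF hG1 hG2
  have hGk : ∀ v, ∃ k : V, G v = dt k v ∧ ∀ w, dt k w ≤ G w := fun v => by
    obtain ⟨k, hk⟩ := hG2 v
    exact ⟨F k, hk, fun w => hG1 w k⟩
  choose κ hκ using hG2
  obtain ⟨K, hK⟩ : ∃ K : ℕ, K = 6 * M := ⟨_, rfl⟩
  have hθK : ∀ m : ℤ, θ (m + K) = θ m + 2 * π := by
    intro m
    have e1 := hper m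
    have e2 := hper (m + 3 * M)
    have e3 : m + 3 * (M : ℤ) + 3 * M = m + K := by
      rw [hK]
      push_cast
      ring
    rw [e3, e1] at e2
    rw [e2]
    ring
  obtain ⟨f, hf⟩ : ∃ f : ℤ → V, ∀ m, f m = F (κ (tt (θ m))) := ⟨_, fun _ => rfl⟩
  have fG : ∀ m, G (tt (θ m)) = dt (f m) (tt (θ m)) := fun m => by
    rw [hf]
    exact hκ _
  have fle : ∀ m v, dt (f m) v ≤ G v := fun m v => by
    rw [hf]
    exact hG1 v _
  have fC : ∀ m, ‖f m‖ ≤ C := fun m => by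
    rw [hf]
    exact hF _
  have fK : ∀ m : ℤ, f (m + K) = f m := fun m => by
    rw [hf, hf, hθK, tt_per]
  have g0 : ∀ m : ℤ, θ (m - 1) < θ m := fun m => hmono (by omega)
  have g1 : ∀ m : ℤ, θ m - θ (m - 1) ≤ min (π / 3) (min δ₁ (min δ₂ δ₃)) := fun m => by
    have := hgap (m - 1)
    rwa [sub_add_cancel] at this
  have g2 : ∀ m : ℤ, θ m - θ (m - 1) ≤ π / 3 := fun m => (g1 m).trans (min_le_left _ _)
  obtain ⟨s, hs⟩ : ∃ s : ℤ → ℝ, ∀ m, s m = (dt (f (m - 1) - f m) (tt (θ (m - 1))) -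
      dt (f (m - 1) - f m) (tt (θ m))) / Real.sin (θ m - θ (m - 1)) := ⟨_, fun _ => rfl⟩
  have dec : ∀ m, ∃ x y : ℝ, 0 ≤ x ∧ 0 ≤ y ∧ f (m - 1) - f m = x • uu (θ (m - 1)) + y • uu (θ m) ∧
      x + y = s m := fun m => by
    rw [hs]
    refine Sb_dec (g0 m) (by linarith [g2 m]) ?_ ?_
    · rw [sub_dt, ← fG (m - 1)]
      linarith [fle m (tt (θ (m - 1)))]
    · rw [sub_dt, ← fG m]
      linarith [fle (m - 1) (tt (θ m))]
  have sK : s (K : ℤ) = s 0 := by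
    have e1 : f ((K : ℤ) - 1) = f (0 - 1) := by
      rw [← fK (0 - 1)]
      congr 1 <;> ring
    have e2 : f (K : ℤ) = f 0 := by
      rw [← fK 0]
      congr 1 <;> ring
    have e3 : θ ((K : ℤ) - 1) = θ (0 - 1) + 2 * π := by
      rw [← hθK (0 - 1)]
      congr 1 <;> ring
    have e4 : θ (K : ℤ) = θ 0 + 2 * π := by
      rw [← hθK 0]
      congr 1 <;> ring
    rw [hs, hs, e1, e2, e3, e4, tt_per, tt_per, add_sub_add_right_eq_sub]
  -- the sum of the `s m`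
  have hS : ∑ m ∈ Finset.range K, s (m : ℤ) ≤ 8 * π * C := by
    have e1 : ∀ m : ℤ, s m ≤ 2 * dt (f (m - 1) - f m) (uu (θ m)) := by
      intro m
      obtain ⟨x, y, hx, hy, hN, hxy⟩ := dec m
      rw [hN, add_dt, smul_dt, smul_dt, dt_uu_uu, dt_uu_uu, sub_self, Real.cos_zero, ← hxy]
      have e2 : 1 / 2 ≤ Real.cos (θ (m - 1) - θ m) := by
        rw [← Real.cos_neg, neg_sub, ← Real.cos_pi_div_three]
        exact Real.cos_le_cos_of_nonneg_of_le_pi (by linarith [g0 m]) (by linarith) (g2 m)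
      nlinarith
    have e3 := Sb_parts f (fun m => uu (θ m)) K fK (fun m => by
      simp only [hθK, uu_per])
    have e4 : ∑ m ∈ Finset.range K, dt (f m) (uu (θ ((m : ℤ) + 1)) - uu (θ m)) ≤ 4 * π * C := by
      have e5 : ∀ m ∈ Finset.range K, dt (f m) (uu (θ ((m : ℤ) + 1)) - uu (θ m)) ≤
          2 * C * (θ ((m : ℤ) + 1) - θ (m : ℤ)) := by
        intro m _
        have a1 := (le_abs_self _).trans (dt_le (f m) (uu (θ ((m : ℤ) + 1)) - uu (θ m)))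
        have a2 := Sb_uu (θ ((m : ℤ) + 1)) (θ m)
        have a3 := g0 ((m : ℤ) + 1)
        rw [add_sub_cancel_right] at a3
        rw [abs_of_pos (by linarith)] at a2
        refine a1.trans ?_
        exact mul_le_mul (mul_le_mul_of_nonneg_left (fC _) (by norm_num)) a2 (norm_nonneg _)
          (by positivity)
      refine (Finset.sum_le_sum e5).trans (le_of_eq ?_)
      rw [← Finset.mul_sum, Sb_sum θ K]
      have := hθK 0
      rw [zero_add] at this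
      rw [this]
      ring
    calc ∑ m ∈ Finset.range K, s (m : ℤ) ≤ ∑ m ∈ Finset.range K, 2 * dt (f ((m : ℤ) - 1) - f m) (uu (θ m)) :=
          Finset.sum_le_sum fun m _ => e1 m
      _ = 2 * ∑ m ∈ Finset.range K, dt (f ((m : ℤ) - 1) - f m) (uu (θ m)) := by rw [Finset.mul_sum]
      _ = 2 * ∑ m ∈ Finset.range K, dt (f m) (uu (θ ((m : ℤ) + 1)) - uu (θ m)) := by rw [e3]
      _ ≤ 2 * (4 * π * C) := by linarith
      _ = _ := by ring
  -- the edges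
  have hE : ∀ (c : ℝ → V), Bd c → (∀ a b : ℝ, |a - b| ≤ min (π / 3) (min δ₁ (min δ₂ δ₃)) → ‖c a - c b‖ ≤ ω) →
      ∀ m : ℤ, G (c (θ (m + 1)) - c (θ m)) ≤ dt (f m) (c (θ (m + 1)) - c (θ m)) + 2 * ω * s (m + 1) := by
    intro c hc hu m
    obtain ⟨x, y, hx, hy, hN, hxy⟩ := dec (m + 1)
    have a3 := g0 (m + 1)
    have a4 := g1 (m + 1)
    have a5 := g2 (m + 1)
    rw [add_sub_cancel_right] at a3 a4 a5 hN
    rw [← hxy]
    refine Sb_edge hc a3 (by linarith) (hu _ _ ?_) hx hy hN (fG m) (fG (m + 1)) hGk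
    rw [abs_sub_comm, abs_of_pos (by linarith)]
    exact a4
  have hE1 := hE c₁ h₁ (fun a b hab => u₁ a b (hab.trans ((min_le_right _ _).trans (min_le_left _ _))))
  have hE2 := hE c₂ h₂ (fun a b hab => u₂ a b (hab.trans ((min_le_right _ _).trans
    ((min_le_right _ _).trans (min_le_left _ _)))))
  have hu3 : ∀ a b : ℝ, |a - b| ≤ min (π / 3) (min δ₁ (min δ₂ δ₃)) → ‖q a - q b‖ ≤ ω :=
    fun a b hab => u₃ a b (hab.trans ((min_le_right _ _).trans ((min_le_right _ _).trans (min_le_right _ _))))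
  have hQ : ∀ m : ℤ, dt (f (m - 1) - f m) (c₁ (θ m) + c₂ (θ m)) ≤
      dt (f (m - 1) - f m) (q (θ m)) + 2 * ω * s m := by
    intro m
    obtain ⟨x, y, hx', hy, hN, hxy⟩ := dec m
    have b1 := hx (θ (m - 1)) (θ m) (θ m)
    have b2 := hx (θ m) (θ m) (θ m)
    have b3 : dt (uu (θ (m - 1))) (q (θ (m - 1))) ≤ dt (uu (θ (m - 1))) (q (θ m)) + 2 * ω := by
      have c1 := dt_le (uu (θ (m - 1))) (q (θ (m - 1)) - q (θ m))
      have c2 := hu3 (θ (m - 1)) (θ m) (by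
        rw [abs_sub_comm, abs_of_pos (by linarith [g0 m])]
        exact g1 m)
      have c3 : 2 * ‖uu (θ (m - 1))‖ * ‖q (θ (m - 1)) - q (θ m)‖ ≤ 2 * 1 * ω :=
        mul_le_mul (mul_le_mul_of_nonneg_left (Sb_uu1 _) (by norm_num)) c2 (norm_nonneg _) (by norm_num)
      have c4 := (abs_le.1 c1).2
      rw [dt_sub] at c4
      linarith
    rw [hN, add_dt, add_dt, smul_dt, smul_dt, smul_dt, smul_dt, ← hxy]
    have b4 : x * dt (uu (θ (m - 1))) (c₁ (θ m) + c₂ (θ m)) ≤ x * (dt (uu (θ (m - 1))) (q (θ m)) + 2 * ω) :=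
      mul_le_mul_of_nonneg_left (b1.trans b3) hx'
    have b5 : y * dt (uu (θ m)) (c₁ (θ m) + c₂ (θ m)) ≤ y * dt (uu (θ m)) (q (θ m)) :=
      mul_le_mul_of_nonneg_left b2 hy
    have b6 : 0 ≤ ω * y := mul_nonneg hω.le hy
    nlinarith
  have hshift := Sb_shift s K sK
  have p1 := Sb_parts f (fun m => c₁ (θ m) + c₂ (θ m)) K fK (fun m => by
      simp only [hθK, h₁.per, h₂.per])
  have p2 := Sb_parts f (fun m => q (θ m)) K fK (fun m => by
      simp only [hθK, hq.per])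
  rw [← hK]
  calc ∑ m ∈ Finset.range K, (G (c₁ (θ (m + 1)) - c₁ (θ m)) + G (c₂ (θ (m + 1)) - c₂ (θ m)))
      ≤ ∑ m ∈ Finset.range K, (dt (f m) ((c₁ (θ ((m : ℤ) + 1)) + c₂ (θ ((m : ℤ) + 1))) - (c₁ (θ m) + c₂ (θ m))) +
          4 * ω * s ((m : ℤ) + 1)) := by
        refine Finset.sum_le_sum fun m _ => ?_
        have a1 := hE1 m
        have a2 := hE2 m
        have a3 : dt (f m) ((c₁ (θ ((m : ℤ) + 1)) + c₂ (θ ((m : ℤ) + 1))) - (c₁ (θ m) + c₂ (θ m))) =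
            dt (f m) (c₁ (θ ((m : ℤ) + 1)) - c₁ (θ m)) + dt (f m) (c₂ (θ ((m : ℤ) + 1)) - c₂ (θ m)) := by
          simp only [dt_sub, dt_add]
          ring
        rw [a3]
        linarith
    _ = ∑ m ∈ Finset.range K, dt (f ((m : ℤ) - 1) - f m) (c₁ (θ m) + c₂ (θ m)) +
          4 * ω * ∑ m ∈ Finset.range K, s (m : ℤ) := by
        rw [Finset.sum_add_distrib, ← Finset.mul_sum, hshift]
        congr 1
    _ ≤ ∑ m ∈ Finset.range K, (dt (f ((m : ℤ) - 1) - f m) (q (θ m)) + 2 * ω * s m) +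
          4 * ω * ∑ m ∈ Finset.range K, s (m : ℤ) := by
        have := Finset.sum_le_sum (s := Finset.range K) fun m _ => hQ (m : ℤ)
        linarith
    _ = ∑ m ∈ Finset.range K, dt (f m) (q (θ ((m : ℤ) + 1)) - q (θ m)) +
          6 * ω * ∑ m ∈ Finset.range K, s (m : ℤ) := by
        rw [Finset.sum_add_distrib, ← Finset.mul_sum]
        rw [p2]
        ring
    _ ≤ ∑ m ∈ Finset.range K, G (q (θ (m + 1)) - q (θ m)) + ε := by
        refine add_le_add (Finset.sum_le_sum fun m _ => fle _ _) ?_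
        have : 6 * ω * ∑ m ∈ Finset.range K, s (m : ℤ) ≤ 6 * ω * (8 * π * C) :=
          mul_le_mul_of_nonneg_left hS (by positivity)
        linarith

end ZP
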