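import Pool.Agent.H73.ZP.Aa

/-!
ROW Ab.  Ordered certificate for points of a curve.

PROOF.  `Aa` for `X = T.image c` gives normals `n_k` and angles `φ_k ∈ T`, `x_k = c φ_k`.  The claim of `Aa` is symmetric
under permutations of the pairs `(n_k, φ_k)`, so we may assume `φ₁ ≤ φ₂ ≤ φ₃`.  Let `P = - n₁`, `Q = n₃`, so
`P - Q = n₂`; `e₁ = c φ₂ - c φ₁`, `e₂ = c φ₃ - c φ₂`; the right side of `Aa` is `dt P e₁ + dt Q e₂ =: val`.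
If `0 ≤ cr P Q` we are done.  Let `cr P Q < 0`; `0 ≤ cr e₁ e₂` by `tri`.  Put `A = dt P e₁`, `B = dt Q e₁`,
`C = dt P e₂`, `D = dt Q e₂`; `A D - B C = cr P Q * cr e₁ e₂ ≤ 0`.  One of these holds:
 (a) `A ≤ B`; (b) `D ≤ C`; (c) `B + D ≤ 0`; (d) `A + C ≤ 0`; (e) `A ≤ 0`; (f) `D ≤ 0`
[otherwise `A > B`, `D > C`, `A, D > 0`, `- B < D`, `- C < A`, and then `A D > B C`: if `B, C ≥ 0`:
`A D > B D ≥ B C` or `B = 0`; if `B`, `C` have different signs `B C ≤ 0 < A D`; if both are negative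
`(- B) (- C) < D A`].
In each case there is a two-point certificate `(P', Q') = (n, n)` (so `cr P' Q' = 0`, `P' - Q' = 0`):
 (a) `n = Q` on `φ₁, φ₁, φ₃` [value `dt Q (e₁ + e₂) = B + D ≥ val`]; the left side of the claim is
   `- dt Q (l ψ₁) + dt Q (l ψ₃) + η = - dt P (l ψ₁) + dt (P - Q) (l ψ₁) + dt Q (l ψ₃) + η ≤ val`.
 (b) `n = P` on `φ₁, φ₁, φ₃` [`A + C ≥ val`]: `- dt P (l ψ₁) + dt (P - Q) (l ψ₃) + dt Q (l ψ₃)`.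
 (c) `n = P - Q` on `φ₁, φ₁, φ₂` [`A - B ≥ A + D`]: `- dt P (l ψ₁) + dt (P - Q) (l ψ₃) + dt Q (l ψ₁)`.
 (d) `n = Q - P` on `φ₂, φ₂, φ₃` [`D - C ≥ A + D`]: `- dt P (l ψ₃) + dt (P - Q) (l ψ₁) + dt Q (l ψ₃)`.
 (e) `n = Q` on `φ₂, φ₂, φ₃` [`D ≥ A + D`], as (a).   (f) `n = P` on `φ₁, φ₁, φ₂` [`A ≥ A + D`], as (b).
-/

open Real

namespace ZP

theorem Ab_sorted {l c : ℝ → V} (hc : Bd c) {a : ℝ} {T : Finset ℝ}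
    (hT : ∀ φ ∈ T, a ≤ φ ∧ φ ≤ a + 2 * π) {n₁ n₂ n₃ : V} {φ₁ φ₂ φ₃ η : ℝ}
    (h0 : n₁ + n₂ + n₃ = 0) (h1 : φ₁ ∈ T) (h2 : φ₂ ∈ T) (h3 : φ₃ ∈ T) (h12 : φ₁ ≤ φ₂)
    (h23 : φ₂ ≤ φ₃) (hη : 0 < η)
    (H : ∀ ψ₁ ψ₂ ψ₃, dt n₁ (l ψ₁) + dt n₂ (l ψ₂) + dt n₃ (l ψ₃) + η ≤
        dt n₁ (c φ₁) + dt n₂ (c φ₂) + dt n₃ (c φ₃)) :
    ∃ φ₁ ∈ T, ∃ φ₂ ∈ T, ∃ φ₃ ∈ T, ∃ (P Q : V) (η : ℝ), φ₁ ≤ φ₂ ∧ φ₂ ≤ φ₃ ∧ 0 < η ∧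
      0 ≤ cr P Q ∧
      ∀ ψ₁ ψ₂ ψ₃, - dt P (l ψ₁) + dt (P - Q) (l ψ₂) + dt Q (l ψ₃) + η ≤
        dt P (c φ₂ - c φ₁) + dt Q (c φ₃ - c φ₂) := by
  obtain ⟨P, hP⟩ : ∃ P : V, P = -n₁ := ⟨_, rfl⟩
  obtain ⟨Q, hQ⟩ : ∃ Q : V, Q = n₃ := ⟨_, rfl⟩
  have e1 : n₁ = -P := by rw [hP, neg_neg]
  have e2 : n₂ = P - Q := by
    have : n₂ = -n₁ - n₃ := by
      have h4 : n₂ = (n₁ + n₂ + n₃) - n₁ - n₃ := by abel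
      rw [h4, h0, zero_sub]
    rw [this, hP, hQ]
  rw [e1, e2, ← hQ] at H
  have H' : ∀ ψ₁ ψ₂ ψ₃, - dt P (l ψ₁) + dt (P - Q) (l ψ₂) + dt Q (l ψ₃) + η ≤
        dt P (c φ₂ - c φ₁) + dt Q (c φ₃ - c φ₂) := by
    intro ψ₁ ψ₂ ψ₃
    have h5 := H ψ₁ ψ₂ ψ₃
    simp only [dt, Prod.fst_sub, Prod.snd_sub, Prod.fst_neg, Prod.snd_neg] at h5 ⊢
    linarith
  clear H
  by_cases hcr : 0 ≤ cr P Q
  · exact ⟨φ₁, h1, φ₂, h2, φ₃, h3, P, Q, η, h12, h23, hη, hcr, H'⟩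
  push Not at hcr
  have htri : 0 ≤ cr (c φ₂ - c φ₁) (c φ₃ - c φ₂) := tri hc h12 h23 (by linarith [(hT φ₁ h1).1, (hT φ₃ h3).2])
  obtain ⟨x, hx⟩ : ∃ x : V, x = c φ₂ - c φ₁ := ⟨_, rfl⟩
  obtain ⟨y, hy⟩ : ∃ y : V, y = c φ₃ - c φ₂ := ⟨_, rfl⟩
  rw [← hx, ← hy] at htri H'
  have hcc : ∀ n : V, 0 ≤ cr n n := by
    intro n
    apply le_of_eq
    unfold cr
    ring
  have hy13 : c φ₃ - c φ₁ = x + y := by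
    rw [hx, hy]
    abel
  have key : dt P x * dt Q y - dt Q x * dt P y = cr P Q * cr x y := by
    unfold dt cr
    ring
  have hle : dt P x * dt Q y ≤ dt Q x * dt P y := by
    have := mul_nonpos_of_nonpos_of_nonneg hcr.le htri
    linarith
  have hcases : dt P x ≤ dt Q x ∨ dt Q y ≤ dt P y ∨ dt Q x + dt Q y ≤ 0 ∨ dt P x + dt P y ≤ 0 ∨
      dt P x ≤ 0 ∨ dt Q y ≤ 0 := by
    by_contra hcon
    push Not at hcon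
    obtain ⟨k1, k2, k3, k4, k5, k6⟩ := hcon
    generalize dt P x = A at *
    generalize dt Q x = B at *
    generalize dt P y = C at *
    generalize dt Q y = D at *
    rcases le_or_gt 0 B with hB | hB
    · rcases le_or_gt 0 C with hC | hC
      · nlinarith
      · nlinarith
    · rcases le_or_gt 0 C with hC | hC
      · nlinarith
      · nlinarith [mul_pos k5 k6]
  rcases hcases with k | k | k | k | k | k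
  · refine ⟨φ₁, h1, φ₁, h1, φ₃, h3, Q, Q, η, le_rfl, h12.trans h23, hη, hcc Q, ?_⟩
    intro ψ₁ ψ₂ ψ₃
    have h5 := H' ψ₁ ψ₁ ψ₃
    rw [hy13]
    simp only [dt, Prod.fst_sub, Prod.snd_sub, Prod.fst_add, Prod.snd_add] at h5 k ⊢
    linarith
  · refine ⟨φ₁, h1, φ₁, h1, φ₃, h3, P, P, η, le_rfl, h12.trans h23, hη, hcc P, ?_⟩
    intro ψ₁ ψ₂ ψ₃
    have h5 := H' ψ₁ ψ₃ ψ₃
    rw [hy13]
    simp only [dt, Prod.fst_sub, Prod.snd_sub, Prod.fst_add, Prod.snd_add] at h5 k ⊢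
    linarith
  · refine ⟨φ₁, h1, φ₁, h1, φ₂, h2, P - Q, P - Q, η, le_rfl, h12, hη, hcc _, ?_⟩
    intro ψ₁ ψ₂ ψ₃
    have h5 := H' ψ₁ ψ₃ ψ₁
    rw [← hx]
    simp only [dt, Prod.fst_sub, Prod.snd_sub, Prod.fst_add, Prod.snd_add] at h5 k ⊢
    linarith
  · refine ⟨φ₂, h2, φ₂, h2, φ₃, h3, Q - P, Q - P, η, le_rfl, h23, hη, hcc _, ?_⟩
    intro ψ₁ ψ₂ ψ₃
    have h5 := H' ψ₃ ψ₁ ψ₃
    rw [← hy]
    simp only [dt, Prod.fst_sub, Prod.snd_sub, Prod.fst_add, Prod.snd_add] at h5 k ⊢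
    linarith
  · refine ⟨φ₂, h2, φ₂, h2, φ₃, h3, Q, Q, η, le_rfl, h23, hη, hcc Q, ?_⟩
    intro ψ₁ ψ₂ ψ₃
    have h5 := H' ψ₁ ψ₁ ψ₃
    rw [← hy]
    simp only [dt, Prod.fst_sub, Prod.snd_sub, Prod.fst_add, Prod.snd_add] at h5 k ⊢
    linarith
  · refine ⟨φ₁, h1, φ₁, h1, φ₂, h2, P, P, η, le_rfl, h12, hη, hcc P, ?_⟩
    intro ψ₁ ψ₂ ψ₃
    have h5 := H' ψ₁ ψ₃ ψ₃
    rw [← hx]
    simp only [dt, Prod.fst_sub, Prod.snd_sub, Prod.fst_add, Prod.snd_add] at h5 k ⊢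
    linarith

theorem Ab {l c : ℝ → V} (h : Bd l) (hc : Bd c) {a : ℝ} (T : Finset ℝ)
    (hT : ∀ φ ∈ T, a ≤ φ ∧ φ ≤ a + 2 * π) (hX : ¬ ∃ p : V, ∀ φ ∈ T, c φ - p ∈ body l) :
    ∃ φ₁ ∈ T, ∃ φ₂ ∈ T, ∃ φ₃ ∈ T, ∃ (P Q : V) (η : ℝ), φ₁ ≤ φ₂ ∧ φ₂ ≤ φ₃ ∧ 0 < η ∧
      0 ≤ cr P Q ∧
      ∀ ψ₁ ψ₂ ψ₃, - dt P (l ψ₁) + dt (P - Q) (l ψ₂) + dt Q (l ψ₃) + η ≤
        dt P (c φ₂ - c φ₁) + dt Q (c φ₃ - c φ₂) := by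
  classical
  obtain ⟨n₁, n₂, n₃, x₁, x₂, x₃, η, h0, m1, m2, m3, hη, H⟩ := Aa h (T.image c) (by
    rintro ⟨p, hp⟩
    exact hX ⟨p, fun φ hφ => hp _ (Finset.mem_image_of_mem c hφ)⟩)
  obtain ⟨φ₁, h1, rfl⟩ := Finset.mem_image.1 m1
  obtain ⟨φ₂, h2, rfl⟩ := Finset.mem_image.1 m2
  obtain ⟨φ₃, h3, rfl⟩ := Finset.mem_image.1 m3
  rcases le_total φ₁ φ₂ with h12 | h12
  · rcases le_total φ₂ φ₃ with h23 | h23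
    · exact Ab_sorted hc hT h0 h1 h2 h3 h12 h23 hη H
    · rcases le_total φ₁ φ₃ with h13 | h13
      · exact Ab_sorted hc hT (n₁ := n₁) (n₂ := n₃) (n₃ := n₂) (by rw [← h0]; abel) h1 h3 h2 h13 h23 hη
          (fun a b d => by linarith [H a d b])
      · exact Ab_sorted hc hT (n₁ := n₃) (n₂ := n₁) (n₃ := n₂) (by rw [← h0]; abel) h3 h1 h2 h13 h12 hη
          (fun a b d => by linarith [H b d a])
  · rcases le_total φ₁ φ₃ with h13 | h13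
    · exact Ab_sorted hc hT (n₁ := n₂) (n₂ := n₁) (n₃ := n₃) (by rw [← h0]; abel) h2 h1 h3 h12 h13 hη
        (fun a b d => by linarith [H b a d])
    · rcases le_total φ₂ φ₃ with h23 | h23
      · exact Ab_sorted hc hT (n₁ := n₂) (n₂ := n₃) (n₃ := n₁) (by rw [← h0]; abel) h2 h3 h1 h23 h13 hη
          (fun a b d => by linarith [H d a b])
      · exact Ab_sorted hc hT (n₁ := n₃) (n₂ := n₂) (n₃ := n₁) (by rw [← h0]; abel) h3 h2 h1 h23 h12 hη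
          (fun a b d => by linarith [H d b a])

end ZP
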