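import Mathlib

/-!
Theorem Z+ (helper93), finite form: definitions.

The plane is `V = ℝ × ℝ` with the dot product `dt`, the determinant `cr`, the unit
vectors `uu θ` and the tangent vectors `tt θ`.  A smooth strictly convex body is given by
its support map `l` (`Bd l`): `l θ` is the point of the body with outer normal `uu θ`.
-/

open Real

namespace ZP

/-- The plane. -/
abbrev V := ℝ × ℝ

/-- The dot product. -/
def dt (a b : V) : ℝ := a.1 * b.1 + a.2 * b.2

/-- The determinant. -/
def cr (a b : V) : ℝ := a.1 * b.2 - a.2 * b.1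

/-- The unit vector with angle `θ`. -/
noncomputable def uu (θ : ℝ) : V := (Real.cos θ, Real.sin θ)

/-- The unit vector with angle `θ + π / 2`. -/
noncomputable def tt (θ : ℝ) : V := (-Real.sin θ, Real.cos θ)

/-- The functional `max (0, P . v, Q . v)`. -/
noncomputable def gg (P Q v : V) : ℝ := max 0 (max (dt P v) (dt Q v))

/-- `l` is the support map of a plane convex body with a smooth and strictly convex boundary:
`l θ` is the only point of the body where `dt (uu θ)` is maximal. -/
structure Bd (l : ℝ → V) : Prop where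
  cont : Continuous l
  per : ∀ θ, l (θ + 2 * π) = l θ
  supp : ∀ θ φ, dt (uu θ) (l φ) ≤ dt (uu θ) (l θ)
  strict : ∀ θ φ, uu φ ≠ uu θ → dt (uu θ) (l φ) < dt (uu θ) (l θ)

/-- The support map of the difference body. -/
noncomputable def qq (l : ℝ → V) (θ : ℝ) : V := l θ - l (θ + π)

/-- The support map of the opposite body. -/
noncomputable def ng (l : ℝ → V) (θ : ℝ) : V := - l (θ + π)

/-- A grid of `6 M` angles on the circle, closed under the hexagon map. -/
structure Grid (l : ℝ → V) (κ : ℝ) (M : ℕ) (θ : ℤ → ℝ) : Prop where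
  pos : 0 < M
  mono : StrictMono θ
  per : ∀ i, θ (i + 3 * M) = θ i + π
  gap : ∀ i, θ (i + 1) - θ i ≤ π / M
  sep : ∀ i, κ ≤ θ (i + M) - θ i
  hex : ∀ i, qq l (θ (i + M)) = qq l (θ i) + qq l (θ (i + 2 * M))

/-- The `i`-th edge of the difference body on the grid. -/
noncomputable def vv (l : ℝ → V) (θ : ℤ → ℝ) (i : ℤ) : V := qq l (θ (i + 1)) - qq l (θ i)

/-- The `i`-th edge of the body `l` on the grid. -/
noncomputable def ll (l : ℝ → V) (θ : ℤ → ℝ) (i : ℤ) : V := l (θ (i + 1)) - l (θ i)

/-- A cyclic sequence of `6 M` vectors (period `6 M`), in counterclockwise order, which is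
symmetric and closed under the hexagon relation `v_{i+M} = v_i + v_{i+2M}`. -/
structure Hx (M : ℕ) (v : ℤ → V) : Prop where
  pos : 0 < M
  half : ∀ i, v (i + 3 * M) = - v i
  hex : ∀ i, v (i + M) = v i + v (i + 2 * M)
  ccw : ∀ i j, i < j → j < i + 3 * M → 0 < cr (v i) (v j)

/-- The even sum of the hexagon of the residue `r`. -/
def Ee (g : V → ℝ) (M : ℕ) (v : ℤ → V) (r : ℤ) : ℝ :=
  g (v r) + g (v (r + 2 * M)) + g (v (r + 4 * M))

/-- The odd sum of the hexagon of the residue `r`. -/
def Oo (g : V → ℝ) (M : ℕ) (v : ℤ → V) (r : ℤ) : ℝ :=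
  g (v (r + M)) + g (v (r + 3 * M)) + g (v (r + 5 * M))

/-- The maximum of the six functionals `t i * gg (P i) (Q i)`. -/
noncomputable def mx (t : Fin 6 → ℝ) (P Q : Fin 6 → V) (v : V) : ℝ :=
  Finset.univ.sup' Finset.univ_nonempty (fun i => t i * gg (P i) (Q i) v)

/-- The body of `l`, as an intersection of half planes. -/
def body (l : ℝ → V) : Set V := {x | ∀ θ, dt (uu θ) x ≤ dt (uu θ) (l θ)}

/-- Three consecutive bad arcs on the curve `c` with respect to the body of `l`:
nine angles in cyclic order (three for each arc), and for each arc a triangle certificate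
(the three normals `- P`, `P - Q`, `Q`) with margin `η` that the three points of the arc
do not fit into a translate of the body of `l`. -/
def Bad3 (l c : ℝ → V) : Prop :=
  ∃ (α : ℕ → ℝ) (P Q : ℕ → V) (η : ℝ), 0 < η ∧ Monotone α ∧ α 8 ≤ α 0 + 2 * π ∧
    ∀ k, k < 3 → 0 ≤ cr (P k) (Q k) ∧
      ∀ ψ₁ ψ₂ ψ₃, - dt (P k) (l ψ₁) + dt (P k - Q k) (l ψ₂) + dt (Q k) (l ψ₃) + η ≤
        dt (P k) (c (α (3 * k + 1)) - c (α (3 * k))) +
        dt (Q k) (c (α (3 * k + 2)) - c (α (3 * k + 1)))

end ZP
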