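import Pool.Agent.H73.ZP.Df

/-!
ROW Bda.  Elementary facts on the support map of a smooth strictly convex body.

* `dt`, `cr` are bilinear; `cr (tt a) (tt b) = sin (b - a)`, `dt (uu a) (tt b) = sin (a - b)`,
  `dt (uu a) (uu b) = cos (a - b)`; `uu` and `tt` have period `2 π` and change sign under `+ π`.
* `neg`, `qqBd`: `-L` and `L - L`.  (For the strict inequality of `qq l`: the sum of
  `dt (uu θ) (l φ) < dt (uu θ) (l θ)` and of the inequality for `θ + π`, `φ + π`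
  times `-1`; `uu (θ + π) = - uu θ`.)
* `dec`: for `α ≤ φ ≤ ψ ≤ α + π` we have `dt (uu α) (l ψ) ≤ dt (uu α) (l φ)`.
  PROOF.  `e = l ψ - l φ` satisfies `dt (uu φ) e ≤ 0 ≤ dt (uu ψ) e`, and
  `sin (ψ - α) • uu φ = sin (ψ - φ) • uu α + sin (φ - α) • uu ψ`; so
  `sin (ψ - φ) * dt (uu α) e = sin (ψ - α) * dt (uu φ) e - sin (φ - α) * dt (uu ψ) e ≤ 0`.
  If `sin (ψ - φ) = 0` then `ψ = φ`, or `φ = α` and `ψ = α + π` (use `supp`).
  Strict version `decS` for `φ < ψ`: `dt (uu φ) e < 0 < dt (uu ψ) e` if `uu φ ≠ uu ψ`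
  (use also `supp` for `φ = α`).
* `inc`, `incS`: the same on `[α - π, α]` (increasing).
* `cone`: for `φ ≤ ψ < φ + π` the chord `l ψ - l φ` is `x • tt φ + y • tt ψ` with `x, y ≥ 0`
  (solve; `x sin (ψ - φ) = dt (uu ψ) e`, `y sin (ψ - φ) = - dt (uu φ) e`).
* `chord`: for `φ ≤ ψ ≤ φ + 2 π` the chord is `ρ • tt α` with `ρ ≥ 0`, `α ∈ [φ, ψ]`.
  PROOF.  If `e = 0` take `ρ = 0`.  Else `e = |e| • tt β`, and we may choose `β ∈ [φ, φ + 2 π)`.
  If `β ≤ ψ` we are done.  Otherwise `ψ < β < φ + 2 π`; `dt (uu ψ) e = |e| sin (ψ - β) ≥ 0`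
  and `-2 π < ψ - β < 0` give `ψ - β ≤ - π`; `dt (uu φ) e = |e| sin (φ - β) ≤ 0` and
  `-2 π < φ - β` and `φ - β ≤ ψ - β ≤ - π` give `sin (φ - β) ≥ 0`, so it is `0`,
  `φ - β = - π = ψ - β`, `φ = ψ`, `e = 0`.
* `tri`: three points of the curve in counterclockwise order are positively oriented.
  PROOF.  For `φ₁ ≤ φ₂ ≤ φ₃ ≤ φ₁ + 2 π`: by `chord`, `l φ₂ - l φ₁ = ρ • tt α`, `φ₁ ≤ α ≤ φ₂`, and
  `cr (tt α) x = - dt (uu α) x`; so we need `dt (uu α) (l φ₃) ≤ dt (uu α) (l φ₂)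
  = dt (uu α) (l φ₁)`.  If `φ₃ ≤ α + π` use `dec` on `α ≤ φ₂ ≤ φ₃`.  If `φ₃ ≥ α + π` use `inc`
  for the direction `α + 2 π` on `α + π ≤ φ₃ ≤ φ₁ + 2 π ≤ α + 2 π`.
* `crpos`: if moreover `q (θ + π) = - q θ` then `0 < cr (q α) (q β)` for `α < β < α + π`.
  PROOF.  `cr (q α) x = dt n x` where `n = (- (q α).2, (q α).1)`, and
  `n = |n| • uu ν`; `dt (uu α) (q α) > 0` [it is `(1/2) * (dt (uu α) (q α) - dt (uu α) (q (α + π)))`],
  so we can choose `ν` with `α < ν < α + π`; `dt (uu ν) (q α) = 0`.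
  Suppose `dt (uu ν) (q β) ≤ 0`.  If `β ≤ ν`: `uu β = a • uu α + b • uu ν`, `a, b ≥ 0`, hence
  `dt (uu β) (q β) ≤ a * dt (uu α) (q α) = dt (uu β) (q α)`, against `strict`.
  If `β > ν`: `uu β = a • uu ν + b • uu (α + π)`, and `dt (uu β) (q β) ≤ b * dt (uu (α + π)) (q (α + π))
  = dt (uu β) (q (α + π))` as `dt (uu ν) (q (α + π)) = - dt (uu ν) (q α) = 0`, against `strict`.
* `bdd`: the curve is bounded (continuous and periodic).
-/

open Real

namespace ZP

theorem dt_add (a b c : V) : dt a (b + c) = dt a b + dt a c := by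
  simp only [dt, Prod.fst_add, Prod.snd_add]; ring
theorem dt_sub (a b c : V) : dt a (b - c) = dt a b - dt a c := by
  simp only [dt, Prod.fst_sub, Prod.snd_sub]; ring
theorem dt_neg (a b : V) : dt a (-b) = - dt a b := by
  simp only [dt, Prod.fst_neg, Prod.snd_neg]; ring
theorem dt_smul (a b : V) (s : ℝ) : dt a (s • b) = s * dt a b := by
  simp only [dt, Prod.smul_fst, Prod.smul_snd, smul_eq_mul]; ring
theorem dt_comm (a b : V) : dt a b = dt b a := by
  simp only [dt]; ring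
theorem add_dt (a b c : V) : dt (a + b) c = dt a c + dt b c := by
  simp only [dt, Prod.fst_add, Prod.snd_add]; ring
theorem sub_dt (a b c : V) : dt (a - b) c = dt a c - dt b c := by
  simp only [dt, Prod.fst_sub, Prod.snd_sub]; ring
theorem neg_dt (a b : V) : dt (-a) b = - dt a b := by
  simp only [dt, Prod.fst_neg, Prod.snd_neg]; ring
theorem smul_dt (a b : V) (s : ℝ) : dt (s • a) b = s * dt a b := by
  simp only [dt, Prod.smul_fst, Prod.smul_snd, smul_eq_mul]; ring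
theorem cr_tt (a b : ℝ) : cr (tt a) (tt b) = Real.sin (b - a) := by
  simp only [cr, tt, Real.sin_sub]; ring
theorem cr_uu (a b : ℝ) : cr (uu a) (uu b) = Real.sin (b - a) := by
  simp only [cr, uu, Real.sin_sub]; ring
theorem dt_uu_tt (a b : ℝ) : dt (uu a) (tt b) = Real.sin (a - b) := by
  simp only [dt, uu, tt, Real.sin_sub]; ring
theorem dt_uu_uu (a b : ℝ) : dt (uu a) (uu b) = Real.cos (a - b) := by
  simp only [dt, uu, Real.cos_sub]
theorem uu_pi (a : ℝ) : uu (a + π) = - uu a := by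
  simp only [uu, Real.cos_add_pi, Real.sin_add_pi, Prod.neg_mk]
theorem tt_pi (a : ℝ) : tt (a + π) = - tt a := by
  simp only [tt, Real.cos_add_pi, Real.sin_add_pi, Prod.neg_mk]
theorem uu_per (a : ℝ) : uu (a + 2 * π) = uu a := by
  simp only [uu, Real.cos_add_two_pi, Real.sin_add_two_pi]
theorem tt_per (a : ℝ) : tt (a + 2 * π) = tt a := by
  simp only [tt, Real.cos_add_two_pi, Real.sin_add_two_pi]
/-- `|dt a b|` is at most twice the product of the sup norms. -/
theorem dt_le (a b : V) : |dt a b| ≤ 2 * ‖a‖ * ‖b‖ := by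
  have h1 : |a.1| ≤ ‖a‖ := norm_fst_le a
  have h2 : |a.2| ≤ ‖a‖ := norm_snd_le a
  have h3 : |b.1| ≤ ‖b‖ := norm_fst_le b
  have h4 : |b.2| ≤ ‖b‖ := norm_snd_le b
  have h5 : |a.1 * b.1| ≤ ‖a‖ * ‖b‖ := by
    rw [abs_mul]; exact mul_le_mul h1 h3 (abs_nonneg _) (norm_nonneg _)
  have h6 : |a.2 * b.2| ≤ ‖a‖ * ‖b‖ := by
    rw [abs_mul]; exact mul_le_mul h2 h4 (abs_nonneg _) (norm_nonneg _)
  calc |dt a b| ≤ |a.1 * b.1| + |a.2 * b.2| := abs_add_le _ _
    _ ≤ 2 * ‖a‖ * ‖b‖ := by linarith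

/-- different unit vectors -/
theorem Bda_uu_ne {a b : ℝ} (h1 : a < b) (h2 : b < a + 2 * π) : uu a ≠ uu b := by
  intro h
  have h3 : Real.cos (a - b) = 1 := by
    rw [← dt_uu_uu, h, dt_uu_uu, sub_self, Real.cos_zero]
  rw [Real.cos_eq_one_iff_of_lt_of_lt (by linarith) (by linarith [Real.pi_pos])] at h3
  linarith

theorem Bda_uu_pi_ne {a b : ℝ} (h : uu a ≠ uu b) : uu (a + π) ≠ uu (b + π) := by
  rw [uu_pi, uu_pi]
  exact fun h1 => h (neg_injective h1)

theorem neg {l : ℝ → V} (h : Bd l) : Bd (ng l) := by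
  refine ⟨?_, ?_, ?_, ?_⟩
  · unfold ng
    exact (h.cont.comp (continuous_id.add continuous_const)).neg
  · intro θ
    unfold ng
    rw [show θ + 2 * π + π = (θ + π) + 2 * π by ring, h.per]
  · intro θ φ
    have h1 := h.supp (θ + π) (φ + π)
    rw [uu_pi, neg_dt, neg_dt] at h1
    unfold ng
    rw [dt_neg, dt_neg]
    exact h1
  · intro θ φ hne
    have h1 := h.strict (θ + π) (φ + π) (Bda_uu_pi_ne hne)
    rw [uu_pi, neg_dt, neg_dt] at h1
    unfold ng
    rw [dt_neg, dt_neg]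
    exact h1

theorem qqBd {l : ℝ → V} (h : Bd l) : Bd (qq l) := by
  have hn := neg h
  have e : ∀ θ, qq l θ = l θ + ng l θ := by
    intro θ
    unfold qq ng
    rw [sub_eq_add_neg]
  refine ⟨?_, ?_, ?_, ?_⟩
  · rw [show qq l = fun θ => l θ + ng l θ from funext e]
    exact h.cont.add hn.cont
  · intro θ
    rw [e, e, h.per, hn.per]
  · intro θ φ
    rw [e, e, dt_add, dt_add]
    exact add_le_add (h.supp θ φ) (hn.supp θ φ)
  · intro θ φ hne
    rw [e, e, dt_add, dt_add]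
    exact add_lt_add (h.strict θ φ hne) (hn.strict θ φ hne)

theorem qq_pi {l : ℝ → V} (h : Bd l) (θ : ℝ) : qq l (θ + π) = - qq l θ := by
  unfold qq
  rw [show θ + π + π = θ + 2 * π by ring, h.per]
  abel

theorem qq_ng {l : ℝ → V} (h : Bd l) : qq (ng l) = qq l := by
  funext θ
  unfold qq ng
  rw [show θ + π + π = θ + 2 * π by ring, h.per]
  abel

theorem Bda_uu_comb (α φ ψ : ℝ) (e : V) : Real.sin (ψ - φ) * dt (uu α) e =
    Real.sin (ψ - α) * dt (uu φ) e - Real.sin (φ - α) * dt (uu ψ) e := by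
  simp only [dt, uu, Real.sin_sub]
  ring

theorem dec {l : ℝ → V} (h : Bd l) {α φ ψ : ℝ} (h1 : α ≤ φ) (h2 : φ ≤ ψ) (h3 : ψ ≤ α + π) :
    dt (uu α) (l ψ) ≤ dt (uu α) (l φ) := by
  have k1 : dt (uu φ) (l ψ - l φ) ≤ 0 := by rw [dt_sub]; linarith [h.supp φ ψ]
  have k2 : 0 ≤ dt (uu ψ) (l ψ - l φ) := by rw [dt_sub]; linarith [h.supp ψ φ]
  have k3 := Bda_uu_comb α φ ψ (l ψ - l φ)
  have s1 : 0 ≤ Real.sin (ψ - α) := Real.sin_nonneg_of_nonneg_of_le_pi (by linarith) (by linarith)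
  have s2 : 0 ≤ Real.sin (φ - α) := Real.sin_nonneg_of_nonneg_of_le_pi (by linarith) (by linarith)
  have k4 : Real.sin (ψ - φ) * dt (uu α) (l ψ - l φ) ≤ 0 := by
    rw [k3]
    have := mul_nonneg s2 k2
    have := mul_nonneg s1 (neg_nonneg.2 k1)
    linarith
  rcases eq_or_lt_of_le h2 with he | hlt
  · rw [he]
  rcases eq_or_lt_of_le (show ψ - φ ≤ π by linarith) with hpi | hpi
  · have e1 : φ = α := by linarith
    rw [e1]
    exact h.supp α ψ
  · have s3 : 0 < Real.sin (ψ - φ) := Real.sin_pos_of_pos_of_lt_pi (by linarith) hpi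
    have k5 : dt (uu α) (l ψ - l φ) ≤ 0 := by
      by_contra hc
      push Not at hc
      have := mul_pos s3 hc
      linarith
    rw [dt_sub] at k5
    linarith

theorem decS {l : ℝ → V} (h : Bd l) {α φ ψ : ℝ} (h1 : α ≤ φ) (h2 : φ < ψ) (h3 : ψ ≤ α + π) :
    dt (uu α) (l ψ) < dt (uu α) (l φ) := by
  have hpp := Real.pi_pos
  have hne : uu φ ≠ uu ψ := Bda_uu_ne h2 (by linarith)
  have k1 : dt (uu φ) (l ψ - l φ) < 0 := by
    rw [dt_sub]; linarith [h.strict φ ψ hne.symm]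
  have k2 : 0 < dt (uu ψ) (l ψ - l φ) := by
    rw [dt_sub]; linarith [h.strict ψ φ hne]
  have k3 := Bda_uu_comb α φ ψ (l ψ - l φ)
  rcases eq_or_lt_of_le (show ψ - φ ≤ π by linarith) with hpi | hpi
  · have e1 : φ = α := by linarith
    rw [e1] at hne ⊢
    exact h.strict α ψ hne.symm
  · have s3 : 0 < Real.sin (ψ - φ) := Real.sin_pos_of_pos_of_lt_pi (by linarith) hpi
    have k4 : Real.sin (ψ - φ) * dt (uu α) (l ψ - l φ) < 0 := by
      rw [k3]
      rcases eq_or_lt_of_le h3 with h4 | h4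
      · have s2 : 0 < Real.sin (φ - α) :=
          Real.sin_pos_of_pos_of_lt_pi (by linarith) (by linarith)
        have s1 : 0 ≤ Real.sin (ψ - α) :=
          Real.sin_nonneg_of_nonneg_of_le_pi (by linarith) (by linarith)
        have := mul_pos s2 k2
        have := mul_nonneg s1 (neg_nonneg.2 k1.le)
        linarith
      · have s1 : 0 < Real.sin (ψ - α) :=
          Real.sin_pos_of_pos_of_lt_pi (by linarith) (by linarith)
        have s2 : 0 ≤ Real.sin (φ - α) :=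
          Real.sin_nonneg_of_nonneg_of_le_pi (by linarith) (by linarith)
        have := mul_nonneg s2 k2.le
        have := mul_pos s1 (neg_pos.2 k1)
        linarith
    have k5 : dt (uu α) (l ψ - l φ) < 0 := by
      by_contra hc
      push Not at hc
      have := mul_nonneg s3.le hc
      linarith
    rw [dt_sub] at k5
    linarith

theorem Bda_uu_sub_pi (α : ℝ) : uu α = - uu (α - π) := by
  rw [← uu_pi, sub_add_cancel]

theorem inc {l : ℝ → V} (h : Bd l) {α φ ψ : ℝ} (h1 : α - π ≤ φ) (h2 : φ ≤ ψ) (h3 : ψ ≤ α) :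
    dt (uu α) (l φ) ≤ dt (uu α) (l ψ) := by
  have k := dec h h1 h2 (show ψ ≤ α - π + π by linarith)
  rw [Bda_uu_sub_pi α, neg_dt, neg_dt]
  linarith

theorem incS {l : ℝ → V} (h : Bd l) {α φ ψ : ℝ} (h1 : α - π ≤ φ) (h2 : φ < ψ) (h3 : ψ ≤ α) :
    dt (uu α) (l φ) < dt (uu α) (l ψ) := by
  have k := decS h h1 h2 (show ψ ≤ α - π + π by linarith)
  rw [Bda_uu_sub_pi α, neg_dt, neg_dt]
  linarith

theorem cone {l : ℝ → V} (h : Bd l) {φ ψ : ℝ} (h1 : φ ≤ ψ) (h2 : ψ < φ + π) :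
    ∃ x y : ℝ, 0 ≤ x ∧ 0 ≤ y ∧ l ψ - l φ = x • tt φ + y • tt ψ := by
  rcases eq_or_lt_of_le h1 with he | hlt
  · exact ⟨0, 0, le_rfl, le_rfl, by rw [he]; simp⟩
  have s3 : 0 < Real.sin (ψ - φ) := Real.sin_pos_of_pos_of_lt_pi (by linarith) (by linarith)
  have k1 : dt (uu φ) (l ψ - l φ) ≤ 0 := by rw [dt_sub]; linarith [h.supp φ ψ]
  have k2 : 0 ≤ dt (uu ψ) (l ψ - l φ) := by rw [dt_sub]; linarith [h.supp ψ φ]
  refine ⟨dt (uu ψ) (l ψ - l φ) / Real.sin (ψ - φ), - dt (uu φ) (l ψ - l φ) / Real.sin (ψ - φ),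
    div_nonneg k2 s3.le, div_nonneg (by linarith) s3.le, ?_⟩
  generalize l ψ - l φ = e
  have hs := s3.ne'
  apply Prod.ext
  · simp only [dt, uu, tt, Prod.fst_add, Prod.smul_fst, smul_eq_mul]
    field_simp
    rw [Real.sin_sub]
    ring
  · simp only [dt, uu, tt, Prod.snd_add, Prod.smul_snd, smul_eq_mul]
    field_simp
    rw [Real.sin_sub]
    ring

/-- polar coordinates with the angle in a given period -/
theorem Bda_polar_tt (e : V) (he : e ≠ 0) (φ : ℝ) : ∃ r β : ℝ, 0 < r ∧ φ ≤ β ∧ β < φ + 2 * π ∧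
    e = r • tt β := by
  set z : ℂ := ⟨e.2, -e.1⟩ with hz
  have hz0 : z ≠ 0 := by
    intro h
    apply he
    have h1 : e.2 = 0 := by have := congrArg Complex.re h; simpa [hz] using this
    have h2 : e.1 = 0 := by have := congrArg Complex.im h; simpa [hz] using this
    exact Prod.ext h2 h1
  have hr : 0 < ‖z‖ := norm_pos_iff.2 hz0
  have hre : ‖z‖ * Real.cos z.arg = e.2 := by
    have := Complex.norm_mul_cos_arg z
    simpa [hz] using this
  have him : ‖z‖ * Real.sin z.arg = -e.1 := by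
    have := Complex.norm_mul_sin_arg z
    simpa [hz] using this
  refine ⟨‖z‖, toIcoMod Real.two_pi_pos φ z.arg, hr,
    (toIcoMod_mem_Ico Real.two_pi_pos φ z.arg).1, (toIcoMod_mem_Ico Real.two_pi_pos φ z.arg).2, ?_⟩
  have hmod : toIcoMod Real.two_pi_pos φ z.arg = z.arg - (toIcoDiv Real.two_pi_pos φ z.arg : ℤ) * (2 * π) := by
    rw [← self_sub_toIcoDiv_zsmul, zsmul_eq_mul]
  rw [hmod]
  apply Prod.ext
  · simp only [tt, Prod.smul_fst, smul_eq_mul, Real.sin_sub_int_mul_two_pi]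
    linarith
  · simp only [tt, Prod.smul_snd, smul_eq_mul, Real.cos_sub_int_mul_two_pi]
    linarith

theorem Bda_polar_uu (e : V) (he : e ≠ 0) (φ : ℝ) : ∃ r β : ℝ, 0 < r ∧ φ ≤ β ∧ β < φ + 2 * π ∧
    e = r • uu β := by
  have he' : ((-e.2, e.1) : V) ≠ 0 := by
    intro h
    apply he
    have h1 := congrArg Prod.fst h
    have h2 := congrArg Prod.snd h
    simp only [Prod.fst_zero, Prod.snd_zero] at h1 h2
    exact Prod.ext h2 (by simpa using h1)
  obtain ⟨r, β, hr, h1, h2, h3⟩ := Bda_polar_tt _ he' φ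
  refine ⟨r, β, hr, h1, h2, ?_⟩
  have h4 := congrArg Prod.fst h3
  have h5 := congrArg Prod.snd h3
  simp only [tt, Prod.smul_fst, Prod.smul_snd, smul_eq_mul] at h4 h5
  apply Prod.ext
  · simp only [uu, Prod.smul_fst, smul_eq_mul]
    exact h5
  · simp only [uu, Prod.smul_snd, smul_eq_mul]
    linarith

theorem chord {l : ℝ → V} (h : Bd l) {φ ψ : ℝ} (h1 : φ ≤ ψ) (h2 : ψ ≤ φ + 2 * π) :
    ∃ ρ α : ℝ, 0 ≤ ρ ∧ φ ≤ α ∧ α ≤ ψ ∧ l ψ - l φ = ρ • tt α := by
  by_cases he : l ψ - l φ = 0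
  · exact ⟨0, φ, le_rfl, le_rfl, h1, by rw [he]; simp⟩
  obtain ⟨r, β, hr, hb1, hb2, hb3⟩ := Bda_polar_tt _ he φ
  by_cases hb : β ≤ ψ
  · exact ⟨r, β, hr.le, hb1, hb, hb3⟩
  push Not at hb
  exfalso
  have k1 : dt (uu φ) (l ψ - l φ) ≤ 0 := by rw [dt_sub]; linarith [h.supp φ ψ]
  have k2 : 0 ≤ dt (uu ψ) (l ψ - l φ) := by rw [dt_sub]; linarith [h.supp ψ φ]
  rw [hb3, dt_smul, dt_uu_tt] at k1 k2
  have m1 : Real.sin (φ - β) ≤ 0 := by
    by_contra hc
    push Not at hc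
    have := mul_pos hr hc
    linarith
  have m2 : 0 ≤ Real.sin (ψ - β) := by
    by_contra hc
    push Not at hc
    have := mul_pos hr (neg_pos.2 hc)
    linarith
  have hpp := Real.pi_pos
  have n1 : ψ - β ≤ -π := by
    by_contra hc
    push Not at hc
    have := Real.sin_neg_of_neg_of_neg_pi_lt (x := ψ - β) (by linarith) hc
    linarith
  have n2 : φ - β = -π := by
    by_contra hc
    have hlt : φ - β < -π := lt_of_le_of_ne (by linarith) hc
    have h3 : 0 < Real.sin (φ - β + 2 * π) :=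
      Real.sin_pos_of_pos_of_lt_pi (by linarith) (by linarith)
    rw [Real.sin_add_two_pi] at h3
    linarith
  have n3 : φ = ψ := by linarith
  apply he
  rw [n3, sub_self]

theorem tri {l : ℝ → V} (h : Bd l) {a b c : ℝ} (h1 : a ≤ b) (h2 : b ≤ c)
    (h3 : c ≤ a + 2 * π) : 0 ≤ cr (l b - l a) (l c - l b) := by
  obtain ⟨ρ, α, hρ, ha, hb, he⟩ := chord h h1 (by linarith)
  have hpp := Real.pi_pos
  have hcr : cr (l b - l a) (l c - l b) = ρ * (dt (uu α) (l b) - dt (uu α) (l c)) := by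
    rw [he]
    simp only [cr, dt, uu, tt, Prod.smul_fst, Prod.smul_snd, smul_eq_mul, Prod.fst_sub, Prod.snd_sub]
    ring
  rw [hcr]
  refine mul_nonneg hρ ?_
  by_cases hc : c ≤ α + π
  · linarith [dec h hb h2 hc]
  · push Not at hc
    have k1 := inc h (α := α + 2 * π) (φ := c) (ψ := a + 2 * π) (by linarith) h3 (by linarith)
    rw [uu_per, h.per] at k1
    have k2 : dt (uu α) (l b - l a) = 0 := by
      rw [he, dt_smul, dt_uu_tt, sub_self, Real.sin_zero, mul_zero]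
    rw [dt_sub] at k2
    linarith

theorem crpos {q : ℝ → V} (h : Bd q) (hs : ∀ θ, q (θ + π) = - q θ) {α β : ℝ} (h1 : α < β)
    (h2 : β < α + π) : 0 < cr (q α) (q β) := by
  have hpp := Real.pi_pos
  have hd : 0 < dt (uu α) (q α) := by
    have k := h.strict α (α + π) (Bda_uu_ne (show α < α + π by linarith) (by linarith)).symm
    rw [hs, dt_neg] at k
    linarith
  have hn0 : ((-(q α).2, (q α).1) : V) ≠ 0 := by
    intro hc
    have e1 := congrArg Prod.fst hc
    have e2 := congrArg Prod.snd hc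
    simp only [Prod.fst_zero, Prod.snd_zero] at e1 e2
    have : dt (uu α) (q α) = 0 := by
      simp only [dt]
      rw [e2, neg_eq_zero.1 e1]
      ring
    linarith
  obtain ⟨r, ν, hr, hν1, hν2, hn⟩ := Bda_polar_uu _ hn0 α
  have en1 := congrArg Prod.fst hn
  have en2 := congrArg Prod.snd hn
  simp only [uu, Prod.smul_fst, Prod.smul_snd, smul_eq_mul] at en1 en2
  have hsin : 0 < Real.sin (ν - α) := by
    have e : dt (uu α) (q α) = r * Real.sin (ν - α) := by
      simp only [dt, uu, Real.sin_sub]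
      rw [en2, show (q α).2 = -(r * Real.cos ν) by linarith]
      ring
    rw [e] at hd
    by_contra hc
    push Not at hc
    have := mul_nonneg hr.le (neg_nonneg.2 hc)
    linarith
  have hνπ : ν < α + π := by
    by_contra hc
    push Not at hc
    have h3 : 0 ≤ Real.sin (ν - α - π) :=
      Real.sin_nonneg_of_nonneg_of_le_pi (by linarith) (by linarith)
    rw [Real.sin_sub_pi] at h3
    linarith
  have hνα : α < ν := by
    rcases eq_or_lt_of_le hν1 with he | hlt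
    · rw [← he, sub_self, Real.sin_zero] at hsin
      exact absurd hsin (lt_irrefl _)
    · exact hlt
  have z1 : dt (uu ν) (q α) = 0 := by
    have : r * dt (uu ν) (q α) = 0 := by
      simp only [dt, uu]
      rw [en2, show (q α).2 = -(r * Real.cos ν) by linarith]
      ring
    rcases mul_eq_zero.1 this with h3 | h3
    · exact absurd h3 hr.ne'
    · exact h3
  have z2 : cr (q α) (q β) = r * dt (uu ν) (q β) := by
    simp only [cr, dt, uu]
    rw [en2, show (q α).2 = -(r * Real.cos ν) by linarith]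
    ring
  rw [z2]
  refine mul_pos hr ?_
  by_contra hc
  push Not at hc
  by_cases hβν : β ≤ ν
  · have u1 := fun e => Bda_uu_comb β α ν e
    have k1 := u1 (q β)
    have k2 := u1 (q α)
    have s1 : 0 ≤ Real.sin (ν - β) :=
      Real.sin_nonneg_of_nonneg_of_le_pi (by linarith) (by linarith)
    have s2 : Real.sin (α - β) ≤ 0 :=
      Real.sin_nonpos_of_nonpos_of_neg_pi_le (by linarith) (by linarith)
    have m1 := mul_le_mul_of_nonneg_left (h.supp α β) s1
    have m2 : 0 ≤ Real.sin (α - β) * dt (uu ν) (q β) := mul_nonneg_of_nonpos_of_nonpos s2 hc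
    rw [z1, mul_zero, sub_zero] at k2
    have m3 : Real.sin (ν - α) * dt (uu β) (q β) ≤ Real.sin (ν - α) * dt (uu β) (q α) := by
      rw [k1, k2]
      linarith
    have m4 := le_of_mul_le_mul_left m3 hsin
    have m5 := h.strict β α (Bda_uu_ne h1 (by linarith))
    linarith
  · push Not at hβν
    have u1 := fun e => Bda_uu_comb β ν (α + π) e
    have k1 := u1 (q β)
    have k2 := u1 (q (α + π))
    have s0 : 0 < Real.sin (α + π - ν) :=
      Real.sin_pos_of_pos_of_lt_pi (by linarith) (by linarith)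
    have s1 : 0 ≤ Real.sin (α + π - β) :=
      Real.sin_nonneg_of_nonneg_of_le_pi (by linarith) (by linarith)
    have s2 : Real.sin (ν - β) ≤ 0 :=
      Real.sin_nonpos_of_nonpos_of_neg_pi_le (by linarith) (by linarith)
    have z3 : dt (uu ν) (q (α + π)) = 0 := by rw [hs, dt_neg, z1, neg_zero]
    have m1 := mul_le_mul_of_nonneg_left (h.supp (α + π) β) (neg_nonneg.2 s2)
    have m2 : 0 ≤ Real.sin (α + π - β) * (- dt (uu ν) (q β)) := mul_nonneg s1 (neg_nonneg.2 hc)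
    rw [z3, mul_zero, zero_sub] at k2
    have m3 : Real.sin (α + π - ν) * dt (uu β) (q β) ≤
        Real.sin (α + π - ν) * dt (uu β) (q (α + π)) := by
      rw [k1, k2]
      linarith
    have m4 := le_of_mul_le_mul_left m3 s0
    have m5 := h.strict β (α + π) (Bda_uu_ne (show β < α + π by linarith) (by linarith)).symm
    linarith

theorem bdd {l : ℝ → V} (h : Bd l) : ∃ R : ℝ, 0 < R ∧ ∀ θ, ‖l θ‖ ≤ R := by
  have hb : Bornology.IsBounded (Set.range l) :=
    Function.Periodic.isBounded_of_continuous (f := l) (c := 2 * π) h.per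
      Real.two_pi_pos.ne' h.cont
  obtain ⟨R, hR⟩ := hb.exists_norm_le
  refine ⟨max R 1, lt_of_lt_of_le one_pos (le_max_right _ _), fun θ => ?_⟩
  exact (hR (l θ) ⟨θ, rfl⟩).trans (le_max_left _ _)

end ZP
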