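import Mathlib

/-!
ROW Cb.  Potentials.  If `c` is a nonnegative matrix such that every simple closed walk has product
at most `1`, there is a positive vector `t` with `c i j * t j ≤ t i`.

PROOF.  (1) Every closed walk (`w : ℕ → ι`, `w n = w 0`) has product `∏_{k < n} c (w k) (w (k + 1)) ≤ 1`:
strong induction on `n`.  If `w` is injective on `[0, n)` it is simple: hypothesis.  Otherwise
`a < b < n` with `w a = w b`: the walk is cut into the closed walk `k ↦ w (a + k)` of length `b - a` and the
closed walk `k ↦ if k ≤ a then w k else w (k + (b - a))` of length `n - (b - a)`; the product is the product of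
the two products (all factors are nonnegative).
(2) Let `W n i j` be the (finite) set of the products of the walks from `i` to `j` of length `n`; every walk of
length `n ≥ #ι` has a repeated vertex, so by cutting out a closed walk its product is at most the product of a shorter
walk with the same ends (nonnegative factors).  So by strong induction every walk product
is at most the product of a walk of length `< #ι` with the same first vertex and the same last vertex.
(3) `t i = ` the maximum of the products of all walks of length `< #ι` (or `≤ #ι`) starting at `i` (finitely many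
functions `Fin (#ι + 1) → ι`; or use `sSup` of a bounded set).  `t i ≥ 1` (length `0`), and `c i j * t j` is the product
of a walk of length `≤ #ι` starting at `i`, so it is `≤ t i`.
[Alternative: `t i = sSup` of the products of all walks starting at `i`; it is bounded by (2).]
-/

namespace ZP

/-- the product of a walk -/
def CbP {ι : Type} (c : ι → ι → ℝ) (w : ℕ → ι) (n : ℕ) : ℝ :=
  ∏ k ∈ Finset.range n, c (w k) (w (k + 1))

lemma CbP_nonneg {ι : Type} (c : ι → ι → ℝ) (hc : ∀ i j, 0 ≤ c i j) (w : ℕ → ι) (n : ℕ) :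
    0 ≤ CbP c w n := Finset.prod_nonneg fun k _ => hc _ _

/-- cutting out a closed walk -/
lemma CbP_cut {ι : Type} (c : ι → ι → ℝ) (w : ℕ → ι) (a d m : ℕ) (h : w a = w (a + d)) :
    CbP c w (a + (d + m)) = CbP c (fun k => w (a + k)) d *
      CbP c (fun k => if k ≤ a then w k else w (k + d)) (a + m) := by
  unfold CbP
  rw [Finset.prod_range_add, Finset.prod_range_add, Finset.prod_range_add]
  have e1 : ∏ x ∈ Finset.range a, c ((fun k => if k ≤ a then w k else w (k + d)) x)
      ((fun k => if k ≤ a then w k else w (k + d)) (x + 1))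
      = ∏ x ∈ Finset.range a, c (w x) (w (x + 1)) := by
    apply Finset.prod_congr rfl
    intro x hx
    have hx' := Finset.mem_range.1 hx
    show c (if x ≤ a then w x else w (x + d)) (if x + 1 ≤ a then w (x + 1) else w (x + 1 + d)) = _
    rw [if_pos (by omega), if_pos (by omega)]
  have e2 : ∏ x ∈ Finset.range m, c ((fun k => if k ≤ a then w k else w (k + d)) (a + x))
      ((fun k => if k ≤ a then w k else w (k + d)) (a + x + 1))
      = ∏ x ∈ Finset.range m, c (w (a + (d + x))) (w (a + (d + x) + 1)) := by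
    apply Finset.prod_congr rfl
    intro x hx
    show c (if a + x ≤ a then w (a + x) else w (a + x + d))
      (if a + x + 1 ≤ a then w (a + x + 1) else w (a + x + 1 + d)) = _
    rw [if_neg (by omega : ¬ a + x + 1 ≤ a)]
    have e3 : (if a + x ≤ a then w (a + x) else w (a + x + d)) = w (a + (d + x)) := by
      by_cases hx0 : x = 0
      · subst hx0
        rw [if_pos (by omega)]
        simpa using h
      · rw [if_neg (by omega)]
        congr 1
        omega
    rw [e3]
    congr 2
    omega
  rw [e1, e2]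
  have e4 : ∏ k ∈ Finset.range d, c ((fun k => w (a + k)) k) ((fun k => w (a + k)) (k + 1))
      = ∏ x ∈ Finset.range d, c (w (a + x)) (w (a + x + 1)) := rfl
  rw [e4]
  ring

/-- closed walks -/
lemma Cb_closed {ι : Type} (c : ι → ι → ℝ) (hc : ∀ i j, 0 ≤ c i j)
    (h : ∀ (n : ℕ) (w : ℕ → ι), w n = w 0 → (∀ a b, a < b → b < n → w a ≠ w b) →
      ∏ k ∈ Finset.range n, c (w k) (w (k + 1)) ≤ 1) :
    ∀ (n : ℕ) (w : ℕ → ι), w n = w 0 → CbP c w n ≤ 1 := by
  intro n
  induction n using Nat.strong_induction_on with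
  | _ n ih =>
    intro w hw
    by_cases hs : ∀ a b, a < b → b < n → w a ≠ w b
    · exact h n w hw hs
    · push Not at hs
      obtain ⟨a, b, hab, hbn, he⟩ := hs
      obtain ⟨d, rfl⟩ : ∃ d, b = a + d := ⟨b - a, by omega⟩
      obtain ⟨m, rfl⟩ : ∃ m, n = a + (d + m) := ⟨n - (a + d), by omega⟩
      rw [CbP_cut c w a d m he]
      have h1 := ih d (by omega) (fun k => w (a + k)) he.symm
      have h2 := ih (a + m) (by omega) (fun k => if k ≤ a then w k else w (k + d)) (by
        show (if a + m ≤ a then w (a + m) else w (a + m + d)) = if 0 ≤ a then w 0 else w (0 + d)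
        rw [if_neg (by omega), if_pos (by omega), ← hw]
        congr 1
        omega)
      exact mul_le_one₀ h1 (CbP_nonneg c hc _ _) h2

/-- all walks are bounded -/
lemma Cb_bdd {ι : Type} [Fintype ι] (c : ι → ι → ℝ) (hc : ∀ i j, 0 ≤ c i j)
    (h : ∀ (n : ℕ) (w : ℕ → ι), w n = w 0 → CbP c w n ≤ 1) (C : ℝ) (hC1 : 1 ≤ C)
    (hC : ∀ i j, c i j ≤ C) :
    ∀ (n : ℕ) (w : ℕ → ι), CbP c w n ≤ C ^ (Fintype.card ι) := by
  intro n
  induction n using Nat.strong_induction_on with
  | _ n ih =>
    intro w
    by_cases hn : n ≤ Fintype.card ι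
    · calc CbP c w n ≤ ∏ k ∈ Finset.range n, C :=
            Finset.prod_le_prod (fun k _ => hc _ _) fun k _ => hC _ _
        _ = C ^ n := by rw [Finset.prod_const, Finset.card_range]
        _ ≤ C ^ (Fintype.card ι) := pow_le_pow_right₀ hC1 hn
    · have hninj : ¬ Function.Injective (fun k : Fin (Fintype.card ι + 1) => w k.1) := by
        intro hinj
        have := Fintype.card_le_of_injective _ hinj
        rw [Fintype.card_fin] at this
        omega
      obtain ⟨a, b, hab, hbn, he⟩ : ∃ a b : ℕ, a < b ∧ b ≤ Fintype.card ι ∧ w a = w b := by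
        unfold Function.Injective at hninj
        push Not at hninj
        obtain ⟨a, b, he, hne⟩ := hninj
        rcases lt_trichotomy a.1 b.1 with h' | h' | h'
        · exact ⟨a.1, b.1, h', by omega, he⟩
        · exact absurd (Fin.ext h') hne
        · exact ⟨b.1, a.1, h', by omega, he.symm⟩
      obtain ⟨d, rfl⟩ : ∃ d, b = a + d := ⟨b - a, by omega⟩
      obtain ⟨m, rfl⟩ : ∃ m, n = a + (d + m) := ⟨n - (a + d), by omega⟩
      rw [CbP_cut c w a d m he]
      have h1 := h d (fun k => w (a + k)) he.symm
      have h2 := ih (a + m) (by omega) (fun k => if k ≤ a then w k else w (k + d))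
      calc _ ≤ 1 * CbP c (fun k => if k ≤ a then w k else w (k + d)) (a + m) :=
            mul_le_mul_of_nonneg_right h1 (CbP_nonneg c hc _ _)
        _ = CbP c (fun k => if k ≤ a then w k else w (k + d)) (a + m) := one_mul _
        _ ≤ _ := h2

/-- a step in front of a walk -/
lemma CbP_cons {ι : Type} (c : ι → ι → ℝ) (i : ι) (w : ℕ → ι) (n : ℕ) :
    CbP c (fun k => if k = 0 then i else w (k - 1)) (n + 1) = c i (w 0) * CbP c w n := by
  unfold CbP
  rw [Finset.prod_range_succ']
  have e1 : ∏ k ∈ Finset.range n, c ((fun k => if k = 0 then i else w (k - 1)) (k + 1))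
      ((fun k => if k = 0 then i else w (k - 1)) (k + 1 + 1))
      = ∏ k ∈ Finset.range n, c (w k) (w (k + 1)) := by
    apply Finset.prod_congr rfl
    intro k _
    show c (if k + 1 = 0 then i else w (k + 1 - 1)) (if k + 1 + 1 = 0 then i else w (k + 1 + 1 - 1))
      = _
    rw [if_neg (by omega), if_neg (by omega)]
    rfl
  rw [e1, mul_comm]
  rfl

theorem Cb {ι : Type} [Fintype ι] [DecidableEq ι] (c : ι → ι → ℝ) (hc : ∀ i j, 0 ≤ c i j)
    (h : ∀ (n : ℕ) (w : ℕ → ι), w n = w 0 → (∀ a b, a < b → b < n → w a ≠ w b) →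
      ∏ k ∈ Finset.range n, c (w k) (w (k + 1)) ≤ 1) :
    ∃ t : ι → ℝ, (∀ i, 0 < t i) ∧ ∀ i j, c i j * t j ≤ t i := by
  have h1 := Cb_closed c hc h
  set C : ℝ := 1 + ∑ i, ∑ j, c i j with hCdef
  have hsum : 0 ≤ ∑ i, ∑ j, c i j := Finset.sum_nonneg fun i _ => Finset.sum_nonneg fun j _ => hc i j
  have hC : ∀ i j, c i j ≤ C := by
    intro i j
    have e1 : c i j ≤ ∑ j, c i j :=
      Finset.single_le_sum (f := fun j => c i j) (fun j _ => hc i j) (Finset.mem_univ j)
    have e2 : ∑ j, c i j ≤ ∑ i, ∑ j, c i j :=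
      Finset.single_le_sum (f := fun i => ∑ j, c i j)
        (fun i _ => Finset.sum_nonneg fun j _ => hc i j) (Finset.mem_univ i)
    linarith
  have hb := Cb_bdd c hc h1 C (by linarith) hC
  let S : ι → Set ℝ := fun i => {x | ∃ (n : ℕ) (w : ℕ → ι), w 0 = i ∧ x = CbP c w n}
  have hS1 : ∀ i, (1 : ℝ) ∈ S i := fun i => ⟨0, fun _ => i, rfl, by simp [CbP]⟩
  have hSb : ∀ i, BddAbove (S i) := by
    intro i
    refine ⟨C ^ (Fintype.card ι), ?_⟩
    rintro x ⟨n, w, -, rfl⟩
    exact hb n w
  refine ⟨fun i => sSup (S i), fun i => ?_, fun i j => ?_⟩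
  · exact lt_of_lt_of_le one_pos (le_csSup (hSb i) (hS1 i))
  · have hpos : 0 < sSup (S i) := lt_of_lt_of_le one_pos (le_csSup (hSb i) (hS1 i))
    rcases (hc i j).eq_or_lt with h0 | h0
    · rw [← h0, zero_mul]
      exact hpos.le
    · rw [mul_comm, ← le_div_iff₀ h0]
      apply csSup_le ⟨1, hS1 j⟩
      rintro x ⟨n, w, hw, rfl⟩
      rw [le_div_iff₀ h0]
      apply le_csSup (hSb i)
      refine ⟨n + 1, fun k => if k = 0 then i else w (k - 1), by simp, ?_⟩
      rw [CbP_cons, hw, mul_comm]

end ZP
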