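import Pool.Agent.H73.ZP.Ca
import Pool.Agent.H73.ZP.Cb

/-!
ROW Cc.  Fair weights.  Abstract form: `G i e ≥ 0` is the value of player `i` on the item `e < n`,
`n ≤ #ι * M`, every player is positive on some item.  There are weights `t` (maximum `1`) and an
assignment `x` such that `t (x e) * G (x e) e` is the maximum of the `t i * G i e`, with loads at most `M`
(only items of positive value are counted).

PROOF.  `Ca` (with `sup i e` : `0 < G i e`, `X = range n`) gives `S` and `x₀`.  Let `Y` be the set of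
the items supported by `S`.  Among all permutations `π` of `Y` choose one which maximises
`∏_{e ∈ Y} G (x₀ (π e)) e` (finitely many; the identity gives a positive product, so the maximum is positive and
all its factors are positive), and put `x = x₀ ∘ π` on `Y`.  The loads of `x` and `x₀` are the same (`π` is a bijection
of `Y`), and for every permutation `ρ` of `Y` : `∏ G (x (ρ e)) e ≤ ∏ G (x e) e`.
Let `I = x (Y)` (a nonempty subset of `S`, since every player of `S` is positive on some item), and for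
`i, j ∈ I` let `c i j = max_{e ∈ Y, x e = i} G j e / G i e`, and `c i j = 0` if `i` or `j` is not in `I`.
SIMPLE CLOSED WALKS have product `≤ 1`: let `w 0, ..., w (n - 1)` be distinct, `w n = w 0`.  If some factor is
`0` we are done.  Otherwise let `e k ∈ Y` be an item with `x (e k) = w k` and
`c (w k) (w (k + 1)) = G (w (k + 1)) (e k) / G (w k) (e k)`; the `e k` (`k < n`) are distinct since `x (e k) = w k`.
Let `ρ` be the permutation with `ρ (e k) = e (k + 1)` (indices mod `n`) and `ρ e = e` otherwise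
(`List.formPerm`, or build it by hand).  `x (ρ (e k)) = w (k + 1)`.  Then
`∏_k c (w k) (w (k + 1)) = (∏_e G (x (ρ e)) e) / (∏_e G (x e) e) ≤ 1`.  (`n = 0`: empty product; `n = 1`: `c i i = 1`.)
`Cb` gives `t > 0`; put `t i = 0` for `i ∉ I` and divide by the maximum.  For `e ∈ Y`, `x e = i`, `j ∈ I`:
`t j * G j e ≤ t j * c i j * G i e ≤ t i * G i e`.  For `e ∉ Y`, `j ∈ I ⊆ S`: `G j e = 0`; so put
`x e` = an element of `I` (then `t (x e) * G (x e) e = 0`, not counted in the loads).
-/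

namespace ZP

private theorem Cc_perm {ι : Type} [Fintype ι] [DecidableEq ι] {Y : Type} [Fintype Y] [DecidableEq Y]
    (G : ι → Y → ℝ) (hG : ∀ i e, 0 ≤ G i e) (x₀ : Y → ι) (hx : ∀ e, 0 < G (x₀ e) e) :
    ∃ π : Equiv.Perm Y, (∀ e, 0 < G (x₀ (π e)) e) ∧
      ∀ ρ : Equiv.Perm Y, ∏ e, G (x₀ (π (ρ e))) e ≤ ∏ e, G (x₀ (π e)) e := by
  obtain ⟨π, _, hπ⟩ := Finset.exists_max_image (Finset.univ : Finset (Equiv.Perm Y))
    (fun π => ∏ e, G (x₀ (π e)) e) ⟨1, Finset.mem_univ _⟩
  refine ⟨π, ?_, fun ρ => hπ (π * ρ) (Finset.mem_univ _)⟩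
  have h1 : 0 < ∏ e, G (x₀ e) e := Finset.prod_pos fun e _ => hx e
  have h2 := h1.trans_le (hπ 1 (Finset.mem_univ _))
  intro e
  refine lt_of_le_of_ne (hG _ _) fun h => ?_
  have h3 : ∏ e, G (x₀ (π e)) e = 0 := Finset.prod_eq_zero (Finset.mem_univ e) h.symm
  linarith

private theorem Cc_walk {ι : Type} [Fintype ι] [DecidableEq ι] {Y : Type} [Fintype Y] [DecidableEq Y]
    (G : ι → Y → ℝ) (x : Y → ι) (hx : ∀ e, 0 < G (x e) e)
    (hρ : ∀ ρ : Equiv.Perm Y, ∏ e, G (x (ρ e)) e ≤ ∏ e, G (x e) e)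
    (N : ℕ) (w : ℕ → ι) (hw : w N = w 0) (hd : ∀ a b, a < b → b < N → w a ≠ w b)
    (e : ℕ → Y) (he : ∀ k, k < N → x (e k) = w k) :
    ∏ k ∈ Finset.range N, G (w (k + 1)) (e k) / G (w k) (e k) ≤ 1 := by
  have hinj : ∀ a, a < N → ∀ b, b < N → e a = e b → a = b := by
    intro a ha b hb hab
    rcases lt_trichotomy a b with h | h | h
    · exact absurd (by rw [← he a ha, ← he b hb, hab]) (hd a b h hb)
    · exact h
    · exact absurd (by rw [← he a ha, ← he b hb, hab]) (hd b a h ha)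
  have hnd : ((List.range N).map e).Nodup := by
    refine List.Nodup.map_on ?_ List.nodup_range
    intro a ha b hb hab
    exact hinj a (List.mem_range.1 ha) b (List.mem_range.1 hb) hab
  obtain ⟨ρ, hρdef⟩ : ∃ ρ : Equiv.Perm Y, ρ = ((List.range N).map e).formPerm := ⟨_, rfl⟩
  have h1 : ∀ k, k < N → x (ρ (e k)) = w (k + 1) := by
    intro k hk
    have hlen : ((List.range N).map e).length = N := by simp
    have h2 := List.formPerm_apply_getElem ((List.range N).map e) hnd k (by rw [hlen]; exact hk)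
    have h3 : ρ (e k) = e ((k + 1) % N) := by
      rw [hρdef]
      simpa using h2
    rw [h3]
    rcases Nat.lt_or_ge (k + 1) N with h | h
    · rw [Nat.mod_eq_of_lt h, he _ h]
    · have h4 : k + 1 = N := by omega
      rw [h4, Nat.mod_self, he 0 (by omega), hw]
  have h2 : ∀ y, y ∉ (Finset.range N).image e → ρ y = y := by
    intro y hy
    rw [hρdef]
    refine List.formPerm_apply_of_notMem ?_
    intro h
    rw [List.mem_map] at h
    obtain ⟨k, hk, rfl⟩ := h
    exact hy (Finset.mem_image_of_mem _ (Finset.mem_range.2 (List.mem_range.1 hk)))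
  have h3 : ∏ k ∈ Finset.range N, G (w (k + 1)) (e k) / G (w k) (e k) =
      ∏ y ∈ (Finset.range N).image e, G (x (ρ y)) y / G (x y) y := by
    rw [Finset.prod_image]
    · refine Finset.prod_congr rfl fun k hk => ?_
      rw [Finset.mem_range] at hk
      rw [h1 k hk, he k hk]
    · intro a ha b hb hab
      exact hinj a (Finset.mem_range.1 ha) b (Finset.mem_range.1 hb) hab
  have h4 : ∏ y ∈ (Finset.range N).image e, G (x (ρ y)) y / G (x y) y = ∏ y, G (x (ρ y)) y / G (x y) y := by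
    refine Finset.prod_subset (Finset.subset_univ _) fun y _ hy => ?_
    rw [h2 y hy, div_self (hx y).ne']
  rw [h3, h4, Finset.prod_div_distrib, div_le_one (Finset.prod_pos fun y _ => hx y)]
  exact hρ ρ

theorem Cc {ι : Type} [Fintype ι] [DecidableEq ι] [Nonempty ι] (n M : ℕ) (G : ι → ℕ → ℝ)
    (hG : ∀ i e, 0 ≤ G i e) (hn : n ≤ Fintype.card ι * M)
    (hp : ∀ i, ∃ e, e < n ∧ 0 < G i e) :
    ∃ (t : ι → ℝ) (x : ℕ → ι), (∀ i, 0 ≤ t i) ∧ (∀ i, t i ≤ 1) ∧ (∃ i, t i = 1) ∧
      (∀ e, e < n → ∀ j, t j * G j e ≤ t (x e) * G (x e) e) ∧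
      ∀ i, ((Finset.range n).filter (fun e => x e = i ∧ 0 < t i * G i e)).card ≤ M := by
  classical
  obtain ⟨S, x₀, ⟨s0, hs0⟩, hx₀, hload⟩ := Ca (Finset.range n) M (fun i e => 0 < G i e)
    (by rwa [Finset.card_range])
  obtain ⟨Y, hY⟩ : ∃ Y : Finset ℕ, Y = (Finset.range n).filter (fun e => ∃ i ∈ S, 0 < G i e) := ⟨_, rfl⟩
  have hYmem : ∀ e, e ∈ Y ↔ e < n ∧ ∃ i ∈ S, 0 < G i e := by
    intro e
    rw [hY, Finset.mem_filter, Finset.mem_range]
  have hxY : ∀ e ∈ Y, x₀ e ∈ S ∧ 0 < G (x₀ e) e := by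
    intro e he
    obtain ⟨h1, h2⟩ := (hYmem e).1 he
    exact hx₀ e (Finset.mem_range.2 h1) h2
  obtain ⟨π, hπ1, hπ2⟩ := Cc_perm (Y := {e // e ∈ Y}) (fun i e => G i e.1) (fun i e => hG i e.1)
    (fun e => x₀ e.1) (fun e => (hxY e.1 e.2).2)
  obtain ⟨xY, hxYd⟩ : ∃ xY : {e // e ∈ Y} → ι, xY = fun e => x₀ (π e).1 := ⟨_, rfl⟩
  have hpos : ∀ e : {e // e ∈ Y}, 0 < G (xY e) e.1 := by
    intro e
    rw [hxYd]
    exact hπ1 e
  have hmax : ∀ ρ : Equiv.Perm {e // e ∈ Y}, ∏ e : {e // e ∈ Y}, G (xY (ρ e)) e.1 ≤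
      ∏ e : {e // e ∈ Y}, G (xY e) e.1 := by
    intro ρ
    rw [hxYd]
    exact hπ2 ρ
  have hxS : ∀ e : {e // e ∈ Y}, xY e ∈ S := by
    intro e
    rw [hxYd]
    exact (hxY (π e).1 (π e).2).1
  obtain ⟨e0, he0, hGe0⟩ := hp s0
  have hne : Nonempty {e // e ∈ Y} := ⟨⟨e0, (hYmem e0).2 ⟨he0, s0, hs0, hGe0⟩⟩⟩
  obtain ⟨c, hc⟩ : ∃ c : ι → ι → ℝ, c = fun i j => Finset.univ.sup' Finset.univ_nonempty
    (fun e : {e // e ∈ Y} => if xY e = i then G j e.1 / G i e.1 else 0) := ⟨_, rfl⟩
  have hcle : ∀ (e : {e // e ∈ Y}) (j : ι), G j e.1 / G (xY e) e.1 ≤ c (xY e) j := by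
    intro e j
    rw [hc]
    have h1 := Finset.le_sup' (fun e' : {e // e ∈ Y} => if xY e' = xY e then G j e'.1 / G (xY e) e'.1 else 0)
      (Finset.mem_univ e)
    simpa using h1
  have hc0 : ∀ i j, 0 ≤ c i j := by
    intro i j
    rw [hc]
    obtain ⟨e⟩ := hne
    refine le_trans ?_ (Finset.le_sup' (fun e : {e // e ∈ Y} => if xY e = i then G j e.1 / G i e.1 else 0)
      (Finset.mem_univ e))
    show 0 ≤ if xY e = i then G j e.1 / G i e.1 else 0
    split_ifs
    · exact div_nonneg (hG _ _) (hG _ _)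
    · exact le_rfl
  obtain ⟨t0, ht0, htc⟩ := Cb c hc0 (by
    intro N w hw hd
    have hat : ∀ k, ∃ e : {e // e ∈ Y}, c (w k) (w (k + 1)) =
        if xY e = w k then G (w (k + 1)) e.1 / G (w k) e.1 else 0 := by
      intro k
      obtain ⟨e, _, he⟩ := Finset.exists_mem_eq_sup' (Finset.univ_nonempty (α := {e // e ∈ Y}))
        (fun e : {e // e ∈ Y} => if xY e = w k then G (w (k + 1)) e.1 / G (w k) e.1 else 0)
      exact ⟨e, by rw [hc]; exact he⟩
    choose e he using hat
    by_cases hall : ∀ k, k < N → xY (e k) = w k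
    · have h1 := Cc_walk (Y := {e // e ∈ Y}) (fun i e => G i e.1) xY hpos hmax N w hw hd e hall
      refine le_trans (le_of_eq ?_) h1
      refine Finset.prod_congr rfl fun k hk => ?_
      rw [he k, if_pos (hall k (Finset.mem_range.1 hk))]
    · push Not at hall
      obtain ⟨k, hk, hkn⟩ := hall
      rw [Finset.prod_eq_zero (Finset.mem_range.2 hk) (by rw [he k, if_neg hkn])]
      exact zero_le_one)
  obtain ⟨I, hI⟩ : ∃ I : Finset ι, I = Finset.univ.image xY := ⟨_, rfl⟩
  have hxI : ∀ e : {e // e ∈ Y}, xY e ∈ I := fun e => by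
    rw [hI]
    exact Finset.mem_image_of_mem _ (Finset.mem_univ _)
  have hIS : ∀ i ∈ I, i ∈ S := by
    intro i hi
    rw [hI, Finset.mem_image] at hi
    obtain ⟨e, _, rfl⟩ := hi
    exact hxS e
  obtain ⟨y0⟩ := hne
  obtain ⟨i1, hi1, hi1m⟩ := Finset.exists_max_image I t0 ⟨xY y0, hxI y0⟩
  have hm := ht0 i1
  obtain ⟨t, ht⟩ : ∃ t : ι → ℝ, t = fun i => if i ∈ I then t0 i / t0 i1 else 0 := ⟨_, rfl⟩
  have htI : ∀ i ∈ I, t i = t0 i / t0 i1 := fun i hi => by rw [ht]; exact if_pos hi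
  have htn : ∀ i, i ∉ I → t i = 0 := fun i hi => by rw [ht]; exact if_neg hi
  have htnn : ∀ i, 0 ≤ t i := by
    intro i
    by_cases hi : i ∈ I
    · rw [htI i hi]
      exact div_nonneg (ht0 i).le hm.le
    · rw [htn i hi]
  obtain ⟨x, hx⟩ : ∃ x : ℕ → ι, x = fun e => if h : e ∈ Y then xY ⟨e, h⟩ else xY y0 := ⟨_, rfl⟩
  have hxin : ∀ e (h : e ∈ Y), x e = xY ⟨e, h⟩ := fun e h => by rw [hx]; exact dif_pos h
  have hxout : ∀ e, e ∉ Y → x e = xY y0 := fun e h => by rw [hx]; exact dif_neg h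
  refine ⟨t, x, htnn, ?_, ⟨i1, ?_⟩, ?_, ?_⟩
  · intro i
    by_cases hi : i ∈ I
    · rw [htI i hi, div_le_one hm]
      exact hi1m i hi
    · rw [htn i hi]
      exact zero_le_one
  · rw [htI i1 hi1, div_self hm.ne']
  · intro e he j
    by_cases hj : j ∈ I
    · by_cases heY : e ∈ Y
      · have hi := hxI ⟨e, heY⟩
        rw [hxin e heY, htI j hj, htI _ hi]
        have h1 := hcle ⟨e, heY⟩ j
        have h2 := htc (xY ⟨e, heY⟩) j
        have h3 := hpos ⟨e, heY⟩
        have h4 : G j e / G (xY ⟨e, heY⟩) e * t0 j ≤ t0 (xY ⟨e, heY⟩) :=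
          (mul_le_mul_of_nonneg_right h1 (ht0 j).le).trans h2
        have h5 : G j e * t0 j ≤ t0 (xY ⟨e, heY⟩) * G (xY ⟨e, heY⟩) e := by
          rw [div_mul_eq_mul_div, div_le_iff₀ h3] at h4
          exact h4
        rw [div_mul_eq_mul_div, div_mul_eq_mul_div]
        refine div_le_div_of_nonneg_right ?_ hm.le
        linarith
      · have h0 : G j e = 0 := by
          by_contra h
          exact heY ((hYmem e).2 ⟨he, j, hIS j hj, lt_of_le_of_ne (hG j e) (Ne.symm h)⟩)
        rw [h0, mul_zero]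
        exact mul_nonneg (htnn _) (hG _ _)
    · rw [htn j hj, zero_mul]
      exact mul_nonneg (htnn _) (hG _ _)
  · intro i
    have h1 : ((Finset.range n).filter (fun e => x e = i ∧ 0 < t i * G i e)).card ≤
        ((Finset.univ : Finset {e // e ∈ Y}).filter (fun y => xY y = i)).card := by
      have h2 : (Finset.range n).filter (fun e => x e = i ∧ 0 < t i * G i e) ⊆
          ((Finset.univ : Finset {e // e ∈ Y}).filter (fun y => xY y = i)).image Subtype.val := by
        intro e he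
        rw [Finset.mem_filter, Finset.mem_range] at he
        obtain ⟨hen, hei, hepos⟩ := he
        have hiI : i ∈ I := by
          by_contra h
          rw [htn i h, zero_mul] at hepos
          exact lt_irrefl _ hepos
        have hGp : 0 < G i e := by
          refine lt_of_le_of_ne (hG i e) fun h => ?_
          rw [← h, mul_zero] at hepos
          exact lt_irrefl _ hepos
        have heY : e ∈ Y := (hYmem e).2 ⟨hen, i, hIS i hiI, hGp⟩
        rw [Finset.mem_image]
        refine ⟨⟨e, heY⟩, ?_, rfl⟩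
        rw [Finset.mem_filter]
        exact ⟨Finset.mem_univ _, by rw [← hxin e heY]; exact hei⟩
      exact (Finset.card_le_card h2).trans Finset.card_image_le
    have h2 : ((Finset.univ : Finset {e // e ∈ Y}).filter (fun y => xY y = i)).card =
        ((Finset.univ : Finset {e // e ∈ Y}).filter (fun y => x₀ y.1 = i)).card := by
      refine Finset.card_bij (fun y _ => π y) ?_ ?_ ?_
      · intro y hy
        rw [Finset.mem_filter] at hy ⊢
        refine ⟨Finset.mem_univ _, ?_⟩
        rw [← hy.2, hxYd]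
      · intro a _ b _ hab
        exact π.injective hab
      · intro y hy
        rw [Finset.mem_filter] at hy
        refine ⟨π.symm y, ?_, π.apply_symm_apply y⟩
        rw [Finset.mem_filter]
        refine ⟨Finset.mem_univ _, ?_⟩
        rw [hxYd]
        show x₀ (π (π.symm y)).1 = i
        rw [π.apply_symm_apply]
        exact hy.2
    have h3 : ((Finset.univ : Finset {e // e ∈ Y}).filter (fun y => x₀ y.1 = i)).card =
        (Y.filter (fun e => x₀ e = i)).card := by
      refine Finset.card_bij (fun y _ => y.1) ?_ ?_ ?_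
      · intro y hy
        rw [Finset.mem_filter] at hy ⊢
        exact ⟨y.2, hy.2⟩
      · intro a _ b _ hab
        exact Subtype.ext hab
      · intro e he
        rw [Finset.mem_filter] at he
        exact ⟨⟨e, he.1⟩, Finset.mem_filter.2 ⟨Finset.mem_univ _, he.2⟩, rfl⟩
    have h4 : (Y.filter (fun e => x₀ e = i)).card =
        Set.ncard {e | e ∈ Finset.range n ∧ (∃ j ∈ S, 0 < G j e) ∧ x₀ e = i} := by
      rw [← Set.ncard_coe_finset]
      congr 1
      ext e
      rw [Finset.mem_coe, Finset.mem_filter, hYmem]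
      simp only [Set.mem_ofPred_eq, Finset.mem_range]
      tauto
    rw [h2, h3, h4] at h1
    exact h1.trans (hload i)

end ZP
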