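import Pool.Agent.H73.ZP.Ck
import Pool.Agent.H73.ZP.Cc

/-!
ROW Cl.  CORE.

PROOF.  `Cc` with `ι = Fin 6`, `n = 6 M`, `G i e = gg (P i) (Q i) (v e)`; every player is positive on some
`e < 6 M`: `dt (P i) (v e) ≠ 0` for `e = 0` or `e = 1` [`M ≥ 1`; `cr (v 0) (v 1) > 0` and `P i ≠ 0`], and
`v (e + 3 M) = - v e`.  Extend `x` to `ℤ` with period `6 M` (`x (e mod 6 M)`), this gives `Fair`.
Sum `Ck` over `r = 0, ..., M - 1`: the left side is the sum over all `m < 6 M`
(`m = r + k M`), and `mu (gg ..) (fun k => v (r + k M)) = min (Ee ..) (Oo ..)`.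
-/

open Real

namespace ZP

theorem Cl_gg_nonneg (A B w : V) : 0 ≤ gg A B w := le_max_left _ _

theorem Cl_sum (f : ℕ → ℝ) (M n : ℕ) :
    ∑ m ∈ Finset.range (n * M), f m = ∑ r ∈ Finset.range M, ∑ k ∈ Finset.range n, f (r + k * M) := by
  rw [Finset.sum_comm]
  induction n with
  | zero => simp
  | succ n ih =>
    rw [Finset.sum_range_succ, ← ih, Nat.succ_mul, Finset.sum_range_add]
    congr 1
    refine Finset.sum_congr rfl fun r _ => ?_
    rw [add_comm]

theorem Cl_pos {M : ℕ} {v : ℤ → V} (h : Hx M v) {A B : V} (hAB : 0 < cr A B) :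
    ∃ e : ℕ, e < 6 * M ∧ 0 < gg A B (v (e : ℤ)) := by
  have hM : 1 ≤ M := h.pos
  have key : ∀ e : ℕ, e ≤ 1 → dt A (v (e : ℤ)) ≠ 0 →
      ∃ e : ℕ, e < 6 * M ∧ 0 < gg A B (v (e : ℤ)) := by
    intro e he hne
    rcases lt_or_gt_of_ne hne with h1 | h1
    · refine ⟨e + 3 * M, by omega, ?_⟩
      have h2 : v (((e + 3 * M : ℕ) : ℤ)) = - v (e : ℤ) := by
        rw [← h.half]
        congr 1
      rw [h2]
      have h3 : 0 < dt A (- v (e : ℤ)) := by
        have h4 : dt A (- v (e : ℤ)) = - dt A (v (e : ℤ)) := by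
          unfold dt
          simp only [Prod.fst_neg, Prod.snd_neg]
          ring
        rw [h4]
        linarith
      exact lt_of_lt_of_le h3 ((le_max_left _ _).trans (le_max_right _ _))
    · exact ⟨e, by omega, lt_of_lt_of_le h1 ((le_max_left _ _).trans (le_max_right _ _))⟩
  by_cases h0 : dt A (v ((0 : ℕ) : ℤ)) = 0
  · by_cases h1 : dt A (v ((1 : ℕ) : ℤ)) = 0
    · exfalso
      have hc : 0 < cr (v 0) (v 1) := hx_ccw h 0 1 (by norm_num) (by
        have : (1 : ℤ) ≤ M := by exact_mod_cast hM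
        linarith)
      rw [Nat.cast_zero] at h0
      rw [Nat.cast_one] at h1
      unfold dt at h0 h1
      unfold cr at hc hAB
      have e1 : A.1 * ((v 0).1 * (v 1).2 - (v 0).2 * (v 1).1) = 0 := by
        linear_combination (v 1).2 * h0 - (v 0).2 * h1
      have e2 : A.2 * ((v 0).1 * (v 1).2 - (v 0).2 * (v 1).1) = 0 := by
        linear_combination (v 0).1 * h1 - (v 1).1 * h0
      have a1 : A.1 = 0 := by
        rcases mul_eq_zero.1 e1 with h5 | h5
        · exact h5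
        · exact absurd h5 hc.ne'
      have a2 : A.2 = 0 := by
        rcases mul_eq_zero.1 e2 with h5 | h5
        · exact h5
        · exact absurd h5 hc.ne'
      rw [a1, a2] at hAB
      simp at hAB
    · exact key 1 le_rfl h1
  · exact key 0 (by norm_num) h0

theorem Cl_fair {M : ℕ} {v : ℤ → V} (h : Hx M v) {P Q : Fin 6 → V} {t : Fin 6 → ℝ} {x : ℕ → Fin 6}
    (h0 : ∀ i, 0 ≤ t i)
    (hmax : ∀ e, e < 6 * M → ∀ j, t j * gg (P j) (Q j) (v (e : ℤ)) ≤
      t (x e) * gg (P (x e)) (Q (x e)) (v (e : ℤ)))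
    (hload : ∀ i, ((Finset.range (6 * M)).filter
      (fun e => x e = i ∧ 0 < t i * gg (P i) (Q i) (v (e : ℤ)))).card ≤ M) :
    Fair M v P Q t (fun e => x (e % (6 * M)).toNat) := by
  have hM : (0 : ℤ) < 6 * M := by
    have : (0 : ℤ) < M := by exact_mod_cast h.pos
    linarith
  refine ⟨h0, ?_, ?_, ?_⟩
  · intro e
    show x ((e + 6 * M) % (6 * M)).toNat = x (e % (6 * M)).toNat
    rw [Int.add_emod_right]
  · intro e j
    have a1 := Int.emod_nonneg e hM.ne'
    have a2 := Int.emod_lt_of_pos e hM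
    obtain ⟨n, hn⟩ := Int.eq_ofNat_of_zero_le a1
    have hv : v e = v (n : ℤ) := by
      rw [← Cj_vper' h (e / (6 * M)) (n : ℤ), ← hn]
      congr 1
      have := Int.emod_add_mul_ediv e (6 * (M : ℤ))
      linarith
    have h3 := hmax n (by omega) j
    show t j * gg (P j) (Q j) (v e) ≤ t (x (e % (6 * M)).toNat) *
      gg (P (x (e % (6 * M)).toNat)) (Q (x (e % (6 * M)).toNat)) (v e)
    rw [hn, Int.toNat_natCast, hv]
    exact h3
  · intro i
    refine le_trans (Finset.card_le_card_of_injOn Int.toNat ?_ ?_) (hload i)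
    · intro e he
      rw [Finset.mem_coe, Finset.mem_filter, Finset.mem_Ico] at he
      obtain ⟨⟨e1, e2⟩, e3, e4⟩ := he
      obtain ⟨n, rfl⟩ := Int.eq_ofNat_of_zero_le e1
      rw [Finset.mem_coe, Finset.mem_filter, Finset.mem_range, Int.toNat_natCast]
      refine ⟨by omega, ?_, e4⟩
      have e5 : (n : ℤ) % (6 * M) = n := Int.emod_eq_of_lt e1 e2
      rw [e5, Int.toNat_natCast] at e3
      exact e3
    · intro a ha b hb hab
      rw [Finset.mem_coe, Finset.mem_filter, Finset.mem_Ico] at ha hb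
      omega

theorem Cl {M : ℕ} {v : ℤ → V} (h : Hx M v) {P Q : Fin 6 → V}
    (hPQ : ∀ i, 0 < cr (P i) (Q i)) (hg : Gen12 P Q) :
    ∃ t : Fin 6 → ℝ, (∀ i, 0 ≤ t i) ∧ (∀ i, t i ≤ 1) ∧ (∃ i, t i = 1) ∧
      ∑ m ∈ Finset.range (6 * M), mx t P Q (v m) ≤
        ∑ i, t i * ∑ r ∈ Finset.range M,
          min (Ee (gg (P i) (Q i)) M v r) (Oo (gg (P i) (Q i)) M v r) := by
  obtain ⟨t, x, h0, h1, hex, hmax, hload⟩ := Cc (ι := Fin 6) (6 * M) M
    (fun i e => gg (P i) (Q i) (v (e : ℤ))) (fun i e => Cl_gg_nonneg _ _ _)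
    (by rw [Fintype.card_fin]) (fun i => Cl_pos h (hPQ i))
  refine ⟨t, h0, h1, hex, ?_⟩
  have hf := Cl_fair h h0 hmax hload
  have hr : ∀ r ∈ Finset.range M, ∑ k ∈ Finset.range 6, mx t P Q (v (((r + k * M : ℕ) : ℤ))) ≤
      ∑ i, t i * min (Ee (gg (P i) (Q i)) M v r) (Oo (gg (P i) (Q i)) M v r) := by
    intro r _
    have h2 := Ck h hPQ hg hf (r : ℤ)
    have e1 : ∑ k ∈ Finset.range 6, mx t P Q (v (((r + k * M : ℕ) : ℤ))) =
        ∑ k ∈ Finset.range 6, mx t P Q (v ((r : ℤ) + k * M)) := by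
      refine Finset.sum_congr rfl fun k _ => ?_
      push_cast
      rfl
    rw [e1]
    refine h2.trans (le_of_eq (Finset.sum_congr rfl fun i _ => ?_))
    congr 1
    unfold mu Ee Oo
    simp only [zero_mul, add_zero, one_mul]
  have hs : ∑ m ∈ Finset.range (6 * M), mx t P Q (v (m : ℤ)) =
      ∑ r ∈ Finset.range M, ∑ k ∈ Finset.range 6, mx t P Q (v (((r + k * M : ℕ) : ℤ))) :=
    Cl_sum (fun m => mx t P Q (v (m : ℤ))) M 6
  rw [hs]
  refine (Finset.sum_le_sum hr).trans (le_of_eq ?_)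
  rw [Finset.sum_comm]
  refine Finset.sum_congr rfl fun i _ => ?_
  rw [Finset.mul_sum]

end ZP
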