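import Pool.Agent.H73.ZP.Ch

/-!
ROW Ge.  Generic perturbation.

PROOF.  (1) With `J w = (- w.2, w.1)`: `P₁ = P i - s • J (Q i)`, `Q₁ = Q i + s • J (P i)` satisfies
`cr P₁ Q₁ = cr P Q + s (|P|² + |Q|²) + s² cr P Q > 0` for `s > 0` (here `cr P Q ≥ 0`, `|P|² = dt P P`).
(2) Then `P₂ i = P₁ i + u • (1, i)`, `Q₂ i = Q₁ i + u • (1, 6 + i)` with `u > 0` small (`i = 0, ..., 5`): for two
of the 12 vectors the determinant is a polynomial of degree 2 in `u` with leading coefficient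
`j - i ≠ 0` (`cr (1, i) (1, j) = j - i`), so it vanishes for at most two `u`; all but finitely many `u`
work; and for `u` small the inequality `cr > 0` and the distance bounds are kept (continuity).
-/

open Real

namespace ZP

/-- the determinant of two quadratic families is not zero, with finitely many exceptions -/
theorem Ge_fin (p a p' a' : V) {c c' : ℝ} (h : c ≠ c') :
    {u : ℝ | cr (p + u • a + u ^ 2 • ((1, c) : V)) (p' + u • a' + u ^ 2 • ((1, c') : V)) = 0}.Finite := by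
  set F : Polynomial ℝ := Polynomial.C (c' - c) * Polynomial.X ^ 4 +
    Polynomial.C (a.1 * c' + a'.2 - a.2 - c * a'.1) * Polynomial.X ^ 3 +
    Polynomial.C (p.1 * c' + a.1 * a'.2 + p'.2 - p.2 - a.2 * a'.1 - c * p'.1) * Polynomial.X ^ 2 +
    Polynomial.C (p.1 * a'.2 + a.1 * p'.2 - p.2 * a'.1 - a.2 * p'.1) * Polynomial.X +
    Polynomial.C (p.1 * p'.2 - p.2 * p'.1) with hF
  have hne : F ≠ 0 := by
    intro h0
    have h1 : F.coeff 4 = c' - c := by
      rw [hF]
      simp only [Polynomial.coeff_add, Polynomial.coeff_C_mul, Polynomial.coeff_X_pow,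
        Polynomial.coeff_X, Polynomial.coeff_C]
      norm_num
    rw [h0, Polynomial.coeff_zero] at h1
    exact h (by linarith)
  refine (Polynomial.finite_setOfPred_isRoot hne).subset ?_
  intro u hu
  show F.eval u = 0
  have h2 : cr (p + u • a + u ^ 2 • ((1, c) : V)) (p' + u • a' + u ^ 2 • ((1, c') : V)) = F.eval u := by
    rw [hF]
    simp only [Polynomial.eval_add, Polynomial.eval_mul, Polynomial.eval_C, Polynomial.eval_pow,
      Polynomial.eval_X, cr, Prod.fst_add, Prod.snd_add, Prod.smul_fst, Prod.smul_snd, smul_eq_mul]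
    ring
  rw [← h2]
  exact hu

theorem Ge (P Q : Fin 6 → V) (h : ∀ i, 0 ≤ cr (P i) (Q i)) (h0 : ∀ i, P i ≠ 0 ∨ Q i ≠ 0)
    {δ : ℝ} (hδ : 0 < δ) :
    ∃ P' Q' : Fin 6 → V, (∀ i, ‖P' i - P i‖ ≤ δ) ∧ (∀ i, ‖Q' i - Q i‖ ≤ δ) ∧
      (∀ i, 0 < cr (P' i) (Q' i)) ∧ Gen12 P' Q' := by
  obtain ⟨A, hA⟩ : ∃ A : ℝ → Fin 6 → V, ∀ u i, A u i =
      P i + u • (((Q i).2, -(Q i).1) : V) + u ^ 2 • ((1, ((i : ℕ) : ℝ)) : V) := ⟨_, fun _ _ => rfl⟩
  obtain ⟨B, hB⟩ : ∃ B : ℝ → Fin 6 → V, ∀ u i, B u i =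
      Q i + u • ((-(P i).2, (P i).1) : V) + u ^ 2 • ((1, 6 + ((i : ℕ) : ℝ)) : V) := ⟨_, fun _ _ => rfl⟩
  -- the distances
  have e1 : ∀ i, ∀ᶠ u in nhds (0 : ℝ), ‖A u i - P i‖ < δ := by
    intro i
    have hc : Continuous (fun u : ℝ => ‖A u i - P i‖) := by
      simp only [hA]
      fun_prop
    have h1 : ‖A 0 i - P i‖ < δ := by
      rw [hA]
      simpa using hδ
    exact hc.continuousAt.eventually_lt continuousAt_const h1
  have e2 : ∀ i, ∀ᶠ u in nhds (0 : ℝ), ‖B u i - Q i‖ < δ := by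
    intro i
    have hc : Continuous (fun u : ℝ => ‖B u i - Q i‖) := by
      simp only [hB]
      fun_prop
    have h1 : ‖B 0 i - Q i‖ < δ := by
      rw [hB]
      simpa using hδ
    exact hc.continuousAt.eventually_lt continuousAt_const h1
  -- the determinants of the pairs
  have e3 : ∀ i, ∀ᶠ u in nhds (0 : ℝ), 0 < u → 0 < cr (A u i) (B u i) := by
    intro i
    set p1 := (P i).1
    set p2 := (P i).2
    set q1 := (Q i).1
    set q2 := (Q i).2
    set k : ℝ := ((i : ℕ) : ℝ)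
    have hN : 0 < p1 ^ 2 + p2 ^ 2 + q1 ^ 2 + q2 ^ 2 := by
      rcases h0 i with h1 | h1
      · have h2 : p1 ≠ 0 ∨ p2 ≠ 0 := by
          by_contra hcon
          push Not at hcon
          exact h1 (Prod.ext hcon.1 hcon.2)
        rcases h2 with h2 | h2 <;> positivity
      · have h2 : q1 ≠ 0 ∨ q2 ≠ 0 := by
          by_contra hcon
          push Not at hcon
          exact h1 (Prod.ext hcon.1 hcon.2)
        rcases h2 with h2 | h2 <;> positivity
    have hc : Continuous (fun u : ℝ => p1 ^ 2 + p2 ^ 2 + q1 ^ 2 + q2 ^ 2 + u *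
        ((p1 * (6 + k) + q2 * p1 + q2 - p2 - q1 * p2 - k * q1) +
          u * ((q2 * (6 + k) + p1 + q1 + k * p2) + u * 6))) := by
      fun_prop
    have h1 : ∀ᶠ u in nhds (0 : ℝ), (0 : ℝ) < p1 ^ 2 + p2 ^ 2 + q1 ^ 2 + q2 ^ 2 + u *
        ((p1 * (6 + k) + q2 * p1 + q2 - p2 - q1 * p2 - k * q1) +
          u * ((q2 * (6 + k) + p1 + q1 + k * p2) + u * 6)) := by
      refine (continuousAt_const (y := (0 : ℝ))).eventually_lt hc.continuousAt ?_
      simpa using hN
    filter_upwards [h1] with u h2 hu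
    have h3 : cr (A u i) (B u i) = cr (P i) (Q i) + u * (p1 ^ 2 + p2 ^ 2 + q1 ^ 2 + q2 ^ 2 + u *
        ((p1 * (6 + k) + q2 * p1 + q2 - p2 - q1 * p2 - k * q1) +
          u * ((q2 * (6 + k) + p1 + q1 + k * p2) + u * 6))) := by
      rw [hA, hB]
      simp only [cr, Prod.fst_add, Prod.snd_add, Prod.smul_fst, Prod.smul_snd, smul_eq_mul]
      ring
    rw [h3]
    have h4 := h i
    positivity
  obtain ⟨ε, hε, hball⟩ := Metric.eventually_nhds_iff.mp
    ((Filter.eventually_all.mpr e1).and ((Filter.eventually_all.mpr e2).and (Filter.eventually_all.mpr e3)))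
  -- the exceptional values
  have f1 : (⋃ i : Fin 6, ⋃ j : Fin 6, {u : ℝ | i ≠ j ∧ cr (A u i) (A u j) = 0}).Finite := by
    refine Set.finite_iUnion (fun i => Set.finite_iUnion (fun j => ?_))
    by_cases hij : i = j
    · refine Set.finite_empty.subset (fun u hu => ?_)
      exact absurd hij hu.1
    · have hne : ((i : ℕ) : ℝ) ≠ ((j : ℕ) : ℝ) := by
        intro h1
        exact hij (Fin.ext (by exact_mod_cast h1))
      refine (Ge_fin (P i) (((Q i).2, -(Q i).1) : V) (P j) (((Q j).2, -(Q j).1) : V) hne).subset ?_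
      rintro u ⟨_, hu⟩
      rw [hA, hA] at hu
      exact hu
  have f2 : (⋃ i : Fin 6, ⋃ j : Fin 6, {u : ℝ | i ≠ j ∧ cr (B u i) (B u j) = 0}).Finite := by
    refine Set.finite_iUnion (fun i => Set.finite_iUnion (fun j => ?_))
    by_cases hij : i = j
    · refine Set.finite_empty.subset (fun u hu => ?_)
      exact absurd hij hu.1
    · have hne : 6 + ((i : ℕ) : ℝ) ≠ 6 + ((j : ℕ) : ℝ) := by
        intro h1
        have h2 : ((i : ℕ) : ℝ) = ((j : ℕ) : ℝ) := by linarith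
        exact hij (Fin.ext (by exact_mod_cast h2))
      refine (Ge_fin (Q i) ((-(P i).2, (P i).1) : V) (Q j) ((-(P j).2, (P j).1) : V) hne).subset ?_
      rintro u ⟨_, hu⟩
      rw [hB, hB] at hu
      exact hu
  have f3 : (⋃ i : Fin 6, ⋃ j : Fin 6, {u : ℝ | cr (A u i) (B u j) = 0}).Finite := by
    refine Set.finite_iUnion (fun i => Set.finite_iUnion (fun j => ?_))
    have hne : ((i : ℕ) : ℝ) ≠ 6 + ((j : ℕ) : ℝ) := by
      intro h1
      have h2 : (i : ℕ) = 6 + (j : ℕ) := by exact_mod_cast h1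
      have h3 := i.isLt
      omega
    refine (Ge_fin (P i) (((Q i).2, -(Q i).1) : V) (Q j) ((-(P j).2, (P j).1) : V) hne).subset ?_
    intro u hu
    have hu' : cr (A u i) (B u j) = 0 := hu
    rw [hA, hB] at hu'
    exact hu'
  obtain ⟨u, hu, huf⟩ := (Set.Ioo_infinite hε).exists_notMem_finite ((f1.union f2).union f3)
  rw [Set.mem_union, Set.mem_union, not_or, not_or] at huf
  obtain ⟨⟨g1, g2⟩, g3⟩ := huf
  have hd : dist u 0 < ε := by
    rw [Real.dist_eq, sub_zero, abs_of_pos hu.1]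
    exact hu.2
  obtain ⟨b1, b2, b3⟩ := hball hd
  refine ⟨A u, B u, fun i => (b1 i).le, fun i => (b2 i).le, fun i => b3 i hu.1, ⟨?_, ?_, ?_⟩⟩
  · intro i j hij hz
    exact g1 (Set.mem_iUnion.mpr ⟨i, Set.mem_iUnion.mpr ⟨j, hij, hz⟩⟩)
  · intro i j hij hz
    exact g2 (Set.mem_iUnion.mpr ⟨i, Set.mem_iUnion.mpr ⟨j, hij, hz⟩⟩)
  · intro i j hz
    exact g3 (Set.mem_iUnion.mpr ⟨i, Set.mem_iUnion.mpr ⟨j, hz⟩⟩)

end ZP
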