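import Pool.Agent.H73.ZP.Sa
import Pool.Agent.H73.ZP.Sb

/-!
ROW Sc.  STAR: the six values together are at most the sum of `mx` over the edges of `q`.

PROOF.  `G = mx t P Q` is the maximum of the 13 functionals `0`, `t i • P i`, `t i • Q i` (family
`F : Fin 13 → V`, `F 0 = 0`, `F (2 i + 1) = t i • P i`, `F (2 i + 2) = t i • Q i`, all bounded by
`C = 1 + ∑ ‖P i‖ + ‖Q i‖` if `0 ≤ t i ≤ 1`).  Apply `Sa` to `c₁` (players `0, 1, 2`) and to `c₂`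
(players `3, 4, 5`) with `ε / 3`, and `Sb` with `ε / 3`; take the minimum of the three `δ`.
-/

open Real

namespace ZP

/-- each functional is at most the maximum -/
theorem Sc_ge (t : Fin 6 → ℝ) (ht : ∀ k, 0 ≤ t k) (P Q : Fin 6 → V) (i : Fin 6) (v : V) :
    0 ≤ mx t P Q v ∧ t i * dt (P i) v ≤ mx t P Q v ∧ t i * dt (Q i) v ≤ mx t P Q v := by
  have h1 : t i * gg (P i) (Q i) v ≤ mx t P Q v :=
    Finset.le_sup' (fun i => t i * gg (P i) (Q i) v) (Finset.mem_univ i)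
  have h0 : 0 ≤ gg (P i) (Q i) v := le_max_left _ _
  have hP : dt (P i) v ≤ gg (P i) (Q i) v := (le_max_left _ _).trans (le_max_right _ _)
  have hQ : dt (Q i) v ≤ gg (P i) (Q i) v := (le_max_right _ _).trans (le_max_right _ _)
  exact ⟨(mul_nonneg (ht i) h0).trans h1, (mul_le_mul_of_nonneg_left hP (ht i)).trans h1,
    (mul_le_mul_of_nonneg_left hQ (ht i)).trans h1⟩

/-- the maximum is attained -/
theorem Sc_at (t : Fin 6 → ℝ) (P Q : Fin 6 → V) (v : V) :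
    mx t P Q v = 0 ∨ (∃ i, mx t P Q v = t i * dt (P i) v) ∨
      ∃ i, mx t P Q v = t i * dt (Q i) v := by
  obtain ⟨i, _, hi⟩ := Finset.exists_mem_eq_sup' (Finset.univ_nonempty (α := Fin 6))
    (fun i => t i * gg (P i) (Q i) v)
  have h1 : mx t P Q v = t i * gg (P i) (Q i) v := hi
  rcases max_choice 0 (max (dt (P i) v) (dt (Q i) v)) with h | h
  · left
    rw [h1]
    show t i * max 0 (max (dt (P i) v) (dt (Q i) v)) = 0
    rw [h, mul_zero]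
  · right
    rcases max_choice (dt (P i) v) (dt (Q i) v) with h2 | h2
    · left
      refine ⟨i, ?_⟩
      rw [h1]
      show t i * max 0 (max (dt (P i) v) (dt (Q i) v)) = _
      rw [h, h2]
    · right
      refine ⟨i, ?_⟩
      rw [h1]
      show t i * max 0 (max (dt (P i) v) (dt (Q i) v)) = _
      rw [h, h2]

/-- the family of functionals -/
noncomputable def Sc_F (t : Fin 6 → ℝ) (P Q : Fin 6 → V) (k : Fin (12 + 1)) : V :=
  if h : k.1 < 6 then t ⟨k.1, h⟩ • P ⟨k.1, h⟩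
  else if h' : k.1 - 6 < 6 then t ⟨k.1 - 6, h'⟩ • Q ⟨k.1 - 6, h'⟩ else 0

theorem Sc_dt (a : ℝ) (p v : V) : dt (a • p) v = a * dt p v := by
  show a * p.1 * v.1 + a * p.2 * v.2 = a * (p.1 * v.1 + p.2 * v.2)
  ring

theorem Sc_dt0 (v : V) : dt 0 v = 0 := by
  show (0 : ℝ) * v.1 + 0 * v.2 = 0
  ring

theorem Sc_le (t : Fin 6 → ℝ) (ht : ∀ k, 0 ≤ t k) (P Q : Fin 6 → V) (v : V) (k : Fin (12 + 1)) :
    dt (Sc_F t P Q k) v ≤ mx t P Q v := by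
  unfold Sc_F
  split_ifs with h h'
  · rw [Sc_dt]
    exact (Sc_ge t ht P Q _ v).2.1
  · rw [Sc_dt]
    exact (Sc_ge t ht P Q _ v).2.2
  · rw [Sc_dt0]
    exact (Sc_ge t ht P Q 0 v).1

theorem Sc_ex (t : Fin 6 → ℝ) (P Q : Fin 6 → V) (v : V) :
    ∃ k, mx t P Q v = dt (Sc_F t P Q k) v := by
  rcases Sc_at t P Q v with h | ⟨i, h⟩ | ⟨i, h⟩
  · refine ⟨⟨12, by norm_num⟩, ?_⟩
    unfold Sc_F
    rw [dif_neg (by norm_num), dif_neg (by norm_num), Sc_dt0, h]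
  · refine ⟨⟨i.1, by omega⟩, ?_⟩
    unfold Sc_F
    rw [dif_pos i.2, Sc_dt, h]
  · refine ⟨⟨i.1 + 6, by omega⟩, ?_⟩
    unfold Sc_F
    have h1 : ¬ (i.1 + 6 < 6) := by omega
    have h2 : i.1 + 6 - 6 < 6 := by omega
    have h3 : (⟨i.1 + 6 - 6, h2⟩ : Fin 6) = i := Fin.ext (by simp)
    rw [dif_neg h1, dif_pos h2, Sc_dt, h3, h]

theorem Sc_nm (t : Fin 6 → ℝ) (ht : ∀ k, 0 ≤ t k) (ht1 : ∀ k, t k ≤ 1) (P Q : ℕ → V)
    (k : Fin (12 + 1)) : ‖Sc_F t (fun i => P i) (fun i => Q i) k‖ ≤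
      1 + ∑ i ∈ Finset.range 6, (‖P i‖ + ‖Q i‖) := by
  have hb : ∀ i, i < 6 → ‖P i‖ + ‖Q i‖ ≤ ∑ i ∈ Finset.range 6, (‖P i‖ + ‖Q i‖) := by
    intro i hi
    exact Finset.single_le_sum (f := fun i => ‖P i‖ + ‖Q i‖)
      (fun j _ => add_nonneg (norm_nonneg _) (norm_nonneg _)) (Finset.mem_range.2 hi)
  have hs : ∀ (a : ℝ) (v : V), 0 ≤ a → a ≤ 1 → ‖a • v‖ ≤ ‖v‖ := by
    intro a v h0 h1
    rw [norm_smul, Real.norm_of_nonneg h0]
    exact mul_le_of_le_one_left (norm_nonneg _) h1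
  unfold Sc_F
  split_ifs with h h'
  · have h1 := hs _ (P k.1) (ht ⟨k.1, h⟩) (ht1 ⟨k.1, h⟩)
    have h2 := hb k.1 h
    have h3 := norm_nonneg (Q k.1)
    have h4 : ‖t ⟨k.1, h⟩ • P k.1‖ ≤ 1 + ∑ i ∈ Finset.range 6, (‖P i‖ + ‖Q i‖) := by linarith
    exact h4
  · have h1 := hs _ (Q (k.1 - 6)) (ht ⟨k.1 - 6, h'⟩) (ht1 ⟨k.1 - 6, h'⟩)
    have h2 := hb (k.1 - 6) h'
    have h3 := norm_nonneg (P (k.1 - 6))
    have h4 : ‖t ⟨k.1 - 6, h'⟩ • Q (k.1 - 6)‖ ≤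
      1 + ∑ i ∈ Finset.range 6, (‖P i‖ + ‖Q i‖) := by linarith
    exact h4
  · rw [norm_zero]
    have h1 := hb 0 (by norm_num)
    have h3 := norm_nonneg (P 0)
    have h4 := norm_nonneg (Q 0)
    linarith

theorem Sc {q c₁ c₂ : ℝ → V} (hq : Bd q) (h₁ : Bd c₁) (h₂ : Bd c₂)
    (hx : ∀ θ φ ψ, dt (uu θ) (c₁ φ + c₂ ψ) ≤ dt (uu θ) (q θ)) (P Q : ℕ → V) {α β : ℕ → ℝ}
    (hα : Monotone α) (hα8 : α 8 ≤ α 0 + 2 * π) (hβ : Monotone β) (hβ8 : β 8 ≤ β 0 + 2 * π)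
    {ε : ℝ} (hε : 0 < ε) :
    ∃ δ : ℝ, 0 < δ ∧ ∀ (M : ℕ) (θ : ℤ → ℝ), 0 < M → StrictMono θ →
      (∀ i, θ (i + 3 * M) = θ i + π) → (∀ i, θ (i + 1) - θ i ≤ δ) →
      ∀ t : Fin 6 → ℝ, (∀ k, 0 ≤ t k) → (∀ k, t k ≤ 1) →
        ∑ k : Fin 3, t (Fin.castLE (by norm_num) k) *
            (dt (P k) (c₁ (α (3 * k + 1)) - c₁ (α (3 * k))) +
            dt (Q k) (c₁ (α (3 * k + 2)) - c₁ (α (3 * k + 1)))) +
        ∑ k : Fin 3, t (Fin.natAdd 3 k) *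
            (dt (P (3 + k)) (c₂ (β (3 * k + 1)) - c₂ (β (3 * k))) +
            dt (Q (3 + k)) (c₂ (β (3 * k + 2)) - c₂ (β (3 * k + 1)))) ≤
          ∑ m ∈ Finset.range (6 * M),
            mx t (fun i => P i) (fun i => Q i) (q (θ (m + 1)) - q (θ m)) + ε := by
  obtain ⟨δ₁, hδ₁, H₁⟩ := Sa h₁ P Q hα hα8 (ε := ε / 3) (by positivity)
  obtain ⟨δ₂, hδ₂, H₂⟩ := Sa h₂ (fun k => P (3 + k)) (fun k => Q (3 + k)) hβ hβ8
    (ε := ε / 3) (by positivity)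
  obtain ⟨δ₃, hδ₃, H₃⟩ := Sb hq h₁ h₂ hx
    (C := 1 + ∑ i ∈ Finset.range 6, (‖P i‖ + ‖Q i‖)) (ε := ε / 3) (by positivity) (by positivity)
  refine ⟨min δ₁ (min δ₂ δ₃), lt_min hδ₁ (lt_min hδ₂ hδ₃), ?_⟩
  intro M θ hM hmono hper hgap t ht0 ht1
  have hg1 : ∀ i, θ (i + 1) - θ i ≤ δ₁ := fun i => (hgap i).trans (min_le_left _ _)
  have hg2 : ∀ i, θ (i + 1) - θ i ≤ δ₂ :=
    fun i => (hgap i).trans ((min_le_right _ _).trans (min_le_left _ _))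
  have hg3 : ∀ i, θ (i + 1) - θ i ≤ δ₃ :=
    fun i => (hgap i).trans ((min_le_right _ _).trans (min_le_right _ _))
  let tn : ℕ → ℝ := fun i => if h : i < 6 then t ⟨i, h⟩ else 0
  have htn0 : ∀ k, 0 ≤ tn k := by
    intro k
    show 0 ≤ (if h : k < 6 then t ⟨k, h⟩ else 0)
    split_ifs with h
    · exact ht0 _
    · exact le_rfl
  have htn1 : ∀ k, tn k ≤ 1 := by
    intro k
    show (if h : k < 6 then t ⟨k, h⟩ else 0) ≤ 1
    split_ifs with h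
    · exact ht1 _
    · exact zero_le_one
  have htn : ∀ k (hk : k < 6), tn k = t ⟨k, hk⟩ := fun k hk => dif_pos hk
  have hG0 : ∀ v, 0 ≤ mx t (fun i => P i) (fun i => Q i) v :=
    fun v => (Sc_ge t ht0 (fun i => P i) (fun i => Q i) 0 v).1
  have hG : ∀ k, k < 6 → ∀ v, tn k * dt (P k) v ≤ mx t (fun i => P i) (fun i => Q i) v ∧
      tn k * dt (Q k) v ≤ mx t (fun i => P i) (fun i => Q i) v := by
    intro k hk v
    rw [htn k hk]
    exact (Sc_ge t ht0 (fun i => P i) (fun i => Q i) ⟨k, hk⟩ v).2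
  have A1 := H₁ M θ hM hmono hper hg1 tn (mx t (fun i => P i) (fun i => Q i)) htn0 htn1 hG0
    (fun k hk v => hG k (by omega) v)
  have A2 := H₂ M θ hM hmono hper hg2 (fun k => tn (3 + k)) (mx t (fun i => P i) (fun i => Q i))
    (fun k => htn0 _) (fun k => htn1 _) hG0 (fun k hk v => hG (3 + k) (by omega) v)
  have A3 := H₃ M θ hM hmono hper hg3 12 (Sc_F t (fun i => P i) (fun i => Q i))
    (mx t (fun i => P i) (fun i => Q i)) (Sc_nm t ht0 ht1 P Q)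
    (fun v k => Sc_le t ht0 (fun i => P i) (fun i => Q i) v k)
    (fun v => Sc_ex t (fun i => P i) (fun i => Q i) v)
  rw [Finset.sum_add_distrib] at A3
  rw [Finset.sum_range] at A1 A2
  have E1 : ∀ k : Fin 3, tn k = t (Fin.castLE (by norm_num) k) := by
    intro k
    exact htn k.1 (by omega)
  have E2 : ∀ k : Fin 3, tn (3 + k) = t (Fin.natAdd 3 k) := by
    intro k
    exact htn (3 + k.1) (by omega)
  simp only [E1] at A1
  simp only [E2] at A2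
  linarith

end ZP
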