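import Mathlib

/-!
ROW Ah.  A point of the frontier of the convex hull has a supporting functional (Euclidean plane).

PROOF.  Let `C = convexHull ℝ A`, `a ∈ frontier C`.  If the interior of `C` is nonempty: `a ∉ interior C`, and
`geometric_hahn_banach_open_point` for the open convex set `interior C` gives `f` with `f x < f a` for all `x ∈ interior C`;
`C ⊆ closure (interior C)` (`Convex.closure_interior_eq_closure_of_nonempty_interior`), so
`f x ≤ f a` on `C ⊇ A`; `f ≠ 0`.  If the interior is empty: the affine span of `A` is not the whole space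
(`interior_convexHull_nonempty_iff_affineSpan_eq_top`), so there is a nonzero linear functional which is constant on `A`
(a nonzero vector orthogonal to the direction of the affine span).  If `A` is empty there is nothing to prove
(any nonzero functional).
Finally `f = inner w` (Riesz, or the values on the basis), `w ≠ 0`.
-/

theorem ZP.Ah (A : Set (EuclideanSpace ℝ (Fin 2))) {a : EuclideanSpace ℝ (Fin 2)}
    (ha : a ∈ frontier (convexHull ℝ A)) :
    ∃ w : Fin 2 → ℝ, w ≠ 0 ∧ ∀ x ∈ A, w 0 * x 0 + w 1 * x 1 ≤ w 0 * a 0 + w 1 * a 1 := by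
  have hfin : ∀ f : EuclideanSpace ℝ (Fin 2) →L[ℝ] ℝ, f ≠ 0 → (∀ x ∈ A, f x ≤ f a) →
      ∃ w : Fin 2 → ℝ, w ≠ 0 ∧ ∀ x ∈ A, w 0 * x 0 + w 1 * x 1 ≤ w 0 * a 0 + w 1 * a 1 := by
    intro f hf hfa
    have hx : ∀ x : EuclideanSpace ℝ (Fin 2), f x =
        f (EuclideanSpace.single 0 1) * x 0 + f (EuclideanSpace.single 1 1) * x 1 := by
      intro x
      have h1 : x = x 0 • EuclideanSpace.single 0 (1 : ℝ) + x 1 • EuclideanSpace.single 1 (1 : ℝ) := by
        ext i
        fin_cases i <;> simp
      conv_lhs => rw [h1]
      rw [map_add, map_smul, map_smul, smul_eq_mul, smul_eq_mul]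
      ring
    refine ⟨fun i => f (EuclideanSpace.single i 1), fun h0 => ?_, fun x hxA => ?_⟩
    · apply hf
      ext x
      have h1 : f (EuclideanSpace.single 0 1) = 0 := congrFun h0 0
      have h2 : f (EuclideanSpace.single 1 1) = 0 := congrFun h0 1
      rw [hx x, h1, h2]
      simp
    · have h1 := hfa x hxA
      rw [hx x, hx a] at h1
      exact h1
  have hacl : a ∈ closure (convexHull ℝ A) := frontier_subset_closure ha
  have haint : a ∉ interior (convexHull ℝ A) := by
    rw [frontier] at ha
    exact ha.2
  by_cases hne : (interior (convexHull ℝ A)).Nonempty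
  · obtain ⟨f, hf⟩ := geometric_hahn_banach_open_point (convex_convexHull ℝ A).interior isOpen_interior haint
    obtain ⟨y, hy⟩ := hne
    refine hfin f (fun h0 => ?_) (fun x hxA => ?_)
    · have h1 := hf y hy
      rw [h0] at h1
      simp at h1
    · have hcl : closure (interior (convexHull ℝ A)) = closure (convexHull ℝ A) :=
        (convex_convexHull ℝ A).closure_interior_eq_closure_of_nonempty_interior ⟨y, hy⟩
      have hxc : x ∈ closure (interior (convexHull ℝ A)) := by
        rw [hcl]
        exact subset_closure (subset_convexHull ℝ A hxA)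
      have hclosed : IsClosed {z : EuclideanSpace ℝ (Fin 2) | f z ≤ f a} :=
        isClosed_le f.continuous continuous_const
      exact closure_minimal (fun z hz => (hf z hz).le) hclosed hxc
  · have hAne : A.Nonempty := by
      rcases A.eq_empty_or_nonempty with h | h
      · rw [h] at hacl
        simp at hacl
      · exact h
    have hspan : affineSpan ℝ A ≠ ⊤ := fun h => hne (interior_convexHull_nonempty_iff_affineSpan_eq_top.mpr h)
    have hvs : vectorSpan ℝ A ≠ ⊤ := fun h =>
      hspan ((AffineSubspace.affineSpan_eq_top_iff_vectorSpan_eq_top_of_nonempty ℝ _ _ hAne).mpr h)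
    have horth : (vectorSpan ℝ A)ᗮ ≠ ⊥ := fun h => hvs ((Submodule.orthogonal_eq_bot_iff).mp h)
    obtain ⟨n, hn, hn0⟩ := (Submodule.ne_bot_iff _).mp horth
    obtain ⟨b, hb⟩ := hAne
    have hconst : ∀ x ∈ A, innerSL ℝ n x = innerSL ℝ n b := by
      intro x hx
      have h1 : x -ᵥ b ∈ vectorSpan ℝ A := vsub_mem_vectorSpan ℝ hx hb
      have h2 := (Submodule.mem_orthogonal' _ _).mp hn _ h1
      rw [vsub_eq_sub, inner_sub_right, sub_eq_zero] at h2
      simpa using h2
    have hclosed : IsClosed {z : EuclideanSpace ℝ (Fin 2) | innerSL ℝ n z = innerSL ℝ n b} :=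
      isClosed_eq (innerSL ℝ n).continuous continuous_const
    have hconv : Convex ℝ {z : EuclideanSpace ℝ (Fin 2) | innerSL ℝ n z = innerSL ℝ n b} := by
      intro x hx y hy s t _ _ hst
      simp only [Set.mem_setOf_eq] at hx hy ⊢
      rw [map_add, map_smul, map_smul, hx, hy, ← add_smul, hst, one_smul]
    have haval : innerSL ℝ n a = innerSL ℝ n b :=
      closure_minimal (convexHull_min (fun x hx => hconst x hx) hconv) hclosed hacl
    refine hfin (innerSL ℝ n) (fun h0 => hn0 ?_) (fun x hx => ?_)
    · have h1 : innerSL ℝ n n = 0 := by rw [h0]; rfl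
      rw [innerSL_apply_apply] at h1
      exact inner_self_eq_zero.mp h1
    · rw [hconst x hx, haval]

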