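import Pool.Agent.H73.ZP.Ag
import Pool.Agent.H73.ZP.Ah

/-!
ROW Ai.  The statement for the Euclidean plane and `n` families.

PROOF.  Let `T x = (x 0, x 1) : V` and `L = T '' (-K)` (compact, convex, nonempty: there are at least two nonempty
families, so `K ≠ ∅`).  `p ∈ a +ᵥ K` iff `a - p ∈ -K`.  `A = ⋃_{i ≠ q} F i`, `B = ⋃_{i ≠ p} F i` (images under `T`).
For `a ∈ A`, `b ∈ B` the translates meet: `a ∈ F i`, `b ∈ F j`, `i ≠ q`, `j ≠ p`; if `i ≠ j` this is the hypothesis;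
if `i = j` then `i ≠ p, q` and `hsame` applies; so `a + k = b + k'`, `a - b = (-k) - (-k')`.
`Ag` gives three points for the points of `A` (or of `B`) with a supporting direction; a point in the frontier of
the convex hull has one: `Ah` gives `w ≠ 0`, and `(w 0, w 1) = |w| • uu θ`.  Take `m = q` (or `m = p`).
-/

open Real
open scoped Pointwise

namespace ZP

theorem Ai_dir (w : Fin 2 → ℝ) (hw : w ≠ 0) :
    ∃ θ r : ℝ, 0 < r ∧ w 0 = r * Real.cos θ ∧ w 1 = r * Real.sin θ := by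
  have hz : (⟨w 0, w 1⟩ : ℂ) ≠ 0 := by
    intro h
    apply hw
    have h0 : w 0 = 0 := congrArg Complex.re h
    have h1 : w 1 = 0 := congrArg Complex.im h
    funext i
    fin_cases i
    · exact h0
    · exact h1
  exact ⟨Complex.arg ⟨w 0, w 1⟩, ‖(⟨w 0, w 1⟩ : ℂ)‖, norm_pos_iff.2 hz,
    (Complex.norm_mul_cos_arg (⟨w 0, w 1⟩ : ℂ)).symm,
    (Complex.norm_mul_sin_arg (⟨w 0, w 1⟩ : ℂ)).symm⟩

/-- coordinates -/
def AiT (x : EuclideanSpace ℝ (Fin 2)) : V := (x 0, x 1)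

theorem AiT_inj {x y : EuclideanSpace ℝ (Fin 2)} (h : AiT x = AiT y) : x = y := by
  ext i
  fin_cases i
  · exact congrArg Prod.fst h
  · exact congrArg Prod.snd h

theorem AiT_add (x y : EuclideanSpace ℝ (Fin 2)) : AiT (x + y) = AiT x + AiT y := rfl

theorem AiT_smul (c : ℝ) (x : EuclideanSpace ℝ (Fin 2)) : AiT (c • x) = c • AiT x := rfl

theorem AiT_surj (v : V) : ∃ x, AiT x = v := ⟨!₂[v.1, v.2], rfl⟩

theorem AiT_cont : Continuous AiT := by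
  unfold AiT
  fun_prop

theorem Ai_fin (K S : Set (EuclideanSpace ℝ (Fin 2))) (p : Fin 3 → V)
    (h : ∀ a ∈ AiT '' S, (∃ θ, ∀ x ∈ AiT '' S, dt (uu θ) x ≤ dt (uu θ) a) →
      ∃ k, a - p k ∈ (fun x => - AiT x) '' K) :
    ∃ P : Finset (EuclideanSpace ℝ (Fin 2)), P.card ≤ 3 ∧
      ∀ a ∈ S, a ∈ frontier (convexHull ℝ S) → ∃ p ∈ P, p ∈ a +ᵥ K := by
  classical
  choose g hg using AiT_surj
  refine ⟨Finset.univ.image (fun k => g (p k)), ?_, ?_⟩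
  · exact Finset.card_image_le.trans (by simp)
  · intro a ha hf
    obtain ⟨w, hw, hx⟩ := Ah S hf
    obtain ⟨θ, r, hr, h0, h1⟩ := Ai_dir w hw
    obtain ⟨k, κ, hκ, hk⟩ := h (AiT a) ⟨a, ha, rfl⟩ ⟨θ, by
      rintro _ ⟨x, hxS, rfl⟩
      have h2 := hx x hxS
      rw [h0, h1] at h2
      have h3 : r * (Real.cos θ * x 0 + Real.sin θ * x 1) ≤
          r * (Real.cos θ * a 0 + Real.sin θ * a 1) := by linarith
      exact le_of_mul_le_mul_left h3 hr⟩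
    refine ⟨g (p k), Finset.mem_image_of_mem _ (Finset.mem_univ k), ?_⟩
    rw [Set.mem_vadd_set]
    refine ⟨κ, hκ, ?_⟩
    rw [vadd_eq_add]
    apply AiT_inj
    rw [AiT_add, hg]
    have hk' : - AiT κ = AiT a - p k := hk
    have h4 : AiT κ = p k - AiT a := by
      rw [← neg_sub, ← hk', neg_neg]
    rw [h4, add_sub_cancel]

theorem Ai (n : ℕ) (hn : 2 ≤ n) (K : Set (EuclideanSpace ℝ (Fin 2))) (hK : IsCompact K)
    (hKc : Convex ℝ K) (F : Fin n → Set (EuclideanSpace ℝ (Fin 2)))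
    (hF : ∀ i, (F i).Nonempty)
    (hint : ∀ i j : Fin n, i ≠ j → ∀ a ∈ F i, ∀ b ∈ F j,
      ((a +ᵥ K) ∩ (b +ᵥ K)).Nonempty)
    (p q : Fin n) (hsame : ∀ i : Fin n, i ≠ p → i ≠ q → ∀ a ∈ F i, ∀ b ∈ F i,
      ((a +ᵥ K) ∩ (b +ᵥ K)).Nonempty) :
    ∃ m : Fin n, ∃ P : Finset (EuclideanSpace ℝ (Fin 2)), P.card ≤ 3 ∧
      ∀ i : Fin n, i ≠ m → ∀ a ∈ F i,
        a ∈ frontier (convexHull ℝ (⋃ j ∈ {j : Fin n | j ≠ m}, F j)) →
          ∃ p ∈ P, p ∈ a +ᵥ K := by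
  have hKne : K.Nonempty := by
    obtain ⟨a, ha⟩ := hF ⟨0, by omega⟩
    obtain ⟨b, hb⟩ := hF ⟨1, by omega⟩
    obtain ⟨x, hx, -⟩ := hint ⟨0, by omega⟩ ⟨1, by omega⟩ (by
      intro h
      have h1 := congrArg Fin.val h
      exact absurd h1 (by norm_num)) a ha b hb
    obtain ⟨k, hk, -⟩ := Set.mem_vadd_set.1 hx
    exact ⟨k, hk⟩
  have hL : IsCompact ((fun x => - AiT x) '' K) := hK.image AiT_cont.neg
  have hLc : Convex ℝ ((fun x => - AiT x) '' K) := by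
    rintro _ ⟨x, hx, rfl⟩ _ ⟨y, hy, rfl⟩ s t hs ht hst
    refine ⟨s • x + t • y, hKc hx hy hs ht hst, ?_⟩
    show - AiT (s • x + t • y) = s • (- AiT x) + t • (- AiT y)
    rw [AiT_add, AiT_smul, AiT_smul, smul_neg, smul_neg, neg_add]
  have hLne : ((fun x => - AiT x) '' K).Nonempty := hKne.image _
  have key : ∀ a b : EuclideanSpace ℝ (Fin 2), ((a +ᵥ K) ∩ (b +ᵥ K)).Nonempty →
      ∃ y ∈ (fun x => - AiT x) '' K, ∃ z ∈ (fun x => - AiT x) '' K,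
        AiT a - AiT b = y - z := by
    rintro a b ⟨x, hxa, hxb⟩
    obtain ⟨k, hk, hk'⟩ := Set.mem_vadd_set.1 hxa
    obtain ⟨l, hl, hl'⟩ := Set.mem_vadd_set.1 hxb
    refine ⟨_, ⟨k, hk, rfl⟩, _, ⟨l, hl, rfl⟩, ?_⟩
    rw [vadd_eq_add] at hk' hl'
    have h1 : AiT a + AiT k = AiT b + AiT l := by
      rw [← AiT_add, ← AiT_add, hk', hl']
    show AiT a - AiT b = - AiT k - (- AiT l)
    rw [sub_neg_eq_add, sub_eq_iff_eq_add, ← sub_eq_zero]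
    have h2 := sub_eq_zero.2 h1
    rw [← h2]
    abel
  have hAB : ∀ a ∈ AiT '' (⋃ j ∈ {j : Fin n | j ≠ q}, F j),
      ∀ b ∈ AiT '' (⋃ j ∈ {j : Fin n | j ≠ p}, F j),
      ∃ y ∈ (fun x => - AiT x) '' K, ∃ z ∈ (fun x => - AiT x) '' K, a - b = y - z := by
    rintro _ ⟨a, ha, rfl⟩ _ ⟨b, hb, rfl⟩
    obtain ⟨i, hi, ha⟩ := Set.mem_iUnion₂.1 ha
    obtain ⟨j, hj, hb⟩ := Set.mem_iUnion₂.1 hb
    apply key
    by_cases hij : i = j
    · subst hij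
      exact hsame i hj hi a ha b hb
    · exact hint i j hij a ha b hb
  rcases Ag _ hL hLc hLne _ _ hAB with ⟨c, hc⟩ | ⟨c, hc⟩
  · obtain ⟨P, hP, h⟩ := Ai_fin K _ c hc
    exact ⟨q, P, hP, fun i hi a ha hf => h a (Set.mem_iUnion₂.2 ⟨i, hi, ha⟩) hf⟩
  · obtain ⟨P, hP, h⟩ := Ai_fin K _ c hc
    exact ⟨p, P, hP, fun i hi a ha hf => h a (Set.mem_iUnion₂.2 ⟨i, hi, ha⟩) hf⟩

end ZP
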