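import Pool.Agent.H73.ZP.Bda

/-!
ROW Aa.  Certificate.  If the finite set `X` does not fit into a translate of the body of `l`, there are three
points of `X` and a zero-sum triple of normals which show it, with a margin.

PROOF.  `body l` is convex, closed and bounded (`bdd`: take `θ = 0, π/2, π, 3π/2`), and contains all `l ψ`.
(1) Helly (`Convex.helly_theorem'`, dimension 2) for the convex sets
`F x = {p | x - p ∈ body l}`, `x ∈ X`: there is a subset of at most three points (write them as `x₁, x₂, x₃ ∈ X`,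
with repetitions; it is not empty, since for the empty set any `p` works) with `F x₁ ∩ F x₂ ∩ F x₃ = ∅`.
(2) In `V × V × V` let `C = {(x₁ - p - y₁, x₂ - p - y₂, x₃ - p - y₃) | p ∈ V, y_k ∈ body l}`.  It is convex and closed (a
closed subspace plus a compact set), and `0 ∉ C`.  `geometric_hahn_banach_closed_point` (or
`geometric_hahn_banach_point_closed`) gives a continuous linear `f` and `η > 0` with
`f c ≥ η` for all `c ∈ C`.  `f (a, b, c) = dt n₁ a + dt n₂ b + dt n₃ c` with `n_k` the vector of the values at the basis.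
As `p ∈ V` is arbitrary, `dt (n₁ + n₂ + n₃) p = 0` for all `p`; so the sum is `0`.  With `p = 0`, `y_k = l ψ_k` we
get the inequality.
-/

open Real

namespace ZP

theorem Aa_convex (l : ℝ → V) : Convex ℝ (body l) := by
  intro x hx y hy a b ha hb hab θ
  rw [dt_add, dt_smul, dt_smul]
  have h1 := mul_le_mul_of_nonneg_left (hx θ) ha
  have h2 := mul_le_mul_of_nonneg_left (hy θ) hb
  have h3 : a * dt (uu θ) (l θ) + b * dt (uu θ) (l θ) = dt (uu θ) (l θ) := by
    rw [← add_mul, hab, one_mul]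
  linarith

theorem Aa_closed (l : ℝ → V) : IsClosed (body l) := by
  have h1 : body l = ⋂ θ, {x : V | dt (uu θ) x ≤ dt (uu θ) (l θ)} := by
    ext x
    simp only [body, Set.mem_iInter]
    rfl
  rw [h1]
  refine isClosed_iInter fun θ => isClosed_le ?_ continuous_const
  unfold dt
  exact (continuous_const.mul continuous_fst).add (continuous_const.mul continuous_snd)

theorem Aa_compact (l : ℝ → V) : IsCompact (body l) := by
  refine IsCompact.of_isClosed_subset (isCompact_Icc (a := ((- dt (uu π) (l π), - dt (uu (-(π / 2))) (l (-(π / 2)))) : V))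
    (b := ((dt (uu 0) (l 0), dt (uu (π / 2)) (l (π / 2))) : V))) (Aa_closed l) ?_
  intro x hx
  have h1 := hx π
  have h2 := hx (-(π / 2))
  have h3 := hx 0
  have h4 := hx (π / 2)
  have e1 : dt (uu π) x = - x.1 := by
    simp [dt, uu]
  have e2 : dt (uu (-(π / 2))) x = - x.2 := by
    simp [dt, uu]
  have e3 : dt (uu 0) x = x.1 := by
    simp [dt, uu]
  have e4 : dt (uu (π / 2)) x = x.2 := by
    simp [dt, uu]
  rw [e1] at h1
  rw [e2] at h2
  rw [e3] at h3
  rw [e4] at h4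
  exact ⟨⟨by linarith, by linarith⟩, ⟨h3, h4⟩⟩

/-- Helly: three points are enough. -/
theorem Aa_three (l : ℝ → V) (X : Finset V) (hX : ¬ ∃ p : V, ∀ x ∈ X, x - p ∈ body l) :
    ∃ x₁ ∈ X, ∃ x₂ ∈ X, ∃ x₃ ∈ X,
      ¬ ∃ p : V, x₁ - p ∈ body l ∧ x₂ - p ∈ body l ∧ x₃ - p ∈ body l := by
  by_contra hcon
  push Not at hcon
  apply hX
  have key : (⋂ x ∈ X, {p : V | x - p ∈ body l}).Nonempty := by
    refine Convex.helly_theorem' (𝕜 := ℝ) (fun x _ => ?_) (fun I hI hc => ?_)
    · intro p hp q hq a b ha hb hab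
      have h1 := Aa_convex l hp hq ha hb hab
      have h2 : a • (x - p) + b • (x - q) = x - (a • p + b • q) := by
        have h3 : x = a • x + b • x := by rw [← add_smul, hab, one_smul]
        calc a • (x - p) + b • (x - q) = (a • x + b • x) - (a • p + b • q) := by
              rw [smul_sub, smul_sub]; abel
          _ = x - (a • p + b • q) := by rw [← h3]
      rw [h2] at h1
      exact h1
    · have hf : Module.finrank ℝ V = 2 := by
        simp [V]
      rw [hf] at hc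
      have hc' : I.card = 0 ∨ I.card = 1 ∨ I.card = 2 ∨ I.card = 3 := by omega
      rcases hc' with h | h | h | h
      · rw [Finset.card_eq_zero] at h
        subst h
        exact ⟨0, by simp⟩
      · obtain ⟨a, rfl⟩ := Finset.card_eq_one.1 h
        have ha : a ∈ X := hI (by simp)
        obtain ⟨p, hp, -, -⟩ := hcon a ha a ha a ha
        exact ⟨p, by simpa using hp⟩
      · obtain ⟨a, b, -, rfl⟩ := Finset.card_eq_two.1 h
        have ha : a ∈ X := hI (by simp)
        have hb : b ∈ X := hI (by simp)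
        obtain ⟨p, hp, hq, -⟩ := hcon a ha b hb b hb
        exact ⟨p, by simpa using ⟨hp, hq⟩⟩
      · obtain ⟨a, b, c, -, -, -, rfl⟩ := Finset.card_eq_three.1 h
        have ha : a ∈ X := hI (by simp)
        have hb : b ∈ X := hI (by simp)
        have hc : c ∈ X := hI (by simp)
        obtain ⟨p, hp, hq, hr⟩ := hcon a ha b hb c hc
        exact ⟨p, by simpa using ⟨hp, hq, hr⟩⟩
  obtain ⟨p, hp⟩ := key
  refine ⟨p, fun x hx => ?_⟩
  simp only [Set.mem_iInter] at hp
  exact hp x hx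

/-- A linear functional of the plane is a dot product. -/
theorem Aa_dt (g : V →L[ℝ] ℝ) (a : V) : g a = dt (g (1, 0), g (0, 1)) a := by
  have h1 : a = a.1 • ((1, 0) : V) + a.2 • ((0, 1) : V) := by
    ext <;> simp
  conv_lhs => rw [h1]
  rw [map_add, map_smul, map_smul]
  simp only [dt, smul_eq_mul]
  ring

theorem Aa {l : ℝ → V} (h : Bd l) (X : Finset V)
    (hX : ¬ ∃ p : V, ∀ x ∈ X, x - p ∈ body l) :
    ∃ n₁ n₂ n₃ x₁ x₂ x₃ : V, ∃ η : ℝ, n₁ + n₂ + n₃ = 0 ∧ x₁ ∈ X ∧ x₂ ∈ X ∧ x₃ ∈ X ∧ 0 < η ∧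
      ∀ ψ₁ ψ₂ ψ₃, dt n₁ (l ψ₁) + dt n₂ (l ψ₂) + dt n₃ (l ψ₃) + η ≤
        dt n₁ x₁ + dt n₂ x₂ + dt n₃ x₃ := by
  obtain ⟨x₁, h1, x₂, h2, x₃, h3, hno⟩ := Aa_three l X hX
  set T : Set (V × V × V) := {w | w.1 - w.2.1 = x₁ - x₂ ∧ w.2.1 - w.2.2 = x₂ - x₃} with hT
  have hTc : Convex ℝ T := by
    rintro a ⟨ha1, ha2⟩ b ⟨hb1, hb2⟩ s t hs ht hst
    refine ⟨?_, ?_⟩
    · have e : (s • a + t • b).1 - (s • a + t • b).2.1 =
          s • (a.1 - a.2.1) + t • (b.1 - b.2.1) := by
        change (s • a.1 + t • b.1) - (s • a.2.1 + t • b.2.1) = _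
        rw [smul_sub, smul_sub]
        abel
      rw [e, ha1, hb1, ← add_smul, hst, one_smul]
    · have e : (s • a + t • b).2.1 - (s • a + t • b).2.2 =
          s • (a.2.1 - a.2.2) + t • (b.2.1 - b.2.2) := by
        change (s • a.2.1 + t • b.2.1) - (s • a.2.2 + t • b.2.2) = _
        rw [smul_sub, smul_sub]
        abel
      rw [e, ha2, hb2, ← add_smul, hst, one_smul]
  have hTcl : IsClosed T := by
    refine IsClosed.and ?_ ?_
    · exact isClosed_eq (continuous_fst.sub (continuous_fst.comp continuous_snd)) continuous_const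
    · exact isClosed_eq ((continuous_fst.comp continuous_snd).sub
        (continuous_snd.comp continuous_snd)) continuous_const
  have hdis : Disjoint (body l ×ˢ (body l ×ˢ body l)) T := by
    rw [Set.disjoint_left]
    rintro ⟨a, b, c⟩ ⟨ha, hb, hc⟩ ⟨e1, e2⟩
    simp only at ha hb hc e1 e2
    apply hno
    refine ⟨x₁ - a, ?_, ?_, ?_⟩
    · rw [sub_sub_cancel]
      exact ha
    · have : x₂ - (x₁ - a) = b := by
        rw [show x₂ - (x₁ - a) = a - (x₁ - x₂) by abel, ← e1]
        abel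
      rw [this]
      exact hb
    · have : x₃ - (x₁ - a) = c := by
        rw [show x₃ - (x₁ - a) = a - (x₁ - x₂) - (x₂ - x₃) by abel, ← e1, ← e2]
        abel
      rw [this]
      exact hc
  obtain ⟨f, u, v, hfu, huv, hfv⟩ := geometric_hahn_banach_compact_closed
    ((Aa_convex l).prod ((Aa_convex l).prod (Aa_convex l)))
    ((Aa_compact l).prod ((Aa_compact l).prod (Aa_compact l))) hTc hTcl hdis
  -- the three parts of `f`
  let f₁ : V →L[ℝ] ℝ := f.comp (ContinuousLinearMap.inl ℝ V (V × V))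
  let f₂ : V →L[ℝ] ℝ := f.comp ((ContinuousLinearMap.inr ℝ V (V × V)).comp
    (ContinuousLinearMap.inl ℝ V V))
  let f₃ : V →L[ℝ] ℝ := f.comp ((ContinuousLinearMap.inr ℝ V (V × V)).comp
    (ContinuousLinearMap.inr ℝ V V))
  have hf : ∀ a b c : V, f (a, b, c) = f₁ a + f₂ b + f₃ c := by
    intro a b c
    change f (a, b, c) = f (a, 0) + f (0, (b, 0)) + f (0, (0, c))
    rw [← map_add, ← map_add]
    congr 1
    ext <;> simp
  set n₁ : V := (f₁ (1, 0), f₁ (0, 1)) with hn₁
  set n₂ : V := (f₂ (1, 0), f₂ (0, 1)) with hn₂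
  set n₃ : V := (f₃ (1, 0), f₃ (0, 1)) with hn₃
  have hfd : ∀ a b c : V, f (a, b, c) = dt n₁ a + dt n₂ b + dt n₃ c := by
    intro a b c
    rw [hf, Aa_dt f₁, Aa_dt f₂, Aa_dt f₃]
  have hmemT : ∀ p : V, (x₁ - p, x₂ - p, x₃ - p) ∈ T := by
    intro p
    refine ⟨?_, ?_⟩
    · change (x₁ - p) - (x₂ - p) = _
      abel
    · change (x₂ - p) - (x₃ - p) = _
      abel
  have hzero : ∀ p : V, dt (n₁ + n₂ + n₃) p = 0 := by
    intro p
    by_contra hne
    have h4 := hfv _ (hmemT (((dt n₁ x₁ + dt n₂ x₂ + dt n₃ x₃ - v) / dt (n₁ + n₂ + n₃) p) • p))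
    rw [hfd, dt_sub, dt_sub, dt_sub, dt_smul, dt_smul, dt_smul] at h4
    have h5 : (dt n₁ x₁ + dt n₂ x₂ + dt n₃ x₃ - v) / dt (n₁ + n₂ + n₃) p *
        dt (n₁ + n₂ + n₃) p = dt n₁ x₁ + dt n₂ x₂ + dt n₃ x₃ - v := div_mul_cancel₀ _ hne
    rw [add_dt, add_dt] at h5
    rw [add_dt, add_dt] at h4
    linarith
  refine ⟨n₁, n₂, n₃, x₁, x₂, x₃, v - u, ?_, h1, h2, h3, by linarith, ?_⟩
  · have e1 := hzero (1, 0)
    have e2 := hzero (0, 1)
    simp only [dt, mul_one, mul_zero, add_zero, zero_add] at e1 e2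
    ext
    · exact e1
    · exact e2
  · intro ψ₁ ψ₂ ψ₃
    have hb : ∀ ψ, l ψ ∈ body l := fun ψ θ => h.supp θ ψ
    have h4 := hfu (l ψ₁, l ψ₂, l ψ₃) ⟨hb _, hb _, hb _⟩
    have h5 := hfv _ (hmemT 0)
    rw [hfd] at h4 h5
    rw [sub_zero, sub_zero, sub_zero] at h5
    linarith

end ZP
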