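import Pool.Agent.H73.ZP.Ab

/-!
ROW Ac.  Greedy: a finite set of points of a curve which is not covered by three translates of the body of
`l` gives three consecutive bad arcs.

PROOF.  Call a finite set `S` of angles good if one translate covers: `∃ p, ∀ φ ∈ S, c φ - p ∈ body l`.  `T` is not good
(else three equal translates), in particular not empty.  Let `x₀ = min T`.  The set of the
`x ∈ T` such that `T ∩ [x₀, x]` is not good is nonempty (`max T` is in it); let `x₁` be its minimum;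
then `T ∩ [x₀, x₁)` is good (it is empty or `T ∩ [x₀, x']` with `x'` its maximum).
The set of the `x ∈ T`, `x ≥ x₁`, with `T ∩ [x₁, x]` not good is nonempty, otherwise `T ∩ [x₁, ∞)` is good
and two translates cover `T`; let `x₂` be its minimum; `T ∩ [x₁, x₂)` is good.  In the same way there is a
minimal `x₃ ∈ T`, `x₃ ≥ x₂` with `T ∩ [x₂, x₃]` not good, otherwise three translates cover `T`.
`Ab` for the three sets `T ∩ [x_k, x_{k+1}]` gives the nine angles `α (3 k), α (3 k + 1), α (3 k + 2)` in `[x_k, x_{k+1}]`;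
all are in `[a, a + 2 π]`, so `α 8 ≤ α 0 + 2 π`: here we need `α 8 ≤ max T`, `α 0 ≥ min T` and the
hypothesis `hT` (`T ⊆ [a, a + 2 π)`).  Take for `η` the minimum of the three margins, and
`α j = α 8` for `j > 8` (e.g. `α j = β (min j 8)`), `P`, `Q : ℕ → V` by cases.
-/

open Real

namespace ZP

/-- one translate covers -/
private def Ac_good (l c : ℝ → V) (S : Finset ℝ) : Prop := ∃ p : V, ∀ φ ∈ S, c φ - p ∈ body l

private theorem Ac_step {l c : ℝ → V} (T : Finset ℝ) (hT : ¬ Ac_good l c T) :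
    ∃ y ∈ T, Ac_good l c (T.filter (fun x => x < y)) ∧ ¬ Ac_good l c (T.filter (fun x => x ≤ y)) := by
  classical
  have hne : T.Nonempty := by
    rw [Finset.nonempty_iff_ne_empty]
    rintro rfl
    exact hT ⟨0, fun φ hφ => absurd hφ (Finset.notMem_empty φ)⟩
  obtain ⟨S, hS⟩ : ∃ S, S = T.filter (fun y => ¬ Ac_good l c (T.filter (fun x => x ≤ y))) := ⟨_, rfl⟩
  have hmax : T.max' hne ∈ S := by
    rw [hS, Finset.mem_filter]
    refine ⟨Finset.max'_mem _ _, ?_⟩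
    rw [Finset.filter_true_of_mem fun x hx => Finset.le_max' T x hx]
    exact hT
  have hSne : S.Nonempty := ⟨_, hmax⟩
  obtain ⟨y, hy⟩ : ∃ y, y = S.min' hSne := ⟨_, rfl⟩
  have hyS : y ∈ S := by rw [hy]; exact Finset.min'_mem _ _
  have hyT := hyS
  rw [hS, Finset.mem_filter] at hyT
  refine ⟨y, hyT.1, ?_, hyT.2⟩
  by_cases h0 : (T.filter (fun x => x < y)).Nonempty
  · obtain ⟨y', hy'⟩ : ∃ y', y' = (T.filter (fun x => x < y)).max' h0 := ⟨_, rfl⟩
    have hy'm : y' ∈ T.filter (fun x => x < y) := by rw [hy']; exact Finset.max'_mem _ _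
    have hy'2 := Finset.mem_filter.1 hy'm
    have h1 : T.filter (fun x => x < y) = T.filter (fun x => x ≤ y') := by
      refine Finset.filter_congr fun x hx => ⟨fun h => ?_, fun h => lt_of_le_of_lt h hy'2.2⟩
      rw [hy']
      exact Finset.le_max' _ x (Finset.mem_filter.2 ⟨hx, h⟩)
    rw [h1]
    by_contra h2
    have h3 : y' ∈ S := by
      rw [hS, Finset.mem_filter]
      exact ⟨hy'2.1, h2⟩
    have h4 : y ≤ y' := by rw [hy]; exact Finset.min'_le S y' h3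
    exact absurd hy'2.2 (not_lt.2 h4)
  · refine ⟨0, fun φ hφ => absurd ⟨φ, hφ⟩ h0⟩

theorem Ac {l c : ℝ → V} (h : Bd l) (hc : Bd c) {a : ℝ} (T : Finset ℝ)
    (hT : ∀ φ ∈ T, a ≤ φ ∧ φ < a + 2 * π)
    (hX : ¬ ∃ p : Fin 3 → V, ∀ φ ∈ T, ∃ k, c φ - p k ∈ body l) : Bad3 l c := by
  classical
  have g0 : ¬ Ac_good l c T := by
    rintro ⟨p, hp⟩
    exact hX ⟨fun _ => p, fun φ hφ => ⟨0, hp φ hφ⟩⟩
  obtain ⟨y1, hy1, ⟨p1, hp1⟩, b0⟩ := Ac_step T g0
  have g1 : ¬ Ac_good l c (T.filter (fun x => y1 ≤ x)) := by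
    rintro ⟨p, hp⟩
    refine hX ⟨![p1, p, p], fun φ hφ => ?_⟩
    rcases lt_or_ge φ y1 with h1 | h1
    · exact ⟨0, hp1 φ (Finset.mem_filter.2 ⟨hφ, h1⟩)⟩
    · exact ⟨1, hp φ (Finset.mem_filter.2 ⟨hφ, h1⟩)⟩
  obtain ⟨y2, hy2, ⟨p2, hp2⟩, b1⟩ := Ac_step _ g1
  have b2 : ¬ Ac_good l c (T.filter (fun x => y2 ≤ x)) := by
    rintro ⟨p, hp⟩
    refine hX ⟨![p1, p2, p], fun φ hφ => ?_⟩
    rcases lt_or_ge φ y1 with h1 | h1
    · exact ⟨0, hp1 φ (Finset.mem_filter.2 ⟨hφ, h1⟩)⟩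
    · rcases lt_or_ge φ y2 with h2 | h2
      · exact ⟨1, hp2 φ (Finset.mem_filter.2 ⟨Finset.mem_filter.2 ⟨hφ, h1⟩, h2⟩)⟩
      · exact ⟨2, hp φ (Finset.mem_filter.2 ⟨hφ, h2⟩)⟩
  have hc' : ∀ S : Finset ℝ, S ⊆ T → ∀ φ ∈ S, a ≤ φ ∧ φ ≤ a + 2 * π := fun S hS φ hφ =>
    ⟨(hT φ (hS hφ)).1, (hT φ (hS hφ)).2.le⟩
  obtain ⟨f0, hf0, f1, hf1, f2, hf2, P0, Q0, η0, h01, h12, hη0, hcr0, H0⟩ :=
    Ab h hc (T.filter (fun x => x ≤ y1)) (hc' _ (Finset.filter_subset _ _)) b0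
  obtain ⟨f3, hf3, f4, hf4, f5, hf5, P1, Q1, η1, h34, h45, hη1, hcr1, H1⟩ :=
    Ab h hc ((T.filter (fun x => y1 ≤ x)).filter (fun x => x ≤ y2))
      (hc' _ ((Finset.filter_subset _ _).trans (Finset.filter_subset _ _))) b1
  obtain ⟨f6, hf6, f7, hf7, f8, hf8, P2, Q2, η2, h67, h78, hη2, hcr2, H2⟩ :=
    Ab h hc (T.filter (fun x => y2 ≤ x)) (hc' _ (Finset.filter_subset _ _)) b2
  have h23 : f2 ≤ f3 := (Finset.mem_filter.1 hf2).2.trans
    (Finset.mem_filter.1 (Finset.mem_filter.1 hf3).1).2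
  have h56 : f5 ≤ f6 := (Finset.mem_filter.1 hf5).2.trans (Finset.mem_filter.1 hf6).2
  have h08 : f8 ≤ f0 + 2 * π := by
    have e1 := (hT f8 (Finset.mem_filter.1 hf8).1).2
    have e2 := (hT f0 (Finset.mem_filter.1 hf0).1).1
    linarith
  refine ⟨fun j => match j with
      | 0 => f0 | 1 => f1 | 2 => f2 | 3 => f3 | 4 => f4 | 5 => f5 | 6 => f6 | 7 => f7 | _ => f8,
    fun j => match j with | 0 => P0 | 1 => P1 | _ => P2,
    fun j => match j with | 0 => Q0 | 1 => Q1 | _ => Q2,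
    min η0 (min η1 η2), lt_min hη0 (lt_min hη1 hη2), ?_, h08, ?_⟩
  · refine monotone_nat_of_le_succ fun n => ?_
    match n with
    | 0 => exact h01
    | 1 => exact h12
    | 2 => exact h23
    | 3 => exact h34
    | 4 => exact h45
    | 5 => exact h56
    | 6 => exact h67
    | 7 => exact h78
    | (n + 8) => exact le_rfl
  · intro k hk
    have m0 : min η0 (min η1 η2) ≤ η0 := min_le_left _ _
    have m1 : min η0 (min η1 η2) ≤ η1 := (min_le_right _ _).trans (min_le_left _ _)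
    have m2 : min η0 (min η1 η2) ≤ η2 := (min_le_right _ _).trans (min_le_right _ _)
    interval_cases k
    · exact ⟨hcr0, fun ψ₁ ψ₂ ψ₃ => (add_le_add le_rfl m0).trans (H0 ψ₁ ψ₂ ψ₃)⟩
    · exact ⟨hcr1, fun ψ₁ ψ₂ ψ₃ => (add_le_add le_rfl m1).trans (H1 ψ₁ ψ₂ ψ₃)⟩
    · exact ⟨hcr2, fun ψ₁ ψ₂ ψ₃ => (add_le_add le_rfl m2).trans (H2 ψ₁ ψ₂ ψ₃)⟩

end ZP
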