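import Pool.Agent.H73.ZP.Bdb

/-!
ROW Ad.  A point of `A` with a supporting direction is near the curve of a smooth body around `A`.

PROOF.  Let `dt (uu θ) x ≤ dt (uu θ) a` for all `x ∈ A`.  Apply `hit` to `γ s = a + s • uu θ` on `[0, ε]`:
`γ 0 = a ∈ body c` by `hin`; `dt (uu θ) (γ ε) = dt (uu θ) a + ε ≥ dt (uu θ) (c θ)` by `hout` (some `x ∈ A` with
`dt (uu θ) (c θ) ≤ dt (uu θ) x + ε ≤ dt (uu θ) a + ε`).  So `γ s = c φ` with `0 ≤ s ≤ ε`, and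
`‖c φ - a‖ = s * ‖uu θ‖ ≤ ε`.  Shift `φ` by a multiple of `2 π` into `[0, 2 π)` (`Bd.per`; e.g. `toIcoMod`).
-/

open Real

namespace ZP

theorem Ad {c : ℝ → V} (hc : Bd c) {A : Set V} {ε : ℝ} (hε : 0 ≤ ε) {a : V} (ha : a ∈ A)
    (hin : ∀ θ, ∀ x ∈ A, dt (uu θ) x ≤ dt (uu θ) (c θ))
    (hout : ∀ θ, ∃ x ∈ A, dt (uu θ) (c θ) ≤ dt (uu θ) x + ε)
    {θ : ℝ} (hs : ∀ x ∈ A, dt (uu θ) x ≤ dt (uu θ) a) :
    ∃ φ, 0 ≤ φ ∧ φ < 2 * π ∧ ‖c φ - a‖ ≤ ε := by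
  have huu : dt (uu θ) (uu θ) = 1 := by
    show Real.cos θ * Real.cos θ + Real.sin θ * Real.sin θ = 1
    nlinarith [Real.sin_sq_add_cos_sq θ]
  have hn : ‖uu θ‖ ≤ 1 := by
    rw [Prod.norm_def]
    exact max_le (by simpa [uu] using Real.abs_cos_le_one θ)
      (by simpa [uu] using Real.abs_sin_le_one θ)
  have hγ : Continuous (fun s : ℝ => a + s • uu θ) := by fun_prop
  obtain ⟨s, hs0, hs1, ψ, hψ⟩ := hit hc hγ hε
    (by
      intro φ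
      simp only [zero_smul, add_zero]
      exact hin φ a ha)
    (by
      obtain ⟨x, hx, hx2⟩ := hout θ
      refine ⟨θ, ?_⟩
      have h1 : dt (uu θ) (a + ε • uu θ) = dt (uu θ) a + ε * dt (uu θ) (uu θ) := by
        unfold dt
        simp only [Prod.fst_add, Prod.snd_add, Prod.smul_fst, Prod.smul_snd, smul_eq_mul]
        ring
      rw [h1, huu]
      linarith [hs x hx])
  have hper : Function.Periodic c (2 * π) := hc.per
  obtain ⟨φ, hφ, hφ'⟩ := hper.exists_mem_Ico₀ (by positivity) ψ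
  refine ⟨φ, hφ.1, hφ.2, ?_⟩
  rw [← hφ', ← hψ]
  show ‖a + s • uu θ - a‖ ≤ ε
  rw [add_sub_cancel_left, norm_smul, Real.norm_of_nonneg hs0]
  calc s * ‖uu θ‖ ≤ s * 1 := mul_le_mul_of_nonneg_left hn hs0
    _ ≤ ε := by linarith

end ZP
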