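import Pool.Agent.H73.ZP.Bda
import Pool.Agent.H27.ZP.Sm

/-!
ROW Sma.  Smoothing of a finite set.  The proof below cites `ZP27.sma` and `ZP27.smb` (file
`Pool/Agent/H27/ZP/Sm.lean`, by helper27), which prove more; the following sketch is the
original plan of this row (averaging rotations).

Let `W` be finite and nonempty, `h θ = max_{w ∈ W} dt (uu θ) w`.  There is a support map `l`
(`Bd l`) with `h θ + ε ≤ dt (uu θ) (l θ) ≤ h θ + 3 ε`.
PROOF.  (1) There is a measurable `x : ℝ → V` with values in `W`, `x (θ + 2 π) = x θ` and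
`dt (uu θ) w ≤ dt (uu θ) (x θ)` for `w ∈ W`: by induction on `W` (`Finset.Nonempty.cons_induction`): given `x` for `W`
and a new `a`, take `fun θ => if dt (uu θ) (x θ) < dt (uu θ) a then a else x θ` (`Measurable.ite`,
`measurableSet_lt`).
(2) Let `rot s w = (cos s * w.1 - sin s * w.2, sin s * w.1 + cos s * w.2)`;
`dt (uu θ) (rot s w) = dt (uu (θ - s)) w`.  With `δ > 0` and `R ≥ ‖w‖` for all `w ∈ W` such that `2 R δ ≤ ε`, put
`l θ = (1 / (2 δ)) • ∫ s in (-δ)..δ, rot s (x (θ - s)) + (2 ε) • uu θ` (integrate the two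
coordinates separately if this is easier: bounded measurable functions are interval integrable).
(3) CONTINUITY.  Substituting `u = θ - s`: the integral is `∫ u in (θ - δ)..(θ + δ), rot (θ - u) (x u)`,
and `rot (θ - u) (x u)` is, by the addition formulas, `cos θ`, `sin θ` times bounded measurable functions of `u`; so
the coordinates are sums of products of `cos θ`, `sin θ` and `∫ u in (θ - δ)..(θ + δ), k u` with `k`
bounded measurable, which is continuous (Lipschitz) in `θ`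
(`intervalIntegral.continuous_primitive` or `continuous_of...`).
(4) SUPPORT.  `dt (uu θ) (l φ) = (1 / (2 δ)) ∫ dt (uu (θ - s)) (x (φ - s)) ds + 2 ε cos (θ - φ)`, and
`dt (uu (θ - s)) (x (φ - s)) ≤ dt (uu (θ - s)) (x (θ - s)) = h (θ - s)`.  Strictness: `cos (θ - φ) < 1`
if `uu φ ≠ uu θ` (`dt (uu θ) (uu φ) = 1` forces equality of unit vectors).
(5) `dt (uu θ) (l θ) = (1 / (2 δ)) ∫ h (θ - s) ds + 2 ε` and `|h (θ - s) - h θ| ≤ 2 R |s| ≤ ε`
(`‖uu θ - uu θ'‖ ≤ |θ - θ'|`, `|dt a b| ≤ 2 ‖a‖ ‖b‖`).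
-/

open Real

namespace ZP

theorem Sma (W : Finset V) (hW : W.Nonempty) {ε : ℝ} (hε : 0 < ε) :
    ∃ l : ℝ → V, Bd l ∧ (∀ θ, ∀ w ∈ W, dt (uu θ) w + ε ≤ dt (uu θ) (l θ)) ∧
      ∀ θ, ∃ w ∈ W, dt (uu θ) (l θ) ≤ dt (uu θ) w + 3 * ε :=
  ZP27.sma W hW hε

/-- The same for a compact set. PROOF.  Take a finite subset `W` of `S` such that every point of `S` is within
`ε / 8` (sup norm) of a point of `W`, so `|dt (uu θ) w - dt (uu θ) w'| ≤ ε / 4`, and apply `Sma` to `W`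
with `5 ε / 4`. -/
theorem Smb (S : Set V) (hS : IsCompact S) (hne : S.Nonempty) {ε : ℝ} (hε : 0 < ε) :
    ∃ l : ℝ → V, Bd l ∧ (∀ θ, ∀ w ∈ S, dt (uu θ) w + ε ≤ dt (uu θ) (l θ)) ∧
      ∀ θ, ∃ w ∈ S, dt (uu θ) (l θ) ≤ dt (uu θ) w + 4 * ε := by
  obtain ⟨l, hl, h1, h2⟩ := ZP27.smb S hS.isBounded hne hε
  refine ⟨l, hl, h1, fun θ => ?_⟩
  obtain ⟨w, hw, h⟩ := h2 θ
  exact ⟨w, hw, by linarith⟩

end ZP
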