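import Pool.Agent.H73.ZP.TTs
import Pool.Agent.H73.ZP.Sma
import Pool.Agent.H73.ZP.Ac
import Pool.Agent.H73.ZP.Ad

/-!
ROW Ae.  Approximate form of the theorem for finite families in convex position.

`L` is compact, `A`, `B` finite, every `a - b` is in `L - L`, and every point of `A` (of `B`) has a supporting direction
for `A` (for `B`).  Then, for every `ε > 0`, `A` or `B` is covered by three translates of the
`ε`-neighbourhood of (the convex hull of) `L`.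
PROOF.  If `A` or `B` is empty the claim is trivial (any `p`).  Let `ε₁ = ε / 16`, `ε₂ = ε₁ / 3`.
`Smb` for `L` with `ε₁` gives `l`: `h_L + ε₁ ≤ dt (uu θ) (l θ) ≤ h_L + 4 ε₁` [in the form of the statement].
`Sma` for `A`, `B` with `ε₂` gives `cA`, `cB`: `h_A + ε₂ ≤ dt (uu θ) (cA θ) ≤ h_A + 3 ε₂`.
CONDITION `hx` of `TTs`: `dt (uu θ) (cA φ - cB ψ) ≤ dt (uu θ) (cA θ) + dt (uu (θ + π)) (cB (θ + π))
 ≤ dt (uu θ) a + dt (uu (θ + π)) b + 6 ε₂` for some `a ∈ A`, `b ∈ B`, `= dt (uu θ) (a - b) + 6 ε₂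
 = dt (uu θ) y + dt (uu (θ + π)) z + 6 ε₂` with `y, z ∈ L`, `≤ dt (uu θ) (l θ) - ε₁ + dt (uu (θ + π)) (l (θ + π)) - ε₁ + 6 ε₂
 = dt (uu θ) (qq l θ)`.
By `TTs`, `Bad3 l cA` and `Bad3 l cB` do not both hold; say not `Bad3 l cA`.  `Ad` with `3 ε₂ = ε₁` gives for every
`a ∈ A` an angle `φ_a ∈ [0, 2 π)` with `‖cA φ_a - a‖ ≤ ε₁`.  `Ac` (contraposition) for
`T` = the set of the `φ_a` : `p : Fin 3 → V` with `cA φ_a - p k ∈ body l`, so for every `θ`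
`dt (uu θ) (a - p k) ≤ dt (uu θ) (cA φ_a - p k) + 2 ε₁ ≤ dt (uu θ) (l θ) + 2 ε₁ ≤ dt (uu θ) y + 6 ε₁` for some `y ∈ L`.
-/

open Real

namespace ZP

theorem Ae_norm (θ : ℝ) : ‖uu θ‖ ≤ 1 := by
  unfold uu
  rw [Prod.norm_def]
  exact max_le (Real.abs_cos_le_one θ) (Real.abs_sin_le_one θ)

theorem Ae_cov {L : Set V} {l : ℝ → V} (hl : Bd l) {ε e : ℝ} (he : 0 < e) (hee : e = ε / 16)
    (hl2 : ∀ θ, ∃ w ∈ L, dt (uu θ) (l θ) ≤ dt (uu θ) w + 4 * e) (W : Finset V) {c : ℝ → V}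
    (hc : Bd c) (h1 : ∀ θ, ∀ w ∈ W, dt (uu θ) w + e / 3 ≤ dt (uu θ) (c θ))
    (h2 : ∀ θ, ∃ w ∈ W, dt (uu θ) (c θ) ≤ dt (uu θ) w + 3 * (e / 3))
    (hW : ∀ a ∈ W, ∃ θ, ∀ x ∈ W, dt (uu θ) x ≤ dt (uu θ) a) (hb : ¬ Bad3 l c) :
    ∃ p : Fin 3 → V, ∀ a ∈ W, ∃ k, ∀ θ, ∃ y ∈ L, dt (uu θ) (a - p k) ≤ dt (uu θ) y + ε := by
  have hAd : ∀ a ∈ W, ∃ φ, 0 ≤ φ ∧ φ < 2 * π ∧ ‖c φ - a‖ ≤ e := by
    intro a ha
    obtain ⟨θ, hθ⟩ := hW a ha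
    refine Ad hc (A := (W : Set V)) he.le (Finset.mem_coe.2 ha) ?_ ?_ (θ := θ) ?_
    · intro θ x hx
      have := h1 θ x (Finset.mem_coe.1 hx)
      linarith
    · intro θ
      obtain ⟨w, hw, h⟩ := h2 θ
      exact ⟨w, Finset.mem_coe.2 hw, by linarith⟩
    · intro x hx
      exact hθ x (Finset.mem_coe.1 hx)
  choose! φ hφ using hAd
  have hp : ∃ p : Fin 3 → V, ∀ x ∈ W.image φ, ∃ k, c x - p k ∈ body l := by
    by_contra hcon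
    refine hb (Ac hl hc (a := 0) (W.image φ) ?_ hcon)
    intro x hx
    obtain ⟨a, ha, rfl⟩ := Finset.mem_image.1 hx
    obtain ⟨h3, h4, -⟩ := hφ a ha
    exact ⟨h3, by rw [zero_add]; exact h4⟩
  obtain ⟨p, hp⟩ := hp
  refine ⟨p, fun a ha => ?_⟩
  obtain ⟨k, hk⟩ := hp (φ a) (Finset.mem_image_of_mem φ ha)
  refine ⟨k, fun θ => ?_⟩
  obtain ⟨y, hy, h5⟩ := hl2 θ
  refine ⟨y, hy, ?_⟩
  have h6 : dt (uu θ) (c (φ a) - p k) ≤ dt (uu θ) (l θ) := hk θ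
  have h7 : dt (uu θ) (c (φ a) - a) ≥ - (2 * e) := by
    have h8 := dt_le (uu θ) (c (φ a) - a)
    have h9 := (abs_le.1 h8).1
    have h10 : 2 * ‖uu θ‖ * ‖c (φ a) - a‖ ≤ 2 * e := by
      have h11 : ‖uu θ‖ * ‖c (φ a) - a‖ ≤ 1 * e :=
        mul_le_mul (Ae_norm θ) (hφ a ha).2.2 (norm_nonneg _) zero_le_one
      linarith
    linarith
  rw [dt_sub] at h6 h7 ⊢
  linarith

theorem Ae (L : Set V) (hL : IsCompact L) (hLne : L.Nonempty) (A B : Finset V)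
    (hAB : ∀ a ∈ A, ∀ b ∈ B, ∃ y ∈ L, ∃ z ∈ L, a - b = y - z)
    (hA : ∀ a ∈ A, ∃ θ, ∀ x ∈ A, dt (uu θ) x ≤ dt (uu θ) a)
    (hB : ∀ b ∈ B, ∃ θ, ∀ x ∈ B, dt (uu θ) x ≤ dt (uu θ) b) {ε : ℝ} (hε : 0 < ε) :
    (∃ p : Fin 3 → V, ∀ a ∈ A, ∃ k, ∀ θ, ∃ y ∈ L, dt (uu θ) (a - p k) ≤ dt (uu θ) y + ε) ∨
    (∃ p : Fin 3 → V, ∀ b ∈ B, ∃ k, ∀ θ, ∃ y ∈ L, dt (uu θ) (b - p k) ≤ dt (uu θ) y + ε) := by
  rcases A.eq_empty_or_nonempty with rfl | hAne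
  · left
    exact ⟨fun _ => 0, fun a ha => absurd ha (Finset.notMem_empty a)⟩
  rcases B.eq_empty_or_nonempty with rfl | hBne
  · right
    exact ⟨fun _ => 0, fun a ha => absurd ha (Finset.notMem_empty a)⟩
  obtain ⟨e, hee⟩ : ∃ e, e = ε / 16 := ⟨_, rfl⟩
  have he : 0 < e := by rw [hee]; positivity
  have he3 : 0 < e / 3 := by positivity
  obtain ⟨l, hl, hl1, hl2⟩ := Smb L hL hLne he
  obtain ⟨cA, hcA, hA1, hA2⟩ := Sma A hAne he3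
  obtain ⟨cB, hcB, hB1, hB2⟩ := Sma B hBne he3
  have hx : ∀ θ φ ψ, dt (uu θ) (cA φ - cB ψ) ≤ dt (uu θ) (qq l θ) := by
    intro θ φ ψ
    obtain ⟨a, ha, h1⟩ := hA2 θ
    obtain ⟨b, hb, h2⟩ := hB2 (θ + π)
    have h3 := hcA.supp θ φ
    have h4 := hcB.supp (θ + π) ψ
    obtain ⟨y, hy, z, hz, hyz⟩ := hAB a ha b hb
    have h5 := hl1 θ y hy
    have h6 := hl1 (θ + π) z hz
    have h7 : dt (uu θ) (a - b) = dt (uu θ) (y - z) := by rw [hyz]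
    rw [dt_sub, dt_sub] at h7
    unfold qq
    rw [dt_sub, dt_sub]
    rw [uu_pi, neg_dt, neg_dt] at h2 h4 h6
    linarith
  by_cases bA : Bad3 l cA
  · right
    exact Ae_cov hl he hee hl2 B hcB hB1 hB2 hB (fun bB => TTs hl hcA hcB hx bA bB)
  · left
    exact Ae_cov hl he hee hl2 A hcA hA1 hA2 hA bA

end ZP
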