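import Pool.Agent.H73.ZP.Ae

/-!
ROW Af.  Exact form for finite families (limit `ε → 0`).

* `lim`: `L` compact convex nonempty, `A` finite; if for every `n` there is a cover as in `Ae` with `ε = 1 / (n + 1)`
 then there is `p : Fin 3 → V` with `∀ a ∈ A, ∃ k, a - p k ∈ L`.
 PROOF.  Induction is not needed: for each `n` we have `p n` and `k n : V → Fin 3` (on `A`).  As the set of the functions
 `A → Fin 3` is finite, one function `k` occurs for infinitely many `n`.  For each `j : Fin 3` with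
 `j = k a` for some `a ∈ A` the `p n j` (for these `n`) are bounded (`L` is bounded and
 `a - p n j` satisfies `dt (uu θ) (a - p n j) ≤ R'`), so after passing to a subsequence they converge
 (compactness, three times, or once in `Fin 3 → V` after putting the unused `p n j = 0`).  For the limit:
 `∀ θ, ∃ y ∈ L, dt (uu θ) (a - p j) ≤ dt (uu θ) y` (maximum of `dt (uu θ)` on the compact `L`).
 `L` closed convex: then `a - p j ∈ L` (otherwise separate: `geometric_hahn_banach_closed_point`, the functional is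
 `dt w` with `w ≠ 0`, `w = |w| • uu θ`).
* `Af`: from `Ae` for `ε = 1 / (n + 1)`: one of the two alternatives holds for infinitely many `n`, hence (monotone in
 `ε`) for all `ε > 0`.
-/

open Real

namespace ZP

theorem af_polar (w : V) : ∃ (ρ θ : ℝ), 0 ≤ ρ ∧ w = (ρ * Real.cos θ, ρ * Real.sin θ) := by
  refine ⟨‖(⟨w.1, w.2⟩ : ℂ)‖, Complex.arg ⟨w.1, w.2⟩, norm_nonneg _, ?_⟩
  rw [Complex.norm_mul_cos_arg, Complex.norm_mul_sin_arg]

theorem af_cont (a : V) : Continuous (fun x : V => dt a x) := by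
  unfold dt
  exact (continuous_const.mul continuous_fst).add (continuous_const.mul continuous_snd)

theorem af_sep (L : Set V) (hL : IsCompact L) (hLc : Convex ℝ L) {x : V}
    (h : ∀ θ, ∃ y ∈ L, dt (uu θ) x ≤ dt (uu θ) y) : x ∈ L := by
  by_contra hx
  obtain ⟨f, u, h1, h2⟩ := geometric_hahn_banach_closed_point hLc hL.isClosed hx
  obtain ⟨ρ, θ, hρ, hw⟩ := af_polar (f (1, 0), f (0, 1))
  have hf : ∀ v : V, f v = ρ * dt (uu θ) v := by
    intro v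
    have h3 : v = v.1 • ((1, 0) : V) + v.2 • ((0, 1) : V) := by
      ext
      · simp
      · simp
    have h4 : f (1, 0) = ρ * Real.cos θ := congrArg Prod.fst hw
    have h5 : f (0, 1) = ρ * Real.sin θ := congrArg Prod.snd hw
    have h6 : f v = v.1 * f (1, 0) + v.2 * f (0, 1) := by
      conv_lhs => rw [h3]
      rw [map_add, map_smul, map_smul, smul_eq_mul, smul_eq_mul]
    rw [h6, h4, h5]
    simp only [dt, uu]
    ring
  obtain ⟨y, hy, hxy⟩ := h θ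
  have h7 := h1 y hy
  rw [hf] at h7
  rw [hf] at h2
  have h8 := mul_le_mul_of_nonneg_left hxy hρ
  linarith

theorem af_box (L : Set V) {R : ℝ} (hR : ∀ y ∈ L, ‖y‖ ≤ R) {x : V}
    (h : ∀ θ, ∃ y ∈ L, dt (uu θ) x ≤ dt (uu θ) y + 1) : ‖x‖ ≤ R + 1 := by
  have b1 : ∀ y ∈ L, |y.1| ≤ R := fun y hy => (norm_fst_le y).trans (hR y hy)
  have b2 : ∀ y ∈ L, |y.2| ≤ R := fun y hy => (norm_snd_le y).trans (hR y hy)
  obtain ⟨y1, hy1, e1⟩ := h 0
  obtain ⟨y2, hy2, e2⟩ := h π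
  obtain ⟨y3, hy3, e3⟩ := h (π / 2)
  obtain ⟨y4, hy4, e4⟩ := h (-(π / 2))
  simp only [dt, uu, Real.cos_zero, Real.sin_zero, Real.cos_pi, Real.sin_pi, Real.cos_pi_div_two,
    Real.sin_pi_div_two, Real.cos_neg, Real.sin_neg] at e1 e2 e3 e4
  have c1 := abs_le.1 (b1 y1 hy1)
  have c2 := abs_le.1 (b1 y2 hy2)
  have c3 := abs_le.1 (b2 y3 hy3)
  have c4 := abs_le.1 (b2 y4 hy4)
  rw [Prod.norm_def, max_le_iff, Real.norm_eq_abs, Real.norm_eq_abs, abs_le, abs_le]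
  refine ⟨⟨?_, ?_⟩, ⟨?_, ?_⟩⟩ <;> linarith

theorem af_ultra (U : Ultrafilter ℕ) (P : ℕ → Fin 3 → Prop) (h : ∀ n, ∃ k, P n k) :
    ∃ k, ∀ᶠ n in (U : Filter ℕ), P n k := by
  by_contra hc
  have h1 : ∀ k, ∀ᶠ n in (U : Filter ℕ), ¬ P n k := by
    intro k
    rw [Ultrafilter.eventually_not]
    exact fun h2 => hc ⟨k, h2⟩
  have h2 : ∀ᶠ n in (U : Filter ℕ), ∀ k, ¬ P n k := Filter.eventually_all.2 h1
  obtain ⟨n, hn⟩ := h2.exists
  obtain ⟨k, hk⟩ := h n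
  exact hn k hk

theorem lim (L : Set V) (hL : IsCompact L) (hLc : Convex ℝ L) (hLne : L.Nonempty)
    (A : Finset V) (h : ∀ ε : ℝ, 0 < ε →
      ∃ p : Fin 3 → V, ∀ a ∈ A, ∃ k, ∀ θ, ∃ y ∈ L, dt (uu θ) (a - p k) ≤ dt (uu θ) y + ε) :
    ∃ p : Fin 3 → V, ∀ a ∈ A, ∃ k, a - p k ∈ L := by
  classical
  obtain ⟨R, hR⟩ := hL.isBounded.exists_norm_le
  have h1 : ∀ n : ℕ, ∃ p : Fin 3 → V, ∀ a ∈ A, ∃ k, ∀ θ, ∃ y ∈ L,
      dt (uu θ) (a - p k) ≤ dt (uu θ) y + 1 / ((n : ℝ) + 1) := fun n => h _ (by positivity)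
  choose p hp using h1
  let U : Ultrafilter ℕ := Filter.hyperfilter ℕ
  have hU : (U : Filter ℕ) ≤ Filter.atTop := Nat.hyperfilter_le_atTop
  have h2 : ∀ a : V, ∃ k : Fin 3, a ∈ A → ∀ᶠ n in (U : Filter ℕ), ∀ θ, ∃ y ∈ L,
      dt (uu θ) (a - p n k) ≤ dt (uu θ) y + 1 / ((n : ℝ) + 1) := by
    intro a
    by_cases ha : a ∈ A
    · obtain ⟨k, hk⟩ := af_ultra U (fun n k => ∀ θ, ∃ y ∈ L,
        dt (uu θ) (a - p n k) ≤ dt (uu θ) y + 1 / ((n : ℝ) + 1)) (fun n => hp n a ha)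
      exact ⟨k, fun _ => hk⟩
    · exact ⟨0, fun h3 => absurd h3 ha⟩
  choose k hk using h2
  have h3 : ∀ j : Fin 3, ∃ x : V, (∃ a ∈ A, k a = j) →
      Filter.Tendsto (fun n => p n j) (U : Filter ℕ) (nhds x) := by
    intro j
    by_cases hj : ∃ a ∈ A, k a = j
    · obtain ⟨a, ha, hja⟩ := hj
      have h4 : ∀ᶠ n in (U : Filter ℕ), p n j ∈ Metric.closedBall a (R + 1) := by
        filter_upwards [hk a ha] with n hn
        rw [mem_closedBall_iff_norm', ← hja]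
        refine af_box L hR fun θ => ?_
        obtain ⟨y, hy, h5⟩ := hn θ
        refine ⟨y, hy, h5.trans ?_⟩
        have h6 : 1 / ((n : ℝ) + 1) ≤ 1 := by
          rw [div_le_one (by positivity)]
          have : (0 : ℝ) ≤ n := Nat.cast_nonneg n
          linarith
        linarith
      have h5 : ((U.map (fun n => p n j) : Ultrafilter V) : Filter V) ≤
          Filter.principal (Metric.closedBall a (R + 1)) := by
        rw [Ultrafilter.coe_map, Filter.le_principal_iff]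
        exact h4
      obtain ⟨x, -, hx⟩ := (isCompact_closedBall a (R + 1)).ultrafilter_le_nhds _ h5
      exact ⟨x, fun _ => hx⟩
    · exact ⟨0, fun h4 => absurd h4 hj⟩
  choose x hx using h3
  refine ⟨x, fun a ha => ⟨k a, ?_⟩⟩
  have hlim := hx (k a) ⟨a, ha, rfl⟩
  refine af_sep L hL hLc fun θ => ?_
  obtain ⟨y, hy, hmax⟩ := hL.exists_isMaxOn hLne (af_cont (uu θ)).continuousOn
  refine ⟨y, hy, ?_⟩
  have t1 : Filter.Tendsto (fun n => dt (uu θ) (a - p n (k a))) (U : Filter ℕ)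
      (nhds (dt (uu θ) (a - x (k a)))) :=
    ((af_cont (uu θ)).tendsto _).comp (tendsto_const_nhds.sub hlim)
  have t2 : Filter.Tendsto (fun n : ℕ => dt (uu θ) y + 1 / ((n : ℝ) + 1)) (U : Filter ℕ)
      (nhds (dt (uu θ) y + 0)) :=
    tendsto_const_nhds.add (tendsto_one_div_add_atTop_nhds_zero_nat.mono_left hU)
  rw [add_zero] at t2
  refine le_of_tendsto_of_tendsto t1 t2 ?_
  filter_upwards [hk a ha] with n hn
  obtain ⟨z, hz, h5⟩ := hn θ
  have h6 : dt (uu θ) z ≤ dt (uu θ) y := hmax hz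
  linarith

theorem Af (L : Set V) (hL : IsCompact L) (hLc : Convex ℝ L) (hLne : L.Nonempty)
    (A B : Finset V) (hAB : ∀ a ∈ A, ∀ b ∈ B, ∃ y ∈ L, ∃ z ∈ L, a - b = y - z)
    (hA : ∀ a ∈ A, ∃ θ, ∀ x ∈ A, dt (uu θ) x ≤ dt (uu θ) a)
    (hB : ∀ b ∈ B, ∃ θ, ∀ x ∈ B, dt (uu θ) x ≤ dt (uu θ) b) :
    (∃ p : Fin 3 → V, ∀ a ∈ A, ∃ k, a - p k ∈ L) ∨
    (∃ p : Fin 3 → V, ∀ b ∈ B, ∃ k, b - p k ∈ L) := by
  have mono : ∀ (C : Finset V) (ε ε' : ℝ), ε ≤ ε' →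
      (∃ p : Fin 3 → V, ∀ a ∈ C, ∃ k, ∀ θ, ∃ y ∈ L, dt (uu θ) (a - p k) ≤ dt (uu θ) y + ε) →
      (∃ p : Fin 3 → V, ∀ a ∈ C, ∃ k, ∀ θ, ∃ y ∈ L, dt (uu θ) (a - p k) ≤ dt (uu θ) y + ε') := by
    intro C ε ε' he hp
    obtain ⟨p, hp⟩ := hp
    refine ⟨p, fun a ha => ?_⟩
    obtain ⟨k, hk⟩ := hp a ha
    refine ⟨k, fun θ => ?_⟩
    obtain ⟨y, hy, h1⟩ := hk θ
    exact ⟨y, hy, by linarith⟩
  by_cases h1 : ∀ ε : ℝ, 0 < ε →
      ∃ p : Fin 3 → V, ∀ a ∈ A, ∃ k, ∀ θ, ∃ y ∈ L, dt (uu θ) (a - p k) ≤ dt (uu θ) y + ε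
  · exact Or.inl (lim L hL hLc hLne A h1)
  · refine Or.inr (lim L hL hLc hLne B ?_)
    obtain ⟨ε₁, h2⟩ := not_forall.1 h1
    obtain ⟨hε₁, h3⟩ := Classical.not_imp.1 h2
    intro ε hε
    rcases Ae L hL hLne A B hAB hA hB (lt_min hε hε₁) with h4 | h4
    · exact absurd (mono A _ ε₁ (min_le_right _ _) h4) h3
    · exact mono B _ ε (min_le_left _ _) h4

end ZP
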