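import Pool.Agent.H73.ZP.Ai

/-!
The whole boundary of the convex hull: three translates of `L` cover the boundary of the convex hull of
`A` or of `B` if `A - B ⊆ L - L`.
-/

open Real
open scoped Pointwise

namespace ZP

/-- If `A - B ⊆ L - L` the same holds for the closed convex hulls. -/
theorem Aj_hull {L : Set V} (hL : IsCompact L) (hLc : Convex ℝ L) {A B : Set V}
    (hAB : ∀ a ∈ A, ∀ b ∈ B, ∃ y ∈ L, ∃ z ∈ L, a - b = y - z) :
    ∀ a ∈ closure (convexHull ℝ A), ∀ b ∈ closure (convexHull ℝ B),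
      ∃ y ∈ L, ∃ z ∈ L, a - b = y - z := by
  have hDc : Convex ℝ (L - L) := hLc.sub hLc
  have hDcl : IsClosed (L - L) := by
    have he : L - L = (fun x : V × V => x.1 - x.2) '' (L ×ˢ L) := by
      ext d
      constructor
      · intro h
        obtain ⟨y, hy, z, hz, h⟩ := Set.mem_sub.1 h
        exact ⟨(y, z), ⟨hy, hz⟩, h⟩
      · rintro ⟨⟨y, z⟩, ⟨hy, hz⟩, h⟩
        exact Set.mem_sub.2 ⟨y, hy, z, hz, h⟩
    rw [he]
    exact ((hL.prod hL).image (continuous_fst.sub continuous_snd)).isClosed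
  have mem : ∀ d : V, d ∈ L - L ↔ ∃ y ∈ L, ∃ z ∈ L, d = y - z := by
    intro d
    rw [Set.mem_sub]
    constructor
    · rintro ⟨y, hy, z, hz, h⟩; exact ⟨y, hy, z, hz, h.symm⟩
    · rintro ⟨y, hy, z, hz, h⟩; exact ⟨y, hy, z, hz, h.symm⟩
  have step1 : ∀ b ∈ B, ∀ a ∈ closure (convexHull ℝ A), a - b ∈ L - L := by
    intro b hb a ha
    have hc : Convex ℝ ((fun a : V => a - b) ⁻¹' (L - L)) := by
      intro x hx y hy s t hs ht hst
      show s • x + t • y - b ∈ L - L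
      have h1 : s • x + t • y - b = s • (x - b) + t • (y - b) := by
        have h2 : b = s • b + t • b := by rw [← add_smul, hst, one_smul]
        calc s • x + t • y - b = s • x + t • y - (s • b + t • b) := by rw [← h2]
          _ = s • (x - b) + t • (y - b) := by rw [smul_sub, smul_sub]; abel
      rw [h1]
      exact hDc hx hy hs ht hst
    have hcl : IsClosed ((fun a : V => a - b) ⁻¹' (L - L)) :=
      hDcl.preimage (continuous_id.sub continuous_const)
    have hsub : A ⊆ (fun a : V => a - b) ⁻¹' (L - L) := fun a ha =>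
      (mem _).2 (hAB a ha b hb)
    exact (closure_minimal (convexHull_min hsub hc) hcl) ha
  intro a ha b hb
  rw [← mem]
  have hc : Convex ℝ ((fun b : V => a - b) ⁻¹' (L - L)) := by
    intro x hx y hy s t hs ht hst
    show a - (s • x + t • y) ∈ L - L
    have h1 : a - (s • x + t • y) = s • (a - x) + t • (a - y) := by
      have h2 : a = s • a + t • a := by rw [← add_smul, hst, one_smul]
      calc a - (s • x + t • y) = (s • a + t • a) - (s • x + t • y) := by rw [← h2]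
        _ = s • (a - x) + t • (a - y) := by rw [smul_sub, smul_sub]; abel
    rw [h1]
    exact hDc hx hy hs ht hst
  have hcl : IsClosed ((fun b : V => a - b) ⁻¹' (L - L)) :=
    hDcl.preimage (continuous_const.sub continuous_id)
  exact (closure_minimal (convexHull_min (fun b hb => step1 b hb a ha) hc) hcl) hb

/-- The boundary of the convex hull of `A` or of `B` is covered by three translates of `L`. -/
theorem Aj_V (L : Set V) (hL : IsCompact L) (hLc : Convex ℝ L) (hLne : L.Nonempty)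
    (A B : Set V) (hAB : ∀ a ∈ A, ∀ b ∈ B, ∃ y ∈ L, ∃ z ∈ L, a - b = y - z) :
    (∃ p : Fin 3 → V, ∀ a ∈ closure (convexHull ℝ A),
      (∃ θ, ∀ x ∈ A, dt (uu θ) x ≤ dt (uu θ) a) → ∃ k, a - p k ∈ L) ∨
    (∃ p : Fin 3 → V, ∀ b ∈ closure (convexHull ℝ B),
      (∃ θ, ∀ x ∈ B, dt (uu θ) x ≤ dt (uu θ) b) → ∃ k, b - p k ∈ L) := by
  have half : ∀ (S : Set V) (v : V) (θ : ℝ), (∀ x ∈ S, dt (uu θ) x ≤ dt (uu θ) v) →
      ∀ x ∈ closure (convexHull ℝ S), dt (uu θ) x ≤ dt (uu θ) v := by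
    intro S v θ h x hx
    have hc : Convex ℝ {x : V | dt (uu θ) x ≤ dt (uu θ) v} := by
      intro x hx y hy s t hs ht hst
      show dt (uu θ) (s • x + t • y) ≤ dt (uu θ) v
      rw [dt_add, dt_smul, dt_smul]
      have h1 := mul_le_mul_of_nonneg_left (show dt (uu θ) x ≤ dt (uu θ) v from hx) hs
      have h2 := mul_le_mul_of_nonneg_left (show dt (uu θ) y ≤ dt (uu θ) v from hy) ht
      have h3 : s * dt (uu θ) v + t * dt (uu θ) v = dt (uu θ) v := by
        rw [← add_mul, hst, one_mul]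
      linarith
    have hcl : IsClosed {x : V | dt (uu θ) x ≤ dt (uu θ) v} := by
      have hcont : Continuous (fun x : V => dt (uu θ) x) := by
        unfold dt
        fun_prop
      exact isClosed_le hcont continuous_const
    exact (closure_minimal (convexHull_min (fun x hx => h x hx) hc) hcl) hx
  rcases Ag L hL hLc hLne _ _ (Aj_hull hL hLc hAB) with ⟨p, hp⟩ | ⟨p, hp⟩
  · left
    refine ⟨p, fun a ha ⟨θ, hθ⟩ => hp a ha ⟨θ, half A a θ hθ⟩⟩
  · right
    refine ⟨p, fun a ha ⟨θ, hθ⟩ => hp a ha ⟨θ, half B a θ hθ⟩⟩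

theorem Aj_fin (K S : Set (EuclideanSpace ℝ (Fin 2))) (p : Fin 3 → V)
    (h : ∀ a ∈ closure (convexHull ℝ (AiT '' S)),
      (∃ θ, ∀ x ∈ AiT '' S, dt (uu θ) x ≤ dt (uu θ) a) →
      ∃ k, a - p k ∈ (fun x => - AiT x) '' K) :
    ∃ P : Finset (EuclideanSpace ℝ (Fin 2)), P.card ≤ 3 ∧
      ∀ a ∈ frontier (convexHull ℝ S), ∃ p ∈ P, p ∈ a +ᵥ K := by
  classical
  choose g hg using AiT_surj
  refine ⟨Finset.univ.image (fun k => g (p k)), ?_, ?_⟩
  · exact Finset.card_image_le.trans (by simp)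
  · intro a hf
    obtain ⟨w, hw, hx⟩ := Ah S hf
    obtain ⟨θ, r, hr, h0, h1⟩ := Ai_dir w hw
    have hcl : AiT a ∈ closure (convexHull ℝ (AiT '' S)) := by
      have h2 : AiT a ∈ closure (AiT '' (convexHull ℝ S)) :=
        image_closure_subset_closure_image AiT_cont
          (Set.mem_image_of_mem AiT (frontier_subset_closure hf))
      refine closure_mono ?_ h2
      rintro _ ⟨x, hx, rfl⟩
      have hc : Convex ℝ (AiT ⁻¹' (convexHull ℝ (AiT '' S))) := by
        intro x hx y hy s t hs ht hst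
        show AiT (s • x + t • y) ∈ convexHull ℝ (AiT '' S)
        rw [AiT_add, AiT_smul, AiT_smul]
        exact (convex_convexHull ℝ _) hx hy hs ht hst
      have hsub : S ⊆ AiT ⁻¹' (convexHull ℝ (AiT '' S)) := fun x hx => by
        show AiT x ∈ convexHull ℝ (AiT '' S)
        exact subset_convexHull ℝ (AiT '' S) (Set.mem_image_of_mem AiT hx)
      exact convexHull_min hsub hc hx
    obtain ⟨k, κ, hκ, hk⟩ := h (AiT a) hcl ⟨θ, by
      rintro _ ⟨x, hxS, rfl⟩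
      have h2 := hx x hxS
      rw [h0, h1] at h2
      have h3 : r * (Real.cos θ * x 0 + Real.sin θ * x 1) ≤
          r * (Real.cos θ * a 0 + Real.sin θ * a 1) := by linarith
      exact le_of_mul_le_mul_left h3 hr⟩
    refine ⟨g (p k), Finset.mem_image_of_mem _ (Finset.mem_univ k), ?_⟩
    rw [Set.mem_vadd_set]
    refine ⟨κ, hκ, ?_⟩
    rw [vadd_eq_add]
    apply AiT_inj
    rw [AiT_add, hg]
    have hk' : - AiT κ = AiT a - p k := hk
    have h4 : AiT κ = p k - AiT a := by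
      rw [← neg_sub, ← hk', neg_neg]
    rw [h4, add_sub_cancel]

theorem Aj (n : ℕ) (hn : 2 ≤ n) (K : Set (EuclideanSpace ℝ (Fin 2))) (hK : IsCompact K)
    (hKc : Convex ℝ K) (F : Fin n → Set (EuclideanSpace ℝ (Fin 2)))
    (hF : ∀ i, (F i).Nonempty)
    (hint : ∀ i j : Fin n, i ≠ j → ∀ a ∈ F i, ∀ b ∈ F j,
      ((a +ᵥ K) ∩ (b +ᵥ K)).Nonempty)
    (p q : Fin n) (hsame : ∀ i : Fin n, i ≠ p → i ≠ q → ∀ a ∈ F i, ∀ b ∈ F i,
      ((a +ᵥ K) ∩ (b +ᵥ K)).Nonempty) :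
    ∃ m : Fin n, ∃ P : Finset (EuclideanSpace ℝ (Fin 2)), P.card ≤ 3 ∧
      ∀ a ∈ frontier (convexHull ℝ (⋃ j ∈ {j : Fin n | j ≠ m}, F j)), ∃ p ∈ P, p ∈ a +ᵥ K := by
  have hKne : K.Nonempty := by
    obtain ⟨a, ha⟩ := hF ⟨0, by omega⟩
    obtain ⟨b, hb⟩ := hF ⟨1, by omega⟩
    obtain ⟨x, hx, -⟩ := hint ⟨0, by omega⟩ ⟨1, by omega⟩ (by
      intro h
      have h1 := congrArg Fin.val h
      exact absurd h1 (by norm_num)) a ha b hb
    obtain ⟨k, hk, -⟩ := Set.mem_vadd_set.1 hx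
    exact ⟨k, hk⟩
  have hL : IsCompact ((fun x => - AiT x) '' K) := hK.image AiT_cont.neg
  have hLc : Convex ℝ ((fun x => - AiT x) '' K) := by
    rintro _ ⟨x, hx, rfl⟩ _ ⟨y, hy, rfl⟩ s t hs ht hst
    refine ⟨s • x + t • y, hKc hx hy hs ht hst, ?_⟩
    show - AiT (s • x + t • y) = s • (- AiT x) + t • (- AiT y)
    rw [AiT_add, AiT_smul, AiT_smul, smul_neg, smul_neg, neg_add]
  have hLne : ((fun x => - AiT x) '' K).Nonempty := hKne.image _
  have key : ∀ a b : EuclideanSpace ℝ (Fin 2), ((a +ᵥ K) ∩ (b +ᵥ K)).Nonempty →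
      ∃ y ∈ (fun x => - AiT x) '' K, ∃ z ∈ (fun x => - AiT x) '' K,
        AiT a - AiT b = y - z := by
    rintro a b ⟨x, hxa, hxb⟩
    obtain ⟨k, hk, hk'⟩ := Set.mem_vadd_set.1 hxa
    obtain ⟨l, hl, hl'⟩ := Set.mem_vadd_set.1 hxb
    refine ⟨_, ⟨k, hk, rfl⟩, _, ⟨l, hl, rfl⟩, ?_⟩
    rw [vadd_eq_add] at hk' hl'
    have h1 : AiT a + AiT k = AiT b + AiT l := by
      rw [← AiT_add, ← AiT_add, hk', hl']
    show AiT a - AiT b = - AiT k - (- AiT l)
    rw [sub_neg_eq_add, sub_eq_iff_eq_add, ← sub_eq_zero]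
    have h2 := sub_eq_zero.2 h1
    rw [← h2]
    abel
  have hAB : ∀ a ∈ AiT '' (⋃ j ∈ {j : Fin n | j ≠ q}, F j),
      ∀ b ∈ AiT '' (⋃ j ∈ {j : Fin n | j ≠ p}, F j),
      ∃ y ∈ (fun x => - AiT x) '' K, ∃ z ∈ (fun x => - AiT x) '' K, a - b = y - z := by
    rintro _ ⟨a, ha, rfl⟩ _ ⟨b, hb, rfl⟩
    obtain ⟨i, hi, ha⟩ := Set.mem_iUnion₂.1 ha
    obtain ⟨j, hj, hb⟩ := Set.mem_iUnion₂.1 hb
    apply key
    by_cases hij : i = j
    · subst hij
      exact hsame i hj hi a ha b hb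
    · exact hint i j hij a ha b hb
  rcases Aj_V _ hL hLc hLne _ _ hAB with ⟨c, hc⟩ | ⟨c, hc⟩
  · obtain ⟨P, hP, h⟩ := Aj_fin K _ c hc
    exact ⟨q, P, hP, h⟩
  · obtain ⟨P, hP, h⟩ := Aj_fin K _ c hc
    exact ⟨p, P, hP, h⟩

end ZP
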