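import Mathlib

/-!
ROW Ca.  Capacities (Hall).  Pure finite combinatorics.

`X` is a finite set of items, `ι` a finite set of players, `sup i e` says that player `i` is positive on
the item `e`.  If `#X ≤ #ι * M` and `ι` is nonempty, there are a nonempty set `S` of players and an assignment `x` of
the items supported by `S` to players of `S` with loads at most `M`, every item being assigned to a
player who is positive on it.
PROOF.  For a set `T` of players let `N T = #{e ∈ X | ∃ i ∈ T, sup i e}`.  Let `S` be a nonempty set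
with `N S ≤ #S * M`, of minimal cardinality (`ι` itself is one).  For `T ⊆ S`, `T ≠ S`:
`#T * M ≤ N T` (`T` empty, or by minimality).
Slots: `S × Fin M` (or `ι × Fin M`).  For an item `e` supported by `S` let `t e` be the set of the
slots `(i, j)` with `i ∈ S` and `sup i e`.  Hall's condition: let `Y` be a set of supported items, and
`Γ` the set of the players of `S` who are positive on some item of `Y`; the slots reached are `Γ × Fin M`.
The items of `Y` are not supported by `T = S \ Γ`, so `N T ≤ N S - #Y`, and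
`#Y ≤ N S - N T ≤ #S * M - #T * M = #Γ * M` (if `T = S` then `Γ = ∅` and `Y = ∅`).
Mathlib: `Finset.all_card_le_biUnion_card_iff_exists_injective`.
-/

namespace ZP

theorem Ca {ι : Type} [Fintype ι] [DecidableEq ι] [Nonempty ι] (X : Finset ℕ) (M : ℕ)
    (sup : ι → ℕ → Prop) (hX : X.card ≤ Fintype.card ι * M) :
    ∃ (S : Finset ι) (x : ℕ → ι), S.Nonempty ∧
      (∀ e ∈ X, (∃ i ∈ S, sup i e) → x e ∈ S ∧ sup (x e) e) ∧
      ∀ i, Set.ncard {e | e ∈ X ∧ (∃ j ∈ S, sup j e) ∧ x e = i} ≤ M := by
  classical
  let N : Finset ι → ℕ := fun T => (X.filter (fun e => ∃ i ∈ T, sup i e)).card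
  let F : Finset (Finset ι) := Finset.univ.filter (fun T => T.Nonempty ∧ N T ≤ T.card * M)
  have hF : (Finset.univ : Finset ι) ∈ F := by
    refine Finset.mem_filter.2 ⟨Finset.mem_univ _, Finset.univ_nonempty, ?_⟩
    exact (Finset.card_filter_le _ _).trans hX
  obtain ⟨S, hS, hmin⟩ := Finset.exists_min_image F Finset.card ⟨_, hF⟩
  obtain ⟨-, hSne, hSN⟩ := Finset.mem_filter.1 hS
  have hT : ∀ T : Finset ι, T ⊆ S → T ≠ S → T.card * M ≤ N T := by
    intro T hTS hne
    by_contra hc
    push Not at hc
    rcases T.eq_empty_or_nonempty with h0 | h0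
    · rw [h0, Finset.card_empty, Nat.zero_mul] at hc
      exact absurd hc (Nat.not_lt_zero _)
    · have h1 : T ∈ F := Finset.mem_filter.2 ⟨Finset.mem_univ _, h0, hc.le⟩
      have h2 := hmin T h1
      exact hne (Finset.eq_of_subset_of_card_le hTS h2)
  let XS : Finset ℕ := X.filter (fun e => ∃ i ∈ S, sup i e)
  let t : XS → Finset (ι × Fin M) := fun e => (S.filter (fun i => sup i e.1)) ×ˢ Finset.univ
  have hall : ∀ s : Finset XS, s.card ≤ (s.biUnion t).card := by
    intro s
    let Γ : Finset ι := S.filter (fun i => ∃ e ∈ s, sup i e.1)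
    have h1 : Γ ×ˢ (Finset.univ : Finset (Fin M)) ⊆ s.biUnion t := by
      rintro ⟨i, j⟩ hij
      obtain ⟨hi, -⟩ := Finset.mem_product.1 hij
      obtain ⟨hiS, e, he, hie⟩ := Finset.mem_filter.1 hi
      exact Finset.mem_biUnion.2 ⟨e, he, Finset.mem_product.2
        ⟨Finset.mem_filter.2 ⟨hiS, hie⟩, Finset.mem_univ _⟩⟩
    have h2 := Finset.card_le_card h1
    rw [Finset.card_product, Finset.card_univ, Fintype.card_fin] at h2
    refine le_trans ?_ h2
    by_cases hTS : S \ Γ = S
    · have h3 : s = ∅ := by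
        rw [Finset.eq_empty_iff_forall_notMem]
        intro e he
        obtain ⟨-, i, hiS, hie⟩ := Finset.mem_filter.1 e.2
        have h4 : i ∈ Γ := Finset.mem_filter.2 ⟨hiS, e, he, hie⟩
        have h5 : i ∈ S \ Γ := by rw [hTS]; exact hiS
        exact (Finset.mem_sdiff.1 h5).2 h4
      rw [h3, Finset.card_empty]
      exact Nat.zero_le _
    · have h3 := hT (S \ Γ) Finset.sdiff_subset hTS
      have h4 : s.card + N (S \ Γ) ≤ N S := by
        have h5 : Disjoint (s.map (Function.Embedding.subtype (· ∈ XS)))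
            (X.filter (fun e => ∃ i ∈ S \ Γ, sup i e)) := by
          rw [Finset.disjoint_left]
          intro e he he'
          obtain ⟨e0, he0, rfl⟩ := Finset.mem_map.1 he
          obtain ⟨-, i, hi, hie⟩ := Finset.mem_filter.1 he'
          obtain ⟨hiS, hiΓ⟩ := Finset.mem_sdiff.1 hi
          exact hiΓ (Finset.mem_filter.2 ⟨hiS, e0, he0, hie⟩)
        have h6 : (s.map (Function.Embedding.subtype (· ∈ XS))) ∪
            (X.filter (fun e => ∃ i ∈ S \ Γ, sup i e)) ⊆ XS := by
          intro e he
          rcases Finset.mem_union.1 he with he | he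
          · obtain ⟨e0, -, rfl⟩ := Finset.mem_map.1 he
            exact e0.2
          · obtain ⟨heX, i, hi, hie⟩ := Finset.mem_filter.1 he
            exact Finset.mem_filter.2 ⟨heX, i, (Finset.mem_sdiff.1 hi).1, hie⟩
        have h7 := Finset.card_le_card h6
        rw [Finset.card_union_of_disjoint h5, Finset.card_map] at h7
        exact h7
      have h8 : (S \ Γ).card + Γ.card = S.card :=
        Finset.card_sdiff_add_card_eq_card (Finset.filter_subset _ _)
      have h9 : (S \ Γ).card * M + Γ.card * M = S.card * M := by rw [← Nat.add_mul, h8]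
      omega
  obtain ⟨f, hf, hft⟩ := (Finset.all_card_le_biUnion_card_iff_exists_injective t).1 hall
  let x : ℕ → ι := fun e => if h : e ∈ XS then (f ⟨e, h⟩).1 else Classical.arbitrary ι
  have hx : ∀ e (h : e ∈ XS), x e = (f ⟨e, h⟩).1 := fun e h => dif_pos h
  refine ⟨S, x, hSne, ?_, ?_⟩
  · intro e he hs
    have h : e ∈ XS := Finset.mem_filter.2 ⟨he, hs⟩
    rw [hx e h]
    have h1 := (Finset.mem_product.1 (hft ⟨e, h⟩)).1
    exact Finset.mem_filter.1 h1
  · intro i
    have h1 : {e | e ∈ X ∧ (∃ j ∈ S, sup j e) ∧ x e = i} =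
        ((XS.filter (fun e => x e = i) : Finset ℕ) : Set ℕ) := by
      ext e
      simp only [Set.mem_setOf_eq, Finset.coe_filter, XS, Finset.mem_filter, and_assoc]
    rw [h1, Set.ncard_coe_finset]
    let g : ℕ → ℕ := fun e => if h : e ∈ XS then ((f ⟨e, h⟩).2 : ℕ) else 0
    have hg : ∀ e (h : e ∈ XS), g e = ((f ⟨e, h⟩).2 : ℕ) := fun e h => dif_pos h
    have h2 : (XS.filter (fun e => x e = i)).card ≤ (Finset.range M).card := by
      refine Finset.card_le_card_of_injOn g ?_ ?_
      · intro e he
        have he1 := (Finset.mem_filter.1 he).1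
        rw [hg e he1]
        exact Finset.mem_coe.2 (Finset.mem_range.2 (f ⟨e, he1⟩).2.isLt)
      · intro e he e' he' hee
        have he1 := Finset.mem_filter.1 he
        have he2 := Finset.mem_filter.1 he'
        rw [hg e he1.1, hg e' he2.1] at hee
        have h3 : (f ⟨e, he1.1⟩).1 = (f ⟨e', he2.1⟩).1 := by
          rw [← hx e he1.1, ← hx e' he2.1, he1.2, he2.2]
        have h4 : f ⟨e, he1.1⟩ = f ⟨e', he2.1⟩ := Prod.ext h3 (Fin.ext hee)
        exact congrArg Subtype.val (hf h4)
    rwa [Finset.card_range] at h2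

end ZP
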