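import Pool.Agent.H73.ZP.Bda

/-!
ROW Cd.  The three point lemma on a hexagon.

`W : ℤ → V`, `W (k + 3) = - W k`, `W (k + 1) = W k + W (k + 2)`: the vertices `W 0, ..., W 5` of an affine
regular hexagon.  `pt W s` is the boundary path, `s ∈ ℝ`: on `[k, k + 1]` it is the segment from `W k` to
`W (k + 1)`.  `g` is sublinear and nonnegative, `E = g (W 0) + g (W 2) + g (W 4)`, `O = g (W 1) + g (W 3) + g (W 5)`.
CLAIMS (`μ = min E O`):
 (i) `g (pt s) ≤ μ`; (ii) `g (pt s) + g (- pt s) ≤ μ`;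
 (iii) for `s ≤ s' ≤ s'' ≤ s + 3`: `g (pt s) + g (pt s'') - g (pt s') ≤ μ`.
PROOF.  `γ k = g (W k)`, period `6`, `γ k ≤ γ (k - 1) + γ (k + 1)`.  `pt (s + 3) = - pt s`.  `pt` is affine on each
`[k, k + 1]`, so `s ↦ g (pt s)` is convex there; (CV) for `a ≤ s ≤ b` there is `s₀ ∈ [a, b]`, which is an
integer or `a` or `b`, with `g (pt s) ≤ g (pt s₀)` [take the interval from `max a ⌊s⌋` to
`min b (⌊s⌋ + 1)`].
(i), (ii): `g (pt s)` and `g (pt s) + g (pt (s + 3))` are convex between consecutive integers, so `s = k` is an integer.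
`γ k` is a summand of `E` or of `O`, and `γ k ≤ γ (k - 1) + γ (k + 1) ≤` the other one.
`γ k + γ (k + 3)`: one is in `E` and the other one in `O`; `γ (k + 3) ≤ γ (k + 2) + γ (k + 4)` [then the sum is `≤` the
one which contains `γ k`] and `γ k ≤ γ (k - 1) + γ (k + 1)`.
(iii): fix `s'`, `s''`; by (CV) on `[s'' - 3, s']` we may assume `s = s'` (then the left side is `g (pt s'')`, (i)),
or `s = s'' - 3` (then it is `≤ g (pt s) + g (- pt s)`, (ii)), or `s` is an integer.  In the same way for `s''`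
on `[s', s + 3]`.  So `s = k`, `s'' = l` are integers, `l - k ∈ {0, 1, 2, 3}`:
 `l = k`: (i).  `l = k + 3`: (ii).
 `l = k + 1`, `s' = k + τ`: `γ (k+1) ≤ g (pt s') + (1 - τ) γ (k + 2)` [since `W (k+1) = pt s' + (1 - τ) W (k+2)`: indeed
   `pt s' = (1 - τ) W k + τ W (k+1)` and `W k = W (k+1) - W (k+2)`], so the left side is `≤ γ k + γ (k + 2)`;
   `γ k ≤ g (pt s') + τ γ (k + 5)` [`W k = pt s' + τ W (k + 5)`, as `W (k+1) - W k = W (k+2) = - W (k+5)`], so it is also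
   `≤ γ (k + 1) + γ (k + 5)`.
 `l = k + 2`: `γ k + γ (k + 2)` is at most one of `E`, `O`; for the other one: `s' = k + τ`, `τ ∈ [0, 1]`:
   `γ k ≤ g (pt s') + τ γ (k + 5)` and `γ (k + 2) ≤ γ (k + 1) + γ (k + 3)`; `s' ∈ [k + 1, k + 2]`: symmetric
   (`γ (k + 2) ≤ g (pt s') + (1 - τ) γ (k + 3)` for `s' = k + 1 + τ`, and `γ k ≤ γ (k + 5) + γ (k + 1)`).
-/

open Real

namespace ZP

/-- The vertices of an affine regular hexagon. -/
structure Hexa (W : ℤ → V) : Prop where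
  half : ∀ k, W (k + 3) = - W k
  hex : ∀ k, W (k + 1) = W k + W (k + 2)

/-- The boundary path. -/
noncomputable def pt (W : ℤ → V) (s : ℝ) : V :=
  (1 - Int.fract s) • W ⌊s⌋ + Int.fract s • W (⌊s⌋ + 1)

/-- Nonnegative sublinear functions. -/
structure Subl (g : V → ℝ) : Prop where
  nn : ∀ v, 0 ≤ g v
  add : ∀ v w, g (v + w) ≤ g v + g w
  smul : ∀ (a : ℝ) (v : V), 0 ≤ a → g (a • v) = a * g v

/-- `min E O`. -/
noncomputable def mu (g : V → ℝ) (W : ℤ → V) : ℝ :=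
  min (g (W 0) + g (W 2) + g (W 4)) (g (W 1) + g (W 3) + g (W 5))

theorem subl_gg (P Q : V) : Subl (gg P Q) := by
  refine ⟨fun v => le_max_left _ _, fun v w => ?_, fun a v ha => ?_⟩
  · unfold gg
    rw [dt_add, dt_add]
    have h1 : (0 : ℝ) ≤ max 0 (max (dt P v) (dt Q v)) := le_max_left _ _
    have h2 : (0 : ℝ) ≤ max 0 (max (dt P w) (dt Q w)) := le_max_left _ _
    have h3 : dt P v ≤ max 0 (max (dt P v) (dt Q v)) :=
      (le_max_left _ _).trans (le_max_right _ _)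
    have h4 : dt Q v ≤ max 0 (max (dt P v) (dt Q v)) :=
      (le_max_right _ _).trans (le_max_right _ _)
    have h5 : dt P w ≤ max 0 (max (dt P w) (dt Q w)) :=
      (le_max_left _ _).trans (le_max_right _ _)
    have h6 : dt Q w ≤ max 0 (max (dt P w) (dt Q w)) :=
      (le_max_right _ _).trans (le_max_right _ _)
    refine max_le ?_ (max_le ?_ ?_) <;> linarith
  · unfold gg
    rw [dt_smul, dt_smul, mul_max_of_nonneg _ _ ha, mul_max_of_nonneg _ _ ha, mul_zero]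

theorem pt_half {W : ℤ → V} (h : Hexa W) (s : ℝ) : pt W (s + 3) = - pt W s := by
  have h1 : ⌊s + 3⌋ = ⌊s⌋ + 3 := by
    have := Int.floor_add_intCast s 3
    exact_mod_cast this
  have h2 : Int.fract (s + 3) = Int.fract s := by
    have := Int.fract_add_intCast s 3
    exact_mod_cast this
  unfold pt
  rw [h1, h2, h.half]
  have h3 : ⌊s⌋ + 3 + 1 = (⌊s⌋ + 1) + 3 := by ring
  rw [h3, h.half, smul_neg, smul_neg, neg_add]

theorem Cd_lin (W : ℤ → V) (k : ℤ) (τ : ℝ) (h0 : 0 ≤ τ) (h1 : τ ≤ 1) :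
    pt W ((k : ℝ) + τ) = (1 - τ) • W k + τ • W (k + 1) := by
  rcases lt_or_eq_of_le h1 with h1 | h1
  · have h2 : ⌊(k : ℝ) + τ⌋ = k := by
      rw [Int.floor_eq_iff]
      constructor <;> linarith
    have h3 : Int.fract ((k : ℝ) + τ) = τ := by
      rw [Int.fract, h2]
      ring
    unfold pt
    rw [h2, h3]
  · subst h1
    have h2 : ⌊(k : ℝ) + 1⌋ = k + 1 := by
      rw [Int.floor_eq_iff]
      push_cast
      constructor <;> linarith
    have h3 : Int.fract ((k : ℝ) + 1) = 0 := by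
      rw [Int.fract, h2]
      push_cast
      ring
    unfold pt
    rw [h2, h3]
    simp

theorem Cd_int (W : ℤ → V) (k : ℤ) : pt W (k : ℝ) = W k := by
  have h := Cd_lin W k 0 le_rfl zero_le_one
  rw [add_zero] at h
  rw [h]
  simp

theorem Cd_six {W : ℤ → V} (h : Hexa W) (k : ℤ) : W (k + 6) = W k := by
  have h1 : k + 6 = (k + 3) + 3 := by ring
  rw [h1, h.half, h.half, neg_neg]

/-- the sum over every second vertex -/
noncomputable def CdS (g : V → ℝ) (W : ℤ → V) (k : ℤ) : ℝ :=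
  g (W k) + g (W (k + 2)) + g (W (k + 4))

theorem Cd_S2 {W : ℤ → V} (h : Hexa W) (g : V → ℝ) (k : ℤ) : CdS g W (k + 2) = CdS g W k := by
  unfold CdS
  have h1 : k + 2 + 2 = k + 4 := by ring
  have h2 : k + 2 + 4 = k + 6 := by ring
  rw [h1, h2, Cd_six h]
  ring

theorem Cd_mu {W : ℤ → V} (h : Hexa W) (g : V → ℝ) (k : ℤ) :
    mu g W = min (CdS g W k) (CdS g W (k + 1)) := by
  induction k using Int.induction_on with
  | zero => rfl
  | succ i ih =>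
    have h1 : ((i : ℤ) + 1) + 1 = (i : ℤ) + 2 := by ring
    rw [ih, h1, Cd_S2 h, min_comm]
  | pred i ih =>
    have h1 : (-(i : ℤ) - 1) + 1 = -(i : ℤ) := by ring
    have h2 : -(i : ℤ) + 1 = (-(i : ℤ) - 1) + 2 := by ring
    rw [ih, h1, h2, Cd_S2 h, min_comm]

theorem Cd_tri {W : ℤ → V} (h : Hexa W) {g : V → ℝ} (hg : Subl g) (k : ℤ) :
    g (W (k + 1)) ≤ g (W k) + g (W (k + 2)) := by
  rw [h.hex k]
  exact hg.add _ _

/-- the six values around `k` -/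
theorem Cd_vals {W : ℤ → V} (h : Hexa W) {g : V → ℝ} (hg : Subl g) (k : ℤ) :
    (0 ≤ g (W k) ∧ 0 ≤ g (W (k + 1)) ∧ 0 ≤ g (W (k + 2)) ∧ 0 ≤ g (W (k + 3)) ∧
      0 ≤ g (W (k + 4)) ∧ 0 ≤ g (W (k + 5))) ∧
    (g (W k) ≤ g (W (k + 5)) + g (W (k + 1)) ∧ g (W (k + 1)) ≤ g (W k) + g (W (k + 2)) ∧
      g (W (k + 2)) ≤ g (W (k + 1)) + g (W (k + 3)) ∧
      g (W (k + 3)) ≤ g (W (k + 2)) + g (W (k + 4))) ∧
    mu g W = min (g (W k) + g (W (k + 2)) + g (W (k + 4)))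
      (g (W (k + 1)) + g (W (k + 3)) + g (W (k + 5))) := by
  refine ⟨⟨hg.nn _, hg.nn _, hg.nn _, hg.nn _, hg.nn _, hg.nn _⟩, ⟨?_, Cd_tri h hg k, ?_, ?_⟩, ?_⟩
  · have h1 := Cd_tri h hg (k - 1)
    have h2 : W (k - 1) = W (k + 5) := by
      rw [← Cd_six h (k - 1)]
      congr 1
      ring
    rw [h2, show k - 1 + 1 = k by ring, show k - 1 + 2 = k + 1 by ring] at h1
    exact h1
  · have h1 := Cd_tri h hg (k + 1)
    rw [show k + 1 + 1 = k + 2 by ring, show k + 1 + 2 = k + 3 by ring] at h1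
    exact h1
  · have h1 := Cd_tri h hg (k + 2)
    rw [show k + 2 + 1 = k + 3 by ring, show k + 2 + 2 = k + 4 by ring] at h1
    exact h1
  · rw [Cd_mu h g k]
    unfold CdS
    rw [show k + 1 + 2 = k + 3 by ring, show k + 1 + 4 = k + 5 by ring]

theorem Cd_conv (W : ℤ → V) {F : V → ℝ} (hadd : ∀ v w, F (v + w) ≤ F v + F w)
    (hsm : ∀ (a : ℝ) (v : V), 0 ≤ a → F (a • v) = a * F v) (k : ℤ) :
    ConvexOn ℝ (Set.Icc (k : ℝ) (k + 1)) (fun s => F (pt W s)) := by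
  refine ⟨convex_Icc _ _, ?_⟩
  intro x hx y hy a b ha hb hab
  obtain ⟨τ, hτ⟩ : ∃ τ, x = k + τ := ⟨x - k, by ring⟩
  obtain ⟨σ, hσ⟩ : ∃ σ, y = k + σ := ⟨y - k, by ring⟩
  have h1 : 0 ≤ τ := by linarith [hx.1]
  have h2 : τ ≤ 1 := by linarith [hx.2]
  have h3 : 0 ≤ σ := by linarith [hy.1]
  have h4 : σ ≤ 1 := by linarith [hy.2]
  have hb' : b = 1 - a := by linarith
  have ha1 : a ≤ 1 := by linarith
  have h5 : a • x + b • y = (k : ℝ) + (a * τ + b * σ) := by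
    rw [smul_eq_mul, smul_eq_mul, hτ, hσ, hb']
    ring
  have h6 : 0 ≤ a * τ + b * σ := by positivity
  have h7 : a * τ + b * σ ≤ 1 := by
    have e1 : a * τ ≤ a * 1 := mul_le_mul_of_nonneg_left h2 ha
    have e2 : b * σ ≤ b * 1 := mul_le_mul_of_nonneg_left h4 hb
    linarith
  show F (pt W (a • x + b • y)) ≤ a • F (pt W x) + b • F (pt W y)
  rw [h5, hτ, hσ, Cd_lin W k _ h6 h7, Cd_lin W k τ h1 h2, Cd_lin W k σ h3 h4, smul_eq_mul,
    smul_eq_mul, ← hsm a _ ha, ← hsm b _ hb]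
  have h8 : (1 - (a * τ + b * σ)) • W k + (a * τ + b * σ) • W (k + 1) =
      a • ((1 - τ) • W k + τ • W (k + 1)) + b • ((1 - σ) • W k + σ • W (k + 1)) := by
    rw [hb']
    module
  rw [h8]
  exact hadd _ _

theorem Cd_cv {F : ℝ → ℝ} (hF : ∀ k : ℤ, ConvexOn ℝ (Set.Icc (k : ℝ) (k + 1)) F) {a b s : ℝ}
    (h1 : a ≤ s) (h2 : s ≤ b) :
    ∃ x, a ≤ x ∧ x ≤ b ∧ (x = a ∨ x = b ∨ ∃ k : ℤ, x = k) ∧ F s ≤ F x := by
  have h3 := Int.floor_le s
  have h4 := Int.lt_floor_add_one s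
  have h5 : F s ≤ max (F (max a ⌊s⌋)) (F (min b (⌊s⌋ + 1))) := by
    apply (hF ⌊s⌋).le_max_of_mem_Icc
    · exact ⟨le_max_right _ _, max_le (by linarith) (by linarith)⟩
    · exact ⟨le_min (by linarith) (by linarith), min_le_right _ _⟩
    · exact ⟨max_le h1 h3, le_min h2 h4.le⟩
  rcases le_max_iff.1 h5 with h6 | h6
  · refine ⟨max a ⌊s⌋, le_max_left _ _, max_le (by linarith) (by linarith), ?_, h6⟩
    rcases max_choice a (⌊s⌋ : ℝ) with h7 | h7
    · exact Or.inl h7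
    · exact Or.inr (Or.inr ⟨⌊s⌋, h7⟩)
  · refine ⟨min b (⌊s⌋ + 1), le_min (by linarith) (by linarith), min_le_left _ _, ?_, h6⟩
    rcases min_choice b ((⌊s⌋ : ℝ) + 1) with h7 | h7
    · exact Or.inr (Or.inl h7)
    · exact Or.inr (Or.inr ⟨⌊s⌋ + 1, by rw [h7]; push_cast; rfl⟩)

theorem Cd1 {W : ℤ → V} (h : Hexa W) {g : V → ℝ} (hg : Subl g) (s : ℝ) :
    g (pt W s) ≤ mu g W := by
  obtain ⟨x, _, _, h3, h4⟩ := Cd_cv (Cd_conv W hg.add hg.smul) (a := ⌊s⌋) (b := (⌊s⌋ + 1 : ℤ))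
    (s := s) (Int.floor_le s) (by push_cast; exact (Int.lt_floor_add_one s).le)
  obtain ⟨k, hk⟩ : ∃ k : ℤ, x = k := by
    rcases h3 with h3 | h3 | h3
    · exact ⟨_, h3⟩
    · exact ⟨_, h3⟩
    · exact h3
  refine h4.trans ?_
  subst hk
  show g (pt W (k : ℝ)) ≤ _
  rw [Cd_int]
  obtain ⟨⟨a0, a1, a2, a3, a4, a5⟩, ⟨b0, b1, b2, b3⟩, c⟩ := Cd_vals h hg k
  rw [c]
  refine le_min ?_ ?_ <;> linarith

theorem Cd_neg {g : V → ℝ} (hg : Subl g) (v w : V) :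
    (g (v + w) + g (-(v + w))) ≤ (g v + g (-v)) + (g w + g (-w)) := by
  have h1 := hg.add v w
  have h2 := hg.add (-v) (-w)
  rw [neg_add]
  linarith

theorem Cd2 {W : ℤ → V} (h : Hexa W) {g : V → ℝ} (hg : Subl g) (s : ℝ) :
    g (pt W s) + g (- pt W s) ≤ mu g W := by
  obtain ⟨x, _, _, h3, h4⟩ := Cd_cv (Cd_conv W (F := fun v => g v + g (-v)) (Cd_neg hg)
    (fun a v ha => by
      show g (a • v) + g (-(a • v)) = a * (g v + g (-v))
      rw [← smul_neg, hg.smul a v ha, hg.smul a (-v) ha]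
      ring)) (a := ⌊s⌋) (b := (⌊s⌋ + 1 : ℤ))
    (s := s) (Int.floor_le s) (by push_cast; exact (Int.lt_floor_add_one s).le)
  obtain ⟨k, hk⟩ : ∃ k : ℤ, x = k := by
    rcases h3 with h3 | h3 | h3
    · exact ⟨_, h3⟩
    · exact ⟨_, h3⟩
    · exact h3
  refine h4.trans ?_
  subst hk
  show g (pt W (k : ℝ)) + g (-pt W (k : ℝ)) ≤ _
  rw [Cd_int, ← h.half]
  obtain ⟨⟨a0, a1, a2, a3, a4, a5⟩, ⟨b0, b1, b2, b3⟩, c⟩ := Cd_vals h hg k
  rw [c]
  refine le_min ?_ ?_ <;> linarith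

/-- `W (k + 1)` and `W k` from a point of the edge -/
theorem Cd_edge {W : ℤ → V} (h : Hexa W) {g : V → ℝ} (hg : Subl g) (k : ℤ) (τ : ℝ)
    (h0 : 0 ≤ τ) (h1 : τ ≤ 1) :
    g (W (k + 1)) ≤ g (pt W ((k : ℝ) + τ)) + g (W (k + 2)) ∧
      g (W k) ≤ g (pt W ((k : ℝ) + τ)) + g (W (k + 5)) := by
  rw [Cd_lin W k τ h0 h1]
  have e5 : W (k + 5) = - W (k + 2) := by
    rw [← h.half]
    congr 1
    ring
  have hx := h.hex k
  constructor
  · have e : W (k + 1) = ((1 - τ) • W k + τ • W (k + 1)) + (1 - τ) • W (k + 2) := by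
      rw [hx]
      module
    have e2 : g ((1 - τ) • W (k + 2)) ≤ g (W (k + 2)) := by
      rw [hg.smul _ _ (by linarith)]
      have := hg.nn (W (k + 2))
      nlinarith
    calc g (W (k + 1)) = g (((1 - τ) • W k + τ • W (k + 1)) + (1 - τ) • W (k + 2)) := by
          rw [← e]
      _ ≤ _ := hg.add _ _
      _ ≤ _ := by linarith
  · have e : W k = ((1 - τ) • W k + τ • W (k + 1)) + τ • W (k + 5) := by
      rw [e5, hx]
      module
    have e2 : g (τ • W (k + 5)) ≤ g (W (k + 5)) := by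
      rw [hg.smul _ _ h0]
      have := hg.nn (W (k + 5))
      nlinarith
    calc g (W k) = g (((1 - τ) • W k + τ • W (k + 1)) + τ • W (k + 5)) := by
          rw [← e]
      _ ≤ _ := hg.add _ _
      _ ≤ _ := by linarith

theorem Cd_ii {W : ℤ → V} (h : Hexa W) {g : V → ℝ} (hg : Subl g) (k l : ℤ) {s' : ℝ}
    (h1 : (k : ℝ) ≤ s') (h2 : s' ≤ l) (h3 : l ≤ k + 3) :
    g (W k) + g (W l) - g (pt W s') ≤ mu g W := by
  obtain ⟨⟨a0, a1, a2, a3, a4, a5⟩, ⟨b0, b1, b2, b3⟩, c⟩ := Cd_vals h hg k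
  have hkl : k ≤ l := by exact_mod_cast h1.trans h2
  have hn := hg.nn (pt W s')
  rw [c]
  have hl : l = k ∨ l = k + 1 ∨ l = k + 2 ∨ l = k + 3 := by omega
  rcases hl with rfl | rfl | rfl | rfl
  · have e : s' = l := le_antisymm h2 h1
    rw [e, Cd_int]
    refine le_min ?_ ?_ <;> linarith
  · push_cast at h2
    obtain ⟨d1, d2⟩ := Cd_edge h hg k (s' - k) (by linarith) (by linarith)
    rw [show (k : ℝ) + (s' - k) = s' by ring] at d1 d2
    refine le_min ?_ ?_ <;> linarith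
  · push_cast at h2
    refine le_min (by linarith) ?_
    rcases le_total s' (k + 1) with h4 | h4
    · obtain ⟨d1, d2⟩ := Cd_edge h hg k (s' - k) (by linarith) (by linarith)
      rw [show (k : ℝ) + (s' - k) = s' by ring] at d1 d2
      linarith
    · obtain ⟨d1, d2⟩ := Cd_edge h hg (k + 1) (s' - (k + 1)) (by linarith) (by linarith)
      rw [show ((k + 1 : ℤ) : ℝ) + (s' - (k + 1)) = s' by push_cast; ring,
        show k + 1 + 1 = k + 2 by ring, show k + 1 + 2 = k + 3 by ring] at d1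
      linarith
  · refine le_min ?_ ?_ <;> linarith

theorem Cd_i {W : ℤ → V} (h : Hexa W) {g : V → ℝ} (hg : Subl g) (k : ℤ) {s' s'' : ℝ}
    (h1 : (k : ℝ) ≤ s') (h2 : s' ≤ s'') (h3 : s'' ≤ k + 3) :
    g (W k) + g (pt W s'') - g (pt W s') ≤ mu g W := by
  obtain ⟨x, hx1, hx2, hx3, hx4⟩ := Cd_cv (Cd_conv W hg.add hg.smul) h2 h3
  replace hx4 : g (pt W s'') ≤ g (pt W x) := hx4
  have key : (∃ l : ℤ, x = l) → g (W k) + g (pt W s'') - g (pt W s') ≤ mu g W := by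
    rintro ⟨l, rfl⟩
    have hl : l ≤ k + 3 := by exact_mod_cast hx2
    have := Cd_ii h hg k l h1 hx1 hl
    rw [Cd_int] at hx4
    linarith
  rcases hx3 with hx3 | hx3 | hx3
  · have := Cd1 h hg (k : ℝ)
    rw [Cd_int] at this
    rw [hx3] at hx4
    linarith
  · exact key ⟨k + 3, by rw [hx3]; push_cast; rfl⟩
  · exact key hx3

theorem Cd3 {W : ℤ → V} (h : Hexa W) {g : V → ℝ} (hg : Subl g) {s s' s'' : ℝ}
    (h1 : s ≤ s') (h2 : s' ≤ s'') (h3 : s'' ≤ s + 3) :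
    g (pt W s) + g (pt W s'') - g (pt W s') ≤ mu g W := by
  have h4 : s'' - 3 ≤ s := by linarith
  obtain ⟨x, hx1, hx2, hx3, hx4⟩ := Cd_cv (Cd_conv W hg.add hg.smul) h4 h1
  replace hx4 : g (pt W s) ≤ g (pt W x) := hx4
  have hn := hg.nn (pt W s')
  rcases hx3 with hx3 | hx3 | ⟨k, rfl⟩
  · have e : pt W s'' = - pt W x := by
      rw [← pt_half h, hx3]
      congr 1
      ring
    have := Cd2 h hg x
    rw [← e] at this
    linarith
  · have := Cd1 h hg s''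
    rw [hx3] at hx4
    linarith
  · have := Cd_i h hg k hx2 h2 (by linarith)
    rw [Cd_int] at hx4
    linarith

end ZP
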