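import Pool.Agent.H73.ZP.Cd

/-!
ROW Ce.  Positions of the vectors `v e` on the boundary of the hexagon of the residue `r`.

`W k = v (r + k M)` is `Hexa` (`half`: `(k + 3) M = k M + 3 M`; `hex`: `Hx.hex`).
For `e` let `k = ⌊(e - r) / M⌋` (integer division, `Int.floorDiv`/`Int.ediv`), `r + k M ≤ e < r + (k + 1) M`.
`D = cr (W k) (W (k + 1)) > 0`, `α = cr (v e) (W (k + 1)) / D > 0`, `β = cr (W k) (v e) / D ≥ 0` (`Hx.ccw`;
`β = 0` if `e = r + k M`), and `v e = α • W k + β • W (k + 1)` (Cramer).  Put `λ = 1 / (α + β)` and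
`s = k + β / (α + β)`: `pt W s = λ • v e`, `⌊s⌋ = k`.
So there are functions `pos e` (`= s`) and `lam e` (`= λ > 0`) with `pt W (pos e) = lam e • v e`,
`pos (r + k M) = k` and `lam (r + k M) = 1`,
`pos (e + 3 M) = pos e + 3` (the same `α, β`, since `v (e + 3 M) = - v e`, `W (k + 3) = - W k`) and
`pos` is monotone: for `e < e'` in the same block, `β / α` is increasing, because `cr (v e) (v e') > 0` is
`(α β' - β α') D > 0`; in different blocks `⌊pos⌋` is different.

`Ce2`: if `0 < cr (pt W s₁) (pt W s₂)`-type information is needed: for `s₁ < s₂ < s₁ + 3` we have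
`0 < cr (pt W s₁) (pt W s₂)`.  PROOF.  `pt W s = (1 - τ) W k + τ W (k + 1)`; expand; `cr (W i) (W j) > 0` for
`i < j < i + 3`, `= 0` for `j = i` and `j = i + 3`, `< 0` for `j = i + 4`: if `⌊s₂⌋ ≤ ⌊s₁⌋ + 1` clear (note
`s₁ < s₂`); if `⌊s₂⌋ = ⌊s₁⌋ + 2`: the terms are `(1-τ)(1-σ) cr (W k) (W (k+2)) + 0 + τ (1-σ) cr (W (k+1)) (W (k+2))
+ τ σ cr (W (k+1)) (W (k+3)) > 0`; if `⌊s₂⌋ = ⌊s₁⌋ + 3` (so `σ < τ`):
`(1-τ)·0·(1-σ) - (1-τ) σ D + τ (1-σ) D + 0 = (τ - σ) D > 0` [all `cr (W k) (W (k+1)) = cr (W k) (W (k+2)) = D`].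
-/

open Real

namespace ZP

theorem hexaW {M : ℕ} {v : ℤ → V} (h : Hx M v) (r : ℤ) : Hexa (fun k => v (r + k * M)) := by
  constructor
  · intro k
    have := h.half (r + k * M)
    show v (r + (k + 3) * M) = - v (r + k * M)
    rw [← this]
    congr 1
    ring
  · intro k
    have := h.hex (r + k * M)
    show v (r + (k + 1) * M) = v (r + k * M) + v (r + (k + 2) * M)
    have e1 : r + (k + 1) * M = r + k * M + M := by ring
    have e2 : r + (k + 2) * M = r + k * M + 2 * M := by ring
    rw [e1, e2]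
    exact this

/-- The order property for all integers (`Hx.ccw` is stated for natural numbers). -/
theorem hx_ccw {M : ℕ} {v : ℤ → V} (h : Hx M v) (i j : ℤ) (h1 : i < j) (h2 : j < i + 3 * M) :
    0 < cr (v i) (v j) := by
  have hM : (0 : ℤ) < M := by exact_mod_cast h.pos
  have per1 : ∀ i : ℤ, v (i + 6 * M) = v i := by
    intro i
    have e : i + 6 * (M : ℤ) = i + 3 * M + 3 * M := by ring
    rw [e, h.half, h.half, neg_neg]
  have per : ∀ (t : ℕ) (i : ℤ), v (i + 6 * M * t) = v i := by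
    intro t
    induction t with
    | zero => intro i; simp
    | succ t ih =>
      intro i
      have e : i + 6 * (M : ℤ) * ((t + 1 : ℕ) : ℤ) = (i + 6 * M * t) + 6 * M := by
        push_cast; ring
      rw [e, per1, ih]
  have ht : 0 ≤ i + 6 * M * (i.natAbs : ℤ) := by
    have a1 : -i ≤ (i.natAbs : ℤ) := by
      rw [Int.natCast_natAbs]; exact neg_le_abs i
    have a2 : (0 : ℤ) ≤ (i.natAbs : ℤ) := Int.natCast_nonneg _
    nlinarith
  obtain ⟨a, ha⟩ := Int.eq_ofNat_of_zero_le ht
  obtain ⟨b, hb⟩ := Int.eq_ofNat_of_zero_le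
    (show 0 ≤ j + 6 * M * (i.natAbs : ℤ) by linarith)
  rw [← per i.natAbs i, ← per i.natAbs j, ha, hb]
  apply h.ccw a b
  · have : (a : ℤ) < b := by rw [← ha, ← hb]; linarith
    exact_mod_cast this
  · have : (b : ℤ) < a + 3 * M := by rw [← ha, ← hb]; linarith
    exact_mod_cast this

private theorem cr_eq (a b : V) : cr a b = a.1 * b.2 - a.2 * b.1 := rfl

/-- Cramer's rule. -/
private theorem cramer (a b x : V) : cr a b • x = cr x b • a + cr a x • b := by
  ext
  · simp only [Prod.smul_fst, Prod.fst_add, smul_eq_mul, cr_eq]; ring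
  · simp only [Prod.smul_snd, Prod.snd_add, smul_eq_mul, cr_eq]; ring

private theorem cr_lin (a b : V) (x y x' y' : ℝ) :
    cr (x • a + y • b) (x' • a + y' • b) = (x * y' - y * x') * cr a b := by
  simp only [cr_eq, Prod.smul_fst, Prod.fst_add, Prod.smul_snd, Prod.snd_add, smul_eq_mul]; ring

private theorem hexa_two {W : ℤ → V} (h : Hexa W) (k : ℤ) : W (k + 2) = W (k + 1) - W k := by
  rw [h.hex k]; abel

private theorem hexa_four {W : ℤ → V} (h : Hexa W) (k : ℤ) : W (k + 4) = - W (k + 1) := by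
  have := h.half (k + 1)
  rw [← this]; congr 1; ring

private theorem hexa_D {W : ℤ → V} (h : Hexa W) (k : ℤ) :
    cr (W k) (W (k + 1)) = cr (W 0) (W 1) := by
  have step : ∀ k : ℤ, cr (W (k + 1)) (W (k + 1 + 1)) = cr (W k) (W (k + 1)) := by
    intro k
    have e : k + 1 + 1 = k + 2 := by ring
    rw [e, hexa_two h k]
    simp only [cr_eq, Prod.fst_sub, Prod.snd_sub]; ring
  induction k using Int.induction_on with
  | zero => simp
  | succ n ih => rw [step]; exact ih
  | pred n ih =>
    have := step (-(n : ℤ) - 1)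
    have e : -(n : ℤ) - 1 + 1 = -(n : ℤ) := by ring
    rw [e] at this ⊢
    rw [← this]; exact ih

private theorem pt_floor {W : ℤ → V} (k : ℤ) (τ : ℝ) (h0 : 0 ≤ τ) (h1 : τ < 1) :
    pt W (k + τ) = (1 - τ) • W k + τ • W (k + 1) := by
  have hf : ⌊(k : ℝ) + τ⌋ = k := by
    rw [Int.floor_eq_iff]; constructor <;> linarith
  have hr : Int.fract ((k : ℝ) + τ) = τ := by
    unfold Int.fract; rw [hf]; ring
  unfold pt; rw [hf, hr]

theorem Ce {M : ℕ} {v : ℤ → V} (h : Hx M v) (r : ℤ) :
    ∃ (pos : ℤ → ℝ) (lam : ℤ → ℝ), (∀ e, 0 < lam e) ∧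
      (∀ e, pt (fun k => v (r + k * M)) (pos e) = lam e • v e) ∧
      (∀ k : ℤ, pos (r + k * M) = k ∧ lam (r + k * M) = 1) ∧
      (∀ e, pos (e + 3 * M) = pos e + 3) ∧ (∀ e, lam (e + 3 * M) = lam e) ∧
      StrictMono pos := by
  have hM : (0 : ℤ) < M := by exact_mod_cast h.pos
  obtain ⟨W, hWdef⟩ : ∃ W : ℤ → V, W = fun k => v (r + k * M) := ⟨_, rfl⟩
  have hWk : ∀ k, W k = v (r + k * M) := fun k => by rw [hWdef]
  have hW : Hexa W := by rw [hWdef]; exact hexaW h r
  obtain ⟨D, hDdef⟩ : ∃ D : ℝ, D = cr (W 0) (W 1) := ⟨_, rfl⟩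
  have hDk : ∀ k, cr (W k) (W (k + 1)) = D := fun k => by rw [hDdef]; exact hexa_D hW k
  have hD : 0 < D := by
    rw [hDdef, hWk, hWk]
    exact hx_ccw h _ _ (by linarith) (by linarith)
  obtain ⟨kk, hkk⟩ : ∃ kk : ℤ → ℤ, kk = fun e => (e - r) / (M : ℤ) := ⟨_, rfl⟩
  have k1 : ∀ e, r + kk e * M ≤ e := by
    intro e
    have := Int.ediv_mul_le (e - r) (ne_of_gt hM)
    rw [hkk]; show r + (e - r) / (M : ℤ) * M ≤ e
    linarith
  have k2 : ∀ e, e < r + (kk e + 1) * M := by
    intro e
    have := Int.lt_ediv_add_one_mul_self (e - r) hM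
    rw [hkk]; show e < r + ((e - r) / (M : ℤ) + 1) * M
    linarith
  have kuniq : ∀ e k, r + k * M ≤ e → e < r + (k + 1) * M → kk e = k := by
    intro e k h1 h2
    have a1 := k1 e
    have a2 := k2 e
    have b1 : k < kk e + 1 := by
      have : k * M < (kk e + 1) * M := by linarith
      exact lt_of_mul_lt_mul_right this hM.le
    have b2 : kk e < k + 1 := by
      have : kk e * M < (k + 1) * M := by linarith
      exact lt_of_mul_lt_mul_right this hM.le
    omega
  obtain ⟨al, hal⟩ : ∃ al : ℤ → ℝ, al = fun e => cr (v e) (W (kk e + 1)) / D := ⟨_, rfl⟩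
  obtain ⟨be, hbe⟩ : ∃ be : ℤ → ℝ, be = fun e => cr (W (kk e)) (v e) / D := ⟨_, rfl⟩
  have ale : ∀ e, al e = cr (v e) (W (kk e + 1)) / D := fun e => by rw [hal]
  have bee : ∀ e, be e = cr (W (kk e)) (v e) / D := fun e => by rw [hbe]
  have alp : ∀ e, 0 < al e := by
    intro e
    rw [ale]
    apply div_pos _ hD
    rw [hWk]
    have a1 := k1 e
    have a2 := k2 e
    apply hx_ccw h _ _ a2
    have : (kk e + 1) * (M : ℤ) = kk e * M + M := by ring
    linarith
  have bep : ∀ e, 0 ≤ be e := by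
    intro e
    rw [bee]
    apply div_nonneg _ hD.le
    rw [hWk]
    have a1 := k1 e
    have a2 := k2 e
    rcases lt_or_eq_of_le a1 with h3 | h3
    · apply le_of_lt
      apply hx_ccw h _ _ h3
      have : (kk e + 1) * (M : ℤ) = kk e * M + M := by ring
      linarith
    · rw [h3, cr_eq]; apply le_of_eq; ring
  have vdec : ∀ e, v e = al e • W (kk e) + be e • W (kk e + 1) := by
    intro e
    have := cramer (W (kk e)) (W (kk e + 1)) (v e)
    rw [hDk] at this
    rw [ale, bee, div_eq_inv_mul, div_eq_inv_mul, mul_smul, mul_smul, ← smul_add, ← this, smul_smul,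
      inv_mul_cancel₀ (ne_of_gt hD), one_smul]
  have Sp : ∀ e, 0 < al e + be e := fun e => by linarith [alp e, bep e]
  refine ⟨fun e => kk e + be e / (al e + be e), fun e => 1 / (al e + be e), ?_, ?_, ?_, ?_, ?_, ?_⟩
  · intro e; exact one_div_pos.mpr (Sp e)
  · intro e
    show pt (fun k => v (r + k * M)) (kk e + be e / (al e + be e)) = (1 / (al e + be e)) • v e
    rw [← hWdef]
    have hs := Sp e
    rw [pt_floor (kk e) (be e / (al e + be e)) (div_nonneg (bep e) hs.le)
      (by rw [div_lt_one hs]; linarith [alp e])]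
    have e1 : (1 - be e / (al e + be e)) = (1 / (al e + be e)) * al e := by
      field_simp; ring
    have e2 : be e / (al e + be e) = (1 / (al e + be e)) * be e := by
      field_simp
    rw [e1, e2]
    conv_rhs => rw [vdec e]
    rw [smul_add, smul_smul, smul_smul]
  · intro k
    have hk : kk (r + k * M) = k := by
      apply kuniq _ _ le_rfl
      have : (k + 1) * (M : ℤ) = k * M + M := by ring
      linarith
    have hb : be (r + k * M) = 0 := by
      rw [bee, hk, ← hWk, cr_eq]
      have : (W k).1 * (W k).2 - (W k).2 * (W k).1 = 0 := by ring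
      rw [this, zero_div]
    have ha : al (r + k * M) = 1 := by
      rw [ale, hk, ← hWk, hDk]
      exact div_self (ne_of_gt hD)
    constructor
    · show ((kk (r + k * M) : ℤ) : ℝ) + be (r + k * M) / (al (r + k * M) + be (r + k * M)) = k
      rw [hk, hb, zero_div, add_zero]
    · show 1 / (al (r + k * M) + be (r + k * M)) = 1
      rw [ha, hb]; norm_num
  all_goals
    try
      have k3 : ∀ e, kk (e + 3 * M) = kk e + 3 := by
        intro e
        have a1 := k1 e
        have a2 := k2 e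
        apply kuniq
        · have : (kk e + 3) * (M : ℤ) = kk e * M + 3 * M := by ring
          linarith
        · have : (kk e + 3 + 1) * (M : ℤ) = (kk e + 1) * M + 3 * M := by ring
          linarith
      have a3 : ∀ e, al (e + 3 * M) = al e := by
        intro e
        rw [ale, ale, k3, h.half e]
        have : kk e + 3 + 1 = (kk e + 1) + 3 := by ring
        rw [this, hW.half]
        congr 1
        simp only [cr_eq, Prod.fst_neg, Prod.snd_neg]; ring
      have b3 : ∀ e, be (e + 3 * M) = be e := by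
        intro e
        rw [bee, bee, k3, h.half e, hW.half]
        congr 1
        simp only [cr_eq, Prod.fst_neg, Prod.snd_neg]; ring
  · intro e
    show ((kk (e + 3 * M) : ℤ) : ℝ) + be (e + 3 * M) / (al (e + 3 * M) + be (e + 3 * M)) =
      kk e + be e / (al e + be e) + 3
    rw [k3, a3, b3]; push_cast; ring
  · intro e
    show 1 / (al (e + 3 * M) + be (e + 3 * M)) = 1 / (al e + be e)
    rw [a3, b3]
  · intro e e' hee
    show (kk e : ℝ) + be e / (al e + be e) < kk e' + be e' / (al e' + be e')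
    have a1 := k1 e
    have a2 := k2 e
    have a1' := k1 e'
    have a2' := k2 e'
    have hle : kk e ≤ kk e' := by
      have : kk e * M < (kk e' + 1) * M := by linarith
      have := lt_of_mul_lt_mul_right this hM.le
      omega
    have hs := Sp e
    have hs' := Sp e'
    rcases lt_or_eq_of_le hle with hlt | heq
    · have h1 : be e / (al e + be e) < 1 := by rw [div_lt_one hs]; linarith [alp e]
      have h2 : 0 ≤ be e' / (al e' + be e') := div_nonneg (bep e') hs'.le
      have h3 : (kk e : ℝ) + 1 ≤ kk e' := by exact_mod_cast hlt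
      linarith
    · rw [heq]
      have hc : 0 < cr (v e) (v e') := by
        apply hx_ccw h _ _ hee
        rw [← heq] at a2'
        have : (kk e + 1) * (M : ℤ) = kk e * M + M := by ring
        linarith
      have hx := vdec e
      have hy := vdec e'
      rw [← heq] at hy
      rw [hx, hy, cr_lin, hDk] at hc
      have h4 : 0 < al e * be e' - be e * al e' := by
        by_contra hn
        push Not at hn
        have := mul_nonpos_of_nonpos_of_nonneg hn hD.le
        linarith
      have h5 : be e / (al e + be e) < be e' / (al e' + be e') := by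
        rw [div_lt_div_iff₀ hs hs']
        nlinarith
      linarith

theorem Ce2 {W : ℤ → V} (h : Hexa W) (hD : 0 < cr (W 0) (W 1)) {s₁ s₂ : ℝ} (h1 : s₁ < s₂)
    (h2 : s₂ < s₁ + 3) : 0 < cr (pt W s₁) (pt W s₂) := by
  obtain ⟨m, τ, hτ0, hτ1, hs1⟩ : ∃ (m : ℤ) (τ : ℝ), 0 ≤ τ ∧ τ < 1 ∧ s₁ = m + τ :=
    ⟨⌊s₁⌋, Int.fract s₁, Int.fract_nonneg _, Int.fract_lt_one _, (Int.floor_add_fract s₁).symm⟩
  obtain ⟨n, σ, hσ0, hσ1, hs2⟩ : ∃ (n : ℤ) (σ : ℝ), 0 ≤ σ ∧ σ < 1 ∧ s₂ = n + σ :=
    ⟨⌊s₂⌋, Int.fract s₂, Int.fract_nonneg _, Int.fract_lt_one _, (Int.floor_add_fract s₂).symm⟩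
  rw [hs1, hs2, pt_floor m τ hτ0 hτ1, pt_floor n σ hσ0 hσ1]
  have hDm := hexa_D h m
  have c1 : m ≤ n := by
    have : (m : ℝ) < n + 1 := by linarith
    have : m < n + 1 := by exact_mod_cast this
    omega
  have c2 : n ≤ m + 3 := by
    have : (n : ℝ) < m + 4 := by linarith
    have : n < m + 4 := by exact_mod_cast this
    omega
  have hD' : 0 < cr (W m) (W (m + 1)) := by rw [hDm]; exact hD
  have hcase : n = m ∨ n = m + 1 ∨ n = m + 2 ∨ n = m + 3 := by omega
  rcases hcase with hn | hn | hn | hn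
  · subst hn
    rw [cr_lin]
    apply mul_pos _ hD'
    nlinarith
  · subst hn
    have e1 : m + 1 + 1 = m + 2 := by ring
    have : (1 - σ) • W (m + 1) + σ • W (m + 1 + 1) = (-σ) • W m + (1 : ℝ) • W (m + 1) := by
      rw [e1, hexa_two h m]; module
    rw [this, cr_lin]
    apply mul_pos _ hD'
    nlinarith [mul_nonneg hτ0 hσ0]
  · subst hn
    have e1 : m + 2 + 1 = m + 3 := by ring
    have : (1 - σ) • W (m + 2) + σ • W (m + 2 + 1) = (-1 : ℝ) • W m + (1 - σ) • W (m + 1) := by
      rw [e1, hexa_two h m, h.half m]; module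
    rw [this, cr_lin]
    apply mul_pos _ hD'
    nlinarith [mul_pos (sub_pos.mpr hτ1) (sub_pos.mpr hσ1)]
  · subst hn
    have e1 : m + 3 + 1 = m + 4 := by ring
    have : (1 - σ) • W (m + 3) + σ • W (m + 3 + 1) = (-(1 - σ)) • W m + (-σ) • W (m + 1) := by
      rw [e1, hexa_four h m, h.half m]; module
    rw [this, cr_lin]
    apply mul_pos _ hD'
    have : σ < τ := by push_cast at hs2; linarith
    nlinarith

end ZP
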