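import Pool.Agent.H73.ZP.Ce

/-!
ROW Cf.  The inequality of one player with two arcs, long case.

`g = gg P Q`, `cr P Q > 0`; `z = pt W s₁` is in the `P`-part (`0 < dt P z`, `dt Q z ≤ dt P z`), `w = pt W s₂`
is in the `Q`-part (`0 < dt Q w`, `dt P w ≤ dt Q w`), and `s₁ + 3 ≤ s₂ ≤ s₁ + 6`.  Then
`g z + g w ≤ mu g W`.
PROOF.  If `s₂ = s₁ + 3` then `w = - z` and this is `Cd2`.  (`s₂ = s₁ + 6`: `w = z`, so
`dt P z = dt Q z`, hmm: then use `Cd3` as below with `s₁ + 6 - s₂ = 0`: here `g z + g w ≤ μ` would be needed;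
it does not occur: see the statement, we assume `s₂ < s₁ + 6`.)
Let `s₁ + 3 < s₂ < s₁ + 6`.  By `Ce2` (with `s₂ < s₁ + 6 < s₂ + 3`, `pt W (s₁ + 6) = z`): `0 < cr w z`.
Let `J x = (- x.2, x.1)` and `ζ = - J (P - Q)`: `dt P ζ = dt Q ζ = - cr P Q < 0`, `cr w ζ = - dt w (P - Q) ≥ 0`,
`cr ζ z = dt z (P - Q) ≥ 0`; so `cr w z • ζ = (cr ζ z) • w + (cr w ζ) • z` with nonnegative coefficients.
The function `s ↦ cr (pt W s) ζ` is continuous, `≥ 0` at `s₂` and `≤ 0` at `s₁ + 6`: there is `s ∈ [s₂, s₁ + 6]` with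
`cr (pt W s) ζ = 0`, so `pt W s = c • ζ` (`ζ ≠ 0`).  `c ≥ 0`: `0 ≤ cr w (pt W s) = c * cr w ζ` and
`0 ≤ cr (pt W s) z = c * cr ζ z` (`Ce2`, with `≤`), and `cr w ζ`, `cr ζ z` are not both `0` (`ζ ≠ 0` is a combination); if
`c < 0` both are `≤ 0`, contradiction.  So `g (pt W s) = c * g ζ = 0`, and `Cd3` for `s₂ ≤ s ≤ s₁ + 6 ≤ s₂ + 3`
gives the claim.  (Continuity of `pt W`: it is piecewise affine; `Continuous` can be proved from
`pt W s = W k + (s - k) (W (k+1) - W k)` on `[k, k+1]`, or use the convexity of `g` instead.  Alternatively argue on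
one segment: choose the last integer or end point where `cr (pt W s) ζ ≥ 0`.)
-/

open Real

namespace ZP

theorem Cf_seg (W : ℤ → V) (k : ℤ) {s : ℝ} (h1 : (k : ℝ) ≤ s) (h2 : s ≤ k + 1) :
    pt W s = ((k : ℝ) + 1 - s) • W k + (s - k) • W (k + 1) := by
  rcases h2.lt_or_eq with h | h
  · have hf : ⌊s⌋ = k := Int.floor_eq_iff.2 ⟨h1, h⟩
    have hr : Int.fract s = s - k := by
      rw [← hf]
      rfl
    unfold pt
    rw [hr, hf]
    congr 2
    ring
  · have hs : s = ((k + 1 : ℤ) : ℝ) := by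
      push_cast
      exact h
    have hf : ⌊s⌋ = k + 1 := by
      rw [hs]
      exact Int.floor_intCast _
    have hr : Int.fract s = 0 := by
      rw [hs]
      exact Int.fract_intCast _
    unfold pt
    rw [hr, hf, h]
    simp

theorem pt_cont (W : ℤ → V) : Continuous (pt W) := by
  rw [continuous_iff_continuousAt]
  intro s₀
  have hk1 := Int.floor_le s₀
  have hk2 := Int.lt_floor_add_one s₀
  set k := ⌊s₀⌋ with hk
  have hcA : Continuous fun s : ℝ => ((k : ℝ) - s) • W (k - 1) + (s - (k - 1)) • W k := by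
    fun_prop
  have hcB : Continuous fun s : ℝ => ((k : ℝ) + 1 - s) • W k + (s - k) • W (k + 1) := by
    fun_prop
  have hc : Continuous fun s : ℝ => if s ≤ (k : ℝ) then
      ((k : ℝ) - s) • W (k - 1) + (s - (k - 1)) • W k
      else ((k : ℝ) + 1 - s) • W k + (s - k) • W (k + 1) := by
    apply Continuous.if_le hcA hcB continuous_id continuous_const
    intro s hs
    have hs' : s = (k : ℝ) := hs
    rw [hs']
    simp
  apply hc.continuousAt.congr
  have hnb : Set.Ioo ((k : ℝ) - 1) (k + 1) ∈ nhds s₀ := Ioo_mem_nhds (by linarith) hk2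
  filter_upwards [hnb] with s hs
  by_cases hsk : s ≤ (k : ℝ)
  · rw [if_pos hsk]
    have h1 := Cf_seg W (k - 1) (s := s) (by push_cast; linarith [hs.1]) (by push_cast; linarith)
    rw [h1]
    push_cast
    rw [sub_add_cancel, sub_add_cancel]
  · rw [if_neg hsk]
    exact (Cf_seg W k (not_le.1 hsk).le hs.2.le).symm

theorem Cf {W : ℤ → V} (h : Hexa W) (hD : 0 < cr (W 0) (W 1)) {P Q : V} (hPQ : 0 < cr P Q)
    {s₁ s₂ : ℝ} (h1 : s₁ + 3 ≤ s₂) (h2 : s₂ < s₁ + 6)
    (hz : 0 < dt P (pt W s₁)) (hz' : dt Q (pt W s₁) ≤ dt P (pt W s₁))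
    (hw : 0 < dt Q (pt W s₂)) (hw' : dt P (pt W s₂) ≤ dt Q (pt W s₂)) :
    gg P Q (pt W s₁) + gg P Q (pt W s₂) ≤ mu (gg P Q) W := by
  have hg := subl_gg P Q
  rcases h1.eq_or_lt with h3 | h3
  · rw [← h3, pt_half h]
    exact Cd2 h hg s₁
  · have hz6 : pt W (s₁ + 6) = pt W s₁ := by
      rw [show s₁ + 6 = (s₁ + 3) + 3 by ring, pt_half h, pt_half h, neg_neg]
    have hwz : 0 < cr (pt W s₂) (pt W s₁) := by
      rw [← hz6]
      exact Ce2 h hD h2 (by linarith)
    have hfc : Continuous fun s => dt Q (pt W s) - dt P (pt W s) := by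
      have hp := pt_cont W
      have hp1 : Continuous fun s => (pt W s).1 := hp.fst
      have hp2 : Continuous fun s => (pt W s).2 := hp.snd
      unfold dt
      exact ((continuous_const.mul hp1).add (continuous_const.mul hp2)).sub
        ((continuous_const.mul hp1).add (continuous_const.mul hp2))
    obtain ⟨s, hs, hs0⟩ := intermediate_value_Icc' (f := fun s => dt Q (pt W s) - dt P (pt W s))
      h2.le hfc.continuousOn (show (0 : ℝ) ∈ Set.Icc _ _ from
        ⟨by simp only [hz6]; linarith, sub_nonneg.2 hw'⟩)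
    have hs0' : dt Q (pt W s) = dt P (pt W s) := by
      have : dt Q (pt W s) - dt P (pt W s) = 0 := hs0
      linarith
    have hle : dt P (pt W s) ≤ 0 := by
      by_contra hcon
      push Not at hcon
      rcases hs.1.eq_or_lt with h4 | h4
      · -- `s = s₂`
        rw [← h4] at hs0' hcon
        have e : cr P Q * cr (pt W s₂) (pt W s₁)
            = - dt P (pt W s₂) * (dt P (pt W s₁) - dt Q (pt W s₁))
              + (dt Q (pt W s₂) - dt P (pt W s₂)) * (- dt P (pt W s₁)) := by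
          unfold cr dt
          ring
        have h5 : 0 < cr P Q * cr (pt W s₂) (pt W s₁) := mul_pos hPQ hwz
        rw [e, hs0', sub_self, zero_mul, add_zero] at h5
        nlinarith [mul_nonneg hcon.le (sub_nonneg.2 hz')]
      · have hwy : 0 < cr (pt W s₂) (pt W s) := Ce2 h hD h4 (by linarith [hs.2])
        have e : cr P Q * cr (pt W s₂) (pt W s)
            = - dt P (pt W s) * (dt Q (pt W s₂) - dt P (pt W s₂))
              + (dt Q (pt W s) - dt P (pt W s)) * dt P (pt W s₂) := by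
          unfold cr dt
          ring
        have h5 : 0 < cr P Q * cr (pt W s₂) (pt W s) := mul_pos hPQ hwy
        rw [e, hs0', sub_self, zero_mul, add_zero] at h5
        nlinarith [mul_nonneg hcon.le (sub_nonneg.2 hw')]
    have hgs : gg P Q (pt W s) = 0 := by
      unfold gg
      rw [hs0', max_self]
      exact max_eq_left hle
    have h6 := Cd3 h hg hs.1 hs.2 (by linarith)
    rw [hz6, hgs] at h6
    linarith

end ZP
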