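import Mathlib

/-!
ROW Cg.  The window lemma (pure finite combinatorics, layer cake and counting by induction).

`[a, b)` is a window of integers, `x e` is the player of the index `e` and `s e` its part (the pair
`(x e, s e)` is the label).  Equal labels are contiguous in the window; every player has at most `M`
indices in the window.  `f i p ≥ 0` is the value of the label `(i, p)`.  `sh` is a set of players with
two marked indices `I i < J i` in the window, labels `(i, false)` and `(i, true)`, and a number `m i` which is at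
most the value of the label of each index of `[I i, J i]`.  CLAIM:
`∑_{e ∈ [a, b), M ∣ e - r} f (label e) + ∑_{i ∈ sh} m i ≤ ∑_{labels of the window} f (label)`.

PROOF by strong induction on `b - a` (for all `a`, `b`, `f`, `sh`, `m`).  If `a ≥ b` everything is `0` (`sh` is empty).
Otherwise let `e₀` be an index of the window with minimal `f (label e₀) = T ≥ 0`.  The indices with the label of `e₀`
form an interval `[a', b')`, `a ≤ a' ≤ e₀ < b' ≤ b`.  Apply the induction hypothesis to the windows
`[a, a')` and `[b', b)`, with the values `f - T` (replace `f` by `fun i p => max (f i p - T) 0`, which is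
`f - T` on the labels of the window), `m i - T`, and the sets
`sh₁ = {i ∈ sh | J i < a'}`, `sh₂ = {i ∈ sh | b' ≤ I i}`.  For the other `i ∈ sh` the interval `[I i, J i]` meets
`[a', b')`, so `m i ≤ T`.  The labels of `[a, a')`, of `[b', b)` and the label of `e₀` are different
(contiguity), and together they are the labels of the window.  Adding, we get the claim from
 COUNT: `p + #sh ≤ n`, where `p` is the number of `e ∈ [a, b)` with `M ∣ e - r` and `n` the number of labels.
PROOF of COUNT.  Each player who has indices in the window has one or two labels, and the players of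
`sh` have two, so `n ≥ #sh + (number k of players with indices in the window)`; `b - a ≤ k M` (loads).
If `p ≥ 1` then `(p - 1) M + 1 ≤ b - a`, so `(p - 1) M < k M`, `p ≤ k`.
-/

namespace ZP

/-- The counting part. -/
theorem Cg_count {ι : Type} [Fintype ι] [DecidableEq ι] (M : ℕ) (hM : 0 < M) (r : ℤ)
    (x : ℤ → ι) (s : ℤ → Bool) (sh : Finset ι) (I J : ι → ℤ) (a b : ℤ)
    (hload : ∀ i, ((Finset.Ico a b).filter (fun e => x e = i)).card ≤ M)
    (hsh : ∀ i ∈ sh, a ≤ I i ∧ I i < b ∧ a ≤ J i ∧ J i < b ∧ x (I i) = i ∧ s (I i) = false ∧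
      x (J i) = i ∧ s (J i) = true) :
    ((Finset.Ico a b).filter (fun e => (M : ℤ) ∣ e - r)).card + sh.card ≤
      ((Finset.Ico a b).image (fun e => (x e, s e))).card := by
  classical
  set W := Finset.Ico a b with hW
  set X := W.image x with hX
  set L := W.image (fun e => (x e, s e)) with hL
  have hk : W.card ≤ M * X.card := by
    apply Finset.card_le_mul_card_image
    intro i _
    exact hload i
  have hk' : b - a ≤ (M : ℤ) * X.card := by
    have h1 : ((W.card : ℕ) : ℤ) ≤ ((M * X.card : ℕ) : ℤ) := by exact_mod_cast hk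
    have h2 : W.card = (b - a).toNat := by rw [hW, Int.card_Ico]
    rw [h2] at h1
    push_cast at h1
    have h3 := Int.self_le_toNat (b - a)
    omega
  have hp : ((Finset.Ico a b).filter (fun e => (M : ℤ) ∣ e - r)).card ≤ X.card := by
    have h1 : (Finset.Ico a b).filter (fun e => (M : ℤ) ∣ e - r)
        = (Finset.Ico a b).filter (fun e => e ≡ r [ZMOD (M : ℤ)]) := by
      apply Finset.filter_congr
      intro e _
      rw [Int.modEq_iff_dvd, dvd_sub_comm]
    have hM' : (0 : ℤ) < (M : ℤ) := by exact_mod_cast hM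
    have h2 := Int.Ico_filter_modEq_card a b hM' r
    rw [h1]
    have h3 : ⌈((b : ℚ) - r) / ((M : ℤ) : ℚ)⌉ ≤ ⌈((a : ℚ) - r) / ((M : ℤ) : ℚ)⌉ + (X.card : ℤ) := by
      have hMq : (0 : ℚ) < ((M : ℤ) : ℚ) := by exact_mod_cast hM'
      rw [← Int.ceil_add_natCast]
      apply Int.ceil_le_ceil
      rw [div_add' _ _ _ hMq.ne']
      apply div_le_div_of_nonneg_right _ hMq.le
      have h4 : ((b - a : ℤ) : ℚ) ≤ (((M : ℤ) * X.card : ℤ) : ℚ) := by exact_mod_cast hk'
      push_cast at h4 ⊢
      linarith
    have h5 : (((Finset.Ico a b).filter (fun e => e ≡ r [ZMOD (M : ℤ)])).card : ℤ)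
        ≤ (X.card : ℤ) := by
      rw [h2]
      apply max_le
      · omega
      · positivity
    exact_mod_cast h5
  have hshX : sh ⊆ X := by
    intro i hi
    obtain ⟨h1, h2, -, -, h3, -⟩ := hsh i hi
    exact Finset.mem_image.2 ⟨I i, Finset.mem_Ico.2 ⟨h1, h2⟩, h3⟩
  have hn : X.card + sh.card ≤ L.card := by
    have hmaps : ∀ p ∈ L, p.1 ∈ X := by
      intro p hp
      obtain ⟨e, he, rfl⟩ := Finset.mem_image.1 hp
      exact Finset.mem_image.2 ⟨e, he, rfl⟩
    rw [Finset.card_eq_sum_card_fiberwise hmaps]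
    have h1 : X.card + sh.card = ∑ i ∈ X, (1 + if i ∈ sh then 1 else 0) := by
      rw [Finset.sum_add_distrib, ← Finset.card_eq_sum_ones, ← Finset.card_filter,
        Finset.filter_mem_eq_inter, Finset.inter_eq_right.2 hshX]
    rw [h1]
    apply Finset.sum_le_sum
    intro i hi
    obtain ⟨e, he, hei⟩ := Finset.mem_image.1 hi
    have hmem : (i, s e) ∈ L.filter (fun p => p.1 = i) :=
      Finset.mem_filter.2 ⟨Finset.mem_image.2 ⟨e, he, by rw [hei]⟩, rfl⟩
    split_ifs with his
    · obtain ⟨h1, h2, h3, h4, h5, h6, h7, h8⟩ := hsh i his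
      have m1 : (i, false) ∈ L.filter (fun p => p.1 = i) :=
        Finset.mem_filter.2 ⟨Finset.mem_image.2 ⟨I i, Finset.mem_Ico.2 ⟨h1, h2⟩, by rw [h5, h6]⟩,
          rfl⟩
      have m2 : (i, true) ∈ L.filter (fun p => p.1 = i) :=
        Finset.mem_filter.2 ⟨Finset.mem_image.2 ⟨J i, Finset.mem_Ico.2 ⟨h3, h4⟩, by rw [h7, h8]⟩,
          rfl⟩
      have h9 : 1 < (L.filter (fun p => p.1 = i)).card :=
        Finset.one_lt_card.2 ⟨_, m1, _, m2, by simp⟩
      omega
    · have h9 : 0 < (L.filter (fun p => p.1 = i)).card := Finset.card_pos.2 ⟨_, hmem⟩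
      omega
  have hp' : (W.filter (fun e => (M : ℤ) ∣ e - r)).card ≤ X.card := hp
  omega

/-- The induction. -/
theorem Cg_aux {ι : Type} [Fintype ι] [DecidableEq ι] (M : ℕ) (hM : 0 < M) (r : ℤ)
    (x : ℤ → ι) (s : ℤ → Bool) (I J : ι → ℤ) (N : ℕ) :
    ∀ (f : ι → Bool → ℝ) (sh : Finset ι) (m : ι → ℝ) (a b : ℤ), (b - a).toNat ≤ N →
    (∀ i p, 0 ≤ f i p) →
    (∀ e e' e'', a ≤ e → e ≤ e' → e' ≤ e'' → e'' < b → x e = x e'' → s e = s e'' →
      x e' = x e ∧ s e' = s e) →
    (∀ i, ((Finset.Ico a b).filter (fun e => x e = i)).card ≤ M) →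
    (∀ i ∈ sh, a ≤ I i ∧ I i < J i ∧ J i < b ∧ x (I i) = i ∧ s (I i) = false ∧
      x (J i) = i ∧ s (J i) = true) →
    (∀ i ∈ sh, ∀ e, I i ≤ e → e ≤ J i → m i ≤ f (x e) (s e)) →
    ∑ e ∈ (Finset.Ico a b).filter (fun e => (M : ℤ) ∣ e - r), f (x e) (s e) + ∑ i ∈ sh, m i ≤
      ∑ p ∈ (Finset.Ico a b).image (fun e => (x e, s e)), f p.1 p.2 := by
  classical
  induction N with
  | zero =>
    intro f sh m a b hN hf hint hload hsh hm
    have hab : b ≤ a := by
      have := Int.self_le_toNat (b - a)
      omega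
    have h1 : sh = ∅ := by
      rw [Finset.eq_empty_iff_forall_notMem]
      intro i hi
      obtain ⟨h1, h2, h3, -⟩ := hsh i hi
      omega
    rw [h1, Finset.Ico_eq_empty (by omega)]
    simp
  | succ N ih =>
    intro f sh m a b hN hf hint hload hsh hm
    by_cases hab : b ≤ a
    · have h1 : sh = ∅ := by
        rw [Finset.eq_empty_iff_forall_notMem]
        intro i hi
        obtain ⟨h1, h2, h3, -⟩ := hsh i hi
        omega
      rw [h1, Finset.Ico_eq_empty (by omega)]
      simp
    · push Not at hab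
      obtain ⟨e0, he0, hmin⟩ := Finset.exists_min_image (Finset.Ico a b)
        (fun e => f (x e) (s e)) ⟨a, Finset.mem_Ico.2 ⟨le_refl _, hab⟩⟩
      obtain ⟨he0a, he0b⟩ := Finset.mem_Ico.1 he0
      set T := f (x e0) (s e0) with hT
      have hT0 : 0 ≤ T := hf _ _
      set E := (Finset.Ico a b).filter (fun e => x e = x e0 ∧ s e = s e0) with hE
      have hE0 : e0 ∈ E := Finset.mem_filter.2 ⟨he0, rfl, rfl⟩
      have hEne : E.Nonempty := ⟨e0, hE0⟩
      set a' := E.min' hEne with ha'
      set b' := E.max' hEne + 1 with hb'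
      have hmn := Finset.min'_mem E hEne
      have hmx := Finset.max'_mem E hEne
      rw [← ha'] at hmn
      obtain ⟨hmn1, hmn2, hmn3⟩ := Finset.mem_filter.1 hmn
      obtain ⟨hmx1, hmx2, hmx3⟩ := Finset.mem_filter.1 hmx
      obtain ⟨hmn4, hmn5⟩ := Finset.mem_Ico.1 hmn1
      obtain ⟨hmx4, hmx5⟩ := Finset.mem_Ico.1 hmx1
      have h0a : a' ≤ e0 := Finset.min'_le E e0 hE0
      have h0b : e0 < b' := by
        have := Finset.le_max' E e0 hE0
        omega
      have hbb : b' ≤ b := by omega
      -- inside the block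
      have hblock : ∀ e, a' ≤ e → e < b' → x e = x e0 ∧ s e = s e0 := by
        intro e h1 h2
        have h3 := hint a' e (E.max' hEne) hmn4 h1 (by omega) hmx5 (by rw [hmn2, hmx2])
          (by rw [hmn3, hmx3])
        rw [hmn2, hmn3] at h3
        exact h3
      -- outside the block
      have hout : ∀ e, a ≤ e → e < b → x e = x e0 → s e = s e0 → a' ≤ e ∧ e < b' := by
        intro e h1 h2 h3 h4
        have h5 : e ∈ E := Finset.mem_filter.2 ⟨Finset.mem_Ico.2 ⟨h1, h2⟩, h3, h4⟩
        have h6 := Finset.min'_le E e h5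
        have h7 := Finset.le_max' E e h5
        omega
      set g : ι → Bool → ℝ := fun i p => max (f i p - T) 0 with hg
      have hgf : ∀ e, a ≤ e → e < b → g (x e) (s e) = f (x e) (s e) - T := by
        intro e h1 h2
        have h3 := hmin e (Finset.mem_Ico.2 ⟨h1, h2⟩)
        exact max_eq_left (sub_nonneg.2 h3)
      have hg0 : ∀ i p, 0 ≤ g i p := fun i p => le_max_right _ _
      set sh1 := sh.filter (fun i => J i < a') with hsh1
      set sh2 := sh.filter (fun i => b' ≤ I i) with hsh2
      set m' : ι → ℝ := fun i => m i - T with hm'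
      have ih1 := ih g sh1 m' a a' (by omega) hg0
        (fun e e' e'' h1 h2 h3 h4 h5 h6 => hint e e' e'' h1 h2 h3 (by omega) h5 h6)
        (fun i => (Finset.card_le_card (Finset.filter_subset_filter _
          (Finset.Ico_subset_Ico le_rfl (by omega)))).trans (hload i))
        (fun i hi => by
          obtain ⟨h1, h2⟩ := Finset.mem_filter.1 hi
          obtain ⟨k1, k2, k3, k4⟩ := hsh i h1
          exact ⟨k1, k2, h2, k4⟩)
        (fun i hi e h3 h4 => by
          obtain ⟨h1, h2⟩ := Finset.mem_filter.1 hi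
          obtain ⟨k1, k2, k3, k4⟩ := hsh i h1
          rw [hgf e (by omega) (by omega)]
          exact sub_le_sub_right (hm i h1 e h3 h4) T)
      have ih2 := ih g sh2 m' b' b (by omega) hg0
        (fun e e' e'' h1 h2 h3 h4 h5 h6 => hint e e' e'' (by omega) h2 h3 (by omega) h5 h6)
        (fun i => (Finset.card_le_card (Finset.filter_subset_filter _
          (Finset.Ico_subset_Ico (by omega) le_rfl))).trans (hload i))
        (fun i hi => by
          obtain ⟨h1, h2⟩ := Finset.mem_filter.1 hi
          obtain ⟨k1, k2, k3, k4⟩ := hsh i h1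
          exact ⟨h2, k2, k3, k4⟩)
        (fun i hi e h3 h4 => by
          obtain ⟨h1, h2⟩ := Finset.mem_filter.1 hi
          obtain ⟨k1, k2, k3, k4⟩ := hsh i h1
          rw [hgf e (by omega) (by omega)]
          exact sub_le_sub_right (hm i h1 e h3 h4) T)
      -- counting
      have hcount := Cg_count M hM r x s sh I J a b hload (fun i hi => by
        obtain ⟨k1, k2, k3, k4, k5, k6, k7⟩ := hsh i hi
        exact ⟨k1, by omega, by omega, k3, k4, k5, k6, k7⟩)
      -- splitting of the window
      have hsplit : Finset.Ico a b = Finset.Ico a a' ∪ (Finset.Ico a' b' ∪ Finset.Ico b' b) := by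
        rw [Finset.Ico_union_Ico_eq_Ico (by omega) hbb,
          Finset.Ico_union_Ico_eq_Ico (by omega) (by omega)]
      have hd1 : Disjoint (Finset.Ico a a') (Finset.Ico a' b' ∪ Finset.Ico b' b) := by
        rw [Finset.Ico_union_Ico_eq_Ico (by omega) hbb]
        exact Finset.Ico_disjoint_Ico_consecutive _ _ _
      have hd2 : Disjoint (Finset.Ico a' b') (Finset.Ico b' b) :=
        Finset.Ico_disjoint_Ico_consecutive _ _ _
      -- the first sum
      have s1 : ∑ e ∈ (Finset.Ico a b).filter (fun e => (M : ℤ) ∣ e - r), f (x e) (s e)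
          = ∑ e ∈ (Finset.Ico a b).filter (fun e => (M : ℤ) ∣ e - r), (g (x e) (s e) + T) := by
        apply Finset.sum_congr rfl
        intro e he
        obtain ⟨h1, h2⟩ := Finset.mem_Ico.1 (Finset.mem_filter.1 he).1
        rw [hgf e h1 h2]
        ring
      have s2 : ∑ e ∈ (Finset.Ico a b).filter (fun e => (M : ℤ) ∣ e - r), g (x e) (s e)
          = ∑ e ∈ (Finset.Ico a a').filter (fun e => (M : ℤ) ∣ e - r), g (x e) (s e)
            + ∑ e ∈ (Finset.Ico b' b).filter (fun e => (M : ℤ) ∣ e - r), g (x e) (s e) := by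
        have h1 : ∑ e ∈ (Finset.Ico a' b').filter (fun e => (M : ℤ) ∣ e - r), g (x e) (s e)
            = 0 := by
          apply Finset.sum_eq_zero
          intro e he
          obtain ⟨h1, h2⟩ := Finset.mem_Ico.1 (Finset.mem_filter.1 he).1
          obtain ⟨h3, h4⟩ := hblock e h1 h2
          rw [h3, h4, hgf e0 he0a he0b, ← hT, sub_self]
        rw [hsplit, Finset.filter_union, Finset.filter_union,
          Finset.sum_union, Finset.sum_union, h1, zero_add]
        · exact Finset.disjoint_filter_filter hd2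
        · rw [← Finset.filter_union]
          exact Finset.disjoint_filter_filter hd1
      -- the second sum
      have hsd : Disjoint sh1 sh2 := by
        rw [Finset.disjoint_left]
        intro i h1 h2
        obtain ⟨h3, h4⟩ := Finset.mem_filter.1 h1
        obtain ⟨-, h5⟩ := Finset.mem_filter.1 h2
        obtain ⟨k1, k2, k3, k4⟩ := hsh i h3
        omega
      have s3 : ∑ i ∈ sh, m i ≤ ∑ i ∈ sh1, m' i + ∑ i ∈ sh2, m' i + sh.card * T := by
        have h1 : ∑ i ∈ sh, m' i ≤ ∑ i ∈ sh1, m' i + ∑ i ∈ sh2, m' i := by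
          rw [← Finset.sum_union hsd]
          have h2 : sh1 ∪ sh2 ⊆ sh :=
            Finset.union_subset (Finset.filter_subset _ _) (Finset.filter_subset _ _)
          rw [← Finset.sum_sdiff h2]
          have h3 : ∑ i ∈ sh \ (sh1 ∪ sh2), m' i ≤ 0 := by
            apply Finset.sum_nonpos
            intro i hi
            obtain ⟨h3, h4⟩ := Finset.mem_sdiff.1 hi
            obtain ⟨k1, k2, k3, k4⟩ := hsh i h3
            have h5 : a' ≤ J i := by
              by_contra hcon
              exact h4 (Finset.mem_union_left _ (Finset.mem_filter.2 ⟨h3, by omega⟩))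
            have h6 : I i < b' := by
              by_contra hcon
              exact h4 (Finset.mem_union_right _ (Finset.mem_filter.2 ⟨h3, by omega⟩))
            have h7 := hm i h3 (max (I i) a') (le_max_left _ _) (max_le k2.le h5)
            obtain ⟨h8, h9⟩ := hblock (max (I i) a') (le_max_right _ _)
              (max_lt h6 (by omega))
            rw [h8, h9, ← hT] at h7
            exact sub_nonpos.2 h7
          linarith
        have h2 : ∑ i ∈ sh, m i = ∑ i ∈ sh, m' i + sh.card * T := by
          rw [hm', Finset.sum_sub_distrib, Finset.sum_const, nsmul_eq_mul]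
          ring
        linarith
      -- the third sum
      have s4 : ∑ p ∈ (Finset.Ico a b).image (fun e => (x e, s e)), f p.1 p.2
          = ∑ p ∈ (Finset.Ico a b).image (fun e => (x e, s e)), (g p.1 p.2 + T) := by
        apply Finset.sum_congr rfl
        intro p hp
        obtain ⟨e, he, rfl⟩ := Finset.mem_image.1 hp
        obtain ⟨h1, h2⟩ := Finset.mem_Ico.1 he
        show f (x e) (s e) = g (x e) (s e) + T
        rw [hgf e h1 h2]
        ring
      have s5 : ∑ p ∈ (Finset.Ico a a').image (fun e => (x e, s e)), g p.1 p.2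
          + ∑ p ∈ (Finset.Ico b' b).image (fun e => (x e, s e)), g p.1 p.2
          ≤ ∑ p ∈ (Finset.Ico a b).image (fun e => (x e, s e)), g p.1 p.2 := by
        rw [← Finset.sum_union]
        · apply Finset.sum_le_sum_of_subset_of_nonneg
          · rw [← Finset.image_union]
            apply Finset.image_subset_image
            exact Finset.union_subset (Finset.Ico_subset_Ico le_rfl (by omega))
              (Finset.Ico_subset_Ico (by omega) le_rfl)
          · intro p _ _
            exact hg0 _ _
        · rw [Finset.disjoint_left]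
          intro p h1 h2
          obtain ⟨e, he, rfl⟩ := Finset.mem_image.1 h1
          obtain ⟨e', he', hee⟩ := Finset.mem_image.1 h2
          obtain ⟨h3, h4⟩ := Finset.mem_Ico.1 he
          obtain ⟨h5, h6⟩ := Finset.mem_Ico.1 he'
          obtain ⟨h7, h8⟩ := Prod.mk.injEq _ _ _ _ ▸ hee
          obtain ⟨h9, h10⟩ := hint e e0 e' h3 (by omega) (by omega) h6 h7.symm h8.symm
          have h11 := hout e h3 (by omega) h9.symm h10.symm
          omega
      have s6 : ∑ e ∈ (Finset.Ico a b).filter (fun e => (M : ℤ) ∣ e - r), (g (x e) (s e) + T)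
          = ∑ e ∈ (Finset.Ico a b).filter (fun e => (M : ℤ) ∣ e - r), g (x e) (s e)
            + ((Finset.Ico a b).filter (fun e => (M : ℤ) ∣ e - r)).card * T := by
        rw [Finset.sum_add_distrib, Finset.sum_const, nsmul_eq_mul]
      have s7 : ∑ p ∈ (Finset.Ico a b).image (fun e => (x e, s e)), (g p.1 p.2 + T)
          = ∑ p ∈ (Finset.Ico a b).image (fun e => (x e, s e)), g p.1 p.2
            + ((Finset.Ico a b).image (fun e => (x e, s e))).card * T := by
        rw [Finset.sum_add_distrib, Finset.sum_const, nsmul_eq_mul]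
      have hc : (((Finset.Ico a b).filter (fun e => (M : ℤ) ∣ e - r)).card : ℝ) * T
          + (sh.card : ℝ) * T ≤ (((Finset.Ico a b).image (fun e => (x e, s e))).card : ℝ) * T := by
        rw [← add_mul]
        apply mul_le_mul_of_nonneg_right _ hT0
        exact_mod_cast hcount
      rw [s1, s6, s2, s4, s7]
      linarith

theorem Cg {ι : Type} [Fintype ι] [DecidableEq ι] (M : ℕ) (hM : 0 < M) (r : ℤ)
    (x : ℤ → ι) (s : ℤ → Bool) (f : ι → Bool → ℝ) (sh : Finset ι) (I J : ι → ℤ) (m : ι → ℝ)
    (a b : ℤ) (hf : ∀ i p, 0 ≤ f i p)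
    (hint : ∀ e e' e'', a ≤ e → e ≤ e' → e' ≤ e'' → e'' < b → x e = x e'' → s e = s e'' →
      x e' = x e ∧ s e' = s e)
    (hload : ∀ i, ((Finset.Ico a b).filter (fun e => x e = i)).card ≤ M)
    (hsh : ∀ i ∈ sh, a ≤ I i ∧ I i < J i ∧ J i < b ∧ x (I i) = i ∧ s (I i) = false ∧
      x (J i) = i ∧ s (J i) = true)
    (hm : ∀ i ∈ sh, ∀ e, I i ≤ e → e ≤ J i → m i ≤ f (x e) (s e)) :
    ∑ e ∈ (Finset.Ico a b).filter (fun e => (M : ℤ) ∣ e - r), f (x e) (s e) + ∑ i ∈ sh, m i ≤
      ∑ p ∈ (Finset.Ico a b).image (fun e => (x e, s e)), f p.1 p.2 := by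
  exact Cg_aux M hM r x s I J (b - a).toNat f sh m a b le_rfl hf hint hload hsh hm

end ZP
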