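import Pool.Agent.H73.ZP.Cg

/-!
ROW Cg2.  The window lemma with uncovered indices (`cov e` false); an uncovered index has value `0`
and separates equal labels.

PROOF.  Strong induction on `b - a`.  If all indices of the window are covered, this is `Cg` (the filters are
trivial; `a ≥ b` included).  Otherwise let `e₀` be an uncovered index of the window and apply the induction
hypothesis to `[a, e₀)` and `[e₀ + 1, b)`, with `{i ∈ sh | J i < e₀}` and
`{i ∈ sh | e₀ < I i}` (every `i ∈ sh` is in one of them, since all indices of `[I i, J i]` are covered).  The labels of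
the two parts are disjoint by `hint`; the sums split.
-/

namespace ZP

theorem Cg2 {ι : Type} [Fintype ι] [DecidableEq ι] (M : ℕ) (hM : 0 < M) (r : ℤ)
    (x : ℤ → ι) (s : ℤ → Bool) (cov : ℤ → Prop) [DecidablePred cov]
    (f : ι → Bool → ℝ) (sh : Finset ι) (I J : ι → ℤ) (m : ι → ℝ)
    (a b : ℤ) (hf : ∀ i p, 0 ≤ f i p)
    (hint : ∀ e e' e'', a ≤ e → e ≤ e' → e' ≤ e'' → e'' < b → cov e → cov e'' →
      x e = x e'' → s e = s e'' → cov e' ∧ x e' = x e ∧ s e' = s e)
    (hload : ∀ i, ((Finset.Ico a b).filter (fun e => x e = i ∧ cov e)).card ≤ M)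
    (hsh : ∀ i ∈ sh, a ≤ I i ∧ I i < J i ∧ J i < b ∧ x (I i) = i ∧ s (I i) = false ∧
      x (J i) = i ∧ s (J i) = true)
    (hm : ∀ i ∈ sh, ∀ e, I i ≤ e → e ≤ J i → cov e ∧ m i ≤ f (x e) (s e)) :
    ∑ e ∈ (Finset.Ico a b).filter (fun e => (M : ℤ) ∣ e - r ∧ cov e), f (x e) (s e) +
        ∑ i ∈ sh, m i ≤
      ∑ p ∈ ((Finset.Ico a b).filter cov).image (fun e => (x e, s e)), f p.1 p.2 := by
  induction h : (b - a).toNat using Nat.strong_induction_on generalizing a b sh with
  | _ n ih =>
  by_cases hall : ∀ e ∈ Finset.Ico a b, cov e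
  · have h1 : (Finset.Ico a b).filter (fun e => (M : ℤ) ∣ e - r ∧ cov e)
        = (Finset.Ico a b).filter (fun e => (M : ℤ) ∣ e - r) := by
      apply Finset.filter_congr
      intro e he
      exact ⟨fun h2 => h2.1, fun h2 => ⟨h2, hall e he⟩⟩
    have h2 : (Finset.Ico a b).filter cov = Finset.Ico a b := Finset.filter_true_of_mem hall
    rw [h1, h2]
    apply Cg M hM r x s f sh I J m a b hf
    · intro e e' e'' h3 h4 h5 h6 h7 h8
      exact (hint e e' e'' h3 h4 h5 h6 (hall e (Finset.mem_Ico.2 ⟨h3, by omega⟩))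
        (hall e'' (Finset.mem_Ico.2 ⟨by omega, h6⟩)) h7 h8).2
    · intro i
      refine le_trans (le_of_eq ?_) (hload i)
      congr 1
      apply Finset.filter_congr
      intro e he
      exact ⟨fun h3 => ⟨h3, hall e he⟩, fun h3 => h3.1⟩
    · exact hsh
    · intro i hi e h3 h4
      exact (hm i hi e h3 h4).2
  · push Not at hall
    obtain ⟨e₀, he₀, hc₀⟩ := hall
    rw [Finset.mem_Ico] at he₀
    obtain ⟨hae, heb⟩ := he₀
    -- the two parts
    have hA := ih (e₀ - a).toNat (by omega) (sh.filter (fun i => J i < e₀)) a e₀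
      (fun e e' e'' h3 h4 h5 h6 => hint e e' e'' h3 h4 h5 (by omega))
      (fun i => (Finset.card_le_card (Finset.filter_subset_filter _
        (Finset.Ico_subset_Ico le_rfl heb.le))).trans (hload i))
      (fun i hi => by
        rw [Finset.mem_filter] at hi
        obtain ⟨h3, h4, h5, h6⟩ := hsh i hi.1
        exact ⟨h3, h4, hi.2, h6⟩)
      (fun i hi => hm i (Finset.mem_filter.1 hi).1) rfl
    have hB := ih (b - (e₀ + 1)).toNat (by omega) (sh.filter (fun i => e₀ < I i)) (e₀ + 1) b
      (fun e e' e'' h3 h4 h5 h6 => hint e e' e'' (by omega) h4 h5 h6)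
      (fun i => (Finset.card_le_card (Finset.filter_subset_filter _
        (Finset.Ico_subset_Ico (by omega) le_rfl))).trans (hload i))
      (fun i hi => by
        rw [Finset.mem_filter] at hi
        obtain ⟨h3, h4, h5, h6⟩ := hsh i hi.1
        exact ⟨by omega, h4, h5, h6⟩)
      (fun i hi => hm i (Finset.mem_filter.1 hi).1) rfl
    -- the index set
    have hU : Finset.Ico a b = Finset.Ico a e₀ ∪ ({e₀} ∪ Finset.Ico (e₀ + 1) b) := by
      ext e
      simp only [Finset.mem_union, Finset.mem_Ico, Finset.mem_singleton]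
      omega
    have hfil : ∀ (P : ℤ → Prop) [DecidablePred P], (∀ e, P e → cov e) →
        (Finset.Ico a b).filter P = (Finset.Ico a e₀).filter P ∪ (Finset.Ico (e₀ + 1) b).filter P := by
      intro P _ hP
      ext e
      simp only [Finset.mem_union, Finset.mem_filter, Finset.mem_Ico]
      constructor
      · rintro ⟨h3, h4⟩
        have h5 : e ≠ e₀ := by
          rintro rfl
          exact hc₀ (hP _ h4)
        by_cases h6 : e < e₀
        · exact Or.inl ⟨⟨h3.1, h6⟩, h4⟩
        · exact Or.inr ⟨⟨by omega, h3.2⟩, h4⟩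
      · rintro (⟨h3, h4⟩ | ⟨h3, h4⟩)
        · exact ⟨⟨h3.1, by omega⟩, h4⟩
        · exact ⟨⟨by omega, h3.2⟩, h4⟩
    have hs1 : ∑ e ∈ (Finset.Ico a b).filter (fun e => (M : ℤ) ∣ e - r ∧ cov e), f (x e) (s e)
        = ∑ e ∈ (Finset.Ico a e₀).filter (fun e => (M : ℤ) ∣ e - r ∧ cov e), f (x e) (s e)
          + ∑ e ∈ (Finset.Ico (e₀ + 1) b).filter (fun e => (M : ℤ) ∣ e - r ∧ cov e), f (x e) (s e) := by
      rw [hfil _ (fun e he => he.2), Finset.sum_union]
      rw [Finset.disjoint_left]
      intro e h3 h4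
      rw [Finset.mem_filter, Finset.mem_Ico] at h3 h4
      omega
    have hs2 : ∑ p ∈ ((Finset.Ico a b).filter cov).image (fun e => (x e, s e)), f p.1 p.2
        = ∑ p ∈ ((Finset.Ico a e₀).filter cov).image (fun e => (x e, s e)), f p.1 p.2
          + ∑ p ∈ ((Finset.Ico (e₀ + 1) b).filter cov).image (fun e => (x e, s e)), f p.1 p.2 := by
      rw [hfil cov (fun e he => he), Finset.image_union, Finset.sum_union]
      rw [Finset.disjoint_left]
      intro p h3 h4
      rw [Finset.mem_image] at h3 h4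
      obtain ⟨e, he, rfl⟩ := h3
      obtain ⟨e', he', hee⟩ := h4
      rw [Finset.mem_filter, Finset.mem_Ico] at he he'
      have h5 : x e' = x e := congrArg Prod.fst hee
      have h6 : s e' = s e := congrArg Prod.snd hee
      exact hc₀ (hint e e₀ e' he.1.1 he.1.2.le (by omega) he'.1.2 he.2 he'.2 h5.symm h6.symm).1
    have hs3 : ∑ i ∈ sh, m i = ∑ i ∈ sh.filter (fun i => J i < e₀), m i
        + ∑ i ∈ sh.filter (fun i => e₀ < I i), m i := by
      rw [← Finset.sum_union]
      · congr 1
        ext i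
        simp only [Finset.mem_union, Finset.mem_filter]
        constructor
        · intro hi
          by_cases h3 : J i < e₀
          · exact Or.inl ⟨hi, h3⟩
          · by_cases h4 : e₀ < I i
            · exact Or.inr ⟨hi, h4⟩
            · exact absurd (hm i hi e₀ (by omega) (by omega)).1 hc₀
        · rintro (h3 | h3) <;> exact h3.1
      · rw [Finset.disjoint_left]
        intro i h3 h4
        rw [Finset.mem_filter] at h3 h4
        have := (hsh i h3.1).2.1
        omega
    rw [hs1, hs2, hs3]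
    linarith

end ZP
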