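import Pool.Agent.H73.ZP.Cf

/-!
ROW Ch.  Labels of the edges: contiguity.

`Fair M v P Q t x`: `x e` is a player attaining the maximum `mx t P Q (v e)`, period `6 M`, loads at most `M`.
`cov t P Q v x e` (covered): the maximum is positive.  `lb P Q v x e : Bool` is the part: `false` if
`dt (Q i) (v e) ≤ dt (P i) (v e)` (`i = x e`), `true` otherwise.  `ph t P Q i p` is the functional of the
label `(i, p)`: `t i • P i` or `t i • Q i`.
* `mx_ph`: if `e` is covered then `mx t P Q (v e) = dt (ph ..) (v e) > 0` for the label of `e`.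
* `ph_le`: `dt (ph t P Q i p) w ≤ mx t P Q w` always; `mx` is sublinear and nonnegative.
* `cont`: let `e < e' < e'' < e + 3 M`, `e` and `e''` covered with the same label.  Then `e'` is covered
 and has this label.  PROOF.  `v e' = α • v e + β • v e''` with `α, β > 0` (Cramer, `Hx.ccw`).  With `Φ` the
 functional: `mx (v e') ≤ α mx (v e) + β mx (v e'') = dt Φ (v e') ≤ mx (v e')`, so `dt Φ (v e') = mx (v e') > 0`,
 and `e'` is covered (`t (x e') * gg .. (v e') = mx (v e')`).  Let `Ψ` be the functional of the label of `e'`: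
 `dt Ψ (v e') = dt Φ (v e')`, `dt Ψ (v e) ≤ dt Φ (v e)`, `dt Ψ (v e'') ≤ dt Φ (v e'')`; so all are equalities, and
 `Ψ = Φ` (`v e`, `v e''` are independent).  Both are nonzero (positive on `v e'`); if the labels were
 different, two of the 12 vectors would be parallel, against `Gen12` (`cr (t • a) (t' • b) = t t' cr a b`).
* `opp`: `e` and `e + 3 M` are not both covered with the same label (`v (e + 3 M) = - v e`).
* `hull`: let `e < e'' < e + 3 M`, `e` covered with label `(i, false)`, `e''` covered with label `(i, true)`, and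
 `e ≤ e' ≤ e''`: then `e'` is covered.  PROOF.  For `e' = e`, `e' = e''` clear.  Otherwise
 `v e' = α • v e + β • v e''`, `α, β > 0`.  Suppose `dt (P i) (v e') ≤ 0` and
 `dt (Q i) (v e') ≤ 0`.  With `p = dt (P i) (v e) > 0`, `q = dt (Q i) (v e'') > 0`, `p' = dt (P i) (v e'')`, `q' = dt (Q i) (v e)`:
 `α p ≤ - β p'`, `β q ≤ - α q'`, so `p' < 0`, `q' < 0` and `p q ≤ p' q'`; but
 `p q - p' q' = cr (P i) (Q i) * cr (v e) (v e'') > 0`.  So `gg (P i) (Q i) (v e') > 0`; and `t i > 0`, so the maximum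
 at `e'` is positive.
* `uniq6`: if `e`, `e'` are covered, have the same label and `M ∣ e - e'`, then `6 M ∣ e - e'`.  PROOF.  We may
 assume `e < e' < e + 6 M` (period), `e' - e = k M`.  `k = 3` is excluded by `opp`.  If `k < 3` all indices of `[e, e']`
 have the same label (`cont`), more than `M` indices in a window of length `< 6 M`: against the
 load (period).  If `k > 3` the same for `[e', e + 6 M]`.
-/

open Real

namespace ZP

/-- The 12 vectors are pairwise not parallel. -/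
structure Gen12 (P Q : Fin 6 → V) : Prop where
  pp : ∀ i j, i ≠ j → cr (P i) (P j) ≠ 0
  qq : ∀ i j, i ≠ j → cr (Q i) (Q j) ≠ 0
  pq : ∀ i j, cr (P i) (Q j) ≠ 0

/-- A fair assignment. -/
structure Fair (M : ℕ) (v : ℤ → V) (P Q : Fin 6 → V) (t : Fin 6 → ℝ) (x : ℤ → Fin 6) : Prop where
  nn : ∀ i, 0 ≤ t i
  per : ∀ e, x (e + 6 * M) = x e
  max : ∀ e j, t j * gg (P j) (Q j) (v e) ≤ t (x e) * gg (P (x e)) (Q (x e)) (v e)
  load : ∀ i, ((Finset.Ico (0 : ℤ) (6 * M)).filter
    (fun e => x e = i ∧ 0 < t i * gg (P i) (Q i) (v e))).card ≤ M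

/-- Covered index. -/
def cov (v : ℤ → V) (P Q : Fin 6 → V) (t : Fin 6 → ℝ) (x : ℤ → Fin 6) (e : ℤ) : Prop :=
  0 < t (x e) * gg (P (x e)) (Q (x e)) (v e)

/-- The part of an index. -/
noncomputable def lb (v : ℤ → V) (P Q : Fin 6 → V) (x : ℤ → Fin 6) (e : ℤ) : Bool :=
  decide (dt (P (x e)) (v e) < dt (Q (x e)) (v e))

/-- The functional of a label. -/
noncomputable def ph (P Q : Fin 6 → V) (t : Fin 6 → ℝ) (i : Fin 6) (p : Bool) : V :=
  if p then t i • Q i else t i • P i

variable {M : ℕ} {v : ℤ → V} {P Q : Fin 6 → V} {t : Fin 6 → ℝ} {x : ℤ → Fin 6}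

private theorem Ch_gg_nn (A B w : V) : 0 ≤ gg A B w := le_max_left _ _

private theorem Ch_P_le (A B w : V) : dt A w ≤ gg A B w :=
  (le_max_left _ _).trans (le_max_right _ _)

private theorem Ch_Q_le (A B w : V) : dt B w ≤ gg A B w :=
  (le_max_right _ _).trans (le_max_right _ _)

private theorem Ch_le (i : Fin 6) (w : V) : t i * gg (P i) (Q i) w ≤ mx t P Q w := by
  unfold mx
  exact Finset.le_sup' (fun i => t i * gg (P i) (Q i) w) (Finset.mem_univ i)

private theorem Ch_mx_le {w : V} {c : ℝ} (h : ∀ i, t i * gg (P i) (Q i) w ≤ c) :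
    mx t P Q w ≤ c := by
  unfold mx
  exact Finset.sup'_le _ _ (fun i _ => h i)

private theorem Ch_mx_att (w : V) : ∃ i, mx t P Q w = t i * gg (P i) (Q i) w := by
  unfold mx
  obtain ⟨i, -, hi⟩ := Finset.exists_mem_eq_sup' Finset.univ_nonempty
    (fun i => t i * gg (P i) (Q i) w)
  exact ⟨i, hi⟩

theorem subl_mx (ht : ∀ i, 0 ≤ t i) : Subl (mx t P Q) := by
  refine ⟨fun v => ?_, fun v w => ?_, fun a v ha => ?_⟩
  · exact (mul_nonneg (ht 0) (Ch_gg_nn _ _ _)).trans (Ch_le 0 v)
  · refine Ch_mx_le fun i => ?_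
    have h1 := mul_le_mul_of_nonneg_left ((subl_gg (P i) (Q i)).add v w) (ht i)
    have h2 := Ch_le (t := t) (P := P) (Q := Q) i v
    have h3 := Ch_le (t := t) (P := P) (Q := Q) i w
    rw [mul_add] at h1
    linarith
  · refine le_antisymm (Ch_mx_le fun i => ?_) ?_
    · rw [(subl_gg (P i) (Q i)).smul a v ha]
      have h2 := mul_le_mul_of_nonneg_left (Ch_le (t := t) (P := P) (Q := Q) i v) ha
      linarith
    · obtain ⟨i, hi⟩ := Ch_mx_att (t := t) (P := P) (Q := Q) v
      have h2 := Ch_le (t := t) (P := P) (Q := Q) i (a • v)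
      rw [(subl_gg (P i) (Q i)).smul a v ha] at h2
      rw [hi]
      linarith

theorem ph_le (ht : ∀ i, 0 ≤ t i) (i : Fin 6) (p : Bool) (w : V) :
    dt (ph P Q t i p) w ≤ mx t P Q w := by
  refine le_trans ?_ (Ch_le i w)
  cases p
  · show dt (t i • P i) w ≤ _
    rw [smul_dt]
    exact mul_le_mul_of_nonneg_left (Ch_P_le _ _ _) (ht i)
  · show dt (t i • Q i) w ≤ _
    rw [smul_dt]
    exact mul_le_mul_of_nonneg_left (Ch_Q_le _ _ _) (ht i)

theorem le_mx (i : Fin 6) (w : V) : t i * gg (P i) (Q i) w ≤ mx t P Q w := Ch_le i w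

theorem mx_eq (hf : Fair M v P Q t x) (e : ℤ) :
    mx t P Q (v e) = t (x e) * gg (P (x e)) (Q (x e)) (v e) :=
  le_antisymm (Ch_mx_le fun i => hf.max e i) (Ch_le _ _)

private theorem Ch_tpos (hf : Fair M v P Q t x) {e : ℤ} (he : cov v P Q t x e) :
    0 < t (x e) := by
  refine lt_of_le_of_ne (hf.nn _) ?_
  intro h0
  unfold cov at he
  rw [← h0, zero_mul] at he
  exact lt_irrefl _ he

private theorem Ch_gpos (hf : Fair M v P Q t x) {e : ℤ} (he : cov v P Q t x e) :
    0 < gg (P (x e)) (Q (x e)) (v e) :=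
  (mul_pos_iff_of_pos_left (Ch_tpos hf he)).1 he

private theorem Ch_false (hf : Fair M v P Q t x) {e : ℤ} (he : cov v P Q t x e)
    (hl : lb v P Q x e = false) :
    0 < dt (P (x e)) (v e) ∧ gg (P (x e)) (Q (x e)) (v e) = dt (P (x e)) (v e) := by
  unfold lb at hl
  rw [decide_eq_false_iff_not, not_lt] at hl
  have h1 := Ch_gpos hf he
  have h2 : gg (P (x e)) (Q (x e)) (v e) = max 0 (dt (P (x e)) (v e)) := by
    unfold gg
    rw [max_eq_left hl]
  have h3 : 0 < dt (P (x e)) (v e) := by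
    by_contra hn
    rw [not_lt] at hn
    rw [h2, max_eq_left hn] at h1
    exact lt_irrefl _ h1
  exact ⟨h3, by rw [h2, max_eq_right h3.le]⟩

private theorem Ch_true (hf : Fair M v P Q t x) {e : ℤ} (he : cov v P Q t x e)
    (hl : lb v P Q x e = true) :
    0 < dt (Q (x e)) (v e) ∧ gg (P (x e)) (Q (x e)) (v e) = dt (Q (x e)) (v e) := by
  unfold lb at hl
  rw [decide_eq_true_eq] at hl
  have h1 := Ch_gpos hf he
  have h2 : gg (P (x e)) (Q (x e)) (v e) = max 0 (dt (Q (x e)) (v e)) := by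
    unfold gg
    rw [max_eq_right hl.le]
  have h3 : 0 < dt (Q (x e)) (v e) := by
    by_contra hn
    rw [not_lt] at hn
    rw [h2, max_eq_left hn] at h1
    exact lt_irrefl _ h1
  exact ⟨h3, by rw [h2, max_eq_right h3.le]⟩

theorem mx_ph (hf : Fair M v P Q t x) {e : ℤ} (he : cov v P Q t x e) :
    mx t P Q (v e) = dt (ph P Q t (x e) (lb v P Q x e)) (v e) := by
  rw [mx_eq hf]
  cases hl : lb v P Q x e
  · show _ = dt (t (x e) • P (x e)) (v e)
    rw [smul_dt, (Ch_false hf he hl).2]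
  · show _ = dt (t (x e) • Q (x e)) (v e)
    rw [smul_dt, (Ch_true hf he hl).2]

private theorem Ch_mxpos (hf : Fair M v P Q t x) {e : ℤ} (he : cov v P Q t x e) :
    0 < mx t P Q (v e) := by
  rw [mx_eq hf]
  exact he

private theorem Ch_vper (h : Hx M v) (e : ℤ) : v (e + 6 * M) = v e := by
  have h1 := h.half (e + 3 * M)
  have h2 := h.half e
  rw [show e + 6 * (M : ℤ) = e + 3 * M + 3 * M by ring, h1, h2, neg_neg]

theorem cov_per (h : Hx M v) (hf : Fair M v P Q t x) (e : ℤ) :
    (cov v P Q t x (e + 6 * M) ↔ cov v P Q t x e) ∧ lb v P Q x (e + 6 * M) = lb v P Q x e := by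
  have h1 := Ch_vper h e
  have h2 := hf.per e
  constructor
  · unfold cov
    rw [h1, h2]
  · unfold lb
    rw [h1, h2]

private theorem Ch_cramer (a b w : V) : cr a b • w = cr w b • a + cr a w • b := by
  ext
  · simp only [Prod.smul_fst, Prod.fst_add, smul_eq_mul, cr]; ring
  · simp only [Prod.smul_snd, Prod.snd_add, smul_eq_mul, cr]; ring

private theorem Ch_dt_cramer (F a b w : V) :
    cr a b * dt F w = cr w b * dt F a + cr a w * dt F b := by
  rw [← dt_smul, ← dt_smul, ← dt_smul, ← dt_add, Ch_cramer]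

/-- two functionals which agree on two independent vectors -/
private theorem Ch_indep {F G a b : V} (hD : cr a b ≠ 0) (h1 : dt F a = dt G a)
    (h2 : dt F b = dt G b) : cr F G = 0 := by
  have e : cr a b * cr F G = dt F a * dt G b - dt F b * dt G a := by
    unfold cr dt
    ring
  rw [h1, h2] at e
  have e2 : cr a b * cr F G = 0 := by rw [e]; ring
  exact (mul_eq_zero.1 e2).resolve_left hD

private theorem Ch_cr_smul (a b : V) (c d : ℝ) : cr (c • a) (d • b) = c * d * cr a b := by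
  simp only [cr, Prod.smul_fst, Prod.smul_snd, smul_eq_mul]
  ring

private theorem Ch_cr_comm (a b : V) : cr a b = - cr b a := by
  unfold cr
  ring

private theorem Ch_label (hg : Gen12 P Q) {i j : Fin 6} {p q : Bool} (hi : 0 < t i)
    (hj : 0 < t j) (h0 : cr (ph P Q t i p) (ph P Q t j q) = 0) : j = i ∧ q = p := by
  have hij : t i * t j ≠ 0 := (mul_pos hi hj).ne'
  cases p <;> cases q
  · have h1 : cr (t i • P i) (t j • P j) = 0 := h0
    rw [Ch_cr_smul] at h1
    have h2 := (mul_eq_zero.1 h1).resolve_left hij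
    refine ⟨?_, rfl⟩
    by_contra hne
    exact hg.pp i j (Ne.symm hne) h2
  · have h1 : cr (t i • P i) (t j • Q j) = 0 := h0
    rw [Ch_cr_smul] at h1
    exact absurd ((mul_eq_zero.1 h1).resolve_left hij) (hg.pq i j)
  · have h1 : cr (t i • Q i) (t j • P j) = 0 := h0
    rw [Ch_cr_smul] at h1
    have h2 := (mul_eq_zero.1 h1).resolve_left hij
    rw [Ch_cr_comm, neg_eq_zero] at h2
    exact absurd h2 (hg.pq j i)
  · have h1 : cr (t i • Q i) (t j • Q j) = 0 := h0
    rw [Ch_cr_smul] at h1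
    have h2 := (mul_eq_zero.1 h1).resolve_left hij
    refine ⟨?_, rfl⟩
    by_contra hne
    exact hg.qq i j (Ne.symm hne) h2

theorem cont (h : Hx M v) (hg : Gen12 P Q) (hf : Fair M v P Q t x) {e e' e'' : ℤ} (h1 : e ≤ e')
    (h2 : e' ≤ e'') (h3 : e'' < e + 3 * M) (c1 : cov v P Q t x e) (c2 : cov v P Q t x e'')
    (hx : x e = x e'') (hs : lb v P Q x e = lb v P Q x e'') :
    cov v P Q t x e' ∧ x e' = x e ∧ lb v P Q x e' = lb v P Q x e := by
  rcases h1.eq_or_lt with h1 | h1
  · subst h1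
    exact ⟨c1, rfl, rfl⟩
  rcases h2.eq_or_lt with h2 | h2
  · subst h2
    exact ⟨c2, hx.symm, hs.symm⟩
  have hD : 0 < cr (v e) (v e'') := hx_ccw h _ _ (h1.trans h2) h3
  have hA : 0 < cr (v e') (v e'') := hx_ccw h _ _ h2 (by linarith)
  have hB : 0 < cr (v e) (v e') := hx_ccw h _ _ h1 (by linarith)
  have hsub := subl_mx (P := P) (Q := Q) hf.nn
  have m1 := mx_ph hf c1
  have m2 := mx_ph hf c2
  rw [← hx, ← hs] at m2
  obtain ⟨F, hF⟩ : ∃ F : V, F = ph P Q t (x e) (lb v P Q x e) := ⟨_, rfl⟩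
  rw [← hF] at m1 m2
  have p1 : 0 < dt F (v e) := by rw [← m1]; exact Ch_mxpos hf c1
  have p2 : 0 < dt F (v e'') := by rw [← m2]; exact Ch_mxpos hf c2
  have k1 := Ch_dt_cramer F (v e) (v e'') (v e')
  have k2 : cr (v e) (v e'') * mx t P Q (v e') ≤ cr (v e) (v e'') * dt F (v e') := by
    rw [← hsub.smul _ _ hD.le, Ch_cramer, k1, ← m1, ← m2]
    refine (hsub.add _ _).trans ?_
    rw [hsub.smul _ _ hA.le, hsub.smul _ _ hB.le]
  have k3 : mx t P Q (v e') ≤ dt F (v e') := le_of_mul_le_mul_left k2 hD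
  have k4 : dt F (v e') ≤ mx t P Q (v e') := by
    rw [hF]
    exact ph_le hf.nn _ _ _
  have k5 : mx t P Q (v e') = dt F (v e') := le_antisymm k3 k4
  have p3 : 0 < dt F (v e') := by
    have : 0 < cr (v e) (v e'') * dt F (v e') := by
      rw [k1]
      exact add_pos (mul_pos hA p1) (mul_pos hB p2)
    exact (mul_pos_iff_of_pos_left hD).1 this
  have c3 : cov v P Q t x e' := by
    unfold cov
    rw [← mx_eq hf, k5]
    exact p3
  have m3 := mx_ph hf c3
  obtain ⟨G, hG⟩ : ∃ G : V, G = ph P Q t (x e') (lb v P Q x e') := ⟨_, rfl⟩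
  rw [← hG] at m3
  have q1 : dt G (v e) ≤ dt F (v e) := by
    rw [← m1, hG]
    exact ph_le hf.nn _ _ _
  have q2 : dt G (v e'') ≤ dt F (v e'') := by
    rw [← m2, hG]
    exact ph_le hf.nn _ _ _
  have k6 := Ch_dt_cramer G (v e) (v e'') (v e')
  rw [← m3, k5] at k6
  have k7 : cr (v e') (v e'') * (dt F (v e) - dt G (v e)) +
      cr (v e) (v e') * (dt F (v e'') - dt G (v e'')) = 0 := by linarith
  have r1 : 0 ≤ cr (v e') (v e'') * (dt F (v e) - dt G (v e)) :=
    mul_nonneg hA.le (sub_nonneg.2 q1)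
  have r2 : 0 ≤ cr (v e) (v e') * (dt F (v e'') - dt G (v e'')) :=
    mul_nonneg hB.le (sub_nonneg.2 q2)
  have s1 : cr (v e') (v e'') * (dt F (v e) - dt G (v e)) = 0 := by linarith
  have s2 : cr (v e) (v e') * (dt F (v e'') - dt G (v e'')) = 0 := by linarith
  have t1 : dt F (v e) = dt G (v e) := sub_eq_zero.1 ((mul_eq_zero.1 s1).resolve_left hA.ne')
  have t2 : dt F (v e'') = dt G (v e'') := sub_eq_zero.1 ((mul_eq_zero.1 s2).resolve_left hB.ne')
  have z := Ch_indep hD.ne' t1 t2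
  rw [hF, hG] at z
  have lab := Ch_label hg (Ch_tpos hf c1) (Ch_tpos hf c3) z
  exact ⟨c3, lab.1, lab.2⟩

theorem opp (h : Hx M v) (hf : Fair M v P Q t x) {e : ℤ} (c1 : cov v P Q t x e)
    (c2 : cov v P Q t x (e + 3 * M)) (hx : x e = x (e + 3 * M)) :
    lb v P Q x e ≠ lb v P Q x (e + 3 * M) := by
  intro hs
  have m1 := mx_ph hf c1
  have m2 := mx_ph hf c2
  have p1 := Ch_mxpos hf c1
  have p2 := Ch_mxpos hf c2
  rw [m1] at p1
  rw [m2, ← hx, ← hs, h.half, dt_neg] at p2
  linarith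

theorem hull (h : Hx M v) (hPQ : ∀ i, 0 < cr (P i) (Q i)) (hf : Fair M v P Q t x)
    {e e' e'' : ℤ} (h1 : e ≤ e') (h2 : e' ≤ e'') (h3 : e'' < e + 3 * M)
    (c1 : cov v P Q t x e) (c2 : cov v P Q t x e'') (hx : x e = x e'')
    (hs : lb v P Q x e = false) (hs' : lb v P Q x e'' = true) : cov v P Q t x e' := by
  rcases h1.eq_or_lt with h1 | h1
  · subst h1
    exact c1
  rcases h2.eq_or_lt with h2 | h2
  · subst h2
    exact c2
  have hD : 0 < cr (v e) (v e'') := hx_ccw h _ _ (h1.trans h2) h3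
  have hA : 0 < cr (v e') (v e'') := hx_ccw h _ _ h2 (by linarith)
  have hB : 0 < cr (v e) (v e') := hx_ccw h _ _ h1 (by linarith)
  have p := (Ch_false hf c1 hs).1
  have q := (Ch_true hf c2 hs').1
  rw [← hx] at q
  have ti := Ch_tpos hf c1
  have hpq := hPQ (x e)
  obtain ⟨i, hi⟩ : ∃ i, i = x e := ⟨_, rfl⟩
  rw [← hi] at p q ti hpq
  have key : 0 < gg (P i) (Q i) (v e') := by
    by_contra hn
    rw [not_lt] at hn
    have n1 : dt (P i) (v e') ≤ 0 := (Ch_P_le _ _ _).trans hn
    have n2 : dt (Q i) (v e') ≤ 0 := (Ch_Q_le _ _ _).trans hn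
    have k1 := Ch_dt_cramer (P i) (v e) (v e'') (v e')
    have k2 := Ch_dt_cramer (Q i) (v e) (v e'') (v e')
    have e1 : cr (v e) (v e'') * dt (P i) (v e') ≤ 0 := mul_nonpos_of_nonneg_of_nonpos hD.le n1
    have e2 : cr (v e) (v e'') * dt (Q i) (v e') ≤ 0 := mul_nonpos_of_nonneg_of_nonpos hD.le n2
    have id : cr (P i) (Q i) * cr (v e) (v e'') =
        dt (P i) (v e) * dt (Q i) (v e'') - dt (P i) (v e'') * dt (Q i) (v e) := by
      unfold cr dt
      ring
    have pos := mul_pos hpq hD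
    rw [id] at pos
    rw [k1] at e1
    rw [k2] at e2
    -- `A p ≤ - B p'`, `B q ≤ - A q'`
    generalize cr (v e') (v e'') = A at *
    generalize cr (v e) (v e') = B at *
    generalize dt (P i) (v e) = a at *
    generalize dt (Q i) (v e'') = b at *
    generalize dt (P i) (v e'') = a' at *
    generalize dt (Q i) (v e) = b' at *
    have f1 : 0 < A * a := mul_pos hA p
    have f2 : 0 < B * b := mul_pos hB q
    have f3 : (A * a) * (B * b) ≤ (-(B * a')) * (-(A * b')) :=
      mul_le_mul (by linarith) (by linarith) f2.le (by linarith)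
    have f4 : A * B * (a * b - a' * b') ≤ 0 := by
      have f6 : A * B * (a * b - a' * b') =
        (A * a) * (B * b) - (-(B * a')) * (-(A * b')) := by ring
      rw [f6]
      linarith
    have f5 : 0 < A * B * (a * b - a' * b') := mul_pos (mul_pos hA hB) pos
    linarith
  unfold cov
  rw [← mx_eq hf]
  exact (mul_pos ti key).trans_le (Ch_le i _)

private theorem Ch_per_n {α : Type*} {f : ℤ → α} (hp : ∀ e, f (e + 6 * M) = f e) (e n : ℤ) :
    f (e + n * (6 * M)) = f e := by
  have h1 : Function.Periodic f (6 * (M : ℤ)) := hp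
  exact h1.int_mul n e

private theorem Ch_mod {α : Type*} {f : ℤ → α} (hp : ∀ e, f (e + 6 * M) = f e) (e : ℤ) :
    f (e % (6 * M)) = f e := by
  have h1 := Ch_per_n hp e (-(e / (6 * M)))
  rw [← h1]
  congr 1
  have h2 := Int.emod_add_mul_ediv e (6 * M)
  linarith

/-- `M + 1` consecutive indices cannot be covered with the same label -/
private theorem Ch_block (h : Hx M v) (hg : Gen12 P Q) (hf : Fair M v P Q t x) {e e' : ℤ}
    (h1 : e + M ≤ e') (h3 : e' < e + 3 * M) (c1 : cov v P Q t x e) (c2 : cov v P Q t x e')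
    (hx : x e = x e') (hs : lb v P Q x e = lb v P Q x e') : False := by
  have hM : (0 : ℤ) < M := by exact_mod_cast h.pos
  have hM6 : (0 : ℤ) < 6 * M := by linarith
  have hall : ∀ k, e ≤ k → k ≤ e + M → cov v P Q t x k ∧ x k = x e := by
    intro k hk1 hk2
    have := cont h hg hf hk1 (hk2.trans h1) h3 c1 c2 hx hs
    exact ⟨this.1, this.2.1⟩
  have hload := hf.load (x e)
  have hcard : (Finset.Icc e (e + M)).card ≤ ((Finset.Ico (0 : ℤ) (6 * M)).filter
      (fun k => x k = x e ∧ 0 < t (x e) * gg (P (x e)) (Q (x e)) (v k))).card := by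
    refine Finset.card_le_card_of_injOn (fun k => k % (6 * M)) ?_ ?_
    · intro k hk
      have hk' := Finset.mem_Icc.1 (Finset.mem_coe.1 hk)
      have hc := hall k hk'.1 hk'.2
      have m1 : x (k % (6 * M)) = x k := Ch_mod hf.per k
      have m2 : v (k % (6 * M)) = v k := Ch_mod (Ch_vper h) k
      refine Finset.mem_coe.2 (Finset.mem_filter.2 ⟨Finset.mem_Ico.2
        ⟨Int.emod_nonneg _ hM6.ne', Int.emod_lt_of_pos _ hM6⟩, ?_, ?_⟩)
      · show x (k % (6 * M)) = x e
        rw [m1, hc.2]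
      · show 0 < t (x e) * gg (P (x e)) (Q (x e)) (v (k % (6 * M)))
        rw [m2, ← hc.2]
        exact hc.1
    · intro a ha b hb hab
      have ha' := Finset.mem_Icc.1 (Finset.mem_coe.1 ha)
      have hb' := Finset.mem_Icc.1 (Finset.mem_coe.1 hb)
      have hab' : a % (6 * M) = b % (6 * M) := hab
      have hab'' : b ≡ a [ZMOD (6 * M)] := hab'.symm
      have hd : (6 * M : ℤ) ∣ a - b := hab''.dvd
      obtain ⟨n, hn⟩ := hd
      have hn0 : n = 0 := by
        have u1 : (6 * M : ℤ) * n ≤ M := by linarith [ha'.2, hb'.1]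
        have u2 : -(M : ℤ) ≤ (6 * M : ℤ) * n := by linarith [ha'.1, hb'.2]
        have v1 : n < 1 := by
          by_contra hc
          push Not at hc
          nlinarith
        have v2 : -1 < n := by
          by_contra hc
          push Not at hc
          nlinarith
        omega
      rw [hn0, mul_zero] at hn
      linarith
  have hI : (Finset.Icc e (e + M)).card = M + 1 := by
    rw [Int.card_Icc]
    omega
  omega

theorem uniq6 (h : Hx M v) (hg : Gen12 P Q) (hf : Fair M v P Q t x) {e e' : ℤ}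
    (c1 : cov v P Q t x e) (c2 : cov v P Q t x e') (hx : x e = x e')
    (hs : lb v P Q x e = lb v P Q x e') (hd : (M : ℤ) ∣ e - e') : (6 * M : ℤ) ∣ e - e' := by
  have hM : (0 : ℤ) < M := by exact_mod_cast h.pos
  have hM6 : (0 : ℤ) < 6 * M := by linarith
  -- replace `e'` by `e + r`
  obtain ⟨r, hr⟩ : ∃ r : ℤ, r = (e' - e) % (6 * M) := ⟨_, rfl⟩
  have hr0 : 0 ≤ r := by rw [hr]; exact Int.emod_nonneg _ hM6.ne'
  have hr1 : r < 6 * M := by rw [hr]; exact Int.emod_lt_of_pos _ hM6
  obtain ⟨n, hn⟩ : ∃ n : ℤ, e' - e = r + n * (6 * M) :=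
    ⟨(e' - e) / (6 * M), by rw [hr]; have := Int.emod_add_mul_ediv (e' - e) (6 * M); linarith⟩
  have he' : e' = (e + r) + n * (6 * M) := by linarith
  have c3 : cov v P Q t x (e + r) := by
    have h1 : cov v P Q t x ((e + r) + n * (6 * M)) = cov v P Q t x (e + r) :=
      Ch_per_n (f := fun e => cov v P Q t x e) (fun e => propext (cov_per h hf e).1) (e + r) n
    rw [← h1, ← he']
    exact c2
  have x3 : x e = x (e + r) := by
    rw [hx, he']
    exact Ch_per_n hf.per (e + r) n
  have s3 : lb v P Q x e = lb v P Q x (e + r) := by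
    rw [hs, he']
    exact Ch_per_n (f := fun e => lb v P Q x e) (fun e => (cov_per h hf e).2) (e + r) n
  have hdr : (M : ℤ) ∣ r := by
    have h1 : r = -(e - e') - M * (6 * n) := by linarith
    rw [h1]
    exact dvd_sub ((dvd_neg).2 hd) (dvd_mul_right _ _)
  obtain ⟨k, hk⟩ := hdr
  have k0 : 0 ≤ k := by
    by_contra hc
    push Not at hc
    nlinarith
  have k6 : k < 6 := by
    by_contra hc
    push Not at hc
    nlinarith
  have key : k = 0 := by
    by_contra hk0
    have hk1 : 1 ≤ k := by omega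
    rcases lt_trichotomy k 3 with h3 | h3 | h3
    · exact Ch_block h hg hf (e := e) (e' := e + r) (by nlinarith) (by nlinarith) c1 c3 x3 s3
    · have h4 : r = 3 * M := by rw [hk, h3]; ring
      rw [h4] at c3 x3 s3
      exact opp h hf c1 c3 x3 s3
    · have c4 : cov v P Q t x (e + 6 * M) := (cov_per h hf e).1.2 c1
      have x4 : x (e + r) = x (e + 6 * M) := by rw [hf.per, x3]
      have s4 : lb v P Q x (e + r) = lb v P Q x (e + 6 * M) := by rw [(cov_per h hf e).2, s3]
      exact Ch_block h hg hf (e := e + r) (e' := e + 6 * M)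
        (by nlinarith) (by nlinarith) c3 c4 x4 s4
  have hr00 : r = 0 := by rw [hk, key, mul_zero]
  rw [hr00, zero_add] at hn
  exact ⟨-n, by linarith⟩

end ZP
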