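import Pool.Agent.H73.ZP.Ch

/-!
ROW Cj.  The values of the labels and the inequality of each player, for a residue `r`.

Fix `r`; `W k = v (r + k M)`; `pos`, `lam` from `Ce`.  For a label `c = (i, p)` which is the label of some covered index,
choose a representative `e_c` : a covered index with label `c`, and with `M ∣ e_c - r` if there is such an index
with this label.  Put `F i p = lam (e_c) * mx t P Q (v (e_c)) = mx t P Q (pt W (pos (e_c)))`, and `F i p = 0` if the
label does not occur.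
(a) If `e` is covered and `M ∣ e - r` then `F (label e) = mx t P Q (v e)`: the representative `e_c` also
satisfies `M ∣ e_c - r`, so by `uniq6` `6 M ∣ e - e_c` and `v e = v e_c`; `lam (e_c) = 1` (`Ce`: `e_c = r + k M`).
(b) Player `i`: put `μ i = mu (gg (P i) (Q i)) W`.  If none of the two labels occurs: `0 ≤ t i * μ i`.  If one occurs:
`F = t i * gg (P i) (Q i) (pt W (pos e_c)) ≤ t i * μ i` (`Cd1`).  If both occur, with representatives `I` and `J`; shift `J` by a
multiple of `6 M` so that `I < J < I + 6 M` (`I`, `J` have different labels, so they are not congruent mod `6 M`;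
everything has period `6 M`: `pos (e + 6 M) = pos e + 6`, `pt W (s + 6) = pt W s`).
 LONG: `J - I ≥ 3 M`: `Cf` with `s₁ = pos I`, `s₂ = pos J` (`pos I + 3 = pos (I + 3 M) ≤ pos J < pos I + 6`), multiplied
 by `t i`: `F i false + F i true ≤ t i * μ i`.
 SHORT: `J - I < 3 M`: every `e ∈ [I, J]` is covered (`hull`) and `F i false + F i true - F (label e) ≤ t i * μ i`:
  if the label of `e` is `(i, false)` or `(i, true)` this is `Cd1` for the other one.  Otherwise let `c` be the label of `e`
  and `e_c` its representative, shifted so that `|e_c - e| < 3 M` (`e_c - e` is not an odd multiple of `3 M` by `opp`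
  and the period).  All indices between `e` and `e_c` have the label `c` (`cont`), so `I` and `J` are not
  among them and `I < e_c < J`.  `Cd3` for `pos I ≤ pos e_c ≤ pos J ≤ pos I + 3` (function `gg (P i) (Q i)`, times `t i`) and
  `F (label e) = mx (pt W (pos e_c)) ≥ t i * gg (P i) (Q i) (pt W (pos e_c))` give the claim.
-/

open Real

namespace ZP

variable {M : ℕ} {v : ℤ → V} {P Q : Fin 6 → V} {t : Fin 6 → ℝ} {x : ℤ → Fin 6}

theorem Cj_shift (a b K : ℤ) (hK : 0 < K) : ∃ n : ℤ, a ≤ b + n * K ∧ b + n * K < a + K := by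
  refine ⟨-((b - a) / K), ?_, ?_⟩
  · have h1 := Int.emod_nonneg (b - a) hK.ne'
    have h2 := Int.emod_add_mul_ediv (b - a) K
    nlinarith
  · have h1 := Int.emod_lt_of_pos (b - a) hK
    have h2 := Int.emod_add_mul_ediv (b - a) K
    nlinarith

theorem Cj_gg_smul (A B w : V) (a : ℝ) (ha : 0 ≤ a) : gg A B (a • w) = a * gg A B w :=
  (subl_gg A B).smul a w ha

theorem Cj_vper (h : Hx M v) (e : ℤ) : v (e + 6 * M) = v e := by
  have h1 := h.half (e + 3 * M)
  have h2 := h.half e
  rw [show e + 6 * (M : ℤ) = e + 3 * M + 3 * M by ring, h1, h2, neg_neg]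

theorem Cj_vper' (h : Hx M v) (n e : ℤ) : v (e + n * (6 * M)) = v e := by
  have h1 : Function.Periodic v (6 * (M : ℤ)) := fun e => Cj_vper h e
  exact h1.int_mul n e

/-- `Hx.ccw` is stated for natural indices only (elaboration of `j < i + 3 * M`); this is the version
for all integers. -/
theorem Cj_ccw (h : Hx M v) (i j : ℤ) (h1 : i < j) (h2 : j < i + 3 * M) : 0 < cr (v i) (v j) := by
  have hM : (1 : ℤ) ≤ M := by exact_mod_cast h.pos
  have h3 : 0 ≤ i + (i.natAbs : ℤ) * (6 * M) := by
    have h4 : -i ≤ (i.natAbs : ℤ) := by omega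
    have h5 : (0 : ℤ) ≤ (i.natAbs : ℤ) := by positivity
    nlinarith
  obtain ⟨a, ha⟩ := Int.eq_ofNat_of_zero_le h3
  obtain ⟨b, hb⟩ := Int.eq_ofNat_of_zero_le (show 0 ≤ j + (i.natAbs : ℤ) * (6 * M) by linarith)
  rw [← Cj_vper' h (i.natAbs : ℤ) i, ← Cj_vper' h (i.natAbs : ℤ) j, ha, hb]
  refine h.ccw a b ?_ ?_
  · have : (a : ℤ) < b := by rw [← ha, ← hb]; linarith
    exact_mod_cast this
  · have : (b : ℤ) < a + 3 * M := by rw [← ha, ← hb]; linarith
    exact_mod_cast this

theorem Cj_false {e : ℤ} (he : cov v P Q t x e) (hl : lb v P Q x e = false) :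
    0 < dt (P (x e)) (v e) ∧ dt (Q (x e)) (v e) ≤ dt (P (x e)) (v e) := by
  unfold lb at hl
  rw [decide_eq_false_iff_not, not_lt] at hl
  refine ⟨?_, hl⟩
  by_contra hn
  rw [not_lt] at hn
  unfold cov gg at he
  have h1 : max (0 : ℝ) (max (dt (P (x e)) (v e)) (dt (Q (x e)) (v e))) = 0 :=
    max_eq_left (max_le hn (hl.trans hn))
  rw [h1, mul_zero] at he
  exact lt_irrefl _ he

theorem Cj_true {e : ℤ} (he : cov v P Q t x e) (hl : lb v P Q x e = true) :
    0 < dt (Q (x e)) (v e) ∧ dt (P (x e)) (v e) ≤ dt (Q (x e)) (v e) := by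
  unfold lb at hl
  rw [decide_eq_true_eq] at hl
  refine ⟨?_, hl.le⟩
  by_contra hn
  rw [not_lt] at hn
  unfold cov gg at he
  have h1 : max (0 : ℝ) (max (dt (P (x e)) (v e)) (dt (Q (x e)) (v e))) = 0 :=
    max_eq_left (max_le (hl.le.trans hn) hn)
  rw [h1, mul_zero] at he
  exact lt_irrefl _ he

theorem Cj_mu_nn (A B : V) (W : ℤ → V) : 0 ≤ mu (gg A B) W := by
  have h := (subl_gg A B).nn
  unfold mu
  exact le_min (by have := h (W 0); have := h (W 2); have := h (W 4); linarith)
    (by have := h (W 1); have := h (W 3); have := h (W 5); linarith)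

theorem Cj (h : Hx M v) (hPQ : ∀ i, 0 < cr (P i) (Q i)) (hg : Gen12 P Q)
    (hf : Fair M v P Q t x) (r : ℤ) :
    ∃ F : Fin 6 → Bool → ℝ, (∀ i p, 0 ≤ F i p) ∧
      (∀ e, cov v P Q t x e → (M : ℤ) ∣ e - r → F (x e) (lb v P Q x e) = mx t P Q (v e)) ∧
      ∀ i, F i false + F i true ≤ t i * mu (gg (P i) (Q i)) (fun k => v (r + k * M)) ∨
        ∃ I J : ℤ, I < J ∧ J < I + 3 * M ∧ x I = i ∧ lb v P Q x I = false ∧ x J = i ∧
          lb v P Q x J = true ∧ ∀ e, I ≤ e → e ≤ J → cov v P Q t x e ∧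
            F i false + F i true - t i * mu (gg (P i) (Q i)) (fun k => v (r + k * M)) ≤
              F (x e) (lb v P Q x e) := by
  classical
  obtain ⟨pos, lam, lam0, hpt, hk, hp3, hl3, hmono⟩ := Ce h r
  have hW : Hexa (fun k => v (r + k * M)) := hexaW h r
  have hM : (0 : ℤ) < M := by exact_mod_cast h.pos
  have ht := hf.nn
  have hsub := subl_mx (P := P) (Q := Q) ht
  obtain ⟨W, hWdef⟩ : ∃ W : ℤ → V, W = fun k => v (r + k * M) := ⟨_, rfl⟩
  rw [← hWdef] at hpt hW ⊢
  have hD : 0 < cr (W 0) (W 1) := by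
    rw [hWdef]
    exact Cj_ccw h (r + 0 * M) (r + 1 * M) (by linarith) (by linarith)
  -- the boundary point of an index
  obtain ⟨U, hU⟩ : ∃ U : ℤ → V, ∀ e, U e = pt W (pos e) := ⟨_, fun _ => rfl⟩
  have hUv : ∀ e, U e = lam e • v e := fun e => (hU e).trans (hpt e)
  have hUper : Function.Periodic U (6 * (M : ℤ)) := by
    intro e
    rw [hU, hU, show e + 6 * (M : ℤ) = e + 3 * M + 3 * M by ring, hp3, hp3, pt_half hW, pt_half hW, neg_neg]
  have hcper : ∀ (n e : ℤ), cov v P Q t x (e + n * (6 * M)) ↔ cov v P Q t x e := by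
    have h1 : Function.Periodic (fun e => cov v P Q t x e) (6 * (M : ℤ)) := fun e =>
      propext (cov_per h hf e).1
    intro n e
    exact iff_of_eq (h1.int_mul n e)
  have hlper : ∀ (n e : ℤ), lb v P Q x (e + n * (6 * M)) = lb v P Q x e := by
    have h1 : Function.Periodic (fun e => lb v P Q x e) (6 * (M : ℤ)) := fun e => (cov_per h hf e).2
    intro n e
    exact h1.int_mul n e
  have hxper : ∀ (n e : ℤ), x (e + n * (6 * M)) = x e := by
    have h1 : Function.Periodic x (6 * (M : ℤ)) := fun e => hf.per e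
    intro n e
    exact h1.int_mul n e
  have hvper : ∀ (n e : ℤ), v (e + n * (6 * M)) = v e := by
    have h1 : Function.Periodic v (6 * (M : ℤ)) := fun e => Cj_vper h e
    intro n e
    exact h1.int_mul n e
  have hUper' : ∀ (n e : ℤ), U (e + n * (6 * M)) = U e := fun n e => hUper.int_mul n e
  -- representatives
  have hex : ∀ (i : Fin 6) (p : Bool), ∃ e, (∃ e, cov v P Q t x e ∧ x e = i ∧ lb v P Q x e = p) →
      (cov v P Q t x e ∧ x e = i ∧ lb v P Q x e = p) ∧
      ((∃ e', cov v P Q t x e' ∧ x e' = i ∧ lb v P Q x e' = p ∧ (M : ℤ) ∣ e' - r) → (M : ℤ) ∣ e - r) := by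
    intro i p
    by_cases h1 : ∃ e', cov v P Q t x e' ∧ x e' = i ∧ lb v P Q x e' = p ∧ (M : ℤ) ∣ e' - r
    · obtain ⟨e', a1, a2, a3, a4⟩ := h1
      exact ⟨e', fun _ => ⟨⟨a1, a2, a3⟩, fun _ => a4⟩⟩
    · by_cases h2 : ∃ e, cov v P Q t x e ∧ x e = i ∧ lb v P Q x e = p
      · obtain ⟨e, a1, a2, a3⟩ := h2
        exact ⟨e, fun _ => ⟨⟨a1, a2, a3⟩, fun h3 => absurd h3 h1⟩⟩
      · exact ⟨0, fun h3 => absurd h3 h2⟩
  choose rp hrp using hex
  obtain ⟨F, hF⟩ : ∃ F : Fin 6 → Bool → ℝ, ∀ i p, F i p =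
      if (∃ e, cov v P Q t x e ∧ x e = i ∧ lb v P Q x e = p) then mx t P Q (U (rp i p)) else 0 :=
    ⟨_, fun _ _ => rfl⟩
  have hFocc : ∀ i p, (∃ e, cov v P Q t x e ∧ x e = i ∧ lb v P Q x e = p) →
      F i p = mx t P Q (U (rp i p)) := fun i p ho => by rw [hF, if_pos ho]
  have hF0 : ∀ i p, 0 ≤ F i p := by
    intro i p
    rw [hF]
    split_ifs
    · exact hsub.nn _
    · exact le_refl _
  have hmxU : ∀ e, mx t P Q (U e) = t (x e) * gg (P (x e)) (Q (x e)) (U e) := by
    intro e
    rw [hUv, hsub.smul _ _ (lam0 e).le, mx_eq hf, Cj_gg_smul _ _ _ _ (lam0 e).le]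
    ring
  have hFeq : ∀ i p, (∃ e, cov v P Q t x e ∧ x e = i ∧ lb v P Q x e = p) →
      F i p = t i * gg (P i) (Q i) (U (rp i p)) := by
    intro i p ho
    rw [hFocc i p ho, hmxU, ((hrp i p ho).1).2.1]
  have hFle : ∀ i p, F i p ≤ t i * mu (gg (P i) (Q i)) W := by
    intro i p
    by_cases ho : ∃ e, cov v P Q t x e ∧ x e = i ∧ lb v P Q x e = p
    · rw [hFeq i p ho, hU]
      exact mul_le_mul_of_nonneg_left (Cd1 hW (subl_gg _ _) _) (ht i)
    · rw [hF, if_neg ho]
      exact mul_nonneg (ht i) (Cj_mu_nn _ _ _)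
  refine ⟨F, hF0, ?_, ?_⟩
  · intro e he hMe
    have ho : ∃ e', cov v P Q t x e' ∧ x e' = x e ∧ lb v P Q x e' = lb v P Q x e := ⟨e, he, rfl, rfl⟩
    rw [hFocc _ _ ho]
    obtain ⟨⟨a1, a2, a3⟩, a4⟩ := hrp (x e) (lb v P Q x e) ho
    have a5 := a4 ⟨e, he, rfl, rfl, hMe⟩
    generalize rp (x e) (lb v P Q x e) = e₁ at a1 a2 a3 a5 ⊢
    have a6 : (M : ℤ) ∣ e - e₁ := by
      have := dvd_sub hMe a5
      rwa [show e - r - (e₁ - r) = e - e₁ by ring] at this
    obtain ⟨n, hn⟩ := uniq6 h hg hf he a1 a2.symm a3.symm a6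
    obtain ⟨k, hk'⟩ := a5
    have a7 : e₁ = r + k * M := by linarith
    have a8 : lam e₁ = 1 := by rw [a7]; exact (hk k).2
    rw [hUv, a8, one_smul]
    have a9 : e = e₁ + n * (6 * M) := by linarith
    rw [a9, hvper]
  · intro i
    by_cases o1 : ∃ e, cov v P Q t x e ∧ x e = i ∧ lb v P Q x e = false
    swap
    · left
      have h1 : F i false = 0 := by rw [hF, if_neg o1]
      rw [h1, zero_add]
      exact hFle i true
    by_cases o2 : ∃ e, cov v P Q t x e ∧ x e = i ∧ lb v P Q x e = true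
    swap
    · left
      have h1 : F i true = 0 := by rw [hF, if_neg o2]
      rw [h1, add_zero]
      exact hFle i false
    obtain ⟨⟨cI, xI, lI⟩, -⟩ := hrp i false o1
    obtain ⟨⟨cJ0, xJ0, lJ0⟩, -⟩ := hrp i true o2
    have eI := hFeq i false o1
    have eJ := hFeq i true o2
    generalize rp i false = I at cI xI lI eI
    generalize rp i true = J0 at cJ0 xJ0 lJ0 eJ
    obtain ⟨n, hn1, hn2⟩ := Cj_shift I J0 (6 * M) (by linarith)
    obtain ⟨J, hJ⟩ : ∃ J, J = J0 + n * (6 * M) := ⟨_, rfl⟩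
    have cJ : cov v P Q t x J := by rw [hJ, hcper]; exact cJ0
    have xJ : x J = i := by rw [hJ, hxper]; exact xJ0
    have lJ : lb v P Q x J = true := by rw [hJ, hlper]; exact lJ0
    have eJ' : F i true = t i * gg (P i) (Q i) (U J) := by rw [eJ, hJ, hUper']
    rw [← hJ] at hn1 hn2
    have hIJ : I < J := by
      rcases lt_or_eq_of_le hn1 with h1 | h1
      · exact h1
      · rw [h1, lJ] at lI
        exact absurd lI (by decide)
    rcases le_or_gt (I + 3 * M) J with hlong | hshort
    · left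
      have h1 : pos I + 3 ≤ pos J := by
        rw [← hp3]
        exact hmono.monotone hlong
      have h2 : pos J < pos I + 6 := by
        have h3 : pos (I + 6 * M) = pos I + 6 := by
          rw [show I + 6 * (M : ℤ) = I + 3 * M + 3 * M by ring, hp3, hp3]
          ring
        rw [← h3]
        exact hmono hn2
      have fI := Cj_false cI lI
      have fJ := Cj_true cJ lJ
      rw [xI] at fI
      rw [xJ] at fJ
      have h4 := Cf hW hD (hPQ i) h1 h2 (by
          rw [hpt, dt_smul]
          exact mul_pos (lam0 I) fI.1) (by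
          rw [hpt, dt_smul, dt_smul]
          exact mul_le_mul_of_nonneg_left fI.2 (lam0 I).le) (by
          rw [hpt, dt_smul]
          exact mul_pos (lam0 J) fJ.1) (by
          rw [hpt, dt_smul, dt_smul]
          exact mul_le_mul_of_nonneg_left fJ.2 (lam0 J).le)
      rw [eI, eJ', hU, hU, ← mul_add]
      exact mul_le_mul_of_nonneg_left h4 (ht i)
    · right
      refine ⟨I, J, hIJ, hshort, xI, lI, xJ, lJ, fun e h1 h2 => ?_⟩
      have ce : cov v P Q t x e := hull h hPQ hf h1 h2 hshort cI cJ (xI.trans xJ.symm) lI lJ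
      refine ⟨ce, ?_⟩
      by_cases hxe : x e = i
      · rw [hxe]
        cases hlb : lb v P Q x e with
        | false =>
          have := hFle i true
          linarith
        | true =>
          have := hFle i false
          linarith
      · have oe : ∃ e', cov v P Q t x e' ∧ x e' = x e ∧ lb v P Q x e' = lb v P Q x e := ⟨e, ce, rfl, rfl⟩
        obtain ⟨⟨b1, b2, b3⟩, -⟩ := hrp _ _ oe
        have b4 := hFocc _ _ oe
        generalize rp (x e) (lb v P Q x e) = e₀ at b1 b2 b3 b4
        obtain ⟨n', hn1', hn2'⟩ := Cj_shift (e - 3 * M) e₀ (6 * M) (by linarith)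
        obtain ⟨e₁, he₁⟩ : ∃ e₁, e₁ = e₀ + n' * (6 * M) := ⟨_, rfl⟩
        have c1 : cov v P Q t x e₁ := by rw [he₁, hcper]; exact b1
        have c2 : x e₁ = x e := by rw [he₁, hxper]; exact b2
        have c3 : lb v P Q x e₁ = lb v P Q x e := by rw [he₁, hlper]; exact b3
        have c4 : F (x e) (lb v P Q x e) = mx t P Q (U e₁) := by rw [b4, he₁, hUper']
        rw [← he₁] at hn1' hn2'
        have c5 : e - 3 * M < e₁ := by
          rcases lt_or_eq_of_le hn1' with h3 | h3
          · exact h3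
          · exfalso
            have h4 : e = e₁ + 3 * M := by linarith
            have h5 := opp h hf (e := e₁) c1 (by rw [← h4]; exact ce) (by rw [← h4]; exact c2)
            rw [← h4] at h5
            exact h5 c3
        have c6 : I ≤ e₁ ∧ e₁ ≤ J := by
          rcases le_total e₁ e with h3 | h3
          · refine ⟨?_, h3.trans h2⟩
            by_contra hn
            rw [not_le] at hn
            have h4 := cont h hg hf (e := e₁) (e' := I) (e'' := e) hn.le h1 (by linarith) c1 ce c2 c3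
            exact hxe (by rw [← c2, ← h4.2.1, xI])
          · refine ⟨h1.trans h3, ?_⟩
            by_contra hn
            rw [not_le] at hn
            have h4 := cont h hg hf (e := e) (e' := J) (e'' := e₁) h2 hn.le (by linarith) ce c1 c2.symm
              c3.symm
            exact hxe (by rw [← h4.2.1, xJ])
        have c7 := Cd3 hW (subl_gg (P i) (Q i)) (hmono.monotone c6.1) (hmono.monotone c6.2)
          (by
            rw [← hp3]
            exact hmono.monotone hshort.le)
        rw [← hU, ← hU, ← hU] at c7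
        have c8 := mul_le_mul_of_nonneg_left c7 (ht i)
        have c9 := le_mx (P := P) (Q := Q) (t := t) i (U e₁)
        rw [c4, eI, eJ']
        nlinarith

end ZP
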