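import Pool.Agent.H73.ZP.Cj
import Pool.Agent.H73.ZP.Cg2

/-!
ROW Ck.  MAIN STEP for a residue `r`: `∑_{k < 6} mx (v (r + k M)) ≤ ∑_i t i * μ i`.

PROOF.  Let `F` be as in `Cj`, `μ i` the `mu`, `d i = F i false + F i true - t i * μ i`.  Call `i` bad if `d i > 0`; then it has `I i`, `J i` as in
`Cj` (which can be shifted by multiples of `6 M`, period).  The indices `e` of a window of length `6 M` with
`M ∣ e - r` are the `r + k M` (mod `6 M`), and `mx (v e) = 0` for uncovered `e`; so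
`S = ∑_{k < 6} mx (v (r + k M)) = ∑_{e ∈ window, M ∣ e - r, cov e} F (label e)`.
It is enough that `S + ∑_{bad} d i ≤ ∑_i (F i false + F i true)`.
WINDOW CONTIGUITY (needed for `Cg`/`Cg2` on `[a₀, a₀ + 6 M)`): if `e ≤ e' ≤ e''` are in the window, `e`, `e''` covered with the
same label, then so is `e'`.  If `e'' - e < 3 M`: `cont`.  `e'' - e = 3 M`: `opp`.  If `e'' - e > 3 M` then
`e + 6 M - e'' < 3 M` and by `cont` all indices of `[e'', e + 6 M]` have this label; this interval contains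
`a₀ + 6 M - 1` and `a₀ + 6 M`, so `a₀ - 1` and `a₀` (period) are covered with the same label.  This is excluded in both
cases below.
CASE 1: some index `a₀` is uncovered.  Apply `Cg2` on `[a₀, a₀ + 6 M)` with `sh` = the bad players, `I i` shifted into
`[a₀, a₀ + 6 M)`; `J i < a₀ + 6 M` since `a₀ + 6 M` is uncovered and `[I i, J i]` is covered.  `f = F`, `m = d`.  The right side
is at most the sum of all `F i p`.
CASE 2: all indices are covered.  Let `T` be the minimum of `F` over the labels which occur, attained for the label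
`c₀`.  Some index has a label different from `c₀` (else all the `6 M` indices belong to one player, against the load), so
there is `a₀` with label `c₀` such that the label of `a₀ - 1` is not `c₀`.  Window `[a₀, a₀ + 6 M)`; shift
`I i` into it.  `in` = the bad players with `J i < a₀ + 6 M`; for the other bad players `a₀ + 6 M ∈ [I i, J i]`, so
`d i ≤ F (label a₀) = T`.  `Cg` with `f i p = max (F i p - T) 0`, `sh = in`, `m i = d i - T`:
`(S - 6 T) + ∑_{in} (d i - T) ≤ ∑_{occurring labels} (F - T)`.  `Cg_count` with `sh` = all bad players, `I i` and `J i` each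
shifted into the window: `6 + #bad ≤ n`, `n` the number of occurring labels.  So
`S + ∑_{bad} d i ≤ S + ∑_{in} d i + (#bad - #in) T ≤ ∑_{occurring} F + T (6 + #in - n) + (#bad - #in) T ≤ ∑ F`.
-/

open Real

namespace ZP

/-! Sums over windows -/

theorem Ck_win {A : Type} [AddCommMonoid A] (N : ℕ) (G : ℤ → A) (hG : ∀ e, G (e + N) = G e)
    (a b : ℤ) : ∑ e ∈ Finset.Ico a (a + N), G e = ∑ e ∈ Finset.Ico b (b + N), G e := by
  have h1 : ∀ a : ℤ, ∑ e ∈ Finset.Ico (a + 1) (a + 1 + N), G e =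
      ∑ e ∈ Finset.Ico a (a + N), G e := by
    intro a
    rcases Nat.eq_zero_or_pos N with h0 | h0
    · subst h0
      simp
    · have e1 : Finset.Ico a (a + N) = insert a (Finset.Ico (a + 1) (a + N)) := by
        ext x
        simp only [Finset.mem_insert, Finset.mem_Ico]
        omega
      have e2 : Finset.Ico (a + 1) (a + 1 + N) = insert (a + N) (Finset.Ico (a + 1) (a + N)) := by
        ext x
        simp only [Finset.mem_insert, Finset.mem_Ico]
        omega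
      rw [e1, e2, Finset.sum_insert (by simp), Finset.sum_insert (by simp), hG]
  have h2 : ∀ a : ℤ, ∑ e ∈ Finset.Ico a (a + N), G e = ∑ e ∈ Finset.Ico (0 : ℤ) (0 + N), G e := by
    intro a
    induction a using Int.induction_on with
    | zero => rfl
    | succ i ih => rw [h1, ih]
    | pred i ih =>
      rw [← ih, ← h1 (-(i : ℤ) - 1), sub_add_cancel]
  rw [h2 a, h2 b]

theorem Ck_res {A : Type} [AddCommMonoid A] {M : ℕ} (hM : 0 < M) (G : ℤ → A)
    (hG : ∀ e, G (e + 6 * M) = G e) (r a : ℤ) :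
    ∑ e ∈ (Finset.Ico a (a + 6 * M)).filter (fun e => (M : ℤ) ∣ e - r), G e =
      ∑ k ∈ Finset.range 6, G (r + k * M) := by
  have hM' : (0 : ℤ) < M := by exact_mod_cast hM
  have e6 : (6 * (M : ℤ)) = ((6 * M : ℕ) : ℤ) := by push_cast; ring
  rw [Finset.sum_filter, e6, Ck_win (6 * M) (fun e => if (M : ℤ) ∣ e - r then G e else 0) ?_ a r,
    ← Finset.sum_filter]
  · have h1 : (Finset.Ico r (r + ((6 * M : ℕ) : ℤ))).filter (fun e => (M : ℤ) ∣ e - r) =
        (Finset.range 6).image (fun k : ℕ => r + k * M) := by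
      ext e
      simp only [Finset.mem_filter, Finset.mem_Ico, Finset.mem_image, Finset.mem_range]
      constructor
      · rintro ⟨⟨h1, h2⟩, q, hq⟩
        rw [← e6] at h2
        have h3 : 0 ≤ q := by
          by_contra h
          have : (M : ℤ) * q < 0 := mul_neg_of_pos_of_neg hM' (by omega)
          omega
        have h4 : q < 6 := by
          by_contra h
          have : (M : ℤ) * 6 ≤ M * q := mul_le_mul_of_nonneg_left (by omega) hM'.le
          omega
        refine ⟨q.toNat, by omega, ?_⟩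
        rw [Int.toNat_of_nonneg h3, mul_comm, ← hq]
        ring
      · rintro ⟨k, hk, rfl⟩
        have h3 : (0 : ℤ) ≤ k * M := by positivity
        have h4 : (k : ℤ) * M < 6 * M := by
          have : (k : ℤ) < 6 := by exact_mod_cast hk
          exact mul_lt_mul_of_pos_right this hM'
        rw [← e6]
        refine ⟨⟨by omega, by omega⟩, k, by ring⟩
    rw [h1, Finset.sum_image]
    intro k _ l _ hkl
    have h2 : (k : ℤ) * M = l * M := by
      have h3 : r + (k : ℤ) * M = r + l * M := hkl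
      omega
    exact_mod_cast mul_right_cancel₀ hM'.ne' h2
  · intro e
    have h2 : ((M : ℤ) ∣ e + ((6 * M : ℕ) : ℤ) - r) ↔ ((M : ℤ) ∣ e - r) := by
      rw [← e6]
      have h3 : e + 6 * (M : ℤ) - r = (e - r) + 6 * M := by ring
      rw [h3]
      exact dvd_add_left (Dvd.intro_left 6 rfl)
    show (if (M : ℤ) ∣ e + ((6 * M : ℕ) : ℤ) - r then G (e + ((6 * M : ℕ) : ℤ)) else 0) = _
    simp only [h2]
    rw [← e6, hG]

/-- The combinatorial hypotheses. -/
structure CkH (M : ℕ) (c : ℤ → Prop) (X : ℤ → Fin 6) (S : ℤ → Bool) (F : Fin 6 → Bool → ℝ)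
    (D : Fin 6 → ℝ) : Prop where
  hM : 0 < M
  hF : ∀ i p, 0 ≤ F i p
  pc : ∀ e, c (e + 6 * M) ↔ c e
  pX : ∀ e, X (e + 6 * M) = X e
  pS : ∀ e, S (e + 6 * M) = S e
  cont : ∀ e e' e'' : ℤ, e ≤ e' → e' ≤ e'' → e'' < e + 3 * M → c e → c e'' → X e = X e'' →
    S e = S e'' → c e' ∧ X e' = X e ∧ S e' = S e
  opp : ∀ e, c e → c (e + 3 * M) → X e = X (e + 3 * M) → S e ≠ S (e + 3 * M)
  load : ∀ i, ∀ [DecidablePred (fun e => X e = i ∧ c e)],
    ((Finset.Ico (0 : ℤ) (6 * M)).filter (fun e => X e = i ∧ c e)).card ≤ M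
  bad : ∀ i, D i ≤ 0 ∨ ∃ I J : ℤ, I < J ∧ J < I + 3 * M ∧ X I = i ∧ S I = false ∧ X J = i ∧
    S J = true ∧ ∀ e, I ≤ e → e ≤ J → c e ∧ D i ≤ F (X e) (S e)

section comb

variable {M : ℕ} {c : ℤ → Prop} {X : ℤ → Fin 6} {S : ℤ → Bool} {F : Fin 6 → Bool → ℝ}
  {D : Fin 6 → ℝ}

theorem CkH.perZ (h : CkH M c X S F D) (e q : ℤ) :
    (c (e + 6 * M * q) ↔ c e) ∧ X (e + 6 * M * q) = X e ∧ S (e + 6 * M * q) = S e := by
  induction q using Int.induction_on with
  | zero => simp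
  | succ i ih =>
    have e1 : e + 6 * (M : ℤ) * ((i : ℤ) + 1) = e + 6 * M * i + 6 * M := by ring
    rw [e1, h.pc, h.pX, h.pS]
    exact ih
  | pred i ih =>
    have e1 : e + 6 * (M : ℤ) * (-(i : ℤ)) = e + 6 * M * (-(i : ℤ) - 1) + 6 * M := by ring
    rw [e1, h.pc, h.pX, h.pS] at ih
    exact ih

theorem CkH.loadW (h : CkH M c X S F D) (a : ℤ) (i : Fin 6)
    [DecidablePred (fun e => X e = i ∧ c e)] :
    ((Finset.Ico a (a + 6 * M)).filter (fun e => X e = i ∧ c e)).card ≤ M := by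
  have e6 : (6 * (M : ℤ)) = ((6 * M : ℕ) : ℤ) := by push_cast; ring
  have h1 := h.load i
  rw [Finset.card_filter] at h1 ⊢
  rw [e6, Ck_win (6 * M) (fun e => if X e = i ∧ c e then 1 else 0) ?_ a 0, zero_add, ← e6]
  · exact h1
  · intro e
    rw [← e6]
    simp only [h.pX, h.pc]

theorem CkH.shift (h : CkH M c X S F D) {i : Fin 6} (hi : 0 < D i) (a : ℤ) :
    ∃ I J : ℤ, a ≤ I ∧ I < a + 6 * M ∧ I < J ∧ J < I + 3 * M ∧ X I = i ∧ S I = false ∧ X J = i ∧
      S J = true ∧ ∀ e, I ≤ e → e ≤ J → c e ∧ D i ≤ F (X e) (S e) := by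
  have hM' : (0 : ℤ) < 6 * M := by
    have := h.hM
    omega
  rcases h.bad i with h0 | ⟨I, J, h1, h2, h3, h4, h5, h6, h7⟩
  · exact absurd h0 (not_le.2 hi)
  · obtain ⟨q, hq⟩ : ∃ q : ℤ, q = -((I - a) / (6 * M)) := ⟨_, rfl⟩
    have k1 : 0 ≤ (I - a) % (6 * M) := Int.emod_nonneg _ hM'.ne'
    have k2 : (I - a) % (6 * M) < 6 * M := Int.emod_lt_of_pos _ hM'
    have k3 : I + 6 * M * q = a + (I - a) % (6 * M) := by
      have k4 := Int.emod_add_mul_ediv (I - a) (6 * M)
      rw [hq, mul_neg]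
      omega
    refine ⟨I + 6 * M * q, J + 6 * M * q, by omega, by omega, by omega, by omega, ?_, ?_, ?_, ?_, ?_⟩
    · rw [(h.perZ I q).2.1, h3]
    · rw [(h.perZ I q).2.2, h4]
    · rw [(h.perZ J q).2.1, h5]
    · rw [(h.perZ J q).2.2, h6]
    · intro e e1 e2
      have e3 := h7 (e - 6 * M * q) (by omega) (by omega)
      have e4 := h.perZ (e - 6 * M * q) q
      rw [sub_add_cancel] at e4
      rw [e4.1, e4.2.1, e4.2.2]
      exact e3

/-- An index shifted into the window. -/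
theorem CkH.shift1 (h : CkH M c X S F D) (J a : ℤ) :
    ∃ J' : ℤ, a ≤ J' ∧ J' < a + 6 * M ∧ X J' = X J ∧ S J' = S J := by
  have hM' : (0 : ℤ) < 6 * M := by
    have := h.hM
    omega
  obtain ⟨q, hq⟩ : ∃ q : ℤ, q = -((J - a) / (6 * M)) := ⟨_, rfl⟩
  have k1 : 0 ≤ (J - a) % (6 * M) := Int.emod_nonneg _ hM'.ne'
  have k2 : (J - a) % (6 * M) < 6 * M := Int.emod_lt_of_pos _ hM'
  have k3 : J + 6 * M * q = a + (J - a) % (6 * M) := by
    have k4 := Int.emod_add_mul_ediv (J - a) (6 * M)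
    rw [hq, mul_neg]
    omega
  exact ⟨J + 6 * M * q, by omega, by omega, (h.perZ J q).2.1, (h.perZ J q).2.2⟩

/-- Contiguity in a window which is cut at a good place. -/
theorem CkH.hint (h : CkH M c X S F D) (a : ℤ)
    (ha : c (a - 1) → c a → X (a - 1) = X a → S (a - 1) = S a → False)
    {e e' e'' : ℤ} (h1 : a ≤ e) (h2 : e ≤ e') (h3 : e' ≤ e'') (h4 : e'' < a + 6 * M)
    (c1 : c e) (c2 : c e'') (hx : X e = X e'') (hs : S e = S e'') :
    c e' ∧ X e' = X e ∧ S e' = S e := by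
  rcases lt_trichotomy e'' (e + 3 * M) with h5 | h5 | h5
  · exact h.cont e e' e'' h2 h3 h5 c1 c2 hx hs
  · subst h5
    exact absurd hs (h.opp e c1 c2 hx)
  · exfalso
    have p1 : c (e + 6 * M) := (h.pc e).2 c1
    have hx' : X e'' = X (e + 6 * M) := by rw [h.pX, hx]
    have hs' : S e'' = S (e + 6 * M) := by rw [h.pS, hs]
    have q1 := h.cont e'' (a + 6 * M) (e + 6 * M) (by omega) (by omega) (by omega) c2 p1 hx' hs'
    have q2 := h.cont e'' (a - 1 + 6 * M) (e + 6 * M) (by omega) (by omega) (by omega) c2 p1 hx' hs'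
    rw [h.pc, h.pX, h.pS] at q1 q2
    exact ha q2.1 q1.1 (q2.2.1.trans q1.2.1.symm) (q2.2.2.trans q1.2.2.symm)

theorem Ck_lab (F : Fin 6 → Bool → ℝ) (hF : ∀ i p, 0 ≤ F i p) (A : Finset (Fin 6 × Bool)) :
    ∑ p ∈ A, F p.1 p.2 ≤ ∑ i, (F i false + F i true) := by
  have h1 : ∑ p ∈ A, F p.1 p.2 ≤ ∑ p : Fin 6 × Bool, F p.1 p.2 :=
    Finset.sum_le_sum_of_subset_of_nonneg (Finset.subset_univ _) fun p _ _ => hF _ _
  rw [Fintype.sum_prod_type] at h1
  refine h1.trans (le_of_eq (Finset.sum_congr rfl fun i _ => ?_))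
  rw [Fintype.sum_bool, add_comm]

theorem Ck_case1 (h : CkH M c X S F D) [DecidablePred c] (r a : ℤ) (ha : ¬ c a) :
    ∑ e ∈ (Finset.Ico a (a + 6 * M)).filter (fun e => (M : ℤ) ∣ e - r ∧ c e), F (X e) (S e) +
      ∑ i ∈ Finset.univ.filter (fun i => 0 < D i), D i ≤ ∑ i, (F i false + F i true) := by
  classical
  have h1 : ∀ i : Fin 6, ∃ I J : ℤ, 0 < D i → (a ≤ I ∧ I < a + 6 * M ∧ I < J ∧ J < I + 3 * M ∧
      X I = i ∧ S I = false ∧ X J = i ∧
      S J = true ∧ ∀ e, I ≤ e → e ≤ J → c e ∧ D i ≤ F (X e) (S e)) := by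
    intro i
    by_cases hi : 0 < D i
    · obtain ⟨I, J, hh⟩ := h.shift hi a
      exact ⟨I, J, fun _ => hh⟩
    · exact ⟨0, 0, fun hh => absurd hh hi⟩
  choose I J hIJ using h1
  have h2 := Cg2 M h.hM r X S c F (Finset.univ.filter (fun i => 0 < D i)) I J D a (a + 6 * M) h.hF
    (fun e e' e'' k1 k2 k3 k4 c1 c2 hx hs => h.hint a (fun _ h3 _ _ => ha h3) k1 k2 k3 k4 c1 c2 hx hs)
    (fun i => h.loadW a i) ?_ ?_
  · exact h2.trans (Ck_lab F h.hF _)
  · intro i hi
    obtain ⟨k1, k2, k3, k4, k5, k6, k7, k8, k9⟩ := hIJ i (Finset.mem_filter.1 hi).2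
    refine ⟨k1, k3, ?_, k5, k6, k7, k8⟩
    by_contra h5
    have h6 := (k9 (a + 6 * M) (by omega) (by omega)).1
    rw [h.pc] at h6
    exact ha h6
  · intro i hi e e1 e2
    obtain ⟨k1, k2, k3, k4, k5, k6, k7, k8, k9⟩ := hIJ i (Finset.mem_filter.1 hi).2
    exact k9 e e1 e2

theorem Ck_start (h : CkH M c X S F D) (hc : ∀ e, c e) (e₀ : ℤ) :
    ∃ a : ℤ, (X a = X e₀ ∧ S a = S e₀) ∧ ¬ (X (a - 1) = X e₀ ∧ S (a - 1) = S e₀) := by
  classical
  by_contra hno
  push Not at hno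
  have h1 : ∀ k : ℕ, X (e₀ - k) = X e₀ ∧ S (e₀ - k) = S e₀ := by
    intro k
    induction k with
    | zero => simp
    | succ k ih =>
      have h2 := hno (e₀ - k) ih
      have e1 : e₀ - ((k + 1 : ℕ) : ℤ) = e₀ - k - 1 := by push_cast; ring
      rw [e1]
      exact h2
  have h2 := h.loadW (e₀ - 6 * M) (X e₀)
  have h3 : (Finset.Ico (e₀ - 6 * M) (e₀ - 6 * M + 6 * M)).filter (fun e => X e = X e₀ ∧ c e) =
      Finset.Ico (e₀ - 6 * M) (e₀ - 6 * M + 6 * M) := by
    refine Finset.filter_true_of_mem fun e he => ?_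
    rw [Finset.mem_Ico] at he
    have h4 := (h1 (e₀ - e).toNat).1
    rw [Int.toNat_of_nonneg (by omega), sub_sub_cancel] at h4
    exact ⟨h4, hc e⟩
  rw [h3, Int.card_Ico] at h2
  have := h.hM
  omega

theorem Ck_case2 (h : CkH M c X S F D) (hc : ∀ e, c e) (r : ℤ) :
    ∃ a : ℤ, ∑ e ∈ (Finset.Ico a (a + 6 * M)).filter (fun e => (M : ℤ) ∣ e - r), F (X e) (S e) +
      ∑ i ∈ Finset.univ.filter (fun i => 0 < D i), D i ≤ ∑ i, (F i false + F i true) := by
  classical
  have hM := h.hM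
  obtain ⟨e₀, -, he₀⟩ := Finset.exists_min_image (Finset.Ico (0 : ℤ) (6 * M))
    (fun e => F (X e) (S e)) ⟨0, by rw [Finset.mem_Ico]; omega⟩
  obtain ⟨T, hT⟩ : ∃ T : ℝ, T = F (X e₀) (S e₀) := ⟨_, rfl⟩
  have hT0 : 0 ≤ T := by
    rw [hT]
    exact h.hF _ _
  have hmin : ∀ e, T ≤ F (X e) (S e) := by
    intro e
    obtain ⟨e', k1, k2, k3, k4⟩ := h.shift1 e 0
    rw [← k3, ← k4, hT]
    exact he₀ e' (by rw [Finset.mem_Ico]; omega)
  obtain ⟨a, ⟨ha1, ha2⟩, ha3⟩ := Ck_start h hc e₀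
  refine ⟨a, ?_⟩
  have hcut : c (a - 1) → c a → X (a - 1) = X a → S (a - 1) = S a → False :=
    fun _ _ k1 k2 => ha3 ⟨k1.trans ha1, k2.trans ha2⟩
  have h1 : ∀ i : Fin 6, ∃ I J J' : ℤ, 0 < D i → ((a ≤ I ∧ I < a + 6 * M ∧ I < J ∧ J < I + 3 * M ∧
      X I = i ∧ S I = false ∧ X J = i ∧
      S J = true ∧ ∀ e, I ≤ e → e ≤ J → c e ∧ D i ≤ F (X e) (S e)) ∧
      (a ≤ J' ∧ J' < a + 6 * M ∧ X J' = i ∧ S J' = true)) := by
    intro i
    by_cases hi : 0 < D i
    · obtain ⟨I, J, hh⟩ := h.shift hi a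
      obtain ⟨J', k1, k2, k3, k4⟩ := h.shift1 J a
      refine ⟨I, J, J', fun _ => ⟨hh, k1, k2, ?_, ?_⟩⟩
      · rw [k3]
        exact hh.2.2.2.2.2.2.1
      · rw [k4]
        exact hh.2.2.2.2.2.2.2.1
    · exact ⟨0, 0, 0, fun hh => absurd hh hi⟩
  choose I J J' hIJ using h1
  obtain ⟨B, hB⟩ : ∃ B : Finset (Fin 6), B = Finset.univ.filter (fun i => 0 < D i) := ⟨_, rfl⟩
  have hmB : ∀ i, i ∈ B ↔ 0 < D i := by
    intro i
    rw [hB, Finset.mem_filter]
    exact ⟨fun h => h.2, fun h => ⟨Finset.mem_univ _, h⟩⟩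
  rw [← hB]
  have hld : ∀ i, ((Finset.Ico a (a + 6 * M)).filter (fun e => X e = i)).card ≤ M := by
    intro i
    refine le_trans (le_of_eq ?_) (h.loadW a i)
    congr 1
    refine Finset.filter_congr fun e _ => ?_
    exact ⟨fun k => ⟨k, hc e⟩, fun k => k.1⟩
  have hcg := Cg M hM r X S (fun i p => max (F i p - T) 0) (B.filter (fun i => J i < a + 6 * M))
    I J (fun i => D i - T) a (a + 6 * M) (fun i p => le_max_right _ _)
    (fun e e' e'' k1 k2 k3 k4 hx hs =>
      (h.hint a hcut k1 k2 k3 k4 (hc e) (hc e'') hx hs).2) hld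
    (by
      intro i hi
      rw [Finset.mem_filter, hmB] at hi
      obtain ⟨⟨k1, k2, k3, k4, k5, k6, k7, k8, k9⟩, -⟩ := hIJ i hi.1
      exact ⟨k1, k3, hi.2, k5, k6, k7, k8⟩)
    (by
      intro i hi e e1 e2
      rw [Finset.mem_filter, hmB] at hi
      obtain ⟨⟨k1, k2, k3, k4, k5, k6, k7, k8, k9⟩, -⟩ := hIJ i hi.1
      refine le_trans ?_ (le_max_left _ _)
      linarith [(k9 e e1 e2).2])
  have hct := Cg_count M hM r X S B I J' a (a + 6 * M) hld (by
    intro i hi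
    obtain ⟨⟨k1, k2, k3, k4, k5, k6, k7, k8, k9⟩, l1, l2, l3, l4⟩ := hIJ i ((hmB i).1 hi)
    exact ⟨k1, k2, l1, l2, k5, k6, l3, l4⟩)
  have h6 : ((Finset.Ico a (a + 6 * M)).filter (fun e => (M : ℤ) ∣ e - r)).card = 6 := by
    have h7 := Ck_res hM (fun _ => (1 : ℕ)) (fun _ => rfl) r a
    rw [Finset.card_eq_sum_ones, h7]
    simp
  rw [h6] at hct
  have e1 : ∑ e ∈ (Finset.Ico a (a + 6 * M)).filter (fun e => (M : ℤ) ∣ e - r),
      max (F (X e) (S e) - T) 0 =
      ∑ e ∈ (Finset.Ico a (a + 6 * M)).filter (fun e => (M : ℤ) ∣ e - r), F (X e) (S e) - 6 * T := by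
    rw [Finset.sum_congr rfl (fun e _ => max_eq_left (sub_nonneg.2 (hmin e))),
      Finset.sum_sub_distrib, Finset.sum_const, h6, nsmul_eq_mul]
    norm_num
  have e2 : ∑ p ∈ (Finset.Ico a (a + 6 * M)).image (fun e => (X e, S e)),
      max (F p.1 p.2 - T) 0 =
      ∑ p ∈ (Finset.Ico a (a + 6 * M)).image (fun e => (X e, S e)), F p.1 p.2 -
        ((Finset.Ico a (a + 6 * M)).image (fun e => (X e, S e))).card * T := by
    have k1 : ∀ p ∈ (Finset.Ico a (a + 6 * M)).image (fun e => (X e, S e)),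
        max (F p.1 p.2 - T) 0 = F p.1 p.2 - T := by
      intro p hp
      rw [Finset.mem_image] at hp
      obtain ⟨e, -, rfl⟩ := hp
      exact max_eq_left (sub_nonneg.2 (hmin e))
    rw [Finset.sum_congr rfl k1, Finset.sum_sub_distrib, Finset.sum_const, nsmul_eq_mul]
  have e3 : ∑ i ∈ B, D i = ∑ i ∈ B.filter (fun i => J i < a + 6 * M), D i +
      ∑ i ∈ B.filter (fun i => ¬ J i < a + 6 * M), D i :=
    (Finset.sum_filter_add_sum_filter_not _ _ _).symm
  have e4 : ∑ i ∈ B.filter (fun i => ¬ J i < a + 6 * M), D i ≤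
      (B.filter (fun i => ¬ J i < a + 6 * M)).card * T := by
    rw [← nsmul_eq_mul]
    refine Finset.sum_le_card_nsmul _ _ _ fun i hi => ?_
    rw [Finset.mem_filter, hmB] at hi
    obtain ⟨⟨k1, k2, k3, k4, k5, k6, k7, k8, k9⟩, -⟩ := hIJ i hi.1
    have k10 := (k9 (a + 6 * M) (by omega) (by omega)).2
    rw [h.pX, h.pS, ha1, ha2, ← hT] at k10
    exact k10
  have e5 : (B.filter (fun i => J i < a + 6 * M)).card +
      (B.filter (fun i => ¬ J i < a + 6 * M)).card = B.card :=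
    Finset.card_filter_add_card_filter_not _
  have e6 : ∑ i ∈ B.filter (fun i => J i < a + 6 * M), (D i - T) =
      ∑ i ∈ B.filter (fun i => J i < a + 6 * M), D i -
        (B.filter (fun i => J i < a + 6 * M)).card * T := by
    rw [Finset.sum_sub_distrib, Finset.sum_const, nsmul_eq_mul]
  rw [e1, e2, e6] at hcg
  have e7 := Ck_lab F h.hF ((Finset.Ico a (a + 6 * M)).image (fun e => (X e, S e)))
  have e8 : ((6 : ℝ) + B.card) * T ≤
      ((Finset.Ico a (a + 6 * M)).image (fun e => (X e, S e))).card * T := by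
    refine mul_le_mul_of_nonneg_right ?_ hT0
    exact_mod_cast hct
  have e9 : ((B.filter (fun i => J i < a + 6 * M)).card : ℝ) +
      (B.filter (fun i => ¬ J i < a + 6 * M)).card = B.card := by
    exact_mod_cast e5
  have e10 : ((B.filter (fun i => J i < a + 6 * M)).card : ℝ) * T +
      (B.filter (fun i => ¬ J i < a + 6 * M)).card * T = B.card * T := by
    rw [← e9]
    ring
  rw [e3]
  linarith

theorem Ck_comb (h : CkH M c X S F D) (r : ℤ) (G : ℤ → ℝ) (hG : ∀ e, G (e + 6 * M) = G e)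
    (hG1 : ∀ e, c e → (M : ℤ) ∣ e - r → F (X e) (S e) = G e) (hG0 : ∀ e, ¬ c e → G e = 0) :
    ∑ k ∈ Finset.range 6, G (r + k * M) + ∑ i, D i ≤ ∑ i, (F i false + F i true) := by
  classical
  have h1 : ∑ i, D i ≤ ∑ i ∈ Finset.univ.filter (fun i => 0 < D i), D i := by
    rw [← Finset.sum_filter_add_sum_filter_not Finset.univ (fun i => 0 < D i)]
    have h2 : ∑ i ∈ Finset.univ.filter (fun i => ¬ 0 < D i), D i ≤ 0 :=
      Finset.sum_nonpos fun i hi => not_lt.1 (Finset.mem_filter.1 hi).2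
    linarith
  by_cases hc : ∀ e, c e
  · obtain ⟨a, ha⟩ := Ck_case2 h hc r
    have h3 := Ck_res h.hM G hG r a
    have h4 : ∑ e ∈ (Finset.Ico a (a + 6 * M)).filter (fun e => (M : ℤ) ∣ e - r), F (X e) (S e) =
        ∑ e ∈ (Finset.Ico a (a + 6 * M)).filter (fun e => (M : ℤ) ∣ e - r), G e :=
      Finset.sum_congr rfl fun e he => hG1 e (hc e) (Finset.mem_filter.1 he).2
    rw [h4, h3] at ha
    linarith
  · push Not at hc
    obtain ⟨a, ha⟩ := hc
    have h2 := Ck_case1 h r a ha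
    have h3 := Ck_res h.hM G hG r a
    have h4 : ∑ e ∈ (Finset.Ico a (a + 6 * M)).filter (fun e => (M : ℤ) ∣ e - r), G e =
        ∑ e ∈ (Finset.Ico a (a + 6 * M)).filter (fun e => (M : ℤ) ∣ e - r ∧ c e),
          F (X e) (S e) := by
      rw [← Finset.filter_filter, Finset.sum_filter _ (fun e => F (X e) (S e))]
      refine Finset.sum_congr rfl fun e he => ?_
      by_cases hce : c e
      · rw [if_pos hce, hG1 e hce (Finset.mem_filter.1 he).2]
      · rw [if_neg hce, hG0 e hce]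
    rw [← h4, h3] at h2
    linarith

end comb

variable {M : ℕ} {v : ℤ → V} {P Q : Fin 6 → V} {t : Fin 6 → ℝ} {x : ℤ → Fin 6}

theorem Ck (h : Hx M v) (hPQ : ∀ i, 0 < cr (P i) (Q i)) (hg : Gen12 P Q)
    (hf : Fair M v P Q t x) (r : ℤ) :
    ∑ k ∈ Finset.range 6, mx t P Q (v (r + k * M)) ≤
      ∑ i, t i * mu (gg (P i) (Q i)) (fun k => v (r + k * M)) := by
  obtain ⟨F, hF, h1, h2⟩ := Cj h hPQ hg hf r
  have hv : ∀ e, v (e + 6 * M) = v e := by
    intro e
    have e1 : e + 6 * (M : ℤ) = e + 3 * M + 3 * M := by ring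
    rw [e1, h.half, h.half, neg_neg]
  obtain ⟨D, hD⟩ : ∃ D : Fin 6 → ℝ, ∀ i, D i = F i false + F i true -
      t i * mu (gg (P i) (Q i)) (fun k => v (r + k * M)) := ⟨_, fun _ => rfl⟩
  have hC : CkH M (cov v P Q t x) x (lb v P Q x) F D :=
    { hM := h.pos
      hF := hF
      pc := fun e => (cov_per h hf e).1
      pX := hf.per
      pS := fun e => (cov_per h hf e).2
      cont := fun e e' e'' k1 k2 k3 c1 c2 hx hs => cont h hg hf k1 k2 k3 c1 c2 hx hs
      opp := fun e c1 c2 hx => opp h hf c1 c2 hx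
      load := by
        intro i _
        classical
        refine le_trans (Finset.card_le_card fun e he => ?_) (hf.load i)
        rw [Finset.mem_filter] at he ⊢
        obtain ⟨k1, k2, k3⟩ := he
        refine ⟨k1, k2, ?_⟩
        unfold cov at k3
        rw [k2] at k3
        exact k3
      bad := by
        intro i
        rcases h2 i with h3 | ⟨I, J, k1, k2, k3, k4, k5, k6, k7⟩
        · left
          rw [hD]
          linarith
        · right
          refine ⟨I, J, k1, k2, k3, k4, k5, k6, fun e e1 e2 => ?_⟩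
          rw [hD]
          exact k7 e e1 e2 }
  have h3 := Ck_comb hC r (fun e => mx t P Q (v e)) (fun e => by
    show mx t P Q (v (e + 6 * M)) = _
    rw [hv]) h1 (by
    intro e he
    have k1 := mx_eq hf e
    have k2 := (subl_mx (P := P) (Q := Q) hf.nn).nn (v e)
    unfold cov at he
    show mx t P Q (v e) = 0
    linarith [not_lt.1 he])
  have h4 : ∑ i, D i = ∑ i, (F i false + F i true) -
      ∑ i, t i * mu (gg (P i) (Q i)) (fun k => v (r + k * M)) := by
    rw [← Finset.sum_sub_distrib]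
    exact Finset.sum_congr rfl fun i _ => hD i
  have h5 : ∑ k ∈ Finset.range 6, mx t P Q (v (r + k * M)) + ∑ i, D i ≤
      ∑ i, (F i false + F i true) := h3
  linarith

end ZP
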