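import Pool.Agent.H73.ZP.Bdb

/-!
ROW Gra.  Inscribed affine-regular hexagons of a smooth strictly convex symmetric body with
support map `q`: for every `α` there are `α < β < ω < α + π` with `q β = q α + q ω`
(`ex`), `β` is unique and increasing in `α` (`monoS`).

PROOF of `ex`.  Apply `hit` to `γ β = q β - q α` on `[α, α + π]`: `γ α = 0` is in the body
(`0 ≤ dt (uu θ) (q θ)`: `dt (uu θ) (q (θ + π)) ≤ dt (uu θ) (q θ)` and `q (θ + π) = - q θ`), and
`γ (α + π) = - 2 • q α` satisfies `dt (uu (α + π)) (γ (α + π)) = 2 * dt (uu (α + π)) (q (α + π))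
≥ dt (uu (α + π)) (q (α + π))`.  So there are `β ∈ [α, α + π]` and `ω` with
`q β - q α = q ω`.  As `q ω ≠ 0` (`dt (uu ω) (q ω) > 0`) we have `β ≠ α`; and `β ≠ α + π`, since
`q ω = - 2 • q α = 2 • q (α + π)` contradicts `supp` (direction `α + π`).  By `crpos`
`0 < cr (q α) (q β) = cr (q α) (q ω)`; choose `ω` in `[α, α + 2 π)` (period); `crpos` and
`cr (q α) (q α) = 0`, `cr (q α) (q (α + π)) = 0`, and `cr (q α) (q ω') < 0` for
`ω' ∈ (α + π, α + 2 π)` give `α < ω < α + π`.  Also `cr (q β) (q ω) = cr (q α) (q ω) > 0`, so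
`β < ω` (if `ω < β`, `crpos` gives `cr (q ω) (q β) > 0`; if `ω = β` then `q α = 0`).

PROOF of `monoS`.  (1) Claim U: let `(α, β, ω)` be a triple and `β < β' < α + π`; then
`x' = q β' - q α` is not in the body.  If `β' ≤ ω`: `dt (uu ω) x' > dt (uu ω) (q β - q α)
= dt (uu ω) (q ω)` by `incS` (direction `ω`, `ω - π ≤ β < β' ≤ ω`).  If `β' > ω`: it is enough
that `dt (uu β') (q α) < 0`, i.e. `dt (uu β') (q β) < dt (uu β') (q ω)`, `incS` with
`β' - π ≤ β < ω ≤ β'`.
(2) Claim I: if `α < α' < β` then `x = q β - q α'` is strictly inside: `dt (uu φ) x < dt (uu φ) (q φ)`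
for all `φ`.  By the period take `φ ∈ [α, α + 2 π)`.
 (a) `φ ∈ [α, α']`: `dt (uu φ) (q β) ≤ dt (uu φ) (q α')` by `dec` (`φ ≤ α' ≤ β ≤ φ + π`), so
 `dt (uu φ) x ≤ 0 < dt (uu φ) (q φ)`.
 (b) `φ ∈ (α', α + π]`: `dt (uu φ) (q α) < dt (uu φ) (q α')` by `incS` (`φ - π ≤ α < α' ≤ φ`), so
 `dt (uu φ) x < dt (uu φ) (q β - q α) = dt (uu φ) (q ω) ≤ dt (uu φ) (q φ)`.
 (c) `φ = φ₀ + π` with `φ₀ ∈ (α, α + π)`: we need `dt (uu φ₀) (q α' - q β) < dt (uu φ₀) (q φ₀)`.
   If `φ₀ ≥ β`: `dt (uu φ₀) (q α') ≤ dt (uu φ₀) (q β)` by `inc`, and `0 < dt (uu φ₀) (q φ₀)`.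
   If `φ₀ < β`: `dt (uu φ₀) (q β) > 0`, since `q β = q α - q (ω - π)` and
   `incS` (direction `φ₀`, `φ₀ - π ≤ ω - π < α ≤ φ₀`) and
   `dt (uu φ₀) (q α') ≤ dt (uu φ₀) (q φ₀)`.
(3) Let `(α, β, ω)`, `(α', β', ω')` be triples, `α < α'`.  If `β ≤ α'` then `β < β'`.  Otherwise
`α' < β` and by Claim I `x = q β - q α'` is strictly inside; if `β' = β` then `x = q ω'`, which is
not strictly inside (direction `ω'`).  If `β' < β` then (`β < ω < α + π < α' + π`) Claim U for the triple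
`(α', β', ω')` says that `x` is not in the body; contradiction.  So `β < β'`.
(4) Uniqueness `un`: two triples with the same `α` have the same `β` (Claim U: if `β < β'`
then `q β' - q α = q ω'` is in the body).
-/

open Real

namespace ZP

/-- A hexagon triple. -/
def Tr (q : ℝ → V) (α β ω : ℝ) : Prop := α < β ∧ β < ω ∧ ω < α + π ∧ q β = q α + q ω

theorem gra_uu_ne (θ : ℝ) : uu (θ + π) ≠ uu θ := by
  intro h
  rw [uu_pi] at h
  have h1 := congrArg Prod.fst h
  have h2 := congrArg Prod.snd h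
  have h3 : -Real.cos θ = Real.cos θ := h1
  have h4 : -Real.sin θ = Real.sin θ := h2
  have h5 := Real.sin_sq_add_cos_sq θ
  have h6 : Real.cos θ = 0 := by linarith
  have h7 : Real.sin θ = 0 := by linarith
  rw [h6, h7] at h5
  norm_num at h5

theorem gra_pos {q : ℝ → V} (h : Bd q) (hs : ∀ θ, q (θ + π) = - q θ) (θ : ℝ) :
    0 < dt (uu θ) (q θ) := by
  have h1 := h.strict θ (θ + π) (gra_uu_ne θ)
  rw [hs, dt_neg] at h1
  linarith

theorem gra_cr_add_left (a b c : V) : cr (a + b) c = cr a c + cr b c := by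
  simp only [cr, Prod.fst_add, Prod.snd_add]
  ring

theorem gra_cr_add_right (a b c : V) : cr a (b + c) = cr a b + cr a c := by
  simp only [cr, Prod.fst_add, Prod.snd_add]
  ring

theorem gra_cr_self (a : V) : cr a a = 0 := by
  simp only [cr]
  ring

theorem gra_cr_neg (a b : V) : cr a (-b) = - cr a b := by
  simp only [cr, Prod.fst_neg, Prod.snd_neg]
  ring

theorem gra_cr_swap (a b : V) : cr a b = - cr b a := by
  simp only [cr]
  ring

theorem ex {q : ℝ → V} (h : Bd q) (hs : ∀ θ, q (θ + π) = - q θ) (α : ℝ) :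
    ∃ β ω, Tr q α β ω := by
  have hpi := Real.pi_pos
  have hP := gra_pos h hs α
  have hγ : Continuous (fun s => q s - q α) := h.cont.sub continuous_const
  have ha : (fun s => q s - q α) α ∈ body q := by
    intro θ
    show dt (uu θ) (q α - q α) ≤ dt (uu θ) (q θ)
    rw [dt_sub, sub_self]
    exact (gra_pos h hs θ).le
  have hb : ∃ θ, dt (uu θ) (q θ) ≤ dt (uu θ) ((fun s => q s - q α) (α + π)) := by
    refine ⟨α + π, ?_⟩
    show dt (uu (α + π)) (q (α + π)) ≤ dt (uu (α + π)) (q (α + π) - q α)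
    rw [dt_sub, uu_pi, hs, dt_neg, neg_dt]
    linarith
  obtain ⟨β, hβ1, hβ2, θ, hθ⟩ := hit h hγ (by linarith : α ≤ α + π) ha hb
  have hθ' : q β - q α = q θ := hθ
  have hper : Function.Periodic q (2 * π) := h.per
  obtain ⟨ω, hω, hωq⟩ := hper.exists_mem_Ico Real.two_pi_pos θ α
  obtain ⟨hω1, hω2⟩ := hω
  rw [hωq] at hθ'
  have hq : q β = q α + q ω := by rw [← hθ', add_sub_cancel]
  have hωP := gra_pos h hs ω
  have hβα : α ≠ β := by
    intro e
    rw [← e, sub_self] at hθ'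
    rw [← hθ'] at hωP
    simp [dt] at hωP
  have hβα' : β ≠ α + π := by
    intro e
    have h1 := h.supp (α + π) ω
    rw [← hθ', e, dt_sub, uu_pi, hs, dt_neg, neg_dt] at h1
    linarith
  have h1 : α < β := lt_of_le_of_ne hβ1 hβα
  have h2 : β < α + π := lt_of_le_of_ne hβ2 hβα'
  have h3 := crpos h hs h1 h2
  rw [hq, gra_cr_add_right, gra_cr_self, zero_add] at h3
  have h4 : α < ω := by
    refine lt_of_le_of_ne hω1 ?_
    intro e
    rw [← e, gra_cr_self] at h3
    exact lt_irrefl _ h3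
  have h5 : ω < α + π := by
    by_contra hc
    rcases eq_or_lt_of_le (not_lt.1 hc) with e | e
    · rw [← e, hs, gra_cr_neg, gra_cr_self, neg_zero] at h3
      exact lt_irrefl _ h3
    · have h6 := crpos h hs (by linarith : α < ω - π) (by linarith)
      have h7 := hs (ω - π)
      rw [sub_add_cancel] at h7
      rw [h7, gra_cr_neg] at h3
      linarith
  have h6 : cr (q β) (q ω) = cr (q α) (q ω) := by
    rw [hq, gra_cr_add_left, gra_cr_self, add_zero]
  refine ⟨β, ω, h1, ?_, h5, hq⟩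
  by_contra hc
  rcases eq_or_lt_of_le (not_lt.1 hc) with e | e
  · rw [e] at h3 h6
    rw [gra_cr_self] at h6
    rw [← h6] at h3
    exact lt_irrefl _ h3
  · have h7 := crpos h hs e (by linarith)
    rw [gra_cr_swap, h6] at h7
    linarith

theorem gra_U {q : ℝ → V} (h : Bd q) (hs : ∀ θ, q (θ + π) = - q θ) {α β ω β' : ℝ}
    (h1 : Tr q α β ω) (h2 : β < β') (h3 : β' < α + π) :
    ∃ φ, dt (uu φ) (q φ) < dt (uu φ) (q β' - q α) := by
  obtain ⟨g1, g2, g3, g4⟩ := h1
  rcases le_or_gt β' ω with hc | hc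
  · refine ⟨ω, ?_⟩
    have h4 := incS h (α := ω) (φ := β) (ψ := β') (by linarith) h2 hc
    have h5 : dt (uu ω) (q β) = dt (uu ω) (q α) + dt (uu ω) (q ω) := by rw [g4, dt_add]
    rw [dt_sub]
    linarith
  · refine ⟨β', ?_⟩
    have h4 := incS h (α := β') (φ := β) (ψ := ω) (by linarith) g2 hc.le
    have h5 : dt (uu β') (q β) = dt (uu β') (q α) + dt (uu β') (q ω) := by rw [g4, dt_add]
    rw [dt_sub]
    linarith

theorem gra_I {q : ℝ → V} (h : Bd q) (hs : ∀ θ, q (θ + π) = - q θ) {α β ω α' : ℝ}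
    (h1 : Tr q α β ω) (h2 : α < α') (h3 : α' < β) (φ : ℝ) :
    dt (uu φ) (q β - q α') < dt (uu φ) (q φ) := by
  obtain ⟨g1, g2, g3, g4⟩ := h1
  have key : ∀ φ : ℝ, α ≤ φ → φ < α + 2 * π → dt (uu φ) (q β - q α') < dt (uu φ) (q φ) := by
    intro φ hφ1 hφ2
    rcases le_or_gt φ α' with hc | hc
    · have h4 := dec h (α := φ) (φ := α') (ψ := β) hc h3.le (by linarith)
      have h5 := gra_pos h hs φ
      rw [dt_sub]
      linarith
    · rcases le_or_gt φ (α + π) with hd | hd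
      · have h4 := incS h (α := φ) (φ := α) (ψ := α') (by linarith) h2 hc.le
        have h5 := h.supp φ ω
        have h6 : dt (uu φ) (q β) = dt (uu φ) (q α) + dt (uu φ) (q ω) := by rw [g4, dt_add]
        rw [dt_sub]
        linarith
      · obtain ⟨φ₀, hφ₀⟩ : ∃ φ₀, φ = φ₀ + π := ⟨φ - π, by ring⟩
        have e1 : uu φ = - uu φ₀ := by rw [hφ₀, uu_pi]
        have e2 : q φ = - q φ₀ := by rw [hφ₀, hs]
        have e3 : α < φ₀ := by linarith
        have e4 : φ₀ < α + π := by linarith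
        rw [e1, e2, dt_neg, neg_dt, neg_dt, neg_neg, dt_sub]
        rcases le_or_gt β φ₀ with hf | hf
        · have h4 := inc h (α := φ₀) (φ := α') (ψ := β) (by linarith) h3.le hf
          have h5 := gra_pos h hs φ₀
          linarith
        · have h4 := incS h (α := φ₀) (φ := ω - π) (ψ := α) (by linarith) (by linarith) e3.le
          have h5 := hs (ω - π)
          rw [sub_add_cancel] at h5
          have h6 : dt (uu φ₀) (q β) = dt (uu φ₀) (q α) - dt (uu φ₀) (q (ω - π)) := by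
            rw [g4, dt_add, h5, dt_neg]
            ring
          have h7 := h.supp φ₀ α'
          linarith
  have hper : Function.Periodic (fun φ => dt (uu φ) (q φ) - dt (uu φ) (q β - q α')) (2 * π) := by
    intro φ
    show dt (uu (φ + 2 * π)) (q (φ + 2 * π)) - dt (uu (φ + 2 * π)) (q β - q α') =
      dt (uu φ) (q φ) - dt (uu φ) (q β - q α')
    rw [uu_per, h.per]
  obtain ⟨ψ, hψ, hψq⟩ := hper.exists_mem_Ico Real.two_pi_pos φ α
  have h4 := key ψ hψ.1 hψ.2
  have h5 : dt (uu φ) (q φ) - dt (uu φ) (q β - q α') =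
    dt (uu ψ) (q ψ) - dt (uu ψ) (q β - q α') := hψq
  linarith

theorem un {q : ℝ → V} (h : Bd q) (hs : ∀ θ, q (θ + π) = - q θ) {α β ω β' ω' : ℝ}
    (h1 : Tr q α β ω) (h2 : Tr q α β' ω') : β = β' := by
  have key : ∀ {β ω β' ω' : ℝ}, Tr q α β ω → Tr q α β' ω' → ¬ β < β' := by
    intro β ω β' ω' h1 h2 hlt
    obtain ⟨g1, g2, g3, g4⟩ := h2
    obtain ⟨φ, hφ⟩ := gra_U h hs h1 hlt (by linarith)
    have h3 : q β' - q α = q ω' := by rw [g4, add_sub_cancel_left]
    rw [h3] at hφ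
    exact absurd (h.supp φ ω') (not_le.2 hφ)
  exact le_antisymm (not_lt.1 (key h2 h1)) (not_lt.1 (key h1 h2))

theorem monoS {q : ℝ → V} (h : Bd q) (hs : ∀ θ, q (θ + π) = - q θ) {α β ω α' β' ω' : ℝ}
    (h1 : Tr q α β ω) (h2 : Tr q α' β' ω') (hlt : α < α') : β < β' := by
  have k1 := h1
  have k2 := h2
  obtain ⟨g1, g2, g3, g4⟩ := h1
  obtain ⟨g1', g2', g3', g4'⟩ := h2
  rcases le_or_gt β α' with hc | hc
  · linarith
  · by_contra hn
    rcases eq_or_lt_of_le (not_lt.1 hn) with e | e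
    · have h3 := gra_I h hs k1 hlt hc ω'
      have h4 : q β - q α' = q ω' := by rw [← e, g4', add_sub_cancel_left]
      rw [h4] at h3
      exact lt_irrefl _ h3
    · obtain ⟨φ, hφ⟩ := gra_U h hs k2 e (by linarith)
      exact lt_irrefl _ (hφ.trans (gra_I h hs k1 hlt hc φ))

end ZP
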