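import Pool.Agent.H73.ZP.Gra

/-!
ROW Grb.  The grid.

PROOF.  Put `q = qq l` (`qqBd`, `qq_pi`).  Choose for every `α` a triple `Tr q α (σ α) (ω α)` (`ex`).
* `σ` is strictly increasing (`monoS`).
* `σ (σ α) = ω α` and `σ (ω α) = α + π`: if `Tr q α β ω` then `Tr q β ω (α + π)` (as `q (α + π) = - q α`)
  and `Tr q ω (α + π) (β + π)`; use `un`.  Hence `σ (σ (σ α)) = α + π`, so `σ` is surjective, and a
  monotone surjective map is continuous (`Monotone.continuous_of_surjective`).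
  `σ (α + π) = σ α + π` (both are `σ (σ (σ (σ α)))`).
* `ρ = σ α - α` is continuous, positive, periodic with period `π`: there is `κ > 0` with
  `κ ≤ σ α - α` for all `α` (minimum on `[0, π]`).
* `p α = α + σ α + σ (σ α)` is continuous and strictly increasing, `p (σ α) = p α + π`,
  `p (α + π) = p α + 3 π`; it is surjective (continuous, unbounded in both directions).
* Given `M`, let `θ i` be the number with `p (θ i) = i * (π / M)`.  It is strictly increasing in
  `i`; `θ (i + M) = σ (θ i)`; `θ (i + 3 M) = θ i + π`; and `α ↦ p α - α` is increasing, so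
  `θ (i + 1) - θ i ≤ p (θ (i + 1)) - p (θ i) = π / M`.
  `hex`: `Tr q (θ i) (σ (θ i)) (σ (σ (θ i)))`.

`hxvv`: the edges `v i = q (θ (i + 1)) - q (θ i)` form a sequence `Hx M v`.
PROOF.  `half`: `q (θ (i + 3 M)) = q (θ i + π) = - q (θ i)`.  `hex`: subtract `Grid.hex` for `i + 1` and `i`.
`ccw`: let `i < j < i + 3 M`.  The angles satisfy `θ i < θ (i + 1) ≤ θ j < θ (j + 1) ≤ θ i + π`.
The edge `v i` satisfies `dt (uu (θ i)) (v i) < 0 < dt (uu (θ (i + 1))) (v i)` (`strict`; the two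
angles differ by less than `2 π`), so it is `ρ • tt a` with `ρ > 0` and `θ i < a < θ (i + 1)`
(see `chord`; the end values are excluded by the strict inequalities); in the same way
`v j = ρ' • tt b`, `θ j < b < θ (j + 1)`, and `cr (v i) (v j) = ρ ρ' sin (b - a) > 0`, since
`0 < b - a < π`.
-/

open Real

namespace ZP

lemma Grb_rot {q : ℝ → V} (hs : ∀ θ, q (θ + π) = - q θ) {α β ω : ℝ} (h : Tr q α β ω) :
    Tr q β ω (α + π) := by
  obtain ⟨h1, h2, h3, h4⟩ := h
  refine ⟨h2, h3, by linarith, ?_⟩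
  rw [hs, h4]
  abel

/-- The data of the hexagon map. -/
lemma Grb_map {q : ℝ → V} (h : Bd q) (hs : ∀ θ, q (θ + π) = - q θ) :
    ∃ σ : ℝ → ℝ, StrictMono σ ∧ Continuous σ ∧ (∀ α, α < σ α) ∧ (∀ α, σ (σ (σ α)) = α + π) ∧
      (∀ α, q (σ α) = q α + q (σ (σ α))) := by
  choose σ ω hσ using fun α => ex h hs α
  have hmono : StrictMono σ := fun α α' hlt => monoS h hs (hσ α) (hσ α') hlt
  have hω : ∀ α, σ (σ α) = ω α := fun α => un h hs (hσ (σ α)) (Grb_rot hs (hσ α))
  have h3 : ∀ α, σ (σ (σ α)) = α + π := by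
    intro α
    rw [hω α]
    exact un h hs (hσ (ω α)) (Grb_rot hs (Grb_rot hs (hσ α)))
  have hsur : Function.Surjective σ := by
    intro y
    refine ⟨σ (σ (y - π)), ?_⟩
    rw [h3]
    ring
  refine ⟨σ, hmono, hmono.monotone.continuous_of_surjective hsur, fun α => (hσ α).1, h3, ?_⟩
  intro α
  rw [hω α]
  exact (hσ α).2.2.2

lemma Grb_kap {σ : ℝ → ℝ} (hc : Continuous σ) (hlt : ∀ α, α < σ α)
    (h3 : ∀ α, σ (σ (σ α)) = α + π) : ∃ κ : ℝ, 0 < κ ∧ ∀ α, κ ≤ σ α - α := by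
  have hper : ∀ α, σ (α + π) = σ α + π := by
    intro α
    rw [← h3 α, ← h3 (σ α)]
  have hρ : Function.Periodic (fun α => σ α - α) π := by
    intro α
    show σ (α + π) - (α + π) = σ α - α
    rw [hper]
    ring
  have hcρ : Continuous (fun α => σ α - α) := hc.sub continuous_id
  obtain ⟨x, hx, hmin⟩ := isCompact_Icc.exists_isMinOn (Set.nonempty_Icc.2 Real.pi_pos.le)
    hcρ.continuousOn (s := Set.Icc (0 : ℝ) π)
  refine ⟨σ x - x, sub_pos.2 (hlt x), ?_⟩
  intro α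
  obtain ⟨y, hy, hαy⟩ := hρ.exists_mem_Ico₀ Real.pi_pos α
  have h1 : σ x - x ≤ σ y - y := hmin (Set.Ico_subset_Icc_self hy)
  have h2 : σ α - α = σ y - y := hαy
  rw [h2]
  exact h1

theorem grid {l : ℝ → V} (h : Bd l) :
    ∃ κ : ℝ, 0 < κ ∧ ∀ M : ℕ, 0 < M → ∃ θ : ℤ → ℝ, Grid l κ M θ := by
  obtain ⟨σ, hmono, hc, hlt, h3, hq⟩ := Grb_map (qqBd h) (qq_pi h)
  obtain ⟨κ, hκ0, hκ⟩ := Grb_kap hc hlt h3
  refine ⟨κ, hκ0, ?_⟩
  intro M hM
  have hM0 : (0 : ℝ) < M := by exact_mod_cast hM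
  obtain ⟨p, hp⟩ : ∃ p : ℝ → ℝ, ∀ α, p α = α + σ α + σ (σ α) := ⟨_, fun _ => rfl⟩
  have hpc : Continuous p := by
    have h1 : p = fun α => α + σ α + σ (σ α) := funext hp
    rw [h1]
    exact (continuous_id.add hc).add (hc.comp hc)
  have hpm : StrictMono p := by
    intro a b hab
    rw [hp, hp]
    have h1 := hmono hab
    have h2 := hmono h1
    linarith
  have hpd : ∀ a b, a ≤ b → b - a ≤ p b - p a := by
    intro a b hab
    rw [hp, hp]
    have h1 := hmono.monotone hab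
    have h2 := hmono.monotone h1
    linarith
  have hpσ : ∀ α, p (σ α) = p α + π := by
    intro α
    rw [hp, hp, h3]
    ring
  have hsur : ∀ y, ∃ x, p x = y := by
    intro y
    have ha : p (min 0 (y - p 0)) ≤ y := by
      have h1 := hpd (min 0 (y - p 0)) 0 (min_le_left _ _)
      have h2 := min_le_right 0 (y - p 0)
      linarith
    have hb : y ≤ p (max 0 (y - p 0)) := by
      have h1 := hpd 0 (max 0 (y - p 0)) (le_max_left _ _)
      have h2 := le_max_right 0 (y - p 0)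
      linarith
    have hab : min 0 (y - p 0) ≤ max 0 (y - p 0) := (min_le_left _ _).trans (le_max_left _ _)
    obtain ⟨x, _, hx⟩ := intermediate_value_Icc hab hpc.continuousOn ⟨ha, hb⟩
    exact ⟨x, hx⟩
  choose θ hθ using fun i : ℤ => hsur (i * (π / M))
  have hπM : (M : ℝ) * (π / M) = π := by
    field_simp
  have hσθ : ∀ i, θ (i + M) = σ (θ i) := by
    intro i
    apply hpm.injective
    rw [hpσ, hθ, hθ]
    push_cast
    rw [add_mul, hπM]
  have hσθ2 : ∀ i, θ (i + 2 * M) = σ (σ (θ i)) := by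
    intro i
    rw [← hσθ i, ← hσθ (i + M)]
    congr 1
    ring
  have hσθ3 : ∀ i, θ (i + 3 * M) = θ i + π := by
    intro i
    rw [← h3 (θ i), ← hσθ2 i, ← hσθ (i + 2 * M)]
    congr 1
    ring
  refine ⟨θ, ⟨hM, ?_, hσθ3, ?_, ?_, ?_⟩⟩
  · intro i j hij
    rw [← hpm.lt_iff_lt, hθ, hθ]
    have h1 : (i : ℝ) < j := by exact_mod_cast hij
    exact mul_lt_mul_of_pos_right h1 (div_pos Real.pi_pos hM0)
  · intro i
    have hle : θ i ≤ θ (i + 1) := by
      rw [← hpm.le_iff_le, hθ, hθ]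
      have h1 : (i : ℝ) ≤ ((i + 1 : ℤ) : ℝ) := by
        push_cast
        linarith
      exact mul_le_mul_of_nonneg_right h1 (div_pos Real.pi_pos hM0).le
    have h1 := hpd _ _ hle
    rw [hθ, hθ] at h1
    push_cast at h1
    linarith
  · intro i
    rw [hσθ]
    exact hκ (θ i)
  · intro i
    rw [hσθ, hσθ2]
    exact hq (θ i)

lemma Grb_edge {q : ℝ → V} (h : Bd q) {a b : ℝ} (hab : a < b) (hba : b ≤ a + π) :
    ∃ ρ c : ℝ, 0 < ρ ∧ a < c ∧ c < b ∧ q b - q a = ρ • tt c := by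
  obtain ⟨ρ, c, hρ, h1, h2, h3⟩ := chord h hab.le (by linarith [Real.pi_pos])
  have e1 : dt (uu a) (q b - q a) < 0 := by
    rw [dt_sub]
    have := decS h le_rfl hab hba
    linarith
  have e2 : 0 < dt (uu b) (q b - q a) := by
    rw [dt_sub]
    have := incS h (by linarith : b - π ≤ a) hab le_rfl
    linarith
  rw [h3, dt_smul, dt_uu_tt] at e1 e2
  have hρ0 : ρ ≠ 0 := by
    rintro rfl
    simp at e1
  have hac : a ≠ c := by
    rintro rfl
    simp at e1
  have hcb : c ≠ b := by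
    rintro rfl
    simp at e2
  exact ⟨ρ, c, lt_of_le_of_ne hρ (Ne.symm hρ0), lt_of_le_of_ne h1 hac, lt_of_le_of_ne h2 hcb, h3⟩

theorem hxvv {l : ℝ → V} (h : Bd l) {κ : ℝ} {M : ℕ} {θ : ℤ → ℝ} (hg : Grid l κ M θ) :
    Hx M (vv l θ) := by
  have hM1 : (1 : ℝ) ≤ M := by exact_mod_cast hg.pos
  have hgap : ∀ i : ℤ, θ (i + 1) ≤ θ i + π := by
    intro i
    have h1 := hg.gap i
    have h2 : π / M ≤ π := div_le_self Real.pi_pos.le hM1
    linarith
  refine ⟨hg.pos, ?_, ?_, ?_⟩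
  · intro i
    unfold vv
    have e1 : θ (i + 3 * M + 1) = θ (i + 1) + π := by
      rw [← hg.per (i + 1)]
      congr 1
      ring
    rw [e1, hg.per i, qq_pi h, qq_pi h]
    abel
  · intro i
    unfold vv
    have e1 : i + M + 1 = i + 1 + M := by ring
    have e2 : i + 2 * M + 1 = i + 1 + 2 * M := by ring
    rw [e1, e2, hg.hex i, hg.hex (i + 1)]
    abel
  · intro i j hij hj
    unfold vv
    obtain ⟨ρ, a, hρ, ha1, ha2, ha3⟩ := Grb_edge (a := θ i) (b := θ (i + 1)) (qqBd h)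
      (hg.mono (by omega)) (hgap i)
    obtain ⟨ρ', b, hρ', hb1, hb2, hb3⟩ := Grb_edge (a := θ j) (b := θ (j + 1)) (qqBd h)
      (hg.mono (by omega)) (hgap j)
    have h1 : θ (i + 1) ≤ θ j := hg.mono.monotone (by omega)
    have h2 : θ (j + 1) ≤ θ i + π := by
      rw [← hg.per i]
      exact hg.mono.monotone (by omega)
    rw [ha3, hb3]
    have h3 : cr (ρ • tt a) (ρ' • tt b) = ρ * ρ' * cr (tt a) (tt b) := by
      simp only [cr, Prod.smul_fst, Prod.smul_snd, smul_eq_mul]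
      ring
    rw [h3, cr_tt]
    have h4 : 0 < Real.sin (b - a) := Real.sin_pos_of_pos_of_lt_pi (by linarith) (by linarith)
    positivity

end ZP
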