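import Pool.Agent.H73.ZP.Ai

/-!
The single-body statement (H) for the body `L` (approximate form `HP L`) implies the two-family
theorem for `L`: if `A - B ⊆ L - L` then `A` or `B` is covered by three translates of `L`.
-/

open Real
open scoped Pointwise

namespace ZP

/-- The single-body statement (H) for the body `L`, approximate form: if the boundary curve `c`
has no three consecutive arcs which are bad for a body `l` around `L` then the body of `c` is covered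
by three translates of (the `ε`-neighbourhood of) `L`. -/
def HP (L : Set V) : Prop := ∀ ε : ℝ, 0 < ε → ∃ δ : ℝ, 0 < δ ∧ ∀ l c : ℝ → V, Bd l → Bd c →
  (∀ θ, ∀ w ∈ L, dt (uu θ) w ≤ dt (uu θ) (l θ)) →
  (∀ θ, ∃ w ∈ L, dt (uu θ) (l θ) ≤ dt (uu θ) w + δ) → ¬ Bad3 l c →
  ∃ p : Fin 3 → V, ∀ x ∈ body c, ∃ k, ∀ θ, ∃ y ∈ L, dt (uu θ) (x - p k) ≤ dt (uu θ) y + ε

theorem Hn1 (L : Set V) (hL : IsCompact L) (hLne : L.Nonempty) (hH : HP L) (A B : Finset V)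
    (hAB : ∀ a ∈ A, ∀ b ∈ B, ∃ y ∈ L, ∃ z ∈ L, a - b = y - z) {ε : ℝ} (hε : 0 < ε) :
    (∃ p : Fin 3 → V, ∀ a ∈ A, ∃ k, ∀ θ, ∃ y ∈ L, dt (uu θ) (a - p k) ≤ dt (uu θ) y + ε) ∨
    (∃ p : Fin 3 → V, ∀ b ∈ B, ∃ k, ∀ θ, ∃ y ∈ L, dt (uu θ) (b - p k) ≤ dt (uu θ) y + ε) := by
  rcases A.eq_empty_or_nonempty with rfl | hAne
  · left
    exact ⟨fun _ => 0, fun a ha => absurd ha (Finset.notMem_empty a)⟩
  rcases B.eq_empty_or_nonempty with rfl | hBne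
  · right
    exact ⟨fun _ => 0, fun a ha => absurd ha (Finset.notMem_empty a)⟩
  obtain ⟨δ, hδ, hHδ⟩ := hH ε hε
  obtain ⟨e, hee⟩ : ∃ e, e = δ / 4 := ⟨_, rfl⟩
  have he : 0 < e := by rw [hee]; positivity
  have he3 : 0 < e / 3 := by positivity
  obtain ⟨l, hl, hl1, hl2⟩ := Smb L hL hLne he
  obtain ⟨cA, hcA, hA1, hA2⟩ := Sma A hAne he3
  obtain ⟨cB, hcB, hB1, hB2⟩ := Sma B hBne he3
  have hx : ∀ θ φ ψ, dt (uu θ) (cA φ - cB ψ) ≤ dt (uu θ) (qq l θ) := by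
    intro θ φ ψ
    obtain ⟨a, ha, h1⟩ := hA2 θ
    obtain ⟨b, hb, h2⟩ := hB2 (θ + π)
    have h3 := hcA.supp θ φ
    have h4 := hcB.supp (θ + π) ψ
    obtain ⟨y, hy, z, hz, hyz⟩ := hAB a ha b hb
    have h5 := hl1 θ y hy
    have h6 := hl1 (θ + π) z hz
    have h7 : dt (uu θ) (a - b) = dt (uu θ) (y - z) := by rw [hyz]
    rw [dt_sub, dt_sub] at h7
    unfold qq
    rw [dt_sub, dt_sub]
    rw [uu_pi, neg_dt, neg_dt] at h2 h4 h6
    linarith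
  have hl1' : ∀ θ, ∀ w ∈ L, dt (uu θ) w ≤ dt (uu θ) (l θ) := fun θ w hw => by
    have := hl1 θ w hw
    linarith
  have hl2' : ∀ θ, ∃ w ∈ L, dt (uu θ) (l θ) ≤ dt (uu θ) w + δ := fun θ => by
    obtain ⟨w, hw, h⟩ := hl2 θ
    exact ⟨w, hw, by linarith⟩
  by_cases bA : Bad3 l cA
  · right
    obtain ⟨p, hp⟩ := hHδ l cB hl hcB hl1' hl2' (fun bB => TTs hl hcA hcB hx bA bB)
    refine ⟨p, fun b hb => hp b fun θ => ?_⟩
    have := hB1 θ b hb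
    linarith
  · left
    obtain ⟨p, hp⟩ := hHδ l cA hl hcA hl1' hl2' bA
    refine ⟨p, fun a ha => hp a fun θ => ?_⟩
    have := hA1 θ a ha
    linarith

theorem Hn1e (L : Set V) (hL : IsCompact L) (hLc : Convex ℝ L) (hLne : L.Nonempty) (hH : HP L)
    (A B : Finset V) (hAB : ∀ a ∈ A, ∀ b ∈ B, ∃ y ∈ L, ∃ z ∈ L, a - b = y - z) :
    (∃ p : Fin 3 → V, ∀ a ∈ A, ∃ k, a - p k ∈ L) ∨
    (∃ p : Fin 3 → V, ∀ b ∈ B, ∃ k, b - p k ∈ L) := by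
  by_cases hA : ∀ ε : ℝ, 0 < ε →
      ∃ p : Fin 3 → V, ∀ a ∈ A, ∃ k, ∀ θ, ∃ y ∈ L, dt (uu θ) (a - p k) ≤ dt (uu θ) y + ε
  · left; exact lim L hL hLc hLne A hA
  · right
    push Not at hA
    obtain ⟨e, he, hAe⟩ := hA
    refine lim L hL hLc hLne B fun ε hε => ?_
    have hm : 0 < min ε e := lt_min hε he
    rcases Hn1 L hL hLne hH A B hAB hm with ⟨p, hp⟩ | ⟨p, hp⟩
    · exfalso
      obtain ⟨a, ha, h⟩ := hAe p
      obtain ⟨k, hk⟩ := hp a ha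
      obtain ⟨θ, hθ⟩ := h k
      obtain ⟨y, hy, hy'⟩ := hk θ
      have := hθ y hy
      have := min_le_right ε e
      linarith
    · refine ⟨p, fun b hb => ?_⟩
      obtain ⟨k, hk⟩ := hp b hb
      refine ⟨k, fun θ => ?_⟩
      obtain ⟨y, hy, hy'⟩ := hk θ
      exact ⟨y, hy, hy'.trans (by have := min_le_left ε e; linarith)⟩

theorem Hn2 (L : Set V) (hL : IsCompact L) (hLc : Convex ℝ L) (hLne : L.Nonempty) (hH : HP L)
    (A B : Set V) (hAB : ∀ a ∈ A, ∀ b ∈ B, ∃ y ∈ L, ∃ z ∈ L, a - b = y - z) :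
    (∃ p : Fin 3 → V, ∀ a ∈ A, ∃ k, a - p k ∈ L) ∨
    (∃ p : Fin 3 → V, ∀ b ∈ B, ∃ k, b - p k ∈ L) := by
  by_contra hcon
  push Not at hcon
  obtain ⟨hA, hB⟩ := hcon
  have hF : ∃ F : Finset V, (F : Set V) ⊆ A ∧ ¬ ∃ p : Fin 3 → V, ∀ a ∈ F, ∃ k, a - p k ∈ L := by
    by_contra h
    push Not at h
    obtain ⟨p, hp⟩ := cpt L hL A (fun F hF => h F hF)
    obtain ⟨a, ha, hk⟩ := hA p
    obtain ⟨k, hk'⟩ := hp a ha
    exact hk k hk'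
  have hG : ∃ F : Finset V, (F : Set V) ⊆ B ∧ ¬ ∃ p : Fin 3 → V, ∀ a ∈ F, ∃ k, a - p k ∈ L := by
    by_contra h
    push Not at h
    obtain ⟨p, hp⟩ := cpt L hL B (fun F hF => h F hF)
    obtain ⟨a, ha, hk⟩ := hB p
    obtain ⟨k, hk'⟩ := hp a ha
    exact hk k hk'
  obtain ⟨F, hFA, hFn⟩ := hF
  obtain ⟨G, hGB, hGn⟩ := hG
  rcases Hn1e L hL hLc hLne hH F G (fun a ha b hb => hAB a (hFA ha) b (hGB hb)) with h | h
  · exact hFn h
  · exact hGn h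

/-- The statement for the Euclidean plane: if `HP (-K)` then three points pierce all families but one,
provided at most two families contain disjoint members. -/
theorem Hn3 (n : ℕ) (hn : 2 ≤ n) (K : Set (EuclideanSpace ℝ (Fin 2))) (hK : IsCompact K)
    (hKc : Convex ℝ K) (hH : HP ((fun x => - AiT x) '' K))
    (F : Fin n → Set (EuclideanSpace ℝ (Fin 2)))
    (hF : ∀ i, (F i).Nonempty)
    (hint : ∀ i j : Fin n, i ≠ j → ∀ a ∈ F i, ∀ b ∈ F j,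
      ((a +ᵥ K) ∩ (b +ᵥ K)).Nonempty)
    (p q : Fin n) (hsame : ∀ i : Fin n, i ≠ p → i ≠ q → ∀ a ∈ F i, ∀ b ∈ F i,
      ((a +ᵥ K) ∩ (b +ᵥ K)).Nonempty) :
    ∃ m : Fin n, ∃ P : Finset (EuclideanSpace ℝ (Fin 2)), P.card ≤ 3 ∧
      ∀ i : Fin n, i ≠ m → ∀ a ∈ F i, ∃ p ∈ P, p ∈ a +ᵥ K := by
  classical
  have hKne : K.Nonempty := by
    obtain ⟨a, ha⟩ := hF ⟨0, by omega⟩
    obtain ⟨b, hb⟩ := hF ⟨1, by omega⟩
    obtain ⟨x, hx, -⟩ := hint ⟨0, by omega⟩ ⟨1, by omega⟩ (by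
      intro h
      have h1 := congrArg Fin.val h
      exact absurd h1 (by norm_num)) a ha b hb
    obtain ⟨k, hk, -⟩ := Set.mem_vadd_set.1 hx
    exact ⟨k, hk⟩
  have hL : IsCompact ((fun x => - AiT x) '' K) := hK.image AiT_cont.neg
  have hLc : Convex ℝ ((fun x => - AiT x) '' K) := by
    rintro _ ⟨x, hx, rfl⟩ _ ⟨y, hy, rfl⟩ s t hs ht hst
    refine ⟨s • x + t • y, hKc hx hy hs ht hst, ?_⟩
    show - AiT (s • x + t • y) = s • (- AiT x) + t • (- AiT y)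
    rw [AiT_add, AiT_smul, AiT_smul, smul_neg, smul_neg, neg_add]
  have hLne : ((fun x => - AiT x) '' K).Nonempty := hKne.image _
  have key : ∀ a b : EuclideanSpace ℝ (Fin 2), ((a +ᵥ K) ∩ (b +ᵥ K)).Nonempty →
      ∃ y ∈ (fun x => - AiT x) '' K, ∃ z ∈ (fun x => - AiT x) '' K,
        AiT a - AiT b = y - z := by
    rintro a b ⟨x, hxa, hxb⟩
    obtain ⟨k, hk, hk'⟩ := Set.mem_vadd_set.1 hxa
    obtain ⟨l, hl, hl'⟩ := Set.mem_vadd_set.1 hxb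
    refine ⟨_, ⟨k, hk, rfl⟩, _, ⟨l, hl, rfl⟩, ?_⟩
    rw [vadd_eq_add] at hk' hl'
    have h1 : AiT a + AiT k = AiT b + AiT l := by
      rw [← AiT_add, ← AiT_add, hk', hl']
    show AiT a - AiT b = - AiT k - (- AiT l)
    rw [sub_neg_eq_add, sub_eq_iff_eq_add, ← sub_eq_zero]
    have h2 := sub_eq_zero.2 h1
    rw [← h2]
    abel
  have hAB : ∀ a ∈ AiT '' (⋃ j ∈ {j : Fin n | j ≠ q}, F j),
      ∀ b ∈ AiT '' (⋃ j ∈ {j : Fin n | j ≠ p}, F j),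
      ∃ y ∈ (fun x => - AiT x) '' K, ∃ z ∈ (fun x => - AiT x) '' K, a - b = y - z := by
    rintro _ ⟨a, ha, rfl⟩ _ ⟨b, hb, rfl⟩
    obtain ⟨i, hi, ha⟩ := Set.mem_iUnion₂.1 ha
    obtain ⟨j, hj, hb⟩ := Set.mem_iUnion₂.1 hb
    apply key
    by_cases hij : i = j
    · subst hij
      exact hsame i hj hi a ha b hb
    · exact hint i j hij a ha b hb
  choose g hg using AiT_surj
  have fin : ∀ (S : Set (EuclideanSpace ℝ (Fin 2))) (c : Fin 3 → V),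
      (∀ a ∈ AiT '' S, ∃ k, a - c k ∈ (fun x => - AiT x) '' K) →
      ∃ P : Finset (EuclideanSpace ℝ (Fin 2)), P.card ≤ 3 ∧
        ∀ a ∈ S, ∃ p ∈ P, p ∈ a +ᵥ K := by
    intro S c h
    refine ⟨Finset.univ.image (fun k => g (c k)), ?_, ?_⟩
    · exact Finset.card_image_le.trans (by simp)
    · intro a ha
      obtain ⟨k, κ, hκ, hk⟩ := h (AiT a) ⟨a, ha, rfl⟩
      refine ⟨g (c k), Finset.mem_image_of_mem _ (Finset.mem_univ k), ?_⟩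
      rw [Set.mem_vadd_set]
      refine ⟨κ, hκ, ?_⟩
      rw [vadd_eq_add]
      apply AiT_inj
      rw [AiT_add, hg]
      have hk' : - AiT κ = AiT a - c k := hk
      have h4 : AiT κ = c k - AiT a := by
        rw [← neg_sub, ← hk', neg_neg]
      rw [h4, add_sub_cancel]
  rcases Hn2 _ hL hLc hLne hH _ _ hAB with ⟨c, hc⟩ | ⟨c, hc⟩
  · obtain ⟨P, hP, h⟩ := fin _ c hc
    exact ⟨q, P, hP, fun i hi a ha => h a (Set.mem_iUnion₂.2 ⟨i, hi, ha⟩)⟩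
  · obtain ⟨P, hP, h⟩ := fin _ c hc
    exact ⟨p, P, hP, fun i hi a ha => h a (Set.mem_iUnion₂.2 ⟨i, hi, ha⟩)⟩

end ZP
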