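import Pool.Agent.H73.ZP.Bda

/-!
ROW La.  The sum of `gg P Q` over the edges of the polygon with vertices `l (θ i)` is almost at
most the three-point sup.  (`Grid` is used only through `mono`, `per`, `gap`.)

PROOF.  `n₁ = - P`, `n₂ = P - Q`, `n₃ = Q`, zero sum, `cr n₁ n₂ = cr n₂ n₃ = cr n₃ n₁ = cr P Q > 0`;
`n_k = |n_k| • uu (ψ_k)` with `ψ₁ < ψ₂ < ψ₁ + π`, `ψ₂ < ψ₃ < ψ₂ + π`, `ψ₁ + π < ψ₃ < ψ₁ + 2 π`
(choose `ψ₂` and then `ψ₁ ∈ (ψ₂ - π, ψ₂)`, `ψ₃ ∈ (ψ₂, ψ₂ + π)`; `cr n₃ n₁ > 0` gives `ψ₃ - ψ₁ > π`).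
Let `i_k` be the last index with `θ (i_k) ≤ ψ_k`; `i₁ ≤ i₂ ≤ i₃ ≤ i₁ + 6 M`.  The polygon is closed
with period `6 M`, so the sum over `m < 6 M` is the sum over `m ∈ [i₁, i₁ + 6 M)`
(`Function.Periodic` sums, or `Finset.sum` over `Ico` of integers).
For `i₁ < m < i₂`: `ψ₁ < θ m < θ (m + 1) ≤ ψ₂`, and the edge `e = l (θ (m + 1)) - l (θ m)` is
`x • tt (θ m) + y • tt (θ (m + 1))` with `x, y ≥ 0` (`cone`), so `dt n₁ e ≤ 0` and `0 ≤ dt n₂ e` (for the
first use `θ (m + 1) ≤ ψ₂ < ψ₁ + π`), i.e. `0 ≤ dt P e` and `dt Q e ≤ dt P e`: `gg P Q e = dt P e`.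
For `i₂ < m < i₃`: `gg P Q e = dt Q e`.  For `i₃ < m < i₁ + 6 M`: `gg P Q e = 0`.
The three edges `m = i₁, i₂, i₃` have `gg P Q e ≤ 2 (‖P‖ + ‖Q‖) ‖e‖` and
`|dt P e|, |dt Q e|` have the same bound.  So the sum is at most
`dt P (l (θ i₂) - l (θ i₁)) + dt Q (l (θ i₃) - l (θ i₂)) + 12 (‖P‖ + ‖Q‖) b`.
-/

open Real

namespace ZP

theorem La_polar (n : V) (ψ₀ : ℝ) (h : 0 < dt (tt ψ₀) n) :
    ∃ r ψ : ℝ, 0 < r ∧ ψ₀ < ψ ∧ ψ < ψ₀ + π ∧ n = r • uu ψ := by
  set a := dt (uu ψ₀) n with ha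
  set b := dt (tt ψ₀) n with hb
  have hcs := Real.sin_sq_add_cos_sq ψ₀
  have hr0 : 0 < a ^ 2 + b ^ 2 := by positivity
  set r := Real.sqrt (a ^ 2 + b ^ 2) with hr
  have hr1 : 0 < r := Real.sqrt_pos.2 hr0
  have hr2 : r ^ 2 = a ^ 2 + b ^ 2 := Real.sq_sqrt hr0.le
  have hlt : a ^ 2 < r ^ 2 := by rw [hr2]; nlinarith [pow_pos h 2]
  have habs := abs_lt_of_sq_lt_sq' hlt hr1.le
  have h1 : a / r < 1 := (div_lt_one hr1).2 habs.2
  have h2 : -1 < a / r := by rw [lt_div_iff₀ hr1]; linarith [habs.1]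
  set δ := Real.arccos (a / r) with hδ
  have hcos : Real.cos δ = a / r := Real.cos_arccos h2.le h1.le
  have hsin0 : 0 ≤ Real.sin δ := Real.sin_nonneg_of_nonneg_of_le_pi (Real.arccos_nonneg _)
    (Real.arccos_le_pi _)
  have hra : r * Real.cos δ = a := by rw [hcos]; field_simp
  have hrb2 : (r * Real.sin δ) ^ 2 = b ^ 2 := by
    have h3 := Real.sin_sq_add_cos_sq δ
    have h4 : (r * Real.sin δ) ^ 2 = r ^ 2 - (r * Real.cos δ) ^ 2 := by
      have : Real.sin δ ^ 2 = 1 - Real.cos δ ^ 2 := by linarith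
      rw [mul_pow, mul_pow, this]; ring
    rw [h4, hra, hr2]; ring
  have hrb : r * Real.sin δ = b :=
    (pow_left_inj₀ (mul_nonneg hr1.le hsin0) h.le two_ne_zero).1 hrb2
  have hδ0 : 0 < δ := by
    rcases (Real.arccos_nonneg (a / r)).lt_or_eq with h5 | h5
    · exact h5
    · exfalso
      rw [← hδ] at h5
      rw [← h5, Real.sin_zero, mul_zero] at hrb
      exact absurd hrb h.ne
  have hδπ : δ < π := by
    rcases (Real.arccos_le_pi (a / r)).lt_or_eq with h5 | h5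
    · exact h5
    · exfalso
      rw [← hδ] at h5
      rw [h5, Real.sin_pi, mul_zero] at hrb
      exact absurd hrb h.ne
  refine ⟨r, ψ₀ + δ, hr1, by linarith, by linarith, ?_⟩
  have e1 : n.1 = r * Real.cos (ψ₀ + δ) := by
    rw [Real.cos_add]
    have : r * (Real.cos ψ₀ * Real.cos δ - Real.sin ψ₀ * Real.sin δ) =
        Real.cos ψ₀ * (r * Real.cos δ) - Real.sin ψ₀ * (r * Real.sin δ) := by ring
    rw [this, hra, hrb, ha, hb]
    simp only [dt, uu, tt]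
    have h6 : Real.cos ψ₀ * (Real.cos ψ₀ * n.1 + Real.sin ψ₀ * n.2) -
        Real.sin ψ₀ * (-Real.sin ψ₀ * n.1 + Real.cos ψ₀ * n.2) =
        (Real.sin ψ₀ ^ 2 + Real.cos ψ₀ ^ 2) * n.1 := by ring
    rw [h6, hcs, one_mul]
  have e2 : n.2 = r * Real.sin (ψ₀ + δ) := by
    rw [Real.sin_add]
    have : r * (Real.sin ψ₀ * Real.cos δ + Real.cos ψ₀ * Real.sin δ) =
        Real.sin ψ₀ * (r * Real.cos δ) + Real.cos ψ₀ * (r * Real.sin δ) := by ring
    rw [this, hra, hrb, ha, hb]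
    simp only [dt, uu, tt]
    have h6 : Real.sin ψ₀ * (Real.cos ψ₀ * n.1 + Real.sin ψ₀ * n.2) +
        Real.cos ψ₀ * (-Real.sin ψ₀ * n.1 + Real.cos ψ₀ * n.2) =
        (Real.sin ψ₀ ^ 2 + Real.cos ψ₀ ^ 2) * n.2 := by ring
    rw [h6, hcs, one_mul]
  exact Prod.ext e1 e2

theorem La_arg (n : V) (hn : n ≠ 0) : ∃ r ψ : ℝ, 0 < r ∧ n = r • uu ψ := by
  refine ⟨‖(⟨n.1, n.2⟩ : ℂ)‖, Complex.arg ⟨n.1, n.2⟩, ?_, ?_⟩
  · rw [norm_pos_iff]
    intro h
    apply hn
    have h1 := congrArg Complex.re h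
    have h2 := congrArg Complex.im h
    exact Prod.ext h1 h2
  · have h1 := Complex.norm_mul_cos_arg (⟨n.1, n.2⟩ : ℂ)
    have h2 := Complex.norm_mul_sin_arg (⟨n.1, n.2⟩ : ℂ)
    exact Prod.ext h1.symm h2.symm

theorem La_cr (r ψ : ℝ) (v : V) : cr (r • uu ψ) v = r * dt (tt ψ) v := by
  simp only [cr, uu, tt, dt, Prod.smul_mk, smul_eq_mul]
  ring

/-- the three angles -/
theorem La_angles {P Q : V} (hPQ : 0 < cr P Q) :
    ∃ r₁ r₂ r₃ ψ₁ ψ₂ ψ₃ : ℝ, 0 < r₁ ∧ 0 < r₂ ∧ 0 < r₃ ∧ -P = r₁ • uu ψ₁ ∧ P - Q = r₂ • uu ψ₂ ∧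
      Q = r₃ • uu ψ₃ ∧ ψ₁ < ψ₂ ∧ ψ₂ < ψ₁ + π ∧ ψ₂ < ψ₃ ∧ ψ₃ < ψ₂ + π ∧ ψ₁ + π < ψ₃ := by
  have hP : -P ≠ 0 := by
    intro h
    rw [neg_eq_zero] at h
    rw [h] at hPQ
    simp [cr] at hPQ
  obtain ⟨r₁, ψ₁, hr₁, h₁⟩ := La_arg (-P) hP
  have c12 : cr (-P) (P - Q) = cr P Q := by
    simp only [cr, Prod.fst_neg, Prod.snd_neg, Prod.fst_sub, Prod.snd_sub]; ring
  have c23 : cr (P - Q) Q = cr P Q := by
    simp only [cr, Prod.fst_sub, Prod.snd_sub]; ring
  have c31 : cr Q (-P) = cr P Q := by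
    simp only [cr, Prod.fst_neg, Prod.snd_neg]; ring
  have h12 : 0 < dt (tt ψ₁) (P - Q) := by
    have h := c12
    rw [h₁, La_cr] at h
    rw [← h] at hPQ
    exact (mul_pos_iff_of_pos_left hr₁).1 hPQ
  obtain ⟨r₂, ψ₂, hr₂, l12, l12', h₂⟩ := La_polar (P - Q) ψ₁ h12
  have h23 : 0 < dt (tt ψ₂) Q := by
    have h := c23
    rw [h₂, La_cr] at h
    rw [← h] at hPQ
    exact (mul_pos_iff_of_pos_left hr₂).1 hPQ
  obtain ⟨r₃, ψ₃, hr₃, l23, l23', h₃⟩ := La_polar Q ψ₂ h23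
  have h31 : 0 < Real.sin (ψ₁ - ψ₃) := by
    have h := c31
    rw [h₃, h₁, La_cr, dt_smul, dt_comm, dt_uu_tt] at h
    rw [← h₃] at h
    rw [← h] at hPQ
    exact (mul_pos_iff_of_pos_left hr₁).1 ((mul_pos_iff_of_pos_left hr₃).1 hPQ)
  refine ⟨r₁, r₂, r₃, ψ₁, ψ₂, ψ₃, hr₁, hr₂, hr₃, h₁, h₂, h₃, l12, l12', l23, l23', ?_⟩
  by_contra hcon
  push Not at hcon
  have := Real.sin_nonpos_of_nonpos_of_neg_pi_le (x := ψ₁ - ψ₃) (by linarith) (by linarith)
  linarith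

theorem La_mul {M : ℕ} {θ : ℤ → ℝ} (hp : ∀ i, θ (i + 3 * M) = θ i + π) (k : ℤ) :
    θ (3 * M * k) = θ 0 + k * π := by
  induction k using Int.induction_on with
  | zero => simp
  | succ k ih =>
    have h1 : (3 * (M : ℤ) * ((k : ℤ) + 1)) = 3 * M * k + 3 * M := by ring
    rw [h1, hp, ih]; push_cast; ring
  | pred k ih =>
    have h1 : (3 * (M : ℤ) * (-(k : ℤ) - 1)) + 3 * M = 3 * M * (-(k : ℤ)) := by ring
    have h2 := hp (3 * (M : ℤ) * (-(k : ℤ) - 1))
    rw [h1, ih] at h2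
    push_cast at h2 ⊢; linarith

theorem La_idx {M : ℕ} {θ : ℤ → ℝ} (hM : 1 < M) (hm : StrictMono θ)
    (hp : ∀ i, θ (i + 3 * M) = θ i + π) (ψ : ℝ) : ∃ i : ℤ, θ i ≤ ψ ∧ ψ < θ (i + 1) := by
  have hub : ∃ b : ℤ, ∀ z : ℤ, θ z ≤ ψ → z ≤ b := by
    obtain ⟨k, hk⟩ := exists_int_gt ((ψ - θ 0) / π)
    refine ⟨3 * M * k, fun z hz => ?_⟩
    have h1 := La_mul hp k
    rw [div_lt_iff₀ Real.pi_pos] at hk
    by_contra hcon
    push Not at hcon
    have := hm hcon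
    linarith
  have hex : ∃ z : ℤ, θ z ≤ ψ := by
    obtain ⟨k, hk⟩ := exists_int_lt ((ψ - θ 0) / π)
    refine ⟨3 * M * k, ?_⟩
    have h1 := La_mul hp k
    rw [lt_div_iff₀ Real.pi_pos] at hk
    linarith
  obtain ⟨i, hi, hi2⟩ := Int.exists_greatest_of_bdd hub hex
  refine ⟨i, hi, ?_⟩
  by_contra hcon
  push Not at hcon
  have := hi2 (i + 1) hcon
  omega

theorem La_shift (f : ℤ → ℝ) (N : ℕ) (hf : ∀ m, f (m + N) = f m) (a : ℤ) :
    ∑ k ∈ Finset.range N, f (a + k) = ∑ k ∈ Finset.range N, f k := by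
  have step : ∀ c : ℤ, ∑ k ∈ Finset.range N, f (c + 1 + k) = ∑ k ∈ Finset.range N, f (c + k) := by
    intro c
    have h1 := Finset.sum_range_succ (fun k : ℕ => f (c + k)) N
    have h2 := Finset.sum_range_succ' (fun k : ℕ => f (c + k)) N
    rw [h1] at h2
    have h3 : ∑ k ∈ Finset.range N, f (c + ((k + 1 : ℕ) : ℤ)) =
        ∑ k ∈ Finset.range N, f (c + 1 + k) := by
      apply Finset.sum_congr rfl
      intro k _
      congr 1
      push_cast
      ring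
    rw [h3, hf] at h2
    simp only [Nat.cast_zero, add_zero] at h2
    linarith
  induction a using Int.induction_on with
  | zero => simp
  | succ k ih => rw [step, ih]
  | pred k ih =>
    have h := step (-(k : ℤ) - 1)
    rw [sub_add_cancel] at h
    rw [← h, ih]

/-- bounds for the exceptional edges -/
theorem La_bd {P Q e : V} {b : ℝ} (he : ‖e‖ ≤ b) :
    |dt P e| ≤ 2 * (‖P‖ + ‖Q‖) * b ∧ |dt Q e| ≤ 2 * (‖P‖ + ‖Q‖) * b := by
  have hb : 0 ≤ b := (norm_nonneg e).trans he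
  have hP := norm_nonneg P
  have hQ := norm_nonneg Q
  constructor
  · refine (dt_le P e).trans ?_
    have h1 : 2 * ‖P‖ * ‖e‖ ≤ 2 * ‖P‖ * b := mul_le_mul_of_nonneg_left he (by positivity)
    nlinarith [mul_nonneg hQ hb]
  · refine (dt_le Q e).trans ?_
    have h1 : 2 * ‖Q‖ * ‖e‖ ≤ 2 * ‖Q‖ * b := mul_le_mul_of_nonneg_left he (by positivity)
    nlinarith [mul_nonneg hP hb]

theorem La_ite (N j : ℕ) {c : ℝ} (hc : 0 ≤ c) :
    ∑ k ∈ Finset.range N, (if k = j then c else 0) ≤ c := by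
  rw [Finset.sum_ite_eq']
  split_ifs
  · exact le_rfl
  · exact hc

theorem La_tel (f : ℕ → V) (P Q : V) (N j₂ j₃ : ℕ) (h2 : j₂ ≤ j₃) (h3 : j₃ ≤ N) :
    ∑ k ∈ Finset.range N, (if k < j₂ then dt P (f (k + 1) - f k)
      else if k < j₃ then dt Q (f (k + 1) - f k) else 0) =
      dt P (f j₂ - f 0) + dt Q (f j₃ - f j₂) := by
  have key : ∀ n : ℕ, n ≤ N → ∑ k ∈ Finset.range n, (if k < j₂ then dt P (f (k + 1) - f k)
      else if k < j₃ then dt Q (f (k + 1) - f k) else 0) =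
      dt P (f (min n j₂) - f 0) + dt Q (f (max (min n j₃) j₂) - f j₂) := by
    intro n
    induction n with
    | zero =>
      intro _
      have e1 : max (min 0 j₃) j₂ = j₂ := by omega
      rw [e1]
      simp [dt]
    | succ n ih =>
      intro hn
      rw [Finset.sum_range_succ, ih (by omega)]
      by_cases c1 : n < j₂
      · rw [if_pos c1]
        have e1 : min n j₂ = n := by omega
        have e2 : min (n + 1) j₂ = n + 1 := by omega
        have e3 : max (min n j₃) j₂ = j₂ := by omega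
        have e4 : max (min (n + 1) j₃) j₂ = j₂ := by omega
        rw [e1, e2, e3, e4]
        simp only [dt, Prod.fst_sub, Prod.snd_sub]
        ring
      · rw [if_neg c1]
        by_cases c2 : n < j₃
        · rw [if_pos c2]
          have e1 : min n j₂ = j₂ := by omega
          have e2 : min (n + 1) j₂ = j₂ := by omega
          have e3 : max (min n j₃) j₂ = n := by omega
          have e4 : max (min (n + 1) j₃) j₂ = n + 1 := by omega
          rw [e1, e2, e3, e4]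
          simp only [dt, Prod.fst_sub, Prod.snd_sub]
          ring
        · rw [if_neg c2]
          have e1 : min n j₂ = j₂ := by omega
          have e2 : min (n + 1) j₂ = j₂ := by omega
          have e3 : max (min n j₃) j₂ = j₃ := by omega
          have e4 : max (min (n + 1) j₃) j₂ = j₃ := by omega
          rw [e1, e2, e3, e4, add_zero]
  have h := key N le_rfl
  rw [h]
  have e1 : min N j₂ = j₂ := by omega
  have e2 : max (min N j₃) j₂ = j₃ := by omega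
  rw [e1, e2]

theorem La {l : ℝ → V} (h : Bd l) {M : ℕ} {θ : ℤ → ℝ} (hM : 1 < M) (hm : StrictMono θ)
    (hp : ∀ i, θ (i + 3 * M) = θ i + π) (hg : ∀ i, θ (i + 1) - θ i ≤ π / M) {P Q : V}
    (hPQ : 0 < cr P Q) {b : ℝ} (hb : ∀ i, ‖ll l θ i‖ ≤ b) :
    ∃ φ₁ φ₂ φ₃, ∑ m ∈ Finset.range (6 * M), gg P Q (ll l θ m) ≤
      - dt P (l φ₁) + dt (P - Q) (l φ₂) + dt Q (l φ₃) + 12 * (‖P‖ + ‖Q‖) * b := by
  obtain ⟨r₁, r₂, r₃, ψ₁, ψ₂, ψ₃, hr₁, hr₂, hr₃, e₁, e₂, e₃, l12, l12', l23, l23', l13⟩ :=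
    La_angles hPQ
  obtain ⟨i₁, a₁, b₁⟩ := La_idx hM hm hp ψ₁
  obtain ⟨i₂, a₂, b₂⟩ := La_idx hM hm hp ψ₂
  obtain ⟨i₃, a₃, b₃⟩ := La_idx hM hm hp ψ₃
  have hb0 : 0 ≤ b := (norm_nonneg _).trans (hb 0)
  have hC0 : 0 ≤ 4 * (‖P‖ + ‖Q‖) * b := by positivity
  have hp2 : ∀ i, θ (i + 6 * M) = θ i + 2 * π := by
    intro i
    have h1 : i + 6 * (M : ℤ) = i + 3 * M + 3 * M := by ring
    rw [h1, hp, hp]; ring
  have i12 : i₁ ≤ i₂ := by
    have : i₁ < i₂ + 1 := hm.lt_iff_lt.1 (by linarith)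
    omega
  have i23 : i₂ ≤ i₃ := by
    have : i₂ < i₃ + 1 := hm.lt_iff_lt.1 (by linarith)
    omega
  have i31 : i₃ ≤ i₁ + 6 * M := by
    have h1 := hp2 (i₁ + 1)
    have h2 : i₁ + 1 + 6 * (M : ℤ) = i₁ + 6 * M + 1 := by ring
    rw [h2] at h1
    have : i₃ < i₁ + 6 * M + 1 := hm.lt_iff_lt.1 (by linarith)
    omega
  obtain ⟨j₂, hj₂⟩ := Int.eq_ofNat_of_zero_le (sub_nonneg.2 i12)
  obtain ⟨j₃, hj₃⟩ := Int.eq_ofNat_of_zero_le (sub_nonneg.2 (i12.trans i23))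
  have hj23 : j₂ ≤ j₃ := by omega
  have hj3N : j₃ ≤ 6 * M := by omega
  have E2 : i₂ = i₁ + j₂ := by omega
  have E3 : i₃ = i₁ + j₃ := by omega
  -- periodicity
  have hper : ∀ m, gg P Q (ll l θ (m + (6 * M : ℕ))) = gg P Q (ll l θ m) := by
    intro m
    have h1 : ll l θ (m + (6 * M : ℕ)) = ll l θ m := by
      unfold ll
      have e1 : m + ((6 * M : ℕ) : ℤ) + 1 = m + 1 + 6 * M := by push_cast; ring
      have e2 : m + ((6 * M : ℕ) : ℤ) = m + 6 * M := by push_cast; ring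
      rw [e1, e2, hp2, hp2, h.per, h.per]
    rw [h1]
  have hsum := La_shift (fun m => gg P Q (ll l θ m)) (6 * M) hper i₁
  rw [← hsum]
  set F : ℕ → V := fun k => l (θ (i₁ + k)) with hF
  have hll : ∀ k : ℕ, ll l θ (i₁ + k) = F (k + 1) - F k := by
    intro k
    simp only [hF, ll]
    push_cast
    rw [add_assoc]
  have dP : ∀ v : V, dt P v = - (r₁ * dt (uu ψ₁) v) := by
    intro v
    have h1 : dt (-P) v = r₁ * dt (uu ψ₁) v := by rw [e₁, smul_dt]
    rw [neg_dt] at h1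
    linarith
  have dPQ : ∀ v : V, dt P v - dt Q v = r₂ * dt (uu ψ₂) v := by
    intro v
    rw [← sub_dt, e₂, smul_dt]
  have dQ : ∀ v : V, dt Q v = r₃ * dt (uu ψ₃) v := by
    intro v
    have h1 : dt (r₃ • uu ψ₃) v = r₃ * dt (uu ψ₃) v := smul_dt _ _ _
    rw [← e₃] at h1
    exact h1
  -- pointwise bound
  have hpt : ∀ k ∈ Finset.range (6 * M), gg P Q (ll l θ (i₁ + k)) ≤
      (if k < j₂ then dt P (F (k + 1) - F k) else if k < j₃ then dt Q (F (k + 1) - F k) else 0) +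
      (if k = 0 then 4 * (‖P‖ + ‖Q‖) * b else 0) + (if k = j₂ then 4 * (‖P‖ + ‖Q‖) * b else 0) +
      (if k = j₃ then 4 * (‖P‖ + ‖Q‖) * b else 0) := by
    intro k hk
    rw [Finset.mem_range] at hk
    have hn : ‖F (k + 1) - F k‖ ≤ b := by rw [← hll]; exact hb _
    obtain ⟨bP, bQ⟩ := La_bd (P := P) (Q := Q) hn
    rw [abs_le] at bP bQ
    rw [hll]
    set e := F (k + 1) - F k with he
    have i0 : ∀ p : Prop, ∀ [Decidable p], 0 ≤ (if p then 4 * (‖P‖ + ‖Q‖) * b else 0) := by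
      intro p _
      split_ifs
      · exact hC0
      · exact le_rfl
    by_cases hex : k = 0 ∨ k = j₂ ∨ k = j₃
    · -- exceptional edge
      have g1 : gg P Q e ≤ 2 * (‖P‖ + ‖Q‖) * b := by
        unfold gg
        refine max_le ?_ (max_le bP.2 bQ.2)
        linarith
      have g2 : - (2 * (‖P‖ + ‖Q‖) * b) ≤
          (if k < j₂ then dt P e else if k < j₃ then dt Q e else 0) := by
        split_ifs
        · exact bP.1
        · exact bQ.1
        · linarith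
      have g3 : 4 * (‖P‖ + ‖Q‖) * b ≤ (if k = 0 then 4 * (‖P‖ + ‖Q‖) * b else 0) +
          (if k = j₂ then 4 * (‖P‖ + ‖Q‖) * b else 0) +
          (if k = j₃ then 4 * (‖P‖ + ‖Q‖) * b else 0) := by
        have q1 := i0 (k = 0)
        have q2 := i0 (k = j₂)
        have q3 := i0 (k = j₃)
        rcases hex with h1 | h1 | h1
        · rw [if_pos h1]; linarith
        · rw [if_pos h1]; linarith
        · rw [if_pos h1]; linarith
      linarith
    · push Not at hex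
      obtain ⟨k0, k2, k3⟩ := hex
      rw [if_neg k0, if_neg k2, if_neg k3, add_zero, add_zero, add_zero]
      have mk : θ (i₁ + k) < θ (i₁ + k + 1) := hm (by omega)
      have heq : e = l (θ (i₁ + k + 1)) - l (θ (i₁ + k)) := by
        rw [he]
        simp only [hF]
        push_cast
        rw [add_assoc]
      by_cases c2 : k < j₂
      · rw [if_pos c2]
        have t1 : ψ₁ < θ (i₁ + k) := b₁.trans_le (hm.monotone (by omega))
        have t2 : θ (i₁ + k + 1) ≤ ψ₂ := (hm.monotone (by omega)).trans a₂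
        have s1 := dec h (α := ψ₁) t1.le mk.le (by linarith)
        have s2 := inc h (α := ψ₂) (φ := θ (i₁ + k)) (by linarith) mk.le t2
        have u1 : dt (uu ψ₁) e ≤ 0 := by rw [heq, dt_sub]; linarith
        have u2 : 0 ≤ dt (uu ψ₂) e := by rw [heq, dt_sub]; linarith
        have v1 : 0 ≤ dt P e := by
          rw [dP]
          have := mul_nonneg hr₁.le (neg_nonneg.2 u1)
          linarith
        have v2 : 0 ≤ dt P e - dt Q e := by
          rw [dPQ]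
          exact mul_nonneg hr₂.le u2
        unfold gg
        exact max_le v1 (max_le le_rfl (by linarith))
      · rw [if_neg c2]
        by_cases c3 : k < j₃
        · rw [if_pos c3]
          have t1 : ψ₂ < θ (i₁ + k) := b₂.trans_le (hm.monotone (by omega))
          have t2 : θ (i₁ + k + 1) ≤ ψ₃ := (hm.monotone (by omega)).trans a₃
          have s1 := dec h (α := ψ₂) t1.le mk.le (by linarith)
          have s2 := inc h (α := ψ₃) (φ := θ (i₁ + k)) (by linarith) mk.le t2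
          have u1 : dt (uu ψ₂) e ≤ 0 := by rw [heq, dt_sub]; linarith
          have u2 : 0 ≤ dt (uu ψ₃) e := by rw [heq, dt_sub]; linarith
          have v1 : 0 ≤ dt Q e := by
            rw [dQ]
            exact mul_nonneg hr₃.le u2
          have v2 : dt P e - dt Q e ≤ 0 := by
            rw [dPQ]
            have := mul_nonneg hr₂.le (neg_nonneg.2 u1)
            linarith
          unfold gg
          exact max_le v1 (max_le (by linarith) le_rfl)
        · rw [if_neg c3]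
          have t1 : ψ₃ < θ (i₁ + k) := b₃.trans_le (hm.monotone (by omega))
          have t2 : θ (i₁ + k + 1) ≤ ψ₁ + 2 * π := by
            have h1 : θ (i₁ + k + 1) ≤ θ (i₁ + 6 * M) := hm.monotone (by omega)
            rw [hp2] at h1
            linarith
          have s1 := dec h (α := ψ₃) t1.le mk.le (by linarith)
          have s2 := inc h (α := ψ₁ + 2 * π) (φ := θ (i₁ + k)) (by linarith) mk.le t2
          rw [uu_per] at s2
          have u1 : dt (uu ψ₃) e ≤ 0 := by rw [heq, dt_sub]; linarith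
          have u2 : 0 ≤ dt (uu ψ₁) e := by rw [heq, dt_sub]; linarith
          have v1 : dt P e ≤ 0 := by
            rw [dP]
            have := mul_nonneg hr₁.le u2
            linarith
          have v2 : dt Q e ≤ 0 := by
            rw [dQ]
            have := mul_nonneg hr₃.le (neg_nonneg.2 u1)
            linarith
          unfold gg
          exact max_le le_rfl (max_le v1 v2)
  refine ⟨θ i₁, θ i₂, θ i₃, (Finset.sum_le_sum hpt).trans ?_⟩
  rw [Finset.sum_add_distrib, Finset.sum_add_distrib, Finset.sum_add_distrib,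
    La_tel F P Q (6 * M) j₂ j₃ hj23 hj3N]
  have q1 := La_ite (6 * M) 0 hC0
  have q2 := La_ite (6 * M) j₂ hC0
  have q3 := La_ite (6 * M) j₃ hC0
  have F0 : F 0 = l (θ i₁) := by simp [hF]
  have F2 : F j₂ = l (θ i₂) := by simp only [hF]; rw [E2]
  have F3 : F j₃ = l (θ i₃) := by simp only [hF]; rw [E3]
  rw [F0, F2, F3, dt_sub, dt_sub, sub_dt]
  linarith

end ZP
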