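import Pool.Agent.H73.ZP.Df

/-!
ROW Lb.  The sign lemma in `ℝ³`.  `md a b c` is the median of three numbers.

If `md x₁ x₂ x₃ = 0`, `md y₁ y₂ y₃ = 0` and `md (x₁ + y₁) (x₂ + y₂) (x₃ + y₃) = 0` then there is a
sign `ε` such that for all real `a`, `b`:
 `0 ≤ ε * md (a x + b y)` if `0 ≤ b ≤ a`,
 `ε * md (a x + b y) ≤ 0` if `0 ≤ a ≤ b`,
 `0 ≤ ε * md (a x + b y)` if `a ≤ 0 ≤ b`.
(With `z = - (x + y)`: the six vectors `x, x + y, y, - x, - x - y, - y` have median `0` and between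
them the sign alternates.)
PROOF (one way).  `md v = 0` means: one coordinate is `0` and the other two have opposite signs
(weakly).  Permuting coordinates and changing all signs, go through the cases
of which coordinate of `x`, `y`, `x + y` is zero; if `x_i = 0` and `y_j = 0` with `i ≠ j` and
`(x + y)_k = 0` with `k` the third index, then `x = (0, s, - t)`, `y = (u, 0, t)` [k = 3] where
`s t ≥ 0`, `u t ≤ 0`, and `(x + y) = (u, s, 0)` gives `s u ≤ 0`; so WLOG `s, t ≥ 0`, `u ≤ 0`: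
`a x + b y = (b u, a s, (b - a) t)`: if `0 ≤ b ≤ a` the signs are `(-, +, -)`: median `≤ 0`; if
`0 ≤ a ≤ b`: `(-, +, +)`: median `≥ 0`; if `a ≤ 0 ≤ b`: `(-, -, +)`: median `≤ 0`.  In the
other cases (`x_i = y_i = 0`, or `x_i = (x + y)_i = 0`, ...) one coordinate vanishes on the whole
plane of the `a x + b y`, and the product of the other two is `≤ 0` on the three rays ... ; these are
finitely many sign cases.
The case distinction is finite, so brute force (`rcases` on all comparisons and `nlinarith`) is fine.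
-/

open Real

namespace ZP

/-- The median. -/
noncomputable def md (a b c : ℝ) : ℝ := max (min a b) (min (max a b) c)

theorem Lb_nn {a b c : ℝ} : 0 ≤ md a b c ↔ (0 ≤ a ∧ 0 ≤ b) ∨ (0 ≤ a ∧ 0 ≤ c) ∨ (0 ≤ b ∧ 0 ≤ c) := by
  unfold md
  rw [le_max_iff, le_min_iff, le_min_iff, le_max_iff]
  tauto

theorem Lb_np {a b c : ℝ} : md a b c ≤ 0 ↔ (a ≤ 0 ∧ b ≤ 0) ∨ (a ≤ 0 ∧ c ≤ 0) ∨ (b ≤ 0 ∧ c ≤ 0) := by
  unfold md
  rw [max_le_iff, min_le_iff, min_le_iff, max_le_iff]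
  tauto

theorem Lb_zero {a b c : ℝ} (h : md a b c = 0) :
    (a = 0 ∧ b * c ≤ 0) ∨ (b = 0 ∧ a * c ≤ 0) ∨ (c = 0 ∧ a * b ≤ 0) := by
  have h1 := Lb_nn.1 h.ge
  have h2 := Lb_np.1 h.le
  rcases h1 with ⟨h1, h1'⟩ | ⟨h1, h1'⟩ | ⟨h1, h1'⟩ <;>
    rcases h2 with ⟨h2, h2'⟩ | ⟨h2, h2'⟩ | ⟨h2, h2'⟩
  · left; have e : a = 0 := le_antisymm h2 h1; have e' : b = 0 := le_antisymm h2' h1'
    exact ⟨e, by rw [e', zero_mul]⟩
  · left; exact ⟨le_antisymm h2 h1, mul_nonpos_of_nonneg_of_nonpos h1' h2'⟩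
  · right; left; exact ⟨le_antisymm h2 h1', mul_nonpos_of_nonneg_of_nonpos h1 h2'⟩
  · left; exact ⟨le_antisymm h2 h1, by rw [mul_comm]; exact mul_nonpos_of_nonneg_of_nonpos h1' h2'⟩
  · left; have e : a = 0 := le_antisymm h2 h1; have e' : c = 0 := le_antisymm h2' h1'
    exact ⟨e, by rw [e', mul_zero]⟩
  · right; right; exact ⟨le_antisymm h2' h1', mul_nonpos_of_nonneg_of_nonpos h1 h2⟩
  · right; left; exact ⟨le_antisymm h2' h1, by rw [mul_comm]; exact mul_nonpos_of_nonneg_of_nonpos h1' h2⟩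
  · right; right; exact ⟨le_antisymm h2' h1', by rw [mul_comm]; exact mul_nonpos_of_nonneg_of_nonpos h1 h2⟩
  · right; left; have e : b = 0 := le_antisymm h2 h1; have e' : c = 0 := le_antisymm h2' h1'
    exact ⟨e, by rw [e', mul_zero]⟩

theorem Lb_12 (a b c : ℝ) : md a b c = md b a c := by
  unfold md
  rw [min_comm a b, max_comm a b]

theorem Lb_23 (a b c : ℝ) : md a b c = md a c b := by
  apply le_antisymm
  · unfold md
    rcases le_total a b with h1 | h1 <;> rcases le_total a c with h2 | h2 <;>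
      rcases le_total b c with h3 | h3 <;> simp [h1, h2, h3] <;>
      first | linarith | (constructor <;> linarith) | (left; linarith) | (right; linarith)
  · unfold md
    rcases le_total a b with h1 | h1 <;> rcases le_total a c with h2 | h2 <;>
      rcases le_total b c with h3 | h3 <;> simp [h1, h2, h3] <;>
      first | linarith | (constructor <;> linarith) | (left; linarith) | (right; linarith)

/-- the conclusion of the sign lemma -/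
def Lb_P (x₁ x₂ x₃ y₁ y₂ y₃ : ℝ) : Prop :=
  ∃ ε : ℝ, (ε = 1 ∨ ε = -1) ∧ ∀ a b : ℝ,
      (0 ≤ b → b ≤ a → 0 ≤ ε * md (a * x₁ + b * y₁) (a * x₂ + b * y₂) (a * x₃ + b * y₃)) ∧
      (0 ≤ a → a ≤ b → ε * md (a * x₁ + b * y₁) (a * x₂ + b * y₂) (a * x₃ + b * y₃) ≤ 0) ∧
      (a ≤ 0 → 0 ≤ b → 0 ≤ ε * md (a * x₁ + b * y₁) (a * x₂ + b * y₂) (a * x₃ + b * y₃))

theorem Lb_P12 {x₁ x₂ x₃ y₁ y₂ y₃ : ℝ} (h : Lb_P x₂ x₁ x₃ y₂ y₁ y₃) :
    Lb_P x₁ x₂ x₃ y₁ y₂ y₃ := by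
  obtain ⟨ε, hε, h⟩ := h
  refine ⟨ε, hε, fun a b => ?_⟩
  rw [Lb_12]
  exact h a b

theorem Lb_P23 {x₁ x₂ x₃ y₁ y₂ y₃ : ℝ} (h : Lb_P x₁ x₃ x₂ y₁ y₃ y₂) :
    Lb_P x₁ x₂ x₃ y₁ y₂ y₃ := by
  obtain ⟨ε, hε, h⟩ := h
  refine ⟨ε, hε, fun a b => ?_⟩
  rw [Lb_23]
  exact h a b

/-- the positive sign -/
theorem Lb_pos {x₁ x₂ x₃ y₁ y₂ y₃ : ℝ}
    (h1 : ∀ a b : ℝ, 0 ≤ b → b ≤ a → 0 ≤ md (a * x₁ + b * y₁) (a * x₂ + b * y₂) (a * x₃ + b * y₃))
    (h2 : ∀ a b : ℝ, 0 ≤ a → a ≤ b → md (a * x₁ + b * y₁) (a * x₂ + b * y₂) (a * x₃ + b * y₃) ≤ 0)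
    (h3 : ∀ a b : ℝ, a ≤ 0 → 0 ≤ b → 0 ≤ md (a * x₁ + b * y₁) (a * x₂ + b * y₂) (a * x₃ + b * y₃)) :
    Lb_P x₁ x₂ x₃ y₁ y₂ y₃ :=
  ⟨1, Or.inl rfl, fun a b => by
    rw [one_mul]
    exact ⟨h1 a b, h2 a b, h3 a b⟩⟩

/-- the negative sign -/
theorem Lb_neg {x₁ x₂ x₃ y₁ y₂ y₃ : ℝ}
    (h1 : ∀ a b : ℝ, 0 ≤ b → b ≤ a → md (a * x₁ + b * y₁) (a * x₂ + b * y₂) (a * x₃ + b * y₃) ≤ 0)
    (h2 : ∀ a b : ℝ, 0 ≤ a → a ≤ b → 0 ≤ md (a * x₁ + b * y₁) (a * x₂ + b * y₂) (a * x₃ + b * y₃))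
    (h3 : ∀ a b : ℝ, a ≤ 0 → 0 ≤ b → md (a * x₁ + b * y₁) (a * x₂ + b * y₂) (a * x₃ + b * y₃) ≤ 0) :
    Lb_P x₁ x₂ x₃ y₁ y₂ y₃ :=
  ⟨-1, Or.inr rfl, fun a b => by
    refine ⟨fun ha hb => ?_, fun ha hb => ?_, fun ha hb => ?_⟩
    · have := h1 a b ha hb
      linarith
    · have := h2 a b ha hb
      linarith
    · have := h3 a b ha hb
      linarith⟩

/-- three different coordinates vanish -/
theorem Lb_B {x₂ x₃ y₁ y₃ : ℝ} (hx : x₂ * x₃ ≤ 0) (hy : y₁ * y₃ ≤ 0) (hz : y₁ * x₂ ≤ 0)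
    (h3 : x₃ + y₃ = 0) : Lb_P 0 x₂ x₃ y₁ 0 y₃ := by
  obtain rfl : x₃ = -y₃ := by linarith
  have hx' : 0 ≤ x₂ * y₃ := by linarith
  have key : (0 ≤ x₂ ∧ 0 ≤ y₃ ∧ y₁ ≤ 0) ∨ (x₂ ≤ 0 ∧ y₃ ≤ 0 ∧ 0 ≤ y₁) := by
    rcases lt_trichotomy y₃ 0 with h | h | h
    · right
      have e1 : x₂ ≤ 0 := by
        by_contra h'
        push Not at h'
        have := mul_neg_of_pos_of_neg h' h
        linarith
      have e2 : 0 ≤ y₁ := by
        by_contra h'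
        push Not at h'
        have := mul_pos_of_neg_of_neg h' h
        linarith
      exact ⟨e1, h.le, e2⟩
    · rcases lt_trichotomy x₂ 0 with h' | h' | h'
      · right
        refine ⟨h'.le, h.le, ?_⟩
        by_contra h''
        push Not at h''
        have := mul_pos_of_neg_of_neg h'' h'
        linarith
      · rcases le_total y₁ 0 with h'' | h''
        · left
          exact ⟨h'.ge, h.ge, h''⟩
        · right
          exact ⟨h'.le, h.le, h''⟩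
      · left
        refine ⟨h'.le, h.ge, ?_⟩
        by_contra h''
        push Not at h''
        have := mul_pos h'' h'
        linarith
    · left
      have e1 : 0 ≤ x₂ := by
        by_contra h'
        push Not at h'
        have := mul_neg_of_neg_of_pos h' h
        linarith
      have e2 : y₁ ≤ 0 := by
        by_contra h'
        push Not at h'
        have := mul_pos h' h
        linarith
      exact ⟨e1, h.le, e2⟩
  rcases key with ⟨k1, k2, k3⟩ | ⟨k1, k2, k3⟩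
  · apply Lb_neg
    · intro a b hb hab
      refine Lb_np.2 (Or.inr (Or.inl ⟨?_, ?_⟩))
      · nlinarith
      · nlinarith
    · intro a b ha hab
      refine Lb_nn.2 (Or.inr (Or.inr ⟨?_, ?_⟩))
      · nlinarith
      · nlinarith
    · intro a b ha hb
      refine Lb_np.2 (Or.inl ⟨?_, ?_⟩)
      · nlinarith
      · nlinarith
  · apply Lb_pos
    · intro a b hb hab
      refine Lb_nn.2 (Or.inr (Or.inl ⟨?_, ?_⟩))
      · nlinarith
      · nlinarith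
    · intro a b ha hab
      refine Lb_np.2 (Or.inr (Or.inr ⟨?_, ?_⟩))
      · nlinarith
      · nlinarith
    · intro a b ha hb
      refine Lb_nn.2 (Or.inl ⟨?_, ?_⟩)
      · nlinarith
      · nlinarith

theorem Lb_L {r₂ r₃ w₂ w₃ : ℝ} (h1 : 0 ≤ r₂) (h2 : r₃ ≤ 0) (h3 : w₂ ≤ 0) (h4 : 0 ≤ w₃)
    (hD : 0 ≤ r₂ * w₃ - r₃ * w₂) {p q : ℝ} (hp : 0 ≤ p) (hq : 0 ≤ q) :
    0 ≤ p * r₂ + q * w₂ ∨ 0 ≤ p * r₃ + q * w₃ := by
  by_contra hcon
  push Not at hcon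
  obtain ⟨hu, hv⟩ := hcon
  have e1 : 0 ≤ p * r₂ := mul_nonneg hp h1
  have e2 : 0 ≤ q * w₃ := mul_nonneg hq h4
  have e3 : 0 < -(p * r₃) := by linarith
  have e4 : 0 < -(p * r₂ + q * w₂) * -(p * r₃) := mul_pos (by linarith) e3
  have e5 : 0 ≤ (p * r₂) * -(p * r₃ + q * w₃) := mul_nonneg e1 (by linarith)
  have e6 : 0 ≤ p * q * (r₂ * w₃ - r₃ * w₂) := mul_nonneg (mul_nonneg hp hq) hD
  nlinarith

theorem Lb_L' {r₂ r₃ w₂ w₃ : ℝ} (h1 : 0 ≤ r₂) (h2 : r₃ ≤ 0) (h3 : w₂ ≤ 0) (h4 : 0 ≤ w₃)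
    (hD : r₂ * w₃ - r₃ * w₂ ≤ 0) {p q : ℝ} (hp : 0 ≤ p) (hq : 0 ≤ q) :
    p * r₂ + q * w₂ ≤ 0 ∨ p * r₃ + q * w₃ ≤ 0 := by
  have h := Lb_L (r₂ := -r₃) (r₃ := -r₂) (w₂ := -w₃) (w₃ := -w₂) (by linarith) (by linarith)
    (by linarith) (by linarith) (by linarith) hp hq
  rcases h with h | h
  · right; linarith
  · left; linarith

theorem Lb_nn0 {u v : ℝ} : 0 ≤ md 0 u v ↔ 0 ≤ u ∨ 0 ≤ v := by
  rw [Lb_nn]
  constructor
  · tauto
  · rintro (h | h)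
    · exact Or.inl ⟨le_rfl, h⟩
    · exact Or.inr (Or.inl ⟨le_rfl, h⟩)

theorem Lb_np0 {u v : ℝ} : md 0 u v ≤ 0 ↔ u ≤ 0 ∨ v ≤ 0 := by
  rw [Lb_np]
  constructor
  · tauto
  · rintro (h | h)
    · exact Or.inl ⟨le_rfl, h⟩
    · exact Or.inr (Or.inl ⟨le_rfl, h⟩)

/-- the first coordinate vanishes, `x` in the fourth quadrant -/
theorem Lb_A4 {x₂ x₃ y₂ y₃ : ℝ} (h1 : 0 ≤ x₂) (h2 : x₃ ≤ 0) (hy : y₂ * y₃ ≤ 0)
    (hz : (x₂ + y₂) * (x₃ + y₃) ≤ 0) : Lb_P 0 x₂ x₃ 0 y₂ y₃ := by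
  have hq : ∀ {u v : ℝ}, u * v ≤ 0 → (0 ≤ u ∧ v ≤ 0) ∨ (u ≤ 0 ∧ 0 ≤ v) := by
    intro u v h
    rcases mul_nonpos_iff.1 h with h | h
    · exact Or.inl h
    · exact Or.inr h
  have e0 : ∀ a b : ℝ, a * 0 + b * 0 = 0 := fun a b => by ring
  rcases hq hy with ⟨k1, k2⟩ | ⟨k1, k2⟩
  · -- y in the fourth quadrant
    rcases le_total 0 (x₂ * y₃ - x₃ * y₂) with hD | hD
    · apply Lb_pos
      · intro a b hb hab
        rw [e0, Lb_nn0]
        left; nlinarith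
      · intro a b ha hab
        rw [e0, Lb_np0]
        right; nlinarith
      · intro a b ha hb
        rw [e0, Lb_nn0]
        have h := Lb_L (r₂ := y₂) (r₃ := y₃) (w₂ := -x₂) (w₃ := -x₃) k1 k2 (by linarith)
          (by linarith) (by linarith) hb (neg_nonneg.2 ha)
        rcases h with h | h
        · left; linarith
        · right; linarith
    · apply Lb_neg
      · intro a b hb hab
        rw [e0, Lb_np0]
        right; nlinarith
      · intro a b ha hab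
        rw [e0, Lb_nn0]
        left; nlinarith
      · intro a b ha hb
        rw [e0, Lb_np0]
        have h := Lb_L' (r₂ := y₂) (r₃ := y₃) (w₂ := -x₂) (w₃ := -x₃) k1 k2 (by linarith)
          (by linarith) (by linarith) hb (neg_nonneg.2 ha)
        rcases h with h | h
        · left; linarith
        · right; linarith
  · rcases hq hz with ⟨m1, m2⟩ | ⟨m1, m2⟩
    · -- z in the fourth quadrant
      rcases le_total 0 (x₂ * y₃ - x₃ * y₂) with hD | hD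
      · apply Lb_neg
        · intro a b hb hab
          rw [e0, Lb_np0]
          right; nlinarith
        · intro a b ha hab
          rw [e0, Lb_nn0]
          have h := Lb_L (r₂ := x₂ + y₂) (r₃ := x₃ + y₃) (w₂ := y₂) (w₃ := y₃) m1 m2 k1 k2
            (by linarith) ha (sub_nonneg.2 hab)
          rcases h with h | h
          · left; linarith
          · right; linarith
        · intro a b ha hb
          rw [e0, Lb_np0]
          left; nlinarith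
      · apply Lb_pos
        · intro a b hb hab
          rw [e0, Lb_nn0]
          left; nlinarith
        · intro a b ha hab
          rw [e0, Lb_np0]
          have h := Lb_L' (r₂ := x₂ + y₂) (r₃ := x₃ + y₃) (w₂ := y₂) (w₃ := y₃) m1 m2 k1 k2
            (by linarith) ha (sub_nonneg.2 hab)
          rcases h with h | h
          · left; linarith
          · right; linarith
        · intro a b ha hb
          rw [e0, Lb_nn0]
          right; nlinarith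
    · -- z in the second quadrant
      rcases le_total 0 (x₂ * y₃ - x₃ * y₂) with hD | hD
      · apply Lb_pos
        · intro a b hb hab
          rw [e0, Lb_nn0]
          have h := Lb_L (r₂ := x₂) (r₃ := x₃) (w₂ := x₂ + y₂) (w₃ := x₃ + y₃) h1 h2 m1 m2
            (by linarith) (sub_nonneg.2 hab) hb
          rcases h with h | h
          · left; linarith
          · right; linarith
        · intro a b ha hab
          rw [e0, Lb_np0]
          left; nlinarith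
        · intro a b ha hb
          rw [e0, Lb_nn0]
          right; nlinarith
      · apply Lb_neg
        · intro a b hb hab
          rw [e0, Lb_np0]
          have h := Lb_L' (r₂ := x₂) (r₃ := x₃) (w₂ := x₂ + y₂) (w₃ := x₃ + y₃) h1 h2 m1 m2
            (by linarith) (sub_nonneg.2 hab) hb
          rcases h with h | h
          · left; linarith
          · right; linarith
        · intro a b ha hab
          rw [e0, Lb_nn0]
          right; nlinarith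
        · intro a b ha hb
          rw [e0, Lb_np0]
          left; nlinarith

theorem Lb_mz {u v : ℝ} (h : md 0 u v = 0) : u * v ≤ 0 := by
  rcases Lb_zero h with ⟨-, h⟩ | ⟨h, -⟩ | ⟨h, -⟩
  · exact h
  · rw [h, zero_mul]
  · rw [h, mul_zero]

/-- the first coordinate vanishes -/
theorem Lb_A {x₂ x₃ y₂ y₃ : ℝ} (hx : md 0 x₂ x₃ = 0) (hy : md 0 y₂ y₃ = 0)
    (hz : md 0 (x₂ + y₂) (x₃ + y₃) = 0) : Lb_P 0 x₂ x₃ 0 y₂ y₃ := by
  have hx' := Lb_mz hx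
  have hy' := Lb_mz hy
  have hz' := Lb_mz hz
  rcases mul_nonpos_iff.1 hx' with ⟨h1, h2⟩ | ⟨h1, h2⟩
  · exact Lb_A4 h1 h2 hy' hz'
  · exact Lb_P23 (Lb_A4 h2 h1 (by linarith) (by linarith))

theorem Lb_A1 {x₁ x₂ x₃ y₁ y₂ y₃ : ℝ} (hx : md x₁ x₂ x₃ = 0) (hy : md y₁ y₂ y₃ = 0)
    (hz : md (x₁ + y₁) (x₂ + y₂) (x₃ + y₃) = 0) (e : x₁ = 0) (e' : y₁ = 0) :
    Lb_P x₁ x₂ x₃ y₁ y₂ y₃ := by
  subst e e'
  rw [add_zero] at hz
  exact Lb_A hx hy hz

theorem Lb_A2 {x₁ x₂ x₃ y₁ y₂ y₃ : ℝ} (hx : md x₁ x₂ x₃ = 0) (hy : md y₁ y₂ y₃ = 0)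
    (hz : md (x₁ + y₁) (x₂ + y₂) (x₃ + y₃) = 0) (e : x₂ = 0) (e' : y₂ = 0) :
    Lb_P x₁ x₂ x₃ y₁ y₂ y₃ := by
  rw [Lb_12] at hx hy hz
  exact Lb_P12 (Lb_A1 hx hy hz e e')

theorem Lb_A3 {x₁ x₂ x₃ y₁ y₂ y₃ : ℝ} (hx : md x₁ x₂ x₃ = 0) (hy : md y₁ y₂ y₃ = 0)
    (hz : md (x₁ + y₁) (x₂ + y₂) (x₃ + y₃) = 0) (e : x₃ = 0) (e' : y₃ = 0) :
    Lb_P x₁ x₂ x₃ y₁ y₂ y₃ := by
  rw [Lb_23] at hx hy hz
  exact Lb_P23 (Lb_A2 hx hy hz e e')

theorem Lb_B1 {x₁ x₂ x₃ y₁ y₂ y₃ : ℝ} (e1 : x₁ = 0) (hx : x₂ * x₃ ≤ 0) (e2 : y₂ = 0)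
    (hy : y₁ * y₃ ≤ 0) (e3 : x₃ + y₃ = 0) (hz : (x₁ + y₁) * (x₂ + y₂) ≤ 0) :
    Lb_P x₁ x₂ x₃ y₁ y₂ y₃ := by
  subst e1 e2
  rw [zero_add, add_zero] at hz
  exact Lb_B hx hy hz e3

theorem md_sgn {x₁ x₂ x₃ y₁ y₂ y₃ : ℝ} (hx : md x₁ x₂ x₃ = 0) (hy : md y₁ y₂ y₃ = 0)
    (hz : md (x₁ + y₁) (x₂ + y₂) (x₃ + y₃) = 0) :
    ∃ ε : ℝ, (ε = 1 ∨ ε = -1) ∧ ∀ a b : ℝ,
      (0 ≤ b → b ≤ a → 0 ≤ ε * md (a * x₁ + b * y₁) (a * x₂ + b * y₂) (a * x₃ + b * y₃)) ∧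
      (0 ≤ a → a ≤ b → ε * md (a * x₁ + b * y₁) (a * x₂ + b * y₂) (a * x₃ + b * y₃) ≤ 0) ∧
      (a ≤ 0 → 0 ≤ b → 0 ≤ ε * md (a * x₁ + b * y₁) (a * x₂ + b * y₂) (a * x₃ + b * y₃)) := by
  show Lb_P x₁ x₂ x₃ y₁ y₂ y₃
  have c : ∀ {u v : ℝ}, u * v ≤ 0 → v * u ≤ 0 := fun h => by rw [mul_comm]; exact h
  rcases Lb_zero hx with ⟨i, hi⟩ | ⟨i, hi⟩ | ⟨i, hi⟩ <;>
    rcases Lb_zero hy with ⟨j, hj⟩ | ⟨j, hj⟩ | ⟨j, hj⟩ <;>
    rcases Lb_zero hz with ⟨l, hl⟩ | ⟨l, hl⟩ | ⟨l, hl⟩ <;>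
    first
      | exact Lb_A1 hx hy hz i j
      | exact Lb_A2 hx hy hz i j
      | exact Lb_A3 hx hy hz i j
      | exact Lb_A1 hx hy hz i (by linarith)
      | exact Lb_A2 hx hy hz i (by linarith)
      | exact Lb_A3 hx hy hz i (by linarith)
      | exact Lb_A1 hx hy hz (by linarith) j
      | exact Lb_A2 hx hy hz (by linarith) j
      | exact Lb_A3 hx hy hz (by linarith) j
      | exact Lb_B1 i hi j hj l hl
      | exact Lb_P23 (Lb_B1 i (c hi) j hj l hl)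
      | exact Lb_P12 (Lb_B1 i hi j hj l (c hl))
      | exact Lb_P12 (Lb_P23 (Lb_B1 i (c hi) j hj l hl))
      | exact Lb_P12 (Lb_P23 (Lb_B1 i hi j hj l hl))
      | exact Lb_P12 (Lb_P23 (Lb_B1 i (c hi) j (c hj) l (c hl)))
      | exact Lb_P12 (Lb_P23 (Lb_B1 i hi j (c hj) l hl))
      | exact Lb_P12 (Lb_P23 (Lb_B1 i (c hi) j hj l (c hl)))
      | exact Lb_P12 (Lb_P23 (Lb_B1 i hi j (c hj) l (c hl)))
      | exact Lb_P12 (Lb_P23 (Lb_B1 i hi j hj l (c hl)))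
      | exact Lb_P12 (Lb_P23 (Lb_B1 i (c hi) j (c hj) l hl))
      | exact Lb_P23 (Lb_P12 (Lb_B1 i hi j hj l hl))
      | exact Lb_P23 (Lb_P12 (Lb_B1 i (c hi) j hj l hl))
      | exact Lb_P23 (Lb_P12 (Lb_B1 i hi j (c hj) l hl))
      | exact Lb_P23 (Lb_P12 (Lb_B1 i hi j hj l (c hl)))
      | exact Lb_P23 (Lb_P12 (Lb_B1 i (c hi) j (c hj) l hl))
      | exact Lb_P23 (Lb_P12 (Lb_B1 i (c hi) j hj l (c hl)))
      | exact Lb_P23 (Lb_P12 (Lb_B1 i hi j (c hj) l (c hl)))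
      | exact Lb_P23 (Lb_P12 (Lb_B1 i (c hi) j (c hj) l (c hl)))
      | exact Lb_P12 (Lb_P23 (Lb_P12 (Lb_B1 i (c hi) j (c hj) l (c hl))))
      | exact Lb_P12 (Lb_P23 (Lb_P12 (Lb_B1 i hi j (c hj) l (c hl))))
      | exact Lb_P12 (Lb_P23 (Lb_P12 (Lb_B1 i (c hi) j hj l (c hl))))
      | exact Lb_P12 (Lb_P23 (Lb_P12 (Lb_B1 i (c hi) j (c hj) l hl)))
      | exact Lb_P12 (Lb_P23 (Lb_P12 (Lb_B1 i hi j hj l (c hl))))
      | exact Lb_P12 (Lb_P23 (Lb_P12 (Lb_B1 i hi j (c hj) l hl)))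
      | exact Lb_P12 (Lb_P23 (Lb_P12 (Lb_B1 i (c hi) j hj l hl)))
      | exact Lb_P12 (Lb_P23 (Lb_P12 (Lb_B1 i hi j hj l hl)))

/-- `gg P Q v - gg P Q (-v) - dt c v` is a median of three linear forms. -/
theorem psi_md (P Q c v : V) : gg P Q v - gg P Q (-v) - dt c v =
    md (dt (P + Q - c) v) (dt (Q - c) v) (dt (P - c) v) := by
  have e1 : dt (P + Q - c) v = dt P v + dt Q v - dt c v := by
    simp only [dt, Prod.fst_sub, Prod.snd_sub, Prod.fst_add, Prod.snd_add]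
    ring
  have e2 : dt (Q - c) v = dt Q v - dt c v := by
    simp only [dt, Prod.fst_sub, Prod.snd_sub]
    ring
  have e3 : dt (P - c) v = dt P v - dt c v := by
    simp only [dt, Prod.fst_sub, Prod.snd_sub]
    ring
  have e4 : ∀ R : V, dt R (-v) = -dt R v := by
    intro R
    simp only [dt, Prod.fst_neg, Prod.snd_neg]
    ring
  rw [e1, e2, e3]
  unfold gg md
  rw [e4, e4]
  generalize dt P v = p
  generalize dt Q v = q
  generalize dt c v = r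
  simp only [max_def, min_def]
  split_ifs <;> linarith

end ZP
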