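import Pool.Agent.H73.ZP.Lb

/-!
ROW Lc.  The balanced break of the hexagon decomposition.

`wk M v r s k = (1 - s) • v (r - 1 + k M) + s • v (r + k M)`.
PROOF.  `f r = Ee g M v r - Oo g M v r` (`g = gg P Q`) satisfies `f (r + M) = - f r` (period `6 M` of `v`).
So there is `r` with `f (r - 1) * f r ≤ 0` (otherwise `f` has a constant sign on
`[r, r + M]`, induction).  `F s = ∑_k (-1)^k g (wk k)` is continuous, `F 0 = f (r - 1)`,
`F 1 = f r`: there is `s ∈ [0, 1]` with `F s = 0`.  Put `w k = wk M v r s k`: `w (k + 3) = - w k`,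
`w 1 = w 0 + w 2`, and `0 < cr (w 0) (w 2)` (`Hx.ccw`, index differences are in `[2 M - 1, 2 M + 1]`,
and `2 M + 1 < 3 M`).
Choose `c` with `dt c (w 0) = g (w 0) - g (- w 0)` and `dt c (w 2) = g (w 2) - g (- w 2)` (two linear
equations, determinant `cr (w 0) (w 2)`).  Then `F s = 0` says
`(g (w 0) - g (- w 0)) + (g (w 2) - g (- w 2)) = g (w 1) - g (- w 1)`, so
`g (w 1) - g (- w 1) = dt c (w 1)`.  With `ψ x = g x - g (-x) - dt c x`: `ψ = 0` at `w 0`, `w 2` and `w 0 + w 2`.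
Apply `md_sgn` (through `psi_md`, which is linear in `v` inside `md`) to get the sign pattern.
-/

open Real

namespace ZP

noncomputable def wk (M : ℕ) (v : ℤ → V) (r : ℤ) (s : ℝ) (k : ℤ) : V :=
  (1 - s) • v (r - 1 + k * M) + s • v (r + k * M)

/-- The odd part of `gg`, corrected by a linear form. -/
noncomputable def psi (P Q c v : V) : ℝ := gg P Q v - gg P Q (-v) - dt c v

private theorem Lc_cr (a b : V) : cr a b = a.1 * b.2 - a.2 * b.1 := rfl

private theorem Lc_dt (a b : V) : dt a b = a.1 * b.1 + a.2 * b.2 := rfl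

private theorem Lc_ccw {M : ℕ} {v : ℤ → V} (h : Hx M v) (i j : ℤ) (h1 : i < j)
    (h2 : j < i + 3 * M) : 0 < cr (v i) (v j) := by
  have hM : (0 : ℤ) < M := by exact_mod_cast h.pos
  have per1 : ∀ i : ℤ, v (i + 6 * M) = v i := by
    intro i
    have e : i + 6 * (M : ℤ) = i + 3 * M + 3 * M := by ring
    rw [e, h.half, h.half, neg_neg]
  have per : ∀ (t : ℕ) (i : ℤ), v (i + 6 * M * t) = v i := by
    intro t
    induction t with
    | zero => intro i; simp
    | succ t ih =>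
      intro i
      have e : i + 6 * (M : ℤ) * ((t + 1 : ℕ) : ℤ) = (i + 6 * M * t) + 6 * M := by
        push_cast; ring
      rw [e, per1, ih]
  have ht : 0 ≤ i + 6 * M * (i.natAbs : ℤ) := by
    have a1 : -i ≤ (i.natAbs : ℤ) := by
      rw [Int.natCast_natAbs]; exact neg_le_abs i
    have a2 : (0 : ℤ) ≤ (i.natAbs : ℤ) := Int.natCast_nonneg _
    nlinarith
  obtain ⟨a, ha⟩ := Int.eq_ofNat_of_zero_le ht
  obtain ⟨b, hb⟩ := Int.eq_ofNat_of_zero_le
    (show 0 ≤ j + 6 * M * (i.natAbs : ℤ) by linarith)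
  rw [← per i.natAbs i, ← per i.natAbs j, ha, hb]
  apply h.ccw a b
  · have : (a : ℤ) < b := by rw [← ha, ← hb]; linarith
    exact_mod_cast this
  · have : (b : ℤ) < a + 3 * M := by rw [← ha, ← hb]; linarith
    exact_mod_cast this

private theorem Lc_six {M : ℕ} {v : ℤ → V} (h : Hx M v) (i : ℤ) : v (i + 6 * M) = v i := by
  have e : i + 6 * (M : ℤ) = i + 3 * M + 3 * M := by ring
  rw [e, h.half, h.half, neg_neg]

/-- The difference of the two hexagon sums changes the sign under the shift by `M`. -/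
private theorem Lc_shift {M : ℕ} {v : ℤ → V} (h : Hx M v) (g : V → ℝ) (r : ℤ) :
    Ee g M v (r + M) - Oo g M v (r + M) = -(Ee g M v r - Oo g M v r) := by
  unfold Ee Oo
  have e1 : r + (M : ℤ) + 2 * M = r + 3 * M := by ring
  have e2 : r + (M : ℤ) + 4 * M = r + 5 * M := by ring
  have e3 : r + (M : ℤ) + M = r + 2 * M := by ring
  have e4 : r + (M : ℤ) + 3 * M = r + 4 * M := by ring
  have e5 : r + (M : ℤ) + 5 * M = r + 6 * M := by ring
  rw [e1, e2, e3, e4, e5, Lc_six h]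
  ring

/-- A sign change of the difference of the two hexagon sums. -/
private theorem Lc_break {M : ℕ} {v : ℤ → V} (h : Hx M v) (g : V → ℝ) :
    ∃ r : ℤ, (Ee g M v (r - 1) - Oo g M v (r - 1)) * (Ee g M v r - Oo g M v r) ≤ 0 := by
  by_contra hcon
  push Not at hcon
  have ind : ∀ n : ℕ, 0 < (Ee g M v 0 - Oo g M v 0) * (Ee g M v n - Oo g M v n) := by
    intro n
    induction n with
    | zero =>
      have h0 := hcon 0
      have hne : Ee g M v 0 - Oo g M v 0 ≠ 0 := by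
        intro h1
        rw [h1, mul_zero] at h0
        exact lt_irrefl _ h0
      have := mul_self_pos.2 hne
      simpa using this
    | succ n ih =>
      have h1 := hcon ((n : ℤ) + 1)
      have e : ((n : ℤ) + 1) - 1 = n := by ring
      rw [e] at h1
      push_cast
      generalize Ee g M v 0 - Oo g M v 0 = x at *
      generalize Ee g M v (n : ℤ) - Oo g M v (n : ℤ) = y at *
      generalize Ee g M v ((n : ℤ) + 1) - Oo g M v ((n : ℤ) + 1) = z at *
      have h2 : 0 < (x * y) * (y * z) := mul_pos ih h1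
      have h3 : 0 < y * y := by
        apply mul_self_pos.2
        rintro rfl
        simp at ih
      have h4 : 0 < (x * z) * (y * y) := by nlinarith
      exact (pos_iff_pos_of_mul_pos h4).2 h3
  have h1 := ind M
  have h2 := Lc_shift h g 0
  rw [zero_add] at h2
  rw [h2] at h1
  nlinarith [mul_self_nonneg (Ee g M v 0 - Oo g M v 0)]

private theorem Lc_three {M : ℕ} {v : ℤ → V} (h : Hx M v) (r : ℤ) (s : ℝ) (k : ℤ) :
    wk M v r s (k + 3) = - wk M v r s k := by
  unfold wk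
  have e1 : r - 1 + (k + 3) * (M : ℤ) = r - 1 + k * M + 3 * M := by ring
  have e2 : r + (k + 3) * (M : ℤ) = r + k * M + 3 * M := by ring
  rw [e1, e2, h.half, h.half]
  simp only [smul_neg]
  abel

private theorem Lc_hex {M : ℕ} {v : ℤ → V} (h : Hx M v) (r : ℤ) (s : ℝ) (k : ℤ) :
    wk M v r s (k + 1) = wk M v r s k + wk M v r s (k + 2) := by
  unfold wk
  have e1 : r - 1 + (k + 1) * (M : ℤ) = r - 1 + k * M + M := by ring
  have e2 : r + (k + 1) * (M : ℤ) = r + k * M + M := by ring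
  have e3 : r - 1 + (k + 2) * (M : ℤ) = r - 1 + k * M + 2 * M := by ring
  have e4 : r + (k + 2) * (M : ℤ) = r + k * M + 2 * M := by ring
  rw [e1, e2, e3, e4, h.hex, h.hex]
  simp only [smul_add]
  abel

private theorem Lc_pos {M : ℕ} (hM : 1 < M) {v : ℤ → V} (h : Hx M v) (r : ℤ) {s : ℝ}
    (h0 : 0 ≤ s) (h1 : s ≤ 1) : 0 < cr (wk M v r s 0) (wk M v r s 2) := by
  have hM' : (1 : ℤ) < M := by exact_mod_cast hM
  have a1 := Lc_ccw h (r - 1 + 0 * M) (r - 1 + 2 * M) (by linarith) (by linarith)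
  have a2 := Lc_ccw h (r - 1 + 0 * M) (r + 2 * M) (by linarith) (by linarith)
  have a3 := Lc_ccw h (r + 0 * M) (r - 1 + 2 * M) (by linarith) (by linarith)
  have a4 := Lc_ccw h (r + 0 * M) (r + 2 * M) (by linarith) (by linarith)
  have e : cr (wk M v r s 0) (wk M v r s 2) =
      (1 - s) * (1 - s) * cr (v (r - 1 + 0 * M)) (v (r - 1 + 2 * M)) +
      (1 - s) * s * cr (v (r - 1 + 0 * M)) (v (r + 2 * M)) +
      (1 - s) * s * cr (v (r + 0 * M)) (v (r - 1 + 2 * M)) +
      s * s * cr (v (r + 0 * M)) (v (r + 2 * M)) := by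
    unfold wk
    simp only [Lc_cr, Prod.smul_fst, Prod.fst_add, Prod.smul_snd, Prod.snd_add, smul_eq_mul]
    ring
  rw [e]
  have h1' : 0 ≤ 1 - s := by linarith
  have b2 := mul_nonneg (mul_nonneg h1' h0) a2.le
  have b3 := mul_nonneg (mul_nonneg h1' h0) a3.le
  rcases le_or_gt s (1 / 2) with h2 | h2
  · have b1 : 0 < (1 - s) * (1 - s) * cr (v (r - 1 + 0 * M)) (v (r - 1 + 2 * M)) :=
      mul_pos (mul_pos (by linarith) (by linarith)) a1
    have b4 := mul_nonneg (mul_nonneg h0 h0) a4.le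
    linarith
  · have b1 := mul_nonneg (mul_nonneg h1' h1') a1.le
    have b4 : 0 < s * s * cr (v (r + 0 * M)) (v (r + 2 * M)) :=
      mul_pos (mul_pos (by linarith) (by linarith)) a4
    linarith

private theorem Lc_solve {a b : V} (hD : 0 < cr a b) (A B : ℝ) :
    ∃ c : V, dt c a = A ∧ dt c b = B := by
  refine ⟨((A * b.2 - B * a.2) / cr a b, (B * a.1 - A * b.1) / cr a b), ?_, ?_⟩
  · simp only [Lc_dt]
    field_simp
    rw [Lc_cr]
    ring
  · simp only [Lc_dt]
    field_simp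
    rw [Lc_cr]
    ring

private theorem Lc_lin (R a b : V) (x y : ℝ) : dt R (x • a + y • b) = x * dt R a + y * dt R b := by
  simp only [Lc_dt, Prod.smul_fst, Prod.fst_add, Prod.smul_snd, Prod.snd_add, smul_eq_mul]
  ring

private theorem Lc_add (R a b : V) : dt R (a + b) = dt R a + dt R b := by
  simp only [Lc_dt, Prod.fst_add, Prod.snd_add]
  ring

private theorem Lc_cont (P Q : V) (M : ℕ) (v : ℤ → V) (r k : ℤ) :
    Continuous (fun s : ℝ => gg P Q (wk M v r s k)) := by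
  unfold gg wk dt
  fun_prop

theorem Lc {M : ℕ} (hM : 1 < M) {v : ℤ → V} (h : Hx M v) (P Q : V) :
    ∃ (r : ℤ) (s : ℝ) (c : V) (ε : ℝ), 0 ≤ s ∧ s ≤ 1 ∧ (ε = 1 ∨ ε = -1) ∧
      0 < cr (wk M v r s 0) (wk M v r s 2) ∧
      dt c (wk M v r s 0) = gg P Q (wk M v r s 0) - gg P Q (-(wk M v r s 0)) ∧
      dt c (wk M v r s 2) = gg P Q (wk M v r s 2) - gg P Q (-(wk M v r s 2)) ∧
      ∀ a b : ℝ,
        (0 ≤ b → b ≤ a → 0 ≤ ε * psi P Q c (a • wk M v r s 0 + b • wk M v r s 2)) ∧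
        (0 ≤ a → a ≤ b → ε * psi P Q c (a • wk M v r s 0 + b • wk M v r s 2) ≤ 0) ∧
        (a ≤ 0 → 0 ≤ b → 0 ≤ ε * psi P Q c (a • wk M v r s 0 + b • wk M v r s 2)) := by
  obtain ⟨r, hr⟩ := Lc_break h (gg P Q)
  let F : ℝ → ℝ := fun s => gg P Q (wk M v r s 0) - gg P Q (wk M v r s 1) +
    gg P Q (wk M v r s 2) - gg P Q (wk M v r s 3) + gg P Q (wk M v r s 4) - gg P Q (wk M v r s 5)
  have hF : Continuous F := by
    have c := Lc_cont P Q M v r
    exact (((((c 0).sub (c 1)).add (c 2)).sub (c 3)).add (c 4)).sub (c 5)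
  have w0 : ∀ k, wk M v r 0 k = v (r - 1 + k * M) := by
    intro k; unfold wk; simp
  have w1 : ∀ k, wk M v r 1 k = v (r + k * M) := by
    intro k; unfold wk; simp
  have F0 : F 0 = Ee (gg P Q) M v (r - 1) - Oo (gg P Q) M v (r - 1) := by
    simp only [F, w0, Ee, Oo]
    simp only [zero_mul, one_mul, add_zero]
    ring
  have F1 : F 1 = Ee (gg P Q) M v r - Oo (gg P Q) M v r := by
    simp only [F, w1, Ee, Oo]
    simp only [zero_mul, one_mul, add_zero]
    ring
  rw [← F0, ← F1] at hr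
  have hs : ∃ s ∈ Set.Icc (0 : ℝ) 1, F s = 0 := by
    rcases mul_nonpos_iff.1 hr with ⟨h1, h2⟩ | ⟨h1, h2⟩
    · exact intermediate_value_Icc' zero_le_one hF.continuousOn ⟨h2, h1⟩
    · exact intermediate_value_Icc zero_le_one hF.continuousOn ⟨h1, h2⟩
  obtain ⟨s, ⟨hs0, hs1⟩, hs⟩ := hs
  have e3 : wk M v r s 3 = - wk M v r s 0 := by
    have := Lc_three h r s 0
    simpa using this
  have e4 : wk M v r s 4 = - wk M v r s 1 := Lc_three h r s 1
  have e5 : wk M v r s 5 = - wk M v r s 2 := Lc_three h r s 2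
  have e1 : wk M v r s 1 = wk M v r s 0 + wk M v r s 2 := by
    have := Lc_hex h r s 0
    simpa using this
  have hD := Lc_pos hM h r hs0 hs1
  obtain ⟨c, hc0, hc2⟩ := Lc_solve hD (gg P Q (wk M v r s 0) - gg P Q (-(wk M v r s 0)))
    (gg P Q (wk M v r s 2) - gg P Q (-(wk M v r s 2)))
  simp only [F, e3, e4, e5] at hs
  have p0 : psi P Q c (wk M v r s 0) = 0 := by
    unfold psi; linarith
  have p2 : psi P Q c (wk M v r s 2) = 0 := by
    unfold psi; linarith
  have p1 : psi P Q c (wk M v r s 0 + wk M v r s 2) = 0 := by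
    unfold psi
    rw [Lc_add, hc0, hc2, ← e1]
    linarith
  unfold psi at p0 p1 p2
  rw [psi_md] at p0 p1 p2
  simp only [Lc_add] at p1
  obtain ⟨ε, hε, hsg⟩ := md_sgn p0 p2 p1
  refine ⟨r, s, c, ε, hs0, hs1, hε, hD, hc0, hc2, fun a b => ?_⟩
  unfold psi
  rw [psi_md]
  simp only [Lc_lin]
  exact hsg a b

end ZP
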