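import Pool.Agent.H73.ZP.Lc
import Pool.Agent.H73.ZP.Grb

/-!
ROW Ld.  The lower bound of the sum of `gg P Q` over the edges of `l`.

Let `r, s, c, ε` be as in `Lc` for `v = vv l θ` and put `w k = wk M v r s k`, `ψ = psi P Q c`,
`g = gg P Q`, `ℓ m = ll l θ m`; `v m = ℓ m - ℓ (m + 3 M)` (as `θ (m + 3 M) = θ m + π`).
Let `N = 3 M` and consider the window `m ∈ [r, r + N)`; `a = ℓ m`, `b = - ℓ (m + N)`, `v m = a + b`.
`a`, `b`, `v m` are in the cone `C m` of `tt (θ m)`, `tt (θ (m + 1))` (`cone`; for `b` use `θ + π`).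
* SIGNS.  For `m ∈ [r, r + M)`: `v m = α • w 0 + β • w 2` with `0 ≤ β ≤ α`
 (equivalent: `0 ≤ cr (w 0) (v m)` and `0 ≤ cr (v m) (w 1)`, `w 1 = w 0 + w 2`), so `0 ≤ ε ψ (v m)`; for
 `m ∈ [r + M, r + 2 M)`: between `w 1` and `w 2`, `ε ψ (v m) ≤ 0`; for `m ∈ [r + 2 M, r + 3 M)`: between
 `w 2` and `- w 0`, `0 ≤ ε ψ (v m)`.  If moreover `m` is not one of the two end indices of its block,
 the same holds for `a` and `b` (their directions are in `[θ m, θ (m + 1)]`; the direction of `w k` is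
 in `(θ (r - 1 + k M), θ (r + 1 + k M))`).
* GOOD INDEX: `m` is not an end index of its block and each of `dt P`, `dt Q`, `dt (P - Q)` has a
 constant weak sign on `C m`.  There are at most `6 + 3 = 9` other indices in the window (each of the
 three forms is `A sin (θ - θ₀)` along `tt θ`, it has a strict sign change in at most one edge
 of a half period).  For a good index `g` is additive on `C m` and on `- C m`, `ψ` is additive on `C m`, and
 `ψ a`, `ψ b` have the same weak sign, so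
 `g a + g (-b) = (1/2) (g (v m) + g (- v m)) + (1/2) (ψ a - ψ b) + (1/2) dt c (a - b)
   ≥ (1/2) (g (v m) + g (- v m)) - (1/2) |ψ (v m)| + (1/2) dt c (a - b)`.
* OTHER INDEX: the same inequality with the error `- 8 (‖P‖ + ‖Q‖ + ‖c‖) b₀` where `b₀` bounds all
 `‖ℓ m‖` (`g ≥ 0`, `g x ≤ 2 (‖P‖ + ‖Q‖) ‖x‖`, `|dt c x| ≤ 2 ‖c‖ ‖x‖`).
* SUM over the window: `∑ dt c (a - b) = dt c (∑ over a full period of ℓ) = 0`;
 `∑ |ψ (v m)| = ε ∑_{m ∈ [r, r + M)} (ψ (v m) - ψ (v (m + M)) + ψ (v (m + 2 M)))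
  = ε ∑ (Ee - Oo) (the `c`-terms cancel: `v m - v (m + M) + v (m + 2 M) = 0`)
  ≤ ∑_{m ∈ [r, r + M)} |Ee m - Oo m|`, and `|Ee - Oo|` and `Ee + Oo` have period `M`.
 So `∑_{m < 6 M} g (ℓ m) ≥ ∑_{r < M} ((Ee + Oo) / 2 - |Ee - Oo| / 2) - error = ∑ min Ee Oo - error`.
-/

open Real

namespace ZP

/-- the form `dt R` has the same weak sign at `a` and `b` -/
def Ld_same (R a b : V) : Prop := (0 ≤ dt R a ∧ 0 ≤ dt R b) ∨ (dt R a ≤ 0 ∧ dt R b ≤ 0)

theorem Ld_real {p q p' q' : ℝ} (h1 : (0 ≤ p ∧ 0 ≤ p') ∨ (p ≤ 0 ∧ p' ≤ 0))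
    (h2 : (0 ≤ q ∧ 0 ≤ q') ∨ (q ≤ 0 ∧ q' ≤ 0))
    (h3 : (0 ≤ p - q ∧ 0 ≤ p' - q') ∨ (p - q ≤ 0 ∧ p' - q' ≤ 0)) :
    max 0 (max (p + p') (q + q')) = max 0 (max p q) + max 0 (max p' q') := by
  rcases h1 with ⟨a1, a2⟩ | ⟨a1, a2⟩ <;> rcases h2 with ⟨b1, b2⟩ | ⟨b1, b2⟩ <;>
    rcases h3 with ⟨c1, c2⟩ | ⟨c1, c2⟩ <;>
    simp only [max_def] <;> split_ifs <;> linarith

theorem Ld_add {P Q a b : V} (h1 : Ld_same P a b) (h2 : Ld_same Q a b)
    (h3 : Ld_same (P - Q) a b) : gg P Q (a + b) = gg P Q a + gg P Q b := by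
  unfold Ld_same at h1 h2 h3
  rw [sub_dt, sub_dt] at h3
  unfold gg
  rw [dt_add, dt_add]
  exact Ld_real h1 h2 h3

theorem Ld_neg {R a b : V} (h : Ld_same R a b) : Ld_same R (-a) (-b) := by
  unfold Ld_same at h ⊢
  rw [dt_neg, dt_neg]
  rcases h with ⟨h1, h2⟩ | ⟨h1, h2⟩
  · exact Or.inr ⟨by linarith, by linarith⟩
  · exact Or.inl ⟨by linarith, by linarith⟩

theorem Ld_cone {R t u : V} (h : Ld_same R t u) {x y x' y' : ℝ} (hx : 0 ≤ x) (hy : 0 ≤ y)
    (hx' : 0 ≤ x') (hy' : 0 ≤ y') : Ld_same R (x • t + y • u) (x' • t + y' • u) := by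
  unfold Ld_same at h ⊢
  rw [dt_add, dt_add, dt_smul, dt_smul, dt_smul, dt_smul]
  rcases h with ⟨h1, h2⟩ | ⟨h1, h2⟩
  · exact Or.inl ⟨by positivity, by positivity⟩
  · refine Or.inr ⟨?_, ?_⟩
    · have := mul_nonneg hx (neg_nonneg.2 h1)
      have := mul_nonneg hy (neg_nonneg.2 h2)
      linarith
    · have := mul_nonneg hx' (neg_nonneg.2 h1)
      have := mul_nonneg hy' (neg_nonneg.2 h2)
      linarith

theorem Ld_pt {P Q c a b : V} {s : ℝ} (hs : s = 1 ∨ s = -1) (h1 : Ld_same P a b)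
    (h2 : Ld_same Q a b) (h3 : Ld_same (P - Q) a b) (ha : 0 ≤ s * psi P Q c a)
    (hb : 0 ≤ s * psi P Q c b) :
    (gg P Q (a + b) + gg P Q (-(a + b))) / 2 - s * psi P Q c (a + b) / 2 +
      (dt c a - dt c b) / 2 ≤ gg P Q a + gg P Q (-b) := by
  have e1 := Ld_add h1 h2 h3
  have e2 := Ld_add (Ld_neg h1) (Ld_neg h2) (Ld_neg h3)
  unfold psi at *
  rw [neg_add, e1, e2, dt_add]
  rcases hs with rfl | rfl <;> linarith

theorem Ld_gg0 (P Q v : V) : 0 ≤ gg P Q v := le_max_left _ _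

theorem Ld_ggle {P Q v : V} {b : ℝ} (hv : ‖v‖ ≤ 2 * b) :
    gg P Q v ≤ 4 * (‖P‖ + ‖Q‖) * b := by
  have hb : 0 ≤ b := by linarith [norm_nonneg v]
  have hP := norm_nonneg P
  have hQ := norm_nonneg Q
  have h1 := (abs_le.1 (dt_le P v)).2
  have h2 := (abs_le.1 (dt_le Q v)).2
  have h3 : 2 * ‖P‖ * ‖v‖ ≤ 2 * ‖P‖ * (2 * b) := mul_le_mul_of_nonneg_left hv (by positivity)
  have h4 : 2 * ‖Q‖ * ‖v‖ ≤ 2 * ‖Q‖ * (2 * b) := mul_le_mul_of_nonneg_left hv (by positivity)
  have h5 : 0 ≤ ‖P‖ * b := by positivity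
  have h6 : 0 ≤ ‖Q‖ * b := by positivity
  unfold gg
  refine max_le (by positivity) (max_le ?_ ?_)
  · linarith
  · linarith

theorem Ld_pt0 {P Q c a b : V} {s K : ℝ} (hs : s = 1 ∨ s = -1) (ha : ‖a‖ ≤ K) (hb : ‖b‖ ≤ K) :
    (gg P Q (a + b) + gg P Q (-(a + b))) / 2 - s * psi P Q c (a + b) / 2 +
      (dt c a - dt c b) / 2 ≤ gg P Q a + gg P Q (-b) + 8 * ((‖P‖ + ‖Q‖ + ‖c‖) * K) := by
  have hK : 0 ≤ K := (norm_nonneg a).trans ha
  have hP := norm_nonneg P
  have hQ := norm_nonneg Q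
  have hc := norm_nonneg c
  have hv : ‖a + b‖ ≤ 2 * K := (norm_add_le a b).trans (by linarith)
  have hv' : ‖-(a + b)‖ ≤ 2 * K := by rw [norm_neg]; exact hv
  have g1 := Ld_ggle (P := P) (Q := Q) hv
  have g2 := Ld_ggle (P := P) (Q := Q) hv'
  have g3 := Ld_gg0 P Q (a + b)
  have g4 := Ld_gg0 P Q (-(a + b))
  have g5 := Ld_gg0 P Q a
  have g6 := Ld_gg0 P Q (-b)
  have d1 := abs_le.1 (dt_le c (a + b))
  have d2 := abs_le.1 (dt_le c a)
  have d3 := abs_le.1 (dt_le c b)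
  have k1 : 2 * ‖c‖ * ‖a + b‖ ≤ 2 * ‖c‖ * (2 * K) := mul_le_mul_of_nonneg_left hv (by positivity)
  have k2 : 2 * ‖c‖ * ‖a‖ ≤ 2 * ‖c‖ * K := mul_le_mul_of_nonneg_left ha (by positivity)
  have k3 : 2 * ‖c‖ * ‖b‖ ≤ 2 * ‖c‖ * K := mul_le_mul_of_nonneg_left hb (by positivity)
  have n1 : 0 ≤ ‖P‖ * K := by positivity
  have n2 : 0 ≤ ‖Q‖ * K := by positivity
  have n3 : 0 ≤ ‖c‖ * K := by positivity
  obtain ⟨d1a, d1b⟩ := d1
  obtain ⟨d2a, d2b⟩ := d2
  obtain ⟨d3a, d3b⟩ := d3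
  unfold psi
  rcases hs with rfl | rfl <;> linarith

theorem Ld_crl {s : ℝ} (h0 : 0 ≤ s) (h1 : s ≤ 1) {u u' x : V} (hu : 0 ≤ cr u x)
    (hu' : 0 ≤ cr u' x) : 0 ≤ cr ((1 - s) • u + s • u') x := by
  have e : cr ((1 - s) • u + s • u') x = (1 - s) * cr u x + s * cr u' x := by
    simp only [cr, Prod.fst_add, Prod.snd_add, Prod.smul_fst, Prod.smul_snd, smul_eq_mul]
    ring
  rw [e]
  have := mul_nonneg (sub_nonneg.2 h1) hu
  have := mul_nonneg h0 hu'
  linarith

theorem Ld_crr {s : ℝ} (h0 : 0 ≤ s) (h1 : s ≤ 1) {u u' x : V} (hu : 0 ≤ cr x u)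
    (hu' : 0 ≤ cr x u') : 0 ≤ cr x ((1 - s) • u + s • u') := by
  have e : cr x ((1 - s) • u + s • u') = (1 - s) * cr x u + s * cr x u' := by
    simp only [cr, Prod.fst_add, Prod.snd_add, Prod.smul_fst, Prod.smul_snd, smul_eq_mul]
    ring
  rw [e]
  have := mul_nonneg (sub_nonneg.2 h1) hu
  have := mul_nonneg h0 hu'
  linarith

/-- edges in counterclockwise order -/
theorem Ld_cr {f q : ℝ → V} (hf : Bd f) (hq : Bd q) {M : ℕ} {θ : ℤ → ℝ} (_hM : 0 < M)
    (hm : StrictMono θ) (hp : ∀ i, θ (i + 3 * M) = θ i + π) {j m : ℤ} (h1 : j + 1 ≤ m)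
    (h2 : m + 1 ≤ j + 3 * M) :
    0 ≤ cr (q (θ (j + 1)) - q (θ j)) (f (θ (m + 1)) - f (θ m)) := by
  have hpp := Real.pi_pos
  have gap : ∀ i : ℤ, θ (i + 1) ≤ θ i + 2 * π := by
    intro i
    have : θ (i + 1) ≤ θ (i + 3 * M) := hm.monotone (by omega)
    rw [hp] at this
    linarith
  obtain ⟨ρ, α, hρ, a1, a2, a3⟩ := chord hq (hm.monotone (by omega : j ≤ j + 1)) (gap j)
  obtain ⟨ρ', β, hρ', b1, b2, b3⟩ := chord hf (hm.monotone (by omega : m ≤ m + 1)) (gap m)
  rw [a3, b3]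
  have e : cr (ρ • tt α) (ρ' • tt β) = ρ * ρ' * Real.sin (β - α) := by
    rw [← cr_tt]
    simp only [cr, Prod.smul_fst, Prod.smul_snd, smul_eq_mul]
    ring
  rw [e]
  have k1 : θ (j + 1) ≤ θ m := hm.monotone h1
  have k2 : θ (m + 1) ≤ θ j + π := by
    rw [← hp]
    exact hm.monotone h2
  exact mul_nonneg (mul_nonneg hρ hρ') (Real.sin_nonneg_of_nonneg_of_le_pi (by linarith) (by linarith))

theorem Ld_dec {w0 w2 : V} (hcr : 0 < cr w0 w2) (x : V) :
    x = (cr x w2 / cr w0 w2) • w0 + (cr w0 x / cr w0 w2) • w2 := by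
  have hne := hcr.ne'
  have key : ∀ y : ℝ, ∀ u v : ℝ, y * cr w0 w2 = cr x w2 * u + cr w0 x * v →
      y = cr x w2 / cr w0 w2 * u + cr w0 x / cr w0 w2 * v := by
    intro y u v h
    have : cr x w2 / cr w0 w2 * u + cr w0 x / cr w0 w2 * v =
        (cr x w2 * u + cr w0 x * v) / cr w0 w2 := by ring
    rw [this, ← h]
    field_simp
  apply Prod.ext
  · simp only [Prod.fst_add, Prod.smul_fst, smul_eq_mul]
    apply key
    simp only [cr]
    ring
  · simp only [Prod.snd_add, Prod.smul_snd, smul_eq_mul]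
    apply key
    simp only [cr]
    ring

/-- at most one strict sign change in half a period -/
theorem Ld_one {R : V} {t1 t2 t3 t4 : ℝ} (h12 : t1 < t2) (h23 : t2 ≤ t3) (h34 : t3 < t4)
    (h41 : t4 ≤ t1 + π) (n1 : ¬ Ld_same R (tt t1) (tt t2)) : Ld_same R (tt t3) (tt t4) := by
  have comb : ∀ t : ℝ, Real.sin (t2 - t1) * dt R (tt t) =
      Real.sin (t - t1) * dt R (tt t2) - Real.sin (t - t2) * dt R (tt t1) := by
    intro t
    simp only [dt, tt, Real.sin_sub]
    have := Real.sin_sq_add_cos_sq t1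
    ring
  have hs : 0 < Real.sin (t2 - t1) := Real.sin_pos_of_pos_of_lt_pi (by linarith) (by linarith)
  have s1 : ∀ t, t2 ≤ t → t ≤ t1 + π → 0 ≤ Real.sin (t - t1) ∧ 0 ≤ Real.sin (t - t2) := by
    intro t ht1 ht2
    exact ⟨Real.sin_nonneg_of_nonneg_of_le_pi (by linarith) (by linarith),
      Real.sin_nonneg_of_nonneg_of_le_pi (by linarith) (by linarith)⟩
  unfold Ld_same at n1 ⊢
  push Not at n1
  obtain ⟨m1, m2⟩ := n1
  rcases le_or_gt 0 (dt R (tt t1)) with hc | hc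
  · have hd := m1 hc
    right
    have key : ∀ t, t2 ≤ t → t ≤ t1 + π → dt R (tt t) ≤ 0 := by
      intro t ht1 ht2
      obtain ⟨q1, q2⟩ := s1 t ht1 ht2
      have q3 := comb t
      have q4 := mul_nonneg q2 hc
      have q5 := mul_nonneg q1 (neg_nonneg.2 hd.le)
      by_contra hcon
      push Not at hcon
      have := mul_pos hs hcon
      linarith
    exact ⟨key t3 h23 (by linarith), key t4 (by linarith) h41⟩
  · have hd := m2 hc.le
    left
    have key : ∀ t, t2 ≤ t → t ≤ t1 + π → 0 ≤ dt R (tt t) := by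
      intro t ht1 ht2
      obtain ⟨q1, q2⟩ := s1 t ht1 ht2
      have q3 := comb t
      have q4 := mul_nonneg q2 (neg_nonneg.2 hc.le)
      have q5 := mul_nonneg q1 hd.le
      by_contra hcon
      push Not at hcon
      have := mul_pos hs (neg_pos.2 hcon)
      linarith
    exact ⟨key t3 h23 (by linarith), key t4 (by linarith) h41⟩

theorem Ld_shift (f : ℤ → ℝ) (N : ℕ) (hf : ∀ m, f (m + N) = f m) (a : ℤ) :
    ∑ k ∈ Finset.range N, f (a + k) = ∑ k ∈ Finset.range N, f k := by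
  have step : ∀ c : ℤ, ∑ k ∈ Finset.range N, f (c + 1 + k) = ∑ k ∈ Finset.range N, f (c + k) := by
    intro c
    have h1 := Finset.sum_range_succ (fun k : ℕ => f (c + k)) N
    have h2 := Finset.sum_range_succ' (fun k : ℕ => f (c + k)) N
    rw [h1] at h2
    have h3 : ∑ k ∈ Finset.range N, f (c + ((k + 1 : ℕ) : ℤ)) =
        ∑ k ∈ Finset.range N, f (c + 1 + k) := by
      apply Finset.sum_congr rfl
      intro k _
      congr 1
      push_cast
      ring
    rw [h3, hf] at h2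
    simp only [Nat.cast_zero, add_zero] at h2
    linarith
  induction a using Int.induction_on with
  | zero => simp
  | succ k ih => rw [step, ih]
  | pred k ih =>
    have h := step (-(k : ℤ) - 1)
    rw [sub_add_cancel] at h
    rw [← h, ih]

open scoped Classical in
/-- the indices with a sign change -/
noncomputable def Ld_B (R : V) (θ : ℤ → ℝ) (r : ℤ) (N : ℕ) : Finset ℕ :=
  (Finset.range N).filter (fun k => ¬ Ld_same R (tt (θ (r + k))) (tt (θ (r + k + 1))))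

theorem Ld_Bcard (R : V) {M : ℕ} {θ : ℤ → ℝ} (hm : StrictMono θ)
    (hp : ∀ i, θ (i + 3 * M) = θ i + π) (r : ℤ) : (Ld_B R θ r (3 * M)).card ≤ 1 := by
  classical
  have key : ∀ a b : ℕ, a ∈ Ld_B R θ r (3 * M) → b ∈ Ld_B R θ r (3 * M) → ¬ a < b := by
    intro a b ha hb hab
    unfold Ld_B at ha hb
    rw [Finset.mem_filter, Finset.mem_range] at ha hb
    refine hb.2 (Ld_one (t1 := θ (r + a)) (t2 := θ (r + a + 1)) (hm (by omega))
      (hm.monotone (by omega)) (hm (by omega)) ?_ ha.2)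
    rw [← hp]
    exact hm.monotone (by have := hb.1; push_cast; omega)
  rw [Finset.card_le_one]
  intro a ha b hb
  rcases lt_trichotomy a b with h | h | h
  · exact absurd h (key a b ha hb)
  · exact h
  · exact absurd h (key b a hb ha)

theorem Ld {l : ℝ → V} (h : Bd l) {κ : ℝ} {M : ℕ} {θ : ℤ → ℝ} (hM : 1 < M)
    (hg : Grid l κ M θ) {P Q : V} {b : ℝ} (hb : ∀ i, ‖ll l θ i‖ ≤ b)
    {r : ℤ} {s : ℝ} {c : V} {ε : ℝ} (hs0 : 0 ≤ s) (hs1 : s ≤ 1) (hε : ε = 1 ∨ ε = -1)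
    (hcr : 0 < cr (wk M (vv l θ) r s 0) (wk M (vv l θ) r s 2))
    (hsgn : ∀ a b : ℝ,
        (0 ≤ b → b ≤ a →
          0 ≤ ε * psi P Q c (a • wk M (vv l θ) r s 0 + b • wk M (vv l θ) r s 2)) ∧
        (0 ≤ a → a ≤ b →
          ε * psi P Q c (a • wk M (vv l θ) r s 0 + b • wk M (vv l θ) r s 2) ≤ 0) ∧
        (a ≤ 0 → 0 ≤ b →
          0 ≤ ε * psi P Q c (a • wk M (vv l θ) r s 0 + b • wk M (vv l θ) r s 2))) :
    ∑ r ∈ Finset.range M, min (Ee (gg P Q) M (vv l θ) r) (Oo (gg P Q) M (vv l θ) r) ≤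
      ∑ m ∈ Finset.range (6 * M), gg P Q (ll l θ m) + 200 * (‖P‖ + ‖Q‖ + ‖c‖) * b := by
  classical
  have hpp := Real.pi_pos
  have hM0 := hg.pos
  have hm := hg.mono
  have hp := hg.per
  have hx := hxvv h hg
  have hn := neg h
  have hq := qqBd h
  -- the edges
  have hng : ∀ m : ℤ, ng l (θ (m + 1)) - ng l (θ m) = - ll l θ (m + 3 * M) := by
    intro m
    unfold ng ll
    have e1 : θ (m + 3 * M + 1) = θ (m + 1) + π := by
      rw [← hp (m + 1)]
      congr 1
      ring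
    rw [e1, hp m]
    abel
  have hv : ∀ m : ℤ, vv l θ m = ll l θ m + (- ll l θ (m + 3 * M)) := by
    intro m
    unfold vv qq ll
    have e1 : θ (m + 3 * M + 1) = θ (m + 1) + π := by
      rw [← hp (m + 1)]
      congr 1
      ring
    rw [e1, hp m]
    abel
  have hθ6 : ∀ m : ℤ, θ (m + 6 * M) = θ m + 2 * π := by
    intro m
    have : m + 6 * (M : ℤ) = (m + 3 * M) + 3 * M := by ring
    rw [this, hp, hp]
    ring
  have hl6 : ∀ m : ℤ, ll l θ (m + 6 * M) = ll l θ m := by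
    intro m
    unfold ll
    have e1 : θ (m + 6 * M + 1) = θ (m + 1) + 2 * π := by
      rw [← hθ6 (m + 1)]
      congr 1
      ring
    rw [e1, hθ6, h.per, h.per]
  -- the vectors w
  set w0 := wk M (vv l θ) r s 0 with hw0
  set w2 := wk M (vv l θ) r s 2 with hw2
  set w1 := wk M (vv l θ) r s 1 with hw1
  have hw : w1 = w0 + w2 := by
    rw [hw1, hw0, hw2]
    unfold wk
    have e1 : vv l θ (r - 1 + 1 * M) = vv l θ (r - 1 + 0 * M) + vv l θ (r - 1 + 2 * M) := by
      have := hx.hex (r - 1)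
      rw [one_mul, zero_mul, add_zero]
      exact this
    have e2 : vv l θ (r + 1 * M) = vv l θ (r + 0 * M) + vv l θ (r + 2 * M) := by
      have := hx.hex r
      rw [one_mul, zero_mul, add_zero]
      exact this
    rw [e1, e2, smul_add, smul_add]
    abel
  -- position of an edge of a body with respect to the `w`
  have posl : ∀ f : ℝ → V, Bd f → ∀ k m : ℤ, r + k * M + 1 ≤ m → m + 1 ≤ r - 1 + k * M + 3 * M →
      0 ≤ cr (wk M (vv l θ) r s k) (f (θ (m + 1)) - f (θ m)) := by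
    intro f hf k m h1 h2
    unfold wk vv
    refine Ld_crl hs0 hs1 ?_ ?_
    · exact Ld_cr hf hq hM0 hm hp (by omega) (by omega)
    · exact Ld_cr hf hq hM0 hm hp (by omega) (by omega)
  have posr : ∀ f : ℝ → V, Bd f → ∀ k m : ℤ, m + 1 ≤ r - 1 + k * M → r + k * M + 1 ≤ m + 3 * M →
      0 ≤ cr (f (θ (m + 1)) - f (θ m)) (wk M (vv l θ) r s k) := by
    intro f hf k m h1 h2
    unfold wk vv
    refine Ld_crr hs0 hs1 ?_ ?_
    · exact Ld_cr hq hf hM0 hm hp (by omega) (by omega)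
    · exact Ld_cr hq hf hM0 hm hp (by omega) (by omega)
  -- signs
  have sw : ∀ a b : V, cr a b = - cr b a := by
    intro a b
    simp only [cr]
    ring
  have cadd : ∀ a b d : V, cr a (b + d) = cr a b + cr a d := by
    intro a b d
    simp only [cr, Prod.fst_add, Prod.snd_add]
    ring
  have sg0 : ∀ x : V, 0 ≤ cr w0 x → 0 ≤ cr x w1 → 0 ≤ ε * psi P Q c x := by
    intro x h1 h2
    rw [hw, cadd, sw x w0] at h2
    have h3 := (hsgn (cr x w2 / cr w0 w2) (cr w0 x / cr w0 w2)).1 (div_nonneg h1 hcr.le)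
      (div_le_div_of_nonneg_right (by linarith) hcr.le)
    rw [← Ld_dec hcr x] at h3
    exact h3
  have sg1 : ∀ x : V, 0 ≤ cr w1 x → 0 ≤ cr x w2 → 0 ≤ -ε * psi P Q c x := by
    intro x h1 h2
    rw [sw, hw, cadd, sw x w0] at h1
    have h3 := (hsgn (cr x w2 / cr w0 w2) (cr w0 x / cr w0 w2)).2.1 (div_nonneg h2 hcr.le)
      (div_le_div_of_nonneg_right (by linarith) hcr.le)
    rw [← Ld_dec hcr x] at h3
    linarith
  have sg2 : ∀ x : V, 0 ≤ cr w2 x → 0 ≤ cr w0 x → 0 ≤ ε * psi P Q c x := by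
    intro x h1 h2
    rw [sw] at h1
    have h3 := (hsgn (cr x w2 / cr w0 w2) (cr w0 x / cr w0 w2)).2.2
      (div_nonpos_of_nonpos_of_nonneg (by linarith) hcr.le) (div_nonneg h2 hcr.le)
    rw [← Ld_dec hcr x] at h3
    exact h3
  -- the sign of a block
  obtain ⟨sg, hsg⟩ : ∃ sg : ℕ → ℝ, ∀ k, sg k = if k < M then ε else if k < 2 * M then -ε else ε :=
    ⟨_, fun _ => rfl⟩
  have hsg1 : ∀ k, sg k = 1 ∨ sg k = -1 := by
    intro k
    rw [hsg]
    rcases hε with rfl | rfl <;> split_ifs <;> simp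
  -- the exceptional indices
  set Bad : Finset ℕ := (({0, M - 1, M, 2 * M - 1, 2 * M, 3 * M - 1} : Finset ℕ)) ∪
    (Ld_B P θ r (3 * M) ∪ (Ld_B Q θ r (3 * M) ∪ Ld_B (P - Q) θ r (3 * M))) with hBad
  have hBadc : Bad.card ≤ 9 := by
    have c1 : ({0, M - 1, M, 2 * M - 1, 2 * M, 3 * M - 1} : Finset ℕ).card ≤ 6 :=
      Finset.card_le_six
    have c2 := Ld_Bcard P hm hp r
    have c3 := Ld_Bcard Q hm hp r
    have c4 := Ld_Bcard (P - Q) hm hp r
    have d1 := Finset.card_union_le (({0, M - 1, M, 2 * M - 1, 2 * M, 3 * M - 1} : Finset ℕ))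
      (Ld_B P θ r (3 * M) ∪ (Ld_B Q θ r (3 * M) ∪ Ld_B (P - Q) θ r (3 * M)))
    have d2 := Finset.card_union_le (Ld_B P θ r (3 * M)) (Ld_B Q θ r (3 * M) ∪ Ld_B (P - Q) θ r (3 * M))
    have d3 := Finset.card_union_le (Ld_B Q θ r (3 * M)) (Ld_B (P - Q) θ r (3 * M))
    rw [hBad]
    omega
  set K : ℝ := (‖P‖ + ‖Q‖ + ‖c‖) * b with hK
  have hb0 : 0 ≤ b := (norm_nonneg _).trans (hb 0)
  have hK0 : 0 ≤ K := by positivity
  -- the inequality for one index
  have hpt : ∀ k ∈ Finset.range (3 * M),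
      (gg P Q (vv l θ (r + k)) + gg P Q (-(vv l θ (r + k)))) / 2 -
        sg k * psi P Q c (vv l θ (r + k)) / 2 +
        (dt c (ll l θ (r + k)) + dt c (ll l θ (r + k + 3 * M))) / 2 ≤
      (gg P Q (ll l θ (r + k)) + gg P Q (ll l θ (r + k + 3 * M))) +
        (if k ∈ Bad then 8 * K else 0) := by
    intro k hk
    rw [Finset.mem_range] at hk
    have e1 : dt c (ll l θ (r + k)) + dt c (ll l θ (r + k + 3 * M)) =
        dt c (ll l θ (r + k)) - dt c (-(ll l θ (r + k + 3 * M))) := by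
      rw [dt_neg]
      ring
    have e2 : gg P Q (ll l θ (r + k + 3 * M)) = gg P Q (-(-(ll l θ (r + k + 3 * M)))) := by
      rw [neg_neg]
    rw [hv, e1, e2]
    by_cases hbad : k ∈ Bad
    · rw [if_pos hbad]
      exact Ld_pt0 (hsg1 k) (hb _) (by rw [norm_neg]; exact hb _)
    · rw [if_neg hbad, add_zero]
      rw [hBad, Finset.mem_union, Finset.mem_union, Finset.mem_union] at hbad
      push Not at hbad
      obtain ⟨b1, b2, b3, b4⟩ := hbad
      simp only [Finset.mem_insert, Finset.mem_singleton, not_or] at b1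
      -- cones
      have hlt : θ (r + k + 1) < θ (r + k) + π := by
        rw [← hp]
        exact hm (by omega)
      obtain ⟨x, y, hx0, hy0, hxy⟩ := cone h (hm.monotone (by omega : r + (k : ℤ) ≤ r + k + 1)) hlt
      obtain ⟨x', y', hx0', hy0', hxy'⟩ := cone hn (hm.monotone (by omega : r + (k : ℤ) ≤ r + k + 1)) hlt
      have ea : ll l θ (r + k) = x • tt (θ (r + k)) + y • tt (θ (r + k + 1)) := hxy
      have eb : -(ll l θ (r + k + 3 * M)) = x' • tt (θ (r + k)) + y' • tt (θ (r + k + 1)) := by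
        rw [← hng]
        exact hxy'
      have hsame : ∀ R : V, k ∉ Ld_B R θ r (3 * M) →
          Ld_same R (ll l θ (r + k)) (-(ll l θ (r + k + 3 * M))) := by
        intro R hR
        unfold Ld_B at hR
        rw [Finset.mem_filter, Finset.mem_range] at hR
        have h1 : Ld_same R (tt (θ (r + k))) (tt (θ (r + k + 1))) := by
          by_contra hcon
          exact hR ⟨hk, hcon⟩
        rw [ea, eb]
        exact Ld_cone h1 hx0 hy0 hx0' hy0'
      have hsgn2 : ∀ f : ℝ → V, Bd f → 0 ≤ sg k * psi P Q c (f (θ (r + k + 1)) - f (θ (r + k))) := by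
        intro f hf
        rw [hsg]
        split_ifs with k1 k2
        · refine sg0 _ ?_ ?_
          · exact posl f hf 0 (r + k) (by omega) (by omega)
          · exact posr f hf 1 (r + k) (by omega) (by omega)
        · refine sg1 _ ?_ ?_
          · exact posl f hf 1 (r + k) (by omega) (by omega)
          · exact posr f hf 2 (r + k) (by omega) (by omega)
        · refine sg2 _ ?_ ?_
          · exact posl f hf 2 (r + k) (by omega) (by omega)
          · exact posl f hf 0 (r + k) (by omega) (by omega)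
      refine Ld_pt (hsg1 k) (hsame P b2) (hsame Q b3) (hsame (P - Q) b4) ?_ ?_
      · exact hsgn2 l h
      · rw [← hng]
        exact hsgn2 (ng l) hn
  have hsum := Finset.sum_le_sum hpt
  -- the right side
  have R1 : ∑ k ∈ Finset.range (3 * M), (gg P Q (ll l θ (r + k)) + gg P Q (ll l θ (r + k + 3 * M))) =
      ∑ m ∈ Finset.range (6 * M), gg P Q (ll l θ m) := by
    rw [← Ld_shift (fun m => gg P Q (ll l θ m)) (6 * M) (by
      intro m
      show gg P Q (ll l θ (m + ((6 * M : ℕ) : ℤ))) = gg P Q (ll l θ m)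
      have : m + ((6 * M : ℕ) : ℤ) = m + 6 * M := by push_cast; ring
      rw [this, hl6]) r]
    rw [show 6 * M = 3 * M + 3 * M by ring, Finset.sum_range_add, Finset.sum_add_distrib]
    congr 1
    refine Finset.sum_congr rfl fun k _ => ?_
    have e : r + ((3 * M + k : ℕ) : ℤ) = r + k + 3 * M := by push_cast; ring
    rw [e]
  have R2 : ∑ k ∈ Finset.range (3 * M), (if k ∈ Bad then 8 * K else 0) ≤ 72 * K := by
    rw [Finset.sum_ite_mem, Finset.sum_const, nsmul_eq_mul]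
    have h1 : (Finset.range (3 * M) ∩ Bad).card ≤ 9 :=
      (Finset.card_le_card Finset.inter_subset_right).trans hBadc
    have h2 : ((Finset.range (3 * M) ∩ Bad).card : ℝ) ≤ 9 := by exact_mod_cast h1
    nlinarith
  -- the left side
  have L1 : ∑ k ∈ Finset.range (3 * M), (dt c (ll l θ (r + k)) + dt c (ll l θ (r + k + 3 * M))) / 2 = 0 := by
    have h1 : ∑ k ∈ Finset.range (3 * M), (dt c (ll l θ (r + k)) + dt c (ll l θ (r + k + 3 * M))) =
        ∑ k ∈ Finset.range (6 * M), dt c (ll l θ (r + k)) := by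
      rw [show 6 * M = 3 * M + 3 * M by ring, Finset.sum_range_add, Finset.sum_add_distrib]
      congr 1
      refine Finset.sum_congr rfl fun k _ => ?_
      have e : r + ((3 * M + k : ℕ) : ℤ) = r + k + 3 * M := by push_cast; ring
      rw [e]
    have h2 : ∑ k ∈ Finset.range (6 * M), dt c (ll l θ (r + k)) = 0 := by
      have h3 : ∀ k ∈ Finset.range (6 * M), dt c (ll l θ (r + k)) =
          dt c (l (θ (r + ((k + 1 : ℕ) : ℤ)))) - dt c (l (θ (r + ((k : ℕ) : ℤ)))) := by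
        intro k _
        have e : r + ((k + 1 : ℕ) : ℤ) = r + k + 1 := by push_cast; ring
        rw [e]
        unfold ll
        rw [dt_sub]
      rw [Finset.sum_congr rfl h3, Finset.sum_range_sub (fun k : ℕ => dt c (l (θ (r + (k : ℤ)))))]
      have h4 : r + ((6 * M : ℕ) : ℤ) = r + 6 * M := by push_cast; ring
      rw [h4, hθ6, h.per]
      simp
    rw [← Finset.sum_div, h1, h2, zero_div]
  have L2 : ∑ k ∈ Finset.range M, min (Ee (gg P Q) M (vv l θ) (r + k)) (Oo (gg P Q) M (vv l θ) (r + k)) ≤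
      ∑ k ∈ Finset.range (3 * M), ((gg P Q (vv l θ (r + k)) + gg P Q (-(vv l θ (r + k)))) / 2 -
        sg k * psi P Q c (vv l θ (r + k)) / 2) := by
    rw [show 3 * M = M + (M + M) by ring, Finset.sum_range_add, Finset.sum_range_add,
      ← Finset.sum_add_distrib, ← Finset.sum_add_distrib]
    refine Finset.sum_le_sum fun k hk => ?_
    rw [Finset.mem_range] at hk
    have s0 : sg k = ε := by rw [hsg, if_pos hk]
    have s1 : sg (M + k) = -ε := by rw [hsg, if_neg (by omega), if_pos (by omega)]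
    have s2 : sg (M + (M + k)) = ε := by rw [hsg, if_neg (by omega), if_neg (by omega)]
    have i1 : r + ((M + k : ℕ) : ℤ) = r + k + M := by push_cast; ring
    have i2 : r + ((M + (M + k) : ℕ) : ℤ) = r + k + 2 * M := by push_cast; ring
    rw [s0, s1, s2, i1, i2]
    have v3 : vv l θ (r + k + 3 * M) = - vv l θ (r + k) := hx.half _
    have v4 : vv l θ (r + k + 4 * M) = - vv l θ (r + k + M) := by
      rw [← hx.half]
      congr 1
      ring
    have v5 : vv l θ (r + k + 5 * M) = - vv l θ (r + k + 2 * M) := by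
      rw [← hx.half]
      congr 1
      ring
    have vh : vv l θ (r + k + M) = vv l θ (r + k) + vv l θ (r + k + 2 * M) := hx.hex _
    have hdt : dt c (vv l θ (r + k + M)) = dt c (vv l θ (r + k)) + dt c (vv l θ (r + k + 2 * M)) := by
      rw [vh, dt_add]
    unfold Ee Oo psi
    rw [v3, v4, v5]
    generalize gg P Q (vv l θ (r + k)) = g0 at *
    generalize gg P Q (-(vv l θ (r + k))) = g0' at *
    generalize gg P Q (vv l θ (r + k + M)) = g1 at *
    generalize gg P Q (-(vv l θ (r + k + M))) = g1' at *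
    generalize gg P Q (vv l θ (r + k + 2 * M)) = g2 at *
    generalize gg P Q (-(vv l θ (r + k + 2 * M))) = g2' at *
    rcases hε with rfl | rfl
    · refine (min_le_right _ _).trans ?_
      rw [hdt]
      linarith
    · refine (min_le_left _ _).trans ?_
      rw [hdt]
      linarith
  have L3 : ∑ k ∈ Finset.range M, min (Ee (gg P Q) M (vv l θ) (r + k)) (Oo (gg P Q) M (vv l θ) (r + k)) =
      ∑ k ∈ Finset.range M, min (Ee (gg P Q) M (vv l θ) k) (Oo (gg P Q) M (vv l θ) k) := by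
    refine Ld_shift (fun m => min (Ee (gg P Q) M (vv l θ) m) (Oo (gg P Q) M (vv l θ) m)) M ?_ r
    intro m
    have v6 : vv l θ (m + M + 5 * M) = vv l θ m := by
      have e1 : m + (M : ℤ) + 5 * M = (m + 3 * M) + 3 * M := by ring
      rw [e1, hx.half, hx.half, neg_neg]
    have E1 : Ee (gg P Q) M (vv l θ) (m + M) = Oo (gg P Q) M (vv l θ) m := by
      unfold Ee Oo
      have e1 : m + (M : ℤ) + 2 * M = m + 3 * M := by ring
      have e2 : m + (M : ℤ) + 4 * M = m + 5 * M := by ring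
      rw [e1, e2]
    have E2 : Oo (gg P Q) M (vv l θ) (m + M) = Ee (gg P Q) M (vv l θ) m := by
      unfold Ee Oo
      have e1 : m + (M : ℤ) + M = m + 2 * M := by ring
      have e2 : m + (M : ℤ) + 3 * M = m + 4 * M := by ring
      rw [e1, e2, v6]
      ring
    show min (Ee (gg P Q) M (vv l θ) (m + M)) (Oo (gg P Q) M (vv l θ) (m + M)) =
      min (Ee (gg P Q) M (vv l θ) m) (Oo (gg P Q) M (vv l θ) m)
    rw [E1, E2, min_comm]
  rw [Finset.sum_add_distrib, L1, add_zero, Finset.sum_add_distrib, R1] at hsum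
  have hfin : 200 * (‖P‖ + ‖Q‖ + ‖c‖) * b = 200 * K := by rw [hK]; ring
  rw [hfin, ← L3]
  linarith

end ZP
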