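import Pool.Agent.H73.ZP.Lc
import Pool.Agent.H73.ZP.Grb

/-!
ROW Le.  Bound of the vector `c` of `Lc`.

PROOF.  Every `v i = vv l θ i` is `ρ • tt a` with `ρ > 0` and `θ i ≤ a ≤ θ (i + 1)` (`chord` for `qq l`).
So `w₀ = wk M v r s 0` is `ρ₀ • tt a₀` with `ρ₀ > 0`, `a₀ ∈ [θ (r - 1), θ (r + 1)]` and
`w₂ = wk M v r s 2` is `ρ₂ • tt a₂`, `a₂ ∈ [θ (r - 1 + 2 M), θ (r + 1 + 2 M)]`.  By `Grid.sep`,
`Grid.per` and `Grid.gap`, if `M ≥ M₀ = ⌈8 π / κ⌉ + 2`: `κ / 2 ≤ a₂ - a₀ ≤ π - κ / 2`.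
`dt c (tt a₀)` and `dt c (tt a₂)` are bounded by `4 (‖P‖ + ‖Q‖)` (`gg P Q x ≤ 2 (‖P‖ + ‖Q‖) ‖x‖` and
`‖tt a‖ ≤ 1`, divide by `ρ₀`, `ρ₂`).  `c` is the combination
`sin (a₂ - a₀) • c = (dt c (tt a₀)) • (rotated tt a₂) ...`, so
`‖c‖ ≤ 8 (‖P‖ + ‖Q‖) / sin (κ / 2)` if `κ / 2 ≤ π / 2` (note `κ ≤ π / 3` by `sep` and `per`).
-/

open Real

namespace ZP

theorem Le_vec {l : ℝ → V} (h : Bd l) {κ : ℝ} {M : ℕ} {θ : ℤ → ℝ} (hg : Grid l κ M θ) (i : ℤ) :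
    ∃ ρ a : ℝ, 0 < ρ ∧ θ i ≤ a ∧ a ≤ θ (i + 1) ∧ vv l θ i = ρ • tt a := by
  have hM1 : (1 : ℝ) ≤ M := by exact_mod_cast hg.pos
  have hgap : θ (i + 1) ≤ θ i + π := by
    have h1 := hg.gap i
    have h2 : π / M ≤ π := div_le_self Real.pi_pos.le hM1
    linarith
  obtain ⟨ρ, a, hρ, ha1, ha2, ha3⟩ := Grb_edge (a := θ i) (b := θ (i + 1)) (qqBd h)
    (hg.mono (by omega)) hgap
  exact ⟨ρ, a, hρ, ha1.le, ha2.le, ha3⟩

theorem Le_sin {κ x : ℝ} (h0 : 0 ≤ κ) (h2 : κ ≤ x) (h3 : x ≤ π - κ) :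
    Real.sin κ ≤ Real.sin x := by
  have hpp := Real.pi_pos
  rcases le_total x (π / 2) with h4 | h4
  · exact Real.sin_le_sin_of_le_of_le_pi_div_two (by linarith) h4 h2
  · rw [← Real.sin_pi_sub x]
    exact Real.sin_le_sin_of_le_of_le_pi_div_two (by linarith) (by linarith) (by linarith)

theorem Le_ntt (a : ℝ) : ‖tt a‖ ≤ 1 := by
  unfold tt
  rw [Prod.norm_def]
  refine max_le ?_ ?_
  · rw [Real.norm_eq_abs]
    show |-Real.sin a| ≤ 1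
    rw [abs_neg]
    exact Real.abs_sin_le_one a
  · rw [Real.norm_eq_abs]
    exact Real.abs_cos_le_one a

theorem Le_gg (P Q x : V) : gg P Q x ≤ 2 * (‖P‖ + ‖Q‖) * ‖x‖ := by
  unfold gg
  have h1 := (abs_le.1 (dt_le P x)).2
  have h2 := (abs_le.1 (dt_le Q x)).2
  have h3 := mul_nonneg (norm_nonneg P) (norm_nonneg x)
  have h4 := mul_nonneg (norm_nonneg Q) (norm_nonneg x)
  refine max_le ?_ (max_le ?_ ?_) <;> nlinarith

theorem Le_gg0 (P Q x : V) : 0 ≤ gg P Q x := le_max_left _ _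

theorem Le_gd (P Q x : V) : |gg P Q x - gg P Q (-x)| ≤ 2 * (‖P‖ + ‖Q‖) * ‖x‖ := by
  have h1 := Le_gg P Q x
  have h2 := Le_gg P Q (-x)
  rw [norm_neg] at h2
  have h3 := Le_gg0 P Q x
  have h4 := Le_gg0 P Q (-x)
  rw [abs_le]
  constructor <;> linarith

theorem Le_lin {c w0 w2 : V} {A0 A2 σ B : ℝ} (hσ : 0 < σ) (hA0 : 0 < A0) (hA2 : 0 < A2)
    (hB : 0 ≤ B) (h0 : ‖w0‖ ≤ A0) (h2 : ‖w2‖ ≤ A2) (hc : σ * (A0 * A2) ≤ cr w0 w2)
    (d0 : |dt c w0| ≤ B * A0) (d2 : |dt c w2| ≤ B * A2) : ‖c‖ ≤ 2 * B / σ := by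
  have hcr : 0 < cr w0 w2 := lt_of_lt_of_le (by positivity) hc
  have key : ∀ z y0 y2 : ℝ, z * cr w0 w2 = dt c w0 * y2 - dt c w2 * y0 → |y0| ≤ A0 → |y2| ≤ A2 →
      |z| ≤ 2 * B / σ := by
    intro z y0 y2 hz hy0 hy2
    have e1 : |z| * cr w0 w2 ≤ 2 * B * (A0 * A2) := by
      rw [← abs_of_pos hcr, ← abs_mul, hz]
      calc |dt c w0 * y2 - dt c w2 * y0| ≤ |dt c w0 * y2| + |dt c w2 * y0| := abs_sub _ _
        _ = |dt c w0| * |y2| + |dt c w2| * |y0| := by rw [abs_mul, abs_mul]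
        _ ≤ (B * A0) * A2 + (B * A2) * A0 := by
            refine add_le_add (mul_le_mul d0 hy2 (abs_nonneg _) (by positivity))
              (mul_le_mul d2 hy0 (abs_nonneg _) (by positivity))
        _ = 2 * B * (A0 * A2) := by ring
    have e2 : |z| * (σ * (A0 * A2)) ≤ 2 * B * (A0 * A2) :=
      (mul_le_mul_of_nonneg_left hc (abs_nonneg _)).trans e1
    rw [le_div_iff₀ hσ]
    have hAA : 0 < A0 * A2 := mul_pos hA0 hA2
    have e3 : (|z| * σ) * (A0 * A2) ≤ (2 * B) * (A0 * A2) := by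
      calc (|z| * σ) * (A0 * A2) = |z| * (σ * (A0 * A2)) := by ring
        _ ≤ _ := e2
    exact le_of_mul_le_mul_right e3 hAA
  have n0 : |w0.1| ≤ A0 ∧ |w0.2| ≤ A0 := by
    rw [Prod.norm_def] at h0
    exact ⟨(le_max_left _ _).trans h0, (le_max_right _ _).trans h0⟩
  have n2 : |w2.1| ≤ A2 ∧ |w2.2| ≤ A2 := by
    rw [Prod.norm_def] at h2
    exact ⟨(le_max_left _ _).trans h2, (le_max_right _ _).trans h2⟩
  rw [Prod.norm_def]
  refine max_le ?_ ?_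
  · exact key c.1 w0.2 w2.2 (by unfold dt cr; ring) n0.2 n2.2
  · exact key c.2 (-w0.1) (-w2.1) (by unfold dt cr; ring) (by rw [abs_neg]; exact n0.1)
      (by rw [abs_neg]; exact n2.1)

theorem Le_cr (s p q p' q' : ℝ) (a b c d : V) :
    cr ((1 - s) • (p • a) + s • (q • b)) ((1 - s) • (p' • c) + s • (q' • d)) =
      (1 - s) * (1 - s) * (p * p' * cr a c) + (1 - s) * s * (p * q' * cr a d) +
        s * (1 - s) * (q * p' * cr b c) + s * s * (q * q' * cr b d) := by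
  unfold cr
  simp only [Prod.fst_add, Prod.snd_add, Prod.smul_fst, Prod.smul_snd, smul_eq_mul]
  ring

theorem Le_norm (s p q : ℝ) (hs : 0 ≤ s) (hs1 : s ≤ 1) (hp : 0 ≤ p) (hq : 0 ≤ q) (x y : ℝ) :
    ‖(1 - s) • (p • tt x) + s • (q • tt y)‖ ≤ (1 - s) * p + s * q := by
  refine (norm_add_le _ _).trans ?_
  rw [norm_smul, norm_smul, norm_smul, norm_smul, Real.norm_of_nonneg (by linarith : 0 ≤ 1 - s),
    Real.norm_of_nonneg hs, Real.norm_of_nonneg hp, Real.norm_of_nonneg hq]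
  have h1 := Le_ntt x
  have h2 := Le_ntt y
  have h3 : 0 ≤ (1 - s) * p := mul_nonneg (by linarith) hp
  have h4 : 0 ≤ s * q := mul_nonneg hs hq
  nlinarith

theorem Le {l : ℝ → V} (h : Bd l) {κ : ℝ} (hκ : 0 < κ) :
    ∃ (C : ℝ) (M₀ : ℕ), 0 < C ∧ ∀ (M : ℕ) (θ : ℤ → ℝ), M₀ ≤ M → Grid l κ M θ →
      ∀ (P Q : V) (r : ℤ) (s : ℝ) (c : V), 0 ≤ s → s ≤ 1 →
      dt c (wk M (vv l θ) r s 0) =
        gg P Q (wk M (vv l θ) r s 0) - gg P Q (-(wk M (vv l θ) r s 0)) →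
      dt c (wk M (vv l θ) r s 2) =
        gg P Q (wk M (vv l θ) r s 2) - gg P Q (-(wk M (vv l θ) r s 2)) →
      ‖c‖ ≤ C * (‖P‖ + ‖Q‖) := by
  have hpp := Real.pi_gt_three
  have hκ' : 0 < min κ 1 := lt_min hκ one_pos
  have hσ : 0 < Real.sin (min κ 1 / 2) :=
    Real.sin_pos_of_pos_of_lt_pi (by linarith) (by linarith [min_le_right κ 1])
  refine ⟨4 / Real.sin (min κ 1 / 2), ⌈4 * π / min κ 1⌉₊ + 2, by positivity, ?_⟩
  intro M θ hM hg P Q r s c hs hs1 d0 d2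
  have hMr : 4 * π / min κ 1 ≤ M := by
    have h1 := Nat.le_ceil (4 * π / min κ 1)
    have h2 : ((⌈4 * π / min κ 1⌉₊ : ℕ) : ℝ) ≤ (M : ℝ) := by
      exact_mod_cast (by omega : ⌈4 * π / min κ 1⌉₊ ≤ M)
    linarith
  have hM2 : 2 ≤ M := by omega
  have hM0 : (0 : ℝ) < M := by
    have : (2 : ℝ) ≤ M := by exact_mod_cast hM2
    linarith
  have hgap : 2 * (π / M) ≤ min κ 1 / 2 := by
    rw [div_le_iff₀ hκ'] at hMr
    have : π / M ≤ min κ 1 / 4 := by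
      rw [div_le_iff₀ hM0]
      linarith
    linarith
  choose ρ a hρ ha1 ha2 hv using Le_vec h hg
  have ang : ∀ i j : ℤ, i + 2 * M - 1 ≤ j → j ≤ i + 2 * M + 1 →
      Real.sin (min κ 1 / 2) ≤ cr (tt (a i)) (tt (a j)) := by
    intro i j h1 h2
    rw [cr_tt]
    have k1 : θ (i + 1 + M) ≤ θ j := hg.mono.monotone (by omega)
    have k2 := hg.sep (i + 1)
    have k3 : θ (j + 1) ≤ θ (i + 2 * M + 1 + 1) := hg.mono.monotone (by omega)
    have k4 := hg.gap (i + 2 * M + 1)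
    have k5 := hg.gap (i + 2 * M)
    have k6 := hg.sep (i + 2 * M)
    have k7 := hg.per i
    have k8 : i + 2 * (M : ℤ) + M = i + 3 * M := by ring
    rw [k8, k7] at k6
    have k9 := ha1 i
    have k10 := ha2 i
    have k11 := ha1 j
    have k12 := ha2 j
    have k13 := min_le_left κ 1
    have k14 := min_le_right κ 1
    refine Le_sin (by linarith) (by linarith) (by linarith)
  have e0 : wk M (vv l θ) r s 0 = (1 - s) • (ρ (r - 1) • tt (a (r - 1))) + s • (ρ r • tt (a r)) := by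
    unfold wk
    rw [← hv, ← hv, zero_mul, add_zero, add_zero]
  have e2 : wk M (vv l θ) r s 2 =
      (1 - s) • (ρ (r - 1 + 2 * M) • tt (a (r - 1 + 2 * M))) +
        s • (ρ (r + 2 * M) • tt (a (r + 2 * M))) := by
    unfold wk
    rw [← hv, ← hv]
  have A0 : 0 < (1 - s) * ρ (r - 1) + s * ρ r := by
    rcases hs.lt_or_eq with h5 | h5
    · have := mul_pos h5 (hρ r)
      have := mul_nonneg (by linarith : 0 ≤ 1 - s) (hρ (r - 1)).le
      linarith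
    · rw [← h5]
      have := hρ (r - 1)
      linarith
  have A2 : 0 < (1 - s) * ρ (r - 1 + 2 * M) + s * ρ (r + 2 * M) := by
    rcases hs.lt_or_eq with h5 | h5
    · have := mul_pos h5 (hρ (r + 2 * M))
      have := mul_nonneg (by linarith : 0 ≤ 1 - s) (hρ (r - 1 + 2 * M)).le
      linarith
    · rw [← h5]
      have := hρ (r - 1 + 2 * M)
      linarith
  have n0 : ‖wk M (vv l θ) r s 0‖ ≤ (1 - s) * ρ (r - 1) + s * ρ r := by
    rw [e0]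
    exact Le_norm s _ _ hs hs1 (hρ _).le (hρ _).le _ _
  have n2 : ‖wk M (vv l θ) r s 2‖ ≤ (1 - s) * ρ (r - 1 + 2 * M) + s * ρ (r + 2 * M) := by
    rw [e2]
    exact Le_norm s _ _ hs hs1 (hρ _).le (hρ _).le _ _
  have hPQ : 0 ≤ 2 * (‖P‖ + ‖Q‖) := by positivity
  have hc : Real.sin (min κ 1 / 2) * (((1 - s) * ρ (r - 1) + s * ρ r) *
      ((1 - s) * ρ (r - 1 + 2 * M) + s * ρ (r + 2 * M))) ≤
      cr (wk M (vv l θ) r s 0) (wk M (vv l θ) r s 2) := by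
    rw [e0, e2, Le_cr]
    have c1 := ang (r - 1) (r - 1 + 2 * M) (by omega) (by omega)
    have c2 := ang (r - 1) (r + 2 * M) (by omega) (by omega)
    have c3 := ang r (r - 1 + 2 * M) (by omega) (by omega)
    have c4 := ang r (r + 2 * M) (by omega) (by omega)
    have hs' : 0 ≤ 1 - s := by linarith
    have p1 := mul_le_mul_of_nonneg_left c1 (mul_nonneg (mul_nonneg hs' hs')
      (mul_nonneg (hρ (r - 1)).le (hρ (r - 1 + 2 * M)).le))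
    have p2 := mul_le_mul_of_nonneg_left c2 (mul_nonneg (mul_nonneg hs' hs)
      (mul_nonneg (hρ (r - 1)).le (hρ (r + 2 * M)).le))
    have p3 := mul_le_mul_of_nonneg_left c3 (mul_nonneg (mul_nonneg hs hs')
      (mul_nonneg (hρ r).le (hρ (r - 1 + 2 * M)).le))
    have p4 := mul_le_mul_of_nonneg_left c4 (mul_nonneg (mul_nonneg hs hs)
      (mul_nonneg (hρ r).le (hρ (r + 2 * M)).le))
    linarith
  have q0 : |dt c (wk M (vv l θ) r s 0)| ≤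
      2 * (‖P‖ + ‖Q‖) * ((1 - s) * ρ (r - 1) + s * ρ r) := by
    rw [d0]
    exact (Le_gd P Q _).trans (mul_le_mul_of_nonneg_left n0 hPQ)
  have q2 : |dt c (wk M (vv l θ) r s 2)| ≤
      2 * (‖P‖ + ‖Q‖) * ((1 - s) * ρ (r - 1 + 2 * M) + s * ρ (r + 2 * M)) := by
    rw [d2]
    exact (Le_gd P Q _).trans (mul_le_mul_of_nonneg_left n2 hPQ)
  refine (Le_lin hσ A0 A2 hPQ n0 n2 hc q0 q2).trans (le_of_eq ?_)
  ring

end ZP
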