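import Pool.Agent.H73.ZP.La
import Pool.Agent.H73.ZP.Ld
import Pool.Agent.H73.ZP.Le

/-!
ROW Lf.  LEMMA 1 of Z+: for a fine grid the sum of the `min Ee Oo` is at most the triangle
functional of the body of `l`, up to `ε`.

PROOF.  `l` is uniformly continuous (continuous and periodic; or `Bd.cont` on a compact interval), so
for `M` large all edges satisfy `‖ll l θ i‖ ≤ b` with `b` as small as we want
(`Grid.gap`: the angle gap is at most `π / M`).  Take `M₀` also at least the one of `Le` and `2`.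
`Lc` (with `hxvv`) gives `r, s, c, ε`; `Le` bounds `c`; `Ld` and `La` give the two inequalities.
-/

open Real

namespace ZP

theorem Lf {l : ℝ → V} (h : Bd l) {κ : ℝ} (hκ : 0 < κ) {P Q : V} (hPQ : 0 < cr P Q)
    {ε : ℝ} (hε : 0 < ε) :
    ∃ M₀ : ℕ, ∀ (M : ℕ) (θ : ℤ → ℝ), M₀ ≤ M → Grid l κ M θ →
      ∃ φ₁ φ₂ φ₃, ∑ r ∈ Finset.range M,
          min (Ee (gg P Q) M (vv l θ) r) (Oo (gg P Q) M (vv l θ) r) ≤
        - dt P (l φ₁) + dt (P - Q) (l φ₂) + dt Q (l φ₃) + ε := by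
  obtain ⟨C, M₀, hC, hLe⟩ := Le h hκ
  have hP := norm_nonneg P
  have hQ := norm_nonneg Q
  set A : ℝ := 12 * (‖P‖ + ‖Q‖) + 200 * (‖P‖ + ‖Q‖ + C * (‖P‖ + ‖Q‖)) with hA
  have hA0 : 0 ≤ A := by positivity
  set b : ℝ := ε / (A + 1) with hbdef
  have hb0 : 0 < b := by positivity
  have hAb : A * b ≤ ε := by
    rw [hbdef, mul_div_assoc', div_le_iff₀ (by positivity)]
    nlinarith
  have hp : Function.Periodic l (2 * π) := h.per
  have hpi := Real.pi_pos
  obtain ⟨η, hη, huc⟩ : ∃ η > 0, ∀ x y : ℝ, dist x y < η → dist (l x) (l y) < b := by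
    have hc : UniformContinuousOn l (Set.Icc (-1) (2 * π + 1)) :=
      isCompact_Icc.uniformContinuousOn_of_continuous h.cont.continuousOn
    rw [Metric.uniformContinuousOn_iff] at hc
    obtain ⟨η₀, hη₀, hc⟩ := hc b hb0
    refine ⟨min η₀ 1, lt_min hη₀ one_pos, fun x y hxy => ?_⟩
    have h2pi : (0 : ℝ) < 2 * π := by positivity
    set n : ℤ := ⌊x / (2 * π)⌋ with hn
    have hx1 : (n : ℝ) * (2 * π) ≤ x := by
      have := Int.floor_le (x / (2 * π))
      rw [le_div_iff₀ h2pi] at this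
      exact this
    have hx2 : x < ((n : ℝ) + 1) * (2 * π) := by
      have := Int.lt_floor_add_one (x / (2 * π))
      rw [div_lt_iff₀ h2pi] at this
      exact this
    have e1 : l (x - n * (2 * π)) = l x := hp.sub_int_mul_eq n
    have e2 : l (y - n * (2 * π)) = l y := hp.sub_int_mul_eq n
    rw [← e1, ← e2]
    have h1 : |x - y| < 1 := by
      rw [← Real.dist_eq]
      exact lt_of_lt_of_le hxy (min_le_right _ _)
    rw [abs_lt] at h1
    apply hc
    · rw [Set.mem_Icc]; constructor <;> linarith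
    · rw [Set.mem_Icc]; constructor <;> linarith
    · rw [Real.dist_eq] at hxy ⊢
      rw [show x - n * (2 * π) - (y - n * (2 * π)) = x - y by ring]
      exact lt_of_lt_of_le hxy (min_le_left _ _)
  obtain ⟨M₁, hM₁⟩ := exists_nat_gt (π / η)
  refine ⟨max (max M₀ M₁) 2, fun M θ hM hg => ?_⟩
  have hM2 : 1 < M := by
    have := le_max_right (max M₀ M₁) 2
    omega
  have hMM₀ : M₀ ≤ M := le_trans (le_trans (le_max_left _ _) (le_max_left _ _)) hM
  have hMM₁ : M₁ ≤ M := le_trans (le_trans (le_max_right _ _) (le_max_left _ _)) hM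
  have hMpos : (0 : ℝ) < M := by exact_mod_cast (by omega : 0 < M)
  have hgap : π / M < η := by
    have h1 : (M₁ : ℝ) ≤ M := by exact_mod_cast hMM₁
    have h2 : π / η < M := lt_of_lt_of_le hM₁ h1
    rw [div_lt_iff₀ hη] at h2
    rw [div_lt_iff₀ hMpos]
    linarith
  have hb : ∀ i, ‖ll l θ i‖ ≤ b := by
    intro i
    have h1 := hg.gap i
    have h2 := hg.mono (show i < i + 1 by omega)
    have h3 : dist (θ (i + 1)) (θ i) < η := by
      rw [Real.dist_eq, abs_of_pos (by linarith)]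
      linarith
    have h4 := huc _ _ h3
    rw [dist_eq_norm] at h4
    exact h4.le
  obtain ⟨r, s, c, ε', hs0, hs1, hε', hcr, hc0, hc2, hsgn⟩ := Lc hM2 (hxvv h hg) P Q
  have hc := hLe M θ hMM₀ hg P Q r s c hs0 hs1 hc0 hc2
  have hLd := Ld h hM2 hg (P := P) (Q := Q) hb hs0 hs1 hε' hcr hsgn
  obtain ⟨φ₁, φ₂, φ₃, hLa⟩ := La h hM2 hg.mono hg.per hg.gap hPQ hb
  refine ⟨φ₁, φ₂, φ₃, ?_⟩
  have h5 : 200 * (‖P‖ + ‖Q‖ + ‖c‖) * b ≤ 200 * (‖P‖ + ‖Q‖ + C * (‖P‖ + ‖Q‖)) * b := by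
    apply mul_le_mul_of_nonneg_right _ hb0.le
    linarith
  have h6 : A * b = 12 * (‖P‖ + ‖Q‖) * b + 200 * (‖P‖ + ‖Q‖ + C * (‖P‖ + ‖Q‖)) * b := by
    rw [hA]
    ring
  linarith

end ZP
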