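import Pool.Agent.H73.ZP.Bda

/-!
ROW Sa.  The value of three arcs of a curve is at most the sum of `mx` over the grid edges.

`c` is the support map of a body (only continuity and the period are used), `α 0 ≤ ... ≤ α 8
≤ α 0 + 2 π`, `θ` is a grid of angles (`θ (i + 6 M) = θ i + 2 π`, gap at most `δ`), `G : V → ℝ` is
sublinear and nonnegative, and `G v ≥ t k * dt (P k) v`, `G v ≥ t k * dt (Q k) v` (`k < 3`).
CLAIM.  For every `ε > 0` there is `δ > 0` such that for all such grids and all `G`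
`∑_{k < 3} t k * (dt (P k) (c (α (3k+1)) - c (α (3k))) + dt (Q k) (c (α (3k+2)) - c (α (3k+1))))
  ≤ ∑_{m < 6 M} G (c (θ (m + 1)) - c (θ m)) + ε`.
PROOF.  `c` is uniformly continuous: choose `δ` with `‖c x - c y‖ ≤ ε'` for `|x - y| ≤ δ`, where
`ε' = ε / (24 (1 + ∑ ‖P k‖ + ‖Q k‖))`.  Let `m j` be the last index with `θ (m j) ≤ α j`
(`θ` tends to `± ∞`); `m 0 ≤ m 1 ≤ ... ≤ m 8 ≤ m 0 + 6 M`.  Replace `c (α j)` by `c (θ (m j))`: the left
side changes by at most `ε`.  `c (θ (m (j+1))) - c (θ (m j))` is the sum of the edges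
with indices in `[m j, m (j + 1))`, and each `t k * dt (P k) edge ≤ G edge`; the index
intervals are disjoint and contained in `[m 0, m 0 + 6 M)`; the remaining edges have `G ≥ 0`; the sum
of a function with period `6 M` over a full period does not depend on the start.
-/

open Real

namespace ZP

theorem Sa_up {θ : ℤ → ℝ} {M : ℕ} (hper : ∀ i, θ (i + 3 * M) = θ i + π) (n : ℕ) (i : ℤ) :
    θ (i + 3 * M * n) = θ i + n * π := by
  induction n with
  | zero => simp
  | succ n ih =>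
    have h1 : i + 3 * (M : ℤ) * ((n + 1 : ℕ) : ℤ) = (i + 3 * M * n) + 3 * M := by
      push_cast
      ring
    rw [h1, hper, ih]
    push_cast
    ring

theorem Sa_ex {θ : ℤ → ℝ} {M : ℕ} (hmono : StrictMono θ) (hper : ∀ i, θ (i + 3 * M) = θ i + π)
    (x : ℝ) : ∃ m : ℤ, θ m ≤ x ∧ ∀ z : ℤ, θ z ≤ x → z ≤ m := by
  apply Int.exists_greatest_of_bdd
  · obtain ⟨n, hn⟩ := exists_nat_gt ((x - θ 0) / π)
    refine ⟨0 + 3 * M * n, fun z hz => ?_⟩
    have h1 := Sa_up hper n 0
    rw [div_lt_iff₀ Real.pi_pos] at hn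
    have h2 : θ z < θ (0 + 3 * M * n) := by
      rw [h1]
      linarith
    exact (hmono.lt_iff_lt.1 h2).le
  · obtain ⟨n, hn⟩ := exists_nat_gt ((θ 0 - x) / π)
    refine ⟨-(3 * M * n), ?_⟩
    have h1 := Sa_up hper n (-(3 * M * n))
    rw [div_lt_iff₀ Real.pi_pos] at hn
    have h2 : -(3 * (M : ℤ) * n) + 3 * M * n = 0 := by ring
    rw [h2] at h1
    linarith

theorem Sa_tel (F : ℕ → V) (G : V → ℝ) (s : ℝ) (p : V) (h : ∀ v, s * dt p v ≤ G v) {a b : ℕ}
    (hab : a ≤ b) : s * dt p (F b - F a) ≤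
      ∑ n ∈ Finset.range b, G (F (n + 1) - F n) - ∑ n ∈ Finset.range a, G (F (n + 1) - F n) := by
  induction b, hab using Nat.le_induction with
  | base =>
    rw [sub_self, sub_self]
    have : dt p 0 = 0 := by simp [dt]
    rw [this, mul_zero]
  | succ b hab ih =>
    have h1 : F (b + 1) - F a = (F (b + 1) - F b) + (F b - F a) := by abel
    rw [h1, dt_add, mul_add, Finset.sum_range_succ]
    have h2 := h (F (b + 1) - F b)
    linarith

theorem Sa_shift (f : ℤ → ℝ) (N : ℕ) (hf : ∀ i, f (i + N) = f i) (a : ℤ) :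
    ∑ n ∈ Finset.range N, f (a + n) = ∑ n ∈ Finset.range N, f n := by
  have key : ∀ b : ℤ, ∑ n ∈ Finset.range N, f (b + 1 + n) = ∑ n ∈ Finset.range N, f (b + n) := by
    intro b
    have h1 := Finset.sum_range_succ (fun n : ℕ => f (b + n)) N
    have h2 := Finset.sum_range_succ' (fun n : ℕ => f (b + n)) N
    rw [h1] at h2
    have h3 : f (b + (N : ℤ)) = f (b + ((0 : ℕ) : ℤ)) := by
      rw [hf, Nat.cast_zero, add_zero]
    rw [h3] at h2
    have h4 := add_right_cancel h2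
    rw [h4]
    apply Finset.sum_congr rfl
    intro n _
    congr 1
    push_cast
    ring
  induction a using Int.induction_on with
  | zero =>
    apply Finset.sum_congr rfl
    intro n _
    rw [zero_add]
  | succ i ih => rw [key, ih]
  | pred i ih =>
    have h := key (-(i : ℤ) - 1)
    rw [sub_add_cancel] at h
    rw [← h, ih]

theorem Sa {c : ℝ → V} (h : Bd c) (P Q : ℕ → V) {α : ℕ → ℝ} (hα : Monotone α)
    (h8 : α 8 ≤ α 0 + 2 * π) {ε : ℝ} (hε : 0 < ε) :
    ∃ δ : ℝ, 0 < δ ∧ ∀ (M : ℕ) (θ : ℤ → ℝ), 0 < M → StrictMono θ →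
      (∀ i, θ (i + 3 * M) = θ i + π) → (∀ i, θ (i + 1) - θ i ≤ δ) →
      ∀ (t : ℕ → ℝ) (G : V → ℝ), (∀ k, 0 ≤ t k) → (∀ k, t k ≤ 1) → (∀ v, 0 ≤ G v) →
        (∀ k, k < 3 → ∀ v, t k * dt (P k) v ≤ G v ∧ t k * dt (Q k) v ≤ G v) →
        ∑ k ∈ Finset.range 3, t k * (dt (P k) (c (α (3 * k + 1)) - c (α (3 * k))) +
            dt (Q k) (c (α (3 * k + 2)) - c (α (3 * k + 1)))) ≤
          ∑ m ∈ Finset.range (6 * M), G (c (θ (m + 1)) - c (θ m)) + ε := by
  set B : ℝ := ∑ k ∈ Finset.range 3, (‖P k‖ + ‖Q k‖) with hB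
  have hB0 : 0 ≤ B := Finset.sum_nonneg (fun k _ => by positivity)
  set e : ℝ := ε / (4 * (1 + B)) with he
  have he0 : 0 < e := by positivity
  have hu := (isCompact_Icc (a := α 0 - 1) (b := α 0 + 2 * π + 1)).uniformContinuousOn_of_continuous
    h.cont.continuousOn
  obtain ⟨δ, hδ, hδ'⟩ := Metric.uniformContinuousOn_iff.1 hu e he0
  refine ⟨min (δ / 2) 1, by positivity, ?_⟩
  intro M θ _ hmono hper hgap t G ht0 ht1 hG0 hG
  choose m hm1 hm2 using Sa_ex hmono hper
  have hm3 : ∀ x, x < θ (m x + 1) := fun x => by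
    by_contra hh
    have := hm2 x (m x + 1) (not_lt.1 hh)
    omega
  have hmm : ∀ {x y}, x ≤ y → m x ≤ m y := fun {x y} hxy => hm2 y _ ((hm1 x).trans hxy)
  have hper2 : ∀ i, θ (i + 6 * M) = θ i + 2 * π := by
    intro i
    have h1 : i + 6 * (M : ℤ) = (i + 3 * M) + 3 * M := by ring
    rw [h1, hper, hper]
    ring
  have hm8 : m (α 8) ≤ m (α 0) + 6 * M := by
    have h1 : θ (m (α 8)) < θ (m (α 0) + 1 + 6 * M) := by
      rw [hper2]
      have := hm1 (α 8)
      have := hm3 (α 0)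
      linarith
    have := hmono.lt_iff_lt.1 h1
    omega
  have hc : ∀ j, j ≤ 8 → ‖c (α j) - c (θ (m (α j)))‖ ≤ e := by
    intro j hj
    have h1 : α 0 ≤ α j := hα (Nat.zero_le j)
    have h2 : α j ≤ α 8 := hα hj
    have h3 := hm1 (α j)
    have h4 := hm3 (α j)
    have h5 := hgap (m (α j))
    have h6 : θ (m (α j) + 1) - θ (m (α j)) ≤ 1 := h5.trans (min_le_right _ _)
    have h7 : θ (m (α j) + 1) - θ (m (α j)) ≤ δ / 2 := h5.trans (min_le_left _ _)
    have h8' := hδ' (α j) ⟨by linarith, by linarith⟩ (θ (m (α j))) ⟨by linarith, by linarith⟩ (by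
      rw [Real.dist_eq, abs_of_nonneg (by linarith)]
      linarith)
    rw [dist_eq_norm] at h8'
    exact h8'.le
  -- the telescoping sums
  set a : ℤ := m (α 0) with ha
  set F : ℕ → V := fun n => c (θ (a + n)) with hF
  set S : ℕ → ℝ := fun b => ∑ n ∈ Finset.range b, G (F (n + 1) - F n) with hS
  have hSm : Monotone S := by
    apply monotone_nat_of_le_succ
    intro n
    show ∑ n ∈ Finset.range n, _ ≤ ∑ n ∈ Finset.range (n + 1), _
    rw [Finset.sum_range_succ]
    have := hG0 (F (n + 1) - F n)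
    linarith
  set N : ℕ → ℕ := fun j => (m (α j) - a).toNat with hN
  have hNe : ∀ j, ((N j : ℕ) : ℤ) = m (α j) - a := by
    intro j
    have h1 : a ≤ m (α j) := hmm (hα (Nat.zero_le j))
    show (((m (α j) - a).toNat : ℕ) : ℤ) = _
    rw [Int.toNat_of_nonneg (by omega)]
  have hNm : Monotone N := by
    intro i j hij
    have h1 := hNe i
    have h2 := hNe j
    have h3 : m (α i) ≤ m (α j) := hmm (hα hij)
    omega
  have hN0 : N 0 = 0 := by
    have h1 := hNe 0
    omega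
  have hN8 : N 8 ≤ 6 * M := by
    have h1 := hNe 8
    omega
  have hFN : ∀ j, F (N j) = c (θ (m (α j))) := by
    intro j
    show c (θ (a + ((N j : ℕ) : ℤ))) = _
    rw [hNe]
    congr 2
    ring
  have hP : ∀ k, k < 3 → t k * dt (P k) (F (N (3 * k + 1)) - F (N (3 * k))) ≤
      S (N (3 * k + 1)) - S (N (3 * k)) := fun k hk =>
    Sa_tel F G (t k) (P k) (fun v => (hG k hk v).1) (hNm (by omega))
  have hQ : ∀ k, k < 3 → t k * dt (Q k) (F (N (3 * k + 2)) - F (N (3 * k + 1))) ≤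
      S (N (3 * k + 2)) - S (N (3 * k + 1)) := fun k hk =>
    Sa_tel F G (t k) (Q k) (fun v => (hG k hk v).2) (hNm (by omega))
  -- replacement of the points
  have hrep : ∀ i j, i ≤ 8 → j ≤ 8 → ∀ (s : ℝ) (p : V), 0 ≤ s → s ≤ 1 →
      s * dt p (c (α j) - c (α i)) ≤ s * dt p (F (N j) - F (N i)) + 4 * e * ‖p‖ := by
    intro i j hi hj s p hs0 hs1
    have h1 : c (α j) - c (α i) = (F (N j) - F (N i)) +
        ((c (α j) - c (θ (m (α j)))) - (c (α i) - c (θ (m (α i))))) := by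
      rw [hFN, hFN]
      abel
    rw [h1, dt_add, mul_add]
    have h2 := dt_le p ((c (α j) - c (θ (m (α j)))) - (c (α i) - c (θ (m (α i)))))
    have h3 : ‖(c (α j) - c (θ (m (α j)))) - (c (α i) - c (θ (m (α i))))‖ ≤ 2 * e := by
      refine (norm_sub_le _ _).trans ?_
      have := hc i hi
      have := hc j hj
      linarith
    have h4 : dt p ((c (α j) - c (θ (m (α j)))) - (c (α i) - c (θ (m (α i))))) ≤ 4 * e * ‖p‖ := by
      refine (le_abs_self _).trans (h2.trans ?_)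
      have hp := norm_nonneg p
      nlinarith
    have h5 : s * dt p ((c (α j) - c (θ (m (α j)))) - (c (α i) - c (θ (m (α i))))) ≤ 4 * e * ‖p‖ := by
      have h6 : 0 ≤ 4 * e * ‖p‖ := by positivity
      nlinarith
    linarith
  have hk : ∀ k, k < 3 → t k * (dt (P k) (c (α (3 * k + 1)) - c (α (3 * k))) +
      dt (Q k) (c (α (3 * k + 2)) - c (α (3 * k + 1)))) ≤
      (S (N (3 * k + 2)) - S (N (3 * k))) + 4 * e * (‖P k‖ + ‖Q k‖) := by
    intro k hk3
    have h1 := hrep (3 * k) (3 * k + 1) (by omega) (by omega) (t k) (P k) (ht0 k) (ht1 k)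
    have h2 := hrep (3 * k + 1) (3 * k + 2) (by omega) (by omega) (t k) (Q k) (ht0 k) (ht1 k)
    have h3 := hP k hk3
    have h4 := hQ k hk3
    rw [mul_add]
    linarith
  have hper3 : ∑ n ∈ Finset.range (6 * M), G (c (θ (n + 1)) - c (θ n)) = S (6 * M) := by
    have h1 := Sa_shift (fun i => G (c (θ (i + 1)) - c (θ i))) (6 * M) (by
      intro i
      have e1 : i + ((6 * M : ℕ) : ℤ) = i + 6 * M := by push_cast; ring
      have e2 : i + ((6 * M : ℕ) : ℤ) + 1 = (i + 1) + 6 * M := by push_cast; ring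
      show G (c (θ (i + ((6 * M : ℕ) : ℤ) + 1)) - c (θ (i + ((6 * M : ℕ) : ℤ)))) = _
      rw [e2, e1, hper2, hper2, h.per, h.per]) a
    rw [← h1]
    apply Finset.sum_congr rfl
    intro n _
    show G (c (θ (a + n + 1)) - c (θ (a + n))) = G (c (θ (a + ((n + 1 : ℕ) : ℤ))) - c (θ (a + n)))
    congr 4
    push_cast
    ring
  rw [hper3]
  have hsum : ∑ k ∈ Finset.range 3, t k * (dt (P k) (c (α (3 * k + 1)) - c (α (3 * k))) +
      dt (Q k) (c (α (3 * k + 2)) - c (α (3 * k + 1)))) ≤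
      ∑ k ∈ Finset.range 3, ((S (N (3 * k + 2)) - S (N (3 * k))) + 4 * e * (‖P k‖ + ‖Q k‖)) :=
    Finset.sum_le_sum (fun k hk' => hk k (Finset.mem_range.1 hk'))
  refine hsum.trans ?_
  rw [Finset.sum_add_distrib, ← Finset.mul_sum, ← hB]
  have hbd : 4 * e * B ≤ ε := by
    have h1 : 4 * e * (1 + B) = ε := by
      rw [he]
      field_simp
    nlinarith
  have hS8 : ∑ k ∈ Finset.range 3, (S (N (3 * k + 2)) - S (N (3 * k))) ≤ S (6 * M) := by
    rw [Finset.sum_range_succ, Finset.sum_range_succ, Finset.sum_range_one]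
    have e1 : S (N (3 * 0)) = 0 := by
      show S (N 0) = 0
      rw [hN0]
      simp [hS]
    have e2 : S (N (3 * 0 + 2)) ≤ S (N (3 * 1)) := hSm (hNm (by norm_num))
    have e3 : S (N (3 * 1 + 2)) ≤ S (N (3 * 2)) := hSm (hNm (by norm_num))
    have e4 : S (N (3 * 2 + 2)) ≤ S (6 * M) := hSm hN8
    linarith
  linarith


end ZP
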