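import Pool.Agent.H73.ZP.TT

/-!
Theorem T (no six bad arcs) in the form used by the application.  `TT_gen` plus the perturbation.
-/

open Real

namespace ZP

theorem pert {P Q P' Q' y₁ y₂ y₃ z₁ z₂ z₃ : V} {δ R η : ℝ} (hR : 0 ≤ R)
    (hP : ‖P' - P‖ ≤ δ) (hQ : ‖Q' - Q‖ ≤ δ)
    (h1 : ‖y₁‖ ≤ R) (h2 : ‖y₂‖ ≤ R) (h3 : ‖y₃‖ ≤ R) (h4 : ‖z₁‖ ≤ R) (h5 : ‖z₂‖ ≤ R)
    (h6 : ‖z₃‖ ≤ R) (hδ : 16 * δ * R ≤ η / 2)
    (h : - dt P y₁ + dt (P - Q) y₂ + dt Q y₃ + η ≤ dt P (z₂ - z₁) + dt Q (z₃ - z₂)) :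
    - dt P' y₁ + dt (P' - Q') y₂ + dt Q' y₃ + η / 2 ≤ dt P' (z₂ - z₁) + dt Q' (z₃ - z₂) := by
  have key : ∀ (a b y : V), ‖b - a‖ ≤ δ → ‖y‖ ≤ R → |dt b y - dt a y| ≤ 2 * δ * R := by
    intro a b y hab hy
    rw [← sub_dt]
    refine (dt_le _ _).trans ?_
    have h0 : 0 ≤ ‖b - a‖ := norm_nonneg _
    have h0' : 0 ≤ ‖y‖ := norm_nonneg _
    have hδ0 : 0 ≤ δ := h0.trans hab
    nlinarith [mul_le_mul hab hy h0' hδ0]
  have a1 := abs_le.1 (key P P' y₁ hP h1)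
  have a2 := abs_le.1 (key P P' y₂ hP h2)
  have a3 := abs_le.1 (key Q Q' y₂ hQ h2)
  have a4 := abs_le.1 (key Q Q' y₃ hQ h3)
  have a5 := abs_le.1 (key P P' z₁ hP h4)
  have a6 := abs_le.1 (key P P' z₂ hP h5)
  have a7 := abs_le.1 (key Q Q' z₂ hQ h5)
  have a8 := abs_le.1 (key Q Q' z₃ hQ h6)
  simp only [dt_sub, sub_dt] at h ⊢
  linarith [a1.1, a1.2, a2.1, a2.2, a3.1, a3.2, a4.1, a4.2, a5.1, a5.2, a6.1, a6.2, a7.1, a7.2,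
    a8.1, a8.2]

theorem TTs {l lA lB : ℝ → V} (hl : Bd l) (hA : Bd lA) (hB : Bd lB)
    (hx : ∀ θ φ ψ, dt (uu θ) (lA φ - lB ψ) ≤ dt (uu θ) (qq l θ)) (bA : Bad3 l lA)
    (bB : Bad3 l lB) : False := by
  obtain ⟨α, PA, QA, ηA, hηA, hαm, hα8, hA'⟩ := bA
  obtain ⟨β, PB, QB, ηB, hηB, hβm, hβ8, hB'⟩ := bB
  obtain ⟨R₀, hR₀, hlR⟩ := bdd hl
  obtain ⟨R₁, hR₁, hAR⟩ := bdd hA
  obtain ⟨R₂, hR₂, hBR⟩ := bdd hB
  let R : ℝ := R₀ + R₁ + R₂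
  have hRpos : 0 < R := by show 0 < R₀ + R₁ + R₂; linarith
  have hlR' : ∀ θ, ‖l θ‖ ≤ R := fun θ => (hlR θ).trans (by show R₀ ≤ R₀ + R₁ + R₂; linarith)
  have hAR' : ∀ θ, ‖lA θ‖ ≤ R := fun θ => (hAR θ).trans (by show R₁ ≤ R₀ + R₁ + R₂; linarith)
  have hBR' : ∀ θ, ‖lB θ‖ ≤ R := fun θ => (hBR θ).trans (by show R₂ ≤ R₀ + R₁ + R₂; linarith)
  let P : Fin 6 → V := ![PA 0, PA 1, PA 2, -PB 0, -PB 1, -PB 2]
  let Q : Fin 6 → V := ![QA 0, QA 1, QA 2, -QB 0, -QB 1, -QB 2]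
  let L : Fin 6 → ℝ → V := ![l, l, l, ng l, ng l, ng l]
  let β' : ℕ → ℝ := fun j => β j - π
  have hβ'm : Monotone β' := fun i j hij => sub_le_sub_right (hβm hij) π
  have hβ'8 : β' 8 ≤ β' 0 + 2 * π := by show β 8 - π ≤ β 0 - π + 2 * π; linarith
  have hngB : ∀ j, ng lB (β' j) = - lB (β j) := by
    intro j
    show - lB (β j - π + π) = - lB (β j)
    rw [sub_add_cancel]
  have hηle : ∀ (η : ℝ), η = min ηA ηB → η ≤ ηA ∧ η ≤ ηB := by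
    intro η h; rw [h]; exact ⟨min_le_left _ _, min_le_right _ _⟩
  let η : ℝ := min ηA ηB
  have hη : 0 < η := lt_min hηA hηB
  have hηA' : η ≤ ηA := min_le_left _ _
  have hηB' : η ≤ ηB := min_le_right _ _
  -- first three players
  have F1 : ∀ k, k < 3 → 0 ≤ cr (PA k) (QA k) ∧
      ∀ ψ₁ ψ₂ ψ₃, - dt (PA k) (l ψ₁) + dt (PA k - QA k) (l ψ₂) + dt (QA k) (l ψ₃) + η ≤
        dt (PA k) (lA (α (3 * k + 1)) - lA (α (3 * k))) +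
        dt (QA k) (lA (α (3 * k + 2)) - lA (α (3 * k + 1))) := by
    intro k hk
    refine ⟨(hA' k hk).1, fun ψ₁ ψ₂ ψ₃ => ?_⟩
    have := (hA' k hk).2 ψ₁ ψ₂ ψ₃
    linarith
  have F2 : ∀ k, k < 3 → 0 ≤ cr (-PB k) (-QB k) ∧
      ∀ ψ₁ ψ₂ ψ₃, - dt (-PB k) (ng l ψ₁) + dt (-PB k - -QB k) (ng l ψ₂) +
        dt (-QB k) (ng l ψ₃) + η ≤
        dt (-PB k) (ng lB (β' (3 * k + 1)) - ng lB (β' (3 * k))) +
        dt (-QB k) (ng lB (β' (3 * k + 2)) - ng lB (β' (3 * k + 1))) := by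
    intro k hk
    refine ⟨?_, fun ψ₁ ψ₂ ψ₃ => ?_⟩
    · have := (hB' k hk).1
      have e : cr (-PB k) (-QB k) = cr (PB k) (QB k) := by
        simp only [cr, Prod.fst_neg, Prod.snd_neg]; ring
      rw [e]; exact this
    · have := (hB' k hk).2 (ψ₁ + π) (ψ₂ + π) (ψ₃ + π)
      rw [hngB, hngB, hngB]
      simp only [ng, dt_sub, sub_dt, dt_neg, neg_dt] at this ⊢
      linarith
  have hcr : ∀ i, 0 ≤ cr (P i) (Q i) := by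
    intro i
    fin_cases i
    · exact (F1 0 (by norm_num)).1
    · exact (F1 1 (by norm_num)).1
    · exact (F1 2 (by norm_num)).1
    · exact (F2 0 (by norm_num)).1
    · exact (F2 1 (by norm_num)).1
    · exact (F2 2 (by norm_num)).1
  have hne0 : ∀ (p q a b c d e f : V), - dt p a + dt (p - q) b + dt q c + η ≤
      dt p (d - e) + dt q (f - d) → p ≠ 0 ∨ q ≠ 0 := by
    intro p q a b c d e f h
    by_contra hc
    push Not at hc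
    rw [hc.1, hc.2] at h
    simp only [dt, Prod.fst_zero, Prod.snd_zero, sub_self, zero_mul, add_zero, neg_zero,
      zero_add] at h
    linarith
  have h0 : ∀ i, P i ≠ 0 ∨ Q i ≠ 0 := by
    intro i
    fin_cases i
    · exact hne0 _ _ _ _ _ _ _ _ ((F1 0 (by norm_num)).2 0 0 0)
    · exact hne0 _ _ _ _ _ _ _ _ ((F1 1 (by norm_num)).2 0 0 0)
    · exact hne0 _ _ _ _ _ _ _ _ ((F1 2 (by norm_num)).2 0 0 0)
    · exact hne0 _ _ _ _ _ _ _ _ ((F2 0 (by norm_num)).2 0 0 0)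
    · exact hne0 _ _ _ _ _ _ _ _ ((F2 1 (by norm_num)).2 0 0 0)
    · exact hne0 _ _ _ _ _ _ _ _ ((F2 2 (by norm_num)).2 0 0 0)
  have hδ : 0 < η / (32 * R) := by positivity
  have hδR : 16 * (η / (32 * R)) * R ≤ η / 2 := by
    have : 16 * (η / (32 * R)) * R = η / 2 := by field_simp; ring
    exact this.le
  obtain ⟨P', Q', hP', hQ', hcr', hgen⟩ := Ge P Q hcr h0 hδ
  have hL : ∀ i, L i = l ∨ L i = ng l := by
    intro i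
    fin_cases i
    · exact Or.inl rfl
    · exact Or.inl rfl
    · exact Or.inl rfl
    · exact Or.inr rfl
    · exact Or.inr rfl
    · exact Or.inr rfl
  have hnR : ∀ θ, ‖ng l θ‖ ≤ R := fun θ => by
    show ‖- l (θ + π)‖ ≤ R
    rw [norm_neg]; exact hlR' _
  have hnB : ∀ θ, ‖ng lB θ‖ ≤ R := fun θ => by
    show ‖- lB (θ + π)‖ ≤ R
    rw [norm_neg]; exact hBR' _
  refine TT_gen hl hL hA (neg hB) (c₂ := ng lB) (α := α) (β := β') (P := P') (Q := Q')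
    (η := η / 2) ?_ hαm hα8 hβ'm hβ'8 hcr' hgen (by linarith) ⟨?_, ?_⟩
  · intro θ φ ψ
    have := hx θ φ (ψ + π)
    have e : lA φ + ng lB ψ = lA φ - lB (ψ + π) := by
      show lA φ + - lB (ψ + π) = lA φ - lB (ψ + π)
      rw [sub_eq_add_neg]
    rw [e]; exact this
  · intro k hk ψ₁ ψ₂ ψ₃
    interval_cases k
    · exact pert hRpos.le (hP' 0) (hQ' 0) (hlR' _) (hlR' _) (hlR' _) (hAR' _) (hAR' _) (hAR' _)
        hδR ((F1 0 (by norm_num)).2 ψ₁ ψ₂ ψ₃)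
    · exact pert hRpos.le (hP' 1) (hQ' 1) (hlR' _) (hlR' _) (hlR' _) (hAR' _) (hAR' _) (hAR' _)
        hδR ((F1 1 (by norm_num)).2 ψ₁ ψ₂ ψ₃)
    · exact pert hRpos.le (hP' 2) (hQ' 2) (hlR' _) (hlR' _) (hlR' _) (hAR' _) (hAR' _) (hAR' _)
        hδR ((F1 2 (by norm_num)).2 ψ₁ ψ₂ ψ₃)
  · intro k hk ψ₁ ψ₂ ψ₃
    interval_cases k
    · exact pert hRpos.le (hP' 3) (hQ' 3) (hnR _) (hnR _) (hnR _) (hnB _) (hnB _) (hnB _)
        hδR ((F2 0 (by norm_num)).2 ψ₁ ψ₂ ψ₃)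
    · exact pert hRpos.le (hP' 4) (hQ' 4) (hnR _) (hnR _) (hnR _) (hnB _) (hnB _) (hnB _)
        hδR ((F2 1 (by norm_num)).2 ψ₁ ψ₂ ψ₃)
    · exact pert hRpos.le (hP' 5) (hQ' 5) (hnR _) (hnR _) (hnR _) (hnB _) (hnB _) (hnB _)
        hδR ((F2 2 (by norm_num)).2 ψ₁ ψ₂ ψ₃)

end ZP
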